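import Pool.Agent.H12.BallDefs

namespace Pool.Agent.H12.Ball

open Finset

variable {V : Type*}

section Boundary

variable [Fintype V] [LinearOrder V] {𝕜 : Type*} [Field 𝕜]

/-- The sign of `v` relative to `τ`. -/
def eps (𝕜 : Type*) [Field 𝕜] (v : V) (τ : Finset V) : 𝕜 :=
  (-1) ^ (τ.filter (fun w => w < v)).card

theorem eps_mul_self (v : V) (τ : Finset V) : eps 𝕜 v τ * eps 𝕜 v τ = 1 := by
  unfold eps
  rw [← pow_add, ← two_mul, pow_mul]
  simp

theorem boundary_eq (c : Finset V → 𝕜) (τ : Finset V) :
    boundary c τ = ∑ v ∈ Finset.univ.filter (fun v => v ∉ τ), eps 𝕜 v τ * c (insert v τ) := rfl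

theorem eps_insert_lt {v w : V} {ρ : Finset V} (hv : v ∉ ρ) (h : v < w) :
    eps 𝕜 w (insert v ρ) = - eps 𝕜 w ρ := by
  unfold eps
  have : (insert v ρ).filter (fun u => u < w) = insert v (ρ.filter (fun u => u < w)) := by
    rw [Finset.filter_insert, if_pos h]
  rw [this, Finset.card_insert_of_notMem (by simp [hv]), pow_succ]
  ring

theorem eps_insert_gt {v w : V} {ρ : Finset V} (h : w < v) :
    eps 𝕜 w (insert v ρ) = eps 𝕜 w ρ := by
  unfold eps
  have : (insert v ρ).filter (fun u => u < w) = ρ.filter (fun u => u < w) := by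
    rw [Finset.filter_insert, if_neg (not_lt.2 h.le)]
  rw [this]

theorem eps_swap {v w : V} {ρ : Finset V} (hv : v ∉ ρ) (hw : w ∉ ρ) (h : v ≠ w) :
    eps 𝕜 v ρ * eps 𝕜 w (insert v ρ) = - (eps 𝕜 w ρ * eps 𝕜 v (insert w ρ)) := by
  rcases lt_or_gt_of_ne h with h1 | h1
  · rw [eps_insert_lt hv h1, eps_insert_gt h1]
    ring
  · rw [eps_insert_lt hw h1, eps_insert_gt h1]
    ring

theorem boundary_boundary (c : Finset V → 𝕜) (ρ : Finset V) :
    boundary (boundary c) ρ = 0 := by
  rw [boundary_eq]
  simp only [boundary_eq, Finset.mul_sum]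
  rw [Finset.sum_sigma']
  refine Finset.sum_involution (fun p _ => ⟨p.2, p.1⟩) ?_ ?_ ?_ ?_
  · rintro ⟨v, w⟩ hp
    simp only [Finset.mem_sigma, Finset.mem_filter, Finset.mem_univ, true_and,
      Finset.mem_insert, not_or] at hp
    obtain ⟨hv, hwv, hw⟩ := hp
    simp only
    rw [Finset.insert_comm v w ρ, ← mul_assoc, ← mul_assoc, eps_swap hv hw (Ne.symm hwv)]
    ring
  · rintro ⟨v, w⟩ hp _
    simp only [Finset.mem_sigma, Finset.mem_filter, Finset.mem_univ, true_and,
      Finset.mem_insert, not_or] at hp
    obtain ⟨hv, hwv, hw⟩ := hp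
    intro h
    simp only [Sigma.mk.injEq, heq_eq_eq] at h
    exact hwv h.1
  · rintro ⟨v, w⟩ hp
    simp only [Finset.mem_sigma, Finset.mem_filter, Finset.mem_univ, true_and,
      Finset.mem_insert, not_or] at hp ⊢
    obtain ⟨hv, hwv, hw⟩ := hp
    exact ⟨hw, Ne.symm hwv, hv⟩
  · rintro ⟨v, w⟩ hp
    rfl

theorem boundary_sub (c d : Finset V → 𝕜) (τ : Finset V) :
    boundary (fun σ => c σ - d σ) τ = boundary c τ - boundary d τ := by
  simp only [boundary_eq, mul_sub, Finset.sum_sub_distrib]

theorem boundary_add (c d : Finset V → 𝕜) (τ : Finset V) :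
    boundary (fun σ => c σ + d σ) τ = boundary c τ + boundary d τ := by
  simp only [boundary_eq, mul_add, Finset.sum_add_distrib]

end Boundary

/-- Closed under taking subsets. -/
def Down (Δ : Set (Finset V)) : Prop := ∀ σ ∈ Δ, ∀ τ, τ ⊆ σ → τ ∈ Δ

/-- The family `Δ` can be emptied by elementary collapses (including the empty face). -/
inductive Void [DecidableEq V] : Set (Finset V) → Prop
  | empty : Void ∅
  | step (Δ : Set (Finset V)) (σ : Finset V) (v : V) (hv : v ∉ σ)
      (h : ∀ τ ∈ Δ, ¬ σ ⊆ τ) (hΔ : Void Δ) : Void (insert σ (insert (insert v σ) Δ))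

theorem Void.acyclic [Fintype V] [LinearOrder V] {𝕜 : Type*} [Field 𝕜] {Δ : Set (Finset V)}
    (h : Void Δ) : Down Δ → Acyclic 𝕜 Δ := by
  induction h with
  | empty =>
    intro _ i c hc _
    refine ⟨fun _ => 0, fun σ h => (h rfl).elim, fun τ => ?_⟩
    have : c τ = 0 := by
      by_contra hne
      exact (hc τ hne).1
    rw [this, boundary_eq]
    simp
  | step Δ σ v hv hfree hΔ ih =>
    intro hdown i c hc hcyc
    have hdown' : Down Δ := by
      intro τ hτ ρ hρ
      have h1 := hdown τ (by simp [hτ]) ρ hρ
      rcases h1 with h1 | h1 | h1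
      · exact absurd (h1 ▸ hρ) (hfree τ hτ)
      · exact absurd ((Finset.subset_insert v σ).trans (h1 ▸ hρ)) (hfree τ hτ)
      · exact h1
    -- `c` vanishes on `insert v σ`
    have hcv : c (insert v σ) = 0 := by
      have h1 := hcyc σ
      rw [boundary_eq, Finset.sum_eq_single v] at h1
      · rcases mul_eq_zero.1 h1 with h2 | h2
        · exfalso
          have := eps_mul_self (𝕜 := 𝕜) v σ
          rw [h2] at this
          simp at this
        · exact h2
      · intro w hw hwv
        rw [Finset.mem_filter] at hw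
        have : c (insert w σ) = 0 := by
          by_contra hne
          rcases (hc _ hne).1 with h3 | h3 | h3
          · exact hw.2 (h3 ▸ Finset.mem_insert_self w σ)
          · have : w ∈ insert v σ := h3 ▸ Finset.mem_insert_self w σ
            rcases Finset.mem_insert.1 this with h4 | h4
            · exact hwv h4
            · exact hw.2 h4
          · exact hfree _ h3 (Finset.subset_insert w σ)
        rw [this, mul_zero]
      · intro hw
        exact absurd (Finset.mem_filter.2 ⟨Finset.mem_univ v, hv⟩) hw
    -- the correcting chain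
    set b' : Finset V → 𝕜 := fun τ => if τ = insert v σ then eps 𝕜 v σ * c σ else 0 with hb'
    have hb'chain : IsChain (insert σ (insert (insert v σ) Δ)) (i + 1) b' := by
      intro τ hτ
      rw [hb'] at hτ
      simp only [ne_eq, ite_eq_right_iff, Classical.not_imp] at hτ
      obtain ⟨rfl, h2⟩ := hτ
      refine ⟨by simp, ?_⟩
      have : c σ ≠ 0 := fun h => h2 (by rw [h, mul_zero])
      rw [Finset.card_insert_of_notMem hv, (hc σ this).2]
    have hb'σ : boundary b' σ = c σ := by
      rw [boundary_eq, Finset.sum_eq_single v]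
      · simp only [hb', if_true]
        rw [← mul_assoc, eps_mul_self, one_mul]
      · intro w hw hwv
        rw [Finset.mem_filter] at hw
        have : insert w σ ≠ insert v σ := by
          intro h3
          have : w ∈ insert v σ := h3 ▸ Finset.mem_insert_self w σ
          rcases Finset.mem_insert.1 this with h4 | h4
          · exact hwv h4
          · exact hw.2 h4
        simp [hb', this]
      · intro hw
        exact absurd (Finset.mem_filter.2 ⟨Finset.mem_univ v, hv⟩) hw
    have hb'supp : ∀ τ, boundary b' τ ≠ 0 → τ ⊆ insert v σ ∧ τ ≠ insert v σ ∧ c σ ≠ 0 ∧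
        τ.card = σ.card := by
      intro τ hτ
      rw [boundary_eq] at hτ
      obtain ⟨w, hw, hw2⟩ := Finset.exists_ne_zero_of_sum_ne_zero hτ
      rw [Finset.mem_filter] at hw
      have h3 : b' (insert w τ) ≠ 0 := fun h => hw2 (by rw [h, mul_zero])
      simp only [hb', ne_eq, ite_eq_right_iff, Classical.not_imp] at h3
      refine ⟨h3.1 ▸ Finset.subset_insert w τ, ?_, fun h => h3.2 (by rw [h, mul_zero]), ?_⟩
      · intro h4
        have : w ∈ τ := by
          rw [h4, ← h3.1]
          exact Finset.mem_insert_self w τ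
        exact hw.2 this
      · have := congrArg Finset.card h3.1
        rw [Finset.card_insert_of_notMem hw.2, Finset.card_insert_of_notMem hv] at this
        omega
    -- the reduced cycle
    have hc' : IsChain Δ i (fun τ => c τ - boundary b' τ) := by
      intro τ hτ
      simp only at hτ
      have hcard : τ.card = i := by
        by_cases h1 : c τ = 0
        · have h2 : boundary b' τ ≠ 0 := fun h => hτ (by rw [h, h1, sub_zero])
          obtain ⟨_, _, h5, h6⟩ := hb'supp τ h2
          rw [h6]
          exact (hc σ h5).2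
        · exact (hc τ h1).2
      refine ⟨?_, hcard⟩
      have hmem : τ ∈ insert σ (insert (insert v σ) Δ) := by
        by_cases h1 : c τ = 0
        · have h2 : boundary b' τ ≠ 0 := fun h => hτ (by rw [h, h1, sub_zero])
          exact hdown (insert v σ) (by simp) τ (hb'supp τ h2).1
        · exact (hc τ h1).1
      rcases hmem with h1 | h1 | h1
      · exfalso
        apply hτ
        rw [h1, hb'σ, sub_self]
      · exfalso
        apply hτ
        rw [h1, hcv, zero_sub, neg_eq_zero]
        by_contra h2
        exact (hb'supp _ h2).2.1 rfl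
      · exact h1
    obtain ⟨b, hb, hbc⟩ := ih hdown' i _ hc' (fun τ => by
      rw [boundary_sub, hcyc, boundary_boundary, sub_zero])
    refine ⟨fun τ => b τ + b' τ, ?_, fun τ => ?_⟩
    · intro τ hτ
      by_cases h1 : b τ = 0
      · apply hb'chain
        intro h2
        apply hτ
        simp only [h1, h2, add_zero]
      · obtain ⟨h2, h3⟩ := hb τ h1
        exact ⟨by simp [h2], h3⟩
    · rw [boundary_add, hbc]
      ring

end Pool.Agent.H12.Ball
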