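import Pool.Agent.H12.BallMask

namespace Pool.Agent.H12.Ball

open Finset

/-- Complex number 0 of the reduction (facets as masks). -/
def L0 : List ℕ := [23, 45, 53, 57, 83, 86, 116, 172, 204, 228, 240, 263, 269, 270, 281, 298, 312, 337, 387, 449, 464]

/-- Complex number 1 of the reduction (facets as masks). -/
def L1 : List ℕ := [23, 29, 60, 83, 86, 116, 172, 204, 228, 240, 263, 269, 270, 281, 298, 312, 337, 387, 449, 464]

/-- Complex number 2 of the reduction (facets as masks). -/
def L2 : List ℕ := [23, 60, 83, 86, 116, 172, 204, 228, 240, 263, 270, 277, 284, 298, 312, 337, 387, 449, 464]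

/-- Complex number 3 of the reduction (facets as masks). -/
def L3 : List ℕ := [60, 83, 86, 116, 172, 204, 228, 240, 270, 275, 278, 284, 298, 312, 337, 387, 449, 464]

/-- Complex number 4 of the reduction (facets as masks). -/
def L4 : List ℕ := [60, 86, 116, 172, 204, 228, 240, 270, 278, 284, 298, 312, 323, 338, 387, 449, 464]

/-- Complex number 5 of the reduction (facets as masks). -/
def L5 : List ℕ := [60, 86, 116, 172, 204, 228, 240, 270, 278, 284, 298, 312, 338, 450, 464]

/-- Complex number 6 of the reduction (facets as masks). -/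
def L6 : List ℕ := [60, 116, 172, 204, 228, 240, 270, 284, 298, 312, 326, 340, 450, 464]

/-- Complex number 7 of the reduction (facets as masks). -/
def L7 : List ℕ := [60, 108, 116, 232, 240, 270, 284, 298, 312, 326, 340, 450, 464]

/-- Complex number 8 of the reduction (facets as masks). -/
def L8 : List ℕ := [60, 172, 180, 270, 284, 298, 312, 390, 404]

/-- Complex number 9 of the reduction (facets as masks). -/
def L9 : List ℕ := [156, 184, 270, 284, 298, 312, 390, 404]

/-- Complex number 10 of the reduction (facets as masks). -/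
def L10 : List ℕ := [180, 294, 308, 390, 404]

/-- Complex number 11 of the reduction (facets as masks). -/
def L11 : List ℕ := [54, 150, 180]

/-- Complex number 12 of the reduction (facets as masks). -/
def L12 : List ℕ := [178]

theorem chk0 : Chk L0 L1 33 28 := by decide

theorem chk1 : Chk L1 L2 9 276 := by decide

theorem chk2 : Chk L2 L3 5 274 := by decide

theorem chk3 : Chk L3 L4 17 322 := by decide

theorem chk4 : Chk L4 L5 1 194 := by decide

theorem chk5 : Chk L5 L6 18 324 := by decide

theorem chk6 : Chk L6 L7 132 104 := by decide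

theorem chk7 : Chk L7 L8 64 132 := by decide

theorem chk8 : Chk L8 L9 36 152 := by decide

theorem chk9 : Chk L9 L10 8 36 := by decide

theorem chk10 : Chk L10 L11 256 18 := by decide

theorem chk11 : Chk L11 L12 4 162 := by decide

theorem chain_base : Relation.ReflTransGen Ex (cx L0) (cx L12) := by
  refine Relation.ReflTransGen.refl.tail ⟨_, _, exchange_of_chk chk0⟩ |>.tail ⟨_, _, exchange_of_chk chk1⟩ |>.tail
    ⟨_, _, exchange_of_chk chk2⟩ |>.tail
    ⟨_, _, exchange_of_chk chk3⟩ |>.tail
    ⟨_, _, exchange_of_chk chk4⟩ |>.tail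
    ⟨_, _, exchange_of_chk chk5⟩ |>.tail
    ⟨_, _, exchange_of_chk chk6⟩ |>.tail
    ⟨_, _, exchange_of_chk chk7⟩ |>.tail
    ⟨_, _, exchange_of_chk chk8⟩ |>.tail
    ⟨_, _, exchange_of_chk chk9⟩ |>.tail
    ⟨_, _, exchange_of_chk chk10⟩ |>.tail
    ⟨_, _, exchange_of_chk chk11⟩

/-- Collapses of the link of the face with mask 0. -/
def C0 : List (ℕ × Fin 9) :=
  [(168, 2), (44, 0), (67, 4), (14, 8), (266, 5), (140, 6), (386, 0), (259, 2), (81, 8),
  (321, 7), (13, 8), (304, 3), (37, 4), (70, 4), (196, 5), (19, 2), (273, 3), (56, 0),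
  (100, 4), (400, 6), (208, 5), (136, 6), (130, 0), (66, 4), (10, 5), (65, 7), (18, 2),
  (144, 5), (129, 8), (3, 2), (34, 8), (6, 8), (72, 2), (288, 3), (12, 8), (68, 4),
  (40, 0), (132, 5), (36, 4), (20, 0), (33, 4), (17, 3), (5, 8), (384, 6), (320, 4),
  (9, 8), (272, 3), (160, 6), (96, 4), (128, 6), (1, 8), (4, 8), (2, 8), (64, 4), (256, 3),
  (32, 4), (16, 3), (0, 3)]

theorem v0 : vchk C0 = true := by decide +kernel

theorem l0 : lchk L0 0 C0 = true := by decide +kernel

/-- Collapses of the link of the face with mask 1. -/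
def C1 : List (ℕ × Fin 9) :=
  [(66, 4), (18, 2), (130, 8), (384, 6), (320, 4), (20, 5), (272, 3), (264, 2), (12, 5),
  (40, 4), (6, 8), (8, 4), (128, 6), (64, 4), (16, 5), (2, 8), (32, 2), (4, 8), (0, 8)]

theorem v1 : vchk C1 = true := by decide +kernel

theorem l1 : lchk L0 1 C1 = true := by decide +kernel

/-- Collapses of the link of the face with mask 2. -/
def C2 : List (ℕ × Fin 9) :=
  [(40, 8), (264, 2), (68, 4), (384, 0), (65, 4), (17, 2), (5, 8), (64, 4), (16, 2),
  (32, 8), (8, 2), (4, 8), (128, 0), (1, 8), (0, 8)]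

theorem v2 : vchk C2 = true := by decide +kernel

theorem l2 : lchk L0 2 C2 = true := by decide +kernel

/-- Collapses of the link of the face with mask 4. -/
def C4 : List (ℕ × Fin 9) :=
  [(10, 8), (258, 0), (257, 3), (66, 4), (9, 5), (40, 7), (136, 6), (3, 4), (17, 5),
  (80, 5), (96, 7), (256, 3), (2, 4), (1, 5), (16, 5), (8, 6), (64, 7), (32, 7), (0, 7)]

theorem v4 : vchk C4 = true := by decide +kernel

theorem l4 : lchk L0 4 C4 = true := by decide +kernel

/-- Collapses of the link of the face with mask 8. -/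
def C8 : List (ℕ × Fin 9) :=
  [(192, 2), (132, 5), (6, 8), (34, 8), (260, 0), (288, 4), (272, 0), (48, 0), (36, 0),
  (128, 5), (2, 8), (256, 0), (32, 0), (16, 0), (1, 2), (64, 2), (0, 2)]

theorem v8 : vchk C8 = true := by decide +kernel

theorem l8 : lchk L0 8 C8 = true := by decide +kernel

/-- Collapses of the link of the face with mask 16. -/
def C16 : List (ℕ × Fin 9) :=
  [(288, 3), (40, 0), (264, 0), (384, 6), (320, 0), (33, 2), (36, 6), (160, 6), (5, 1),
  (65, 1), (66, 2), (8, 0), (256, 0), (1, 1), (128, 6), (32, 6), (64, 2), (2, 2), (0, 2)]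

theorem v16 : vchk C16 = true := by decide +kernel

theorem l16 : lchk L0 16 C16 = true := by decide +kernel

/-- Collapses of the link of the face with mask 32. -/
def C32 : List (ℕ × Fin 9) :=
  [(258, 3), (144, 6), (264, 4), (24, 0), (9, 2), (80, 2), (192, 2), (136, 2), (20, 0),
  (2, 3), (64, 2), (256, 4), (128, 2), (16, 0), (8, 2), (4, 0), (0, 0)]

theorem v32 : vchk C32 = true := by decide +kernel

theorem l32 : lchk L0 32 C32 = true := by decide +kernel

/-- Collapses of the link of the face with mask 64. -/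
def C64 : List (ℕ × Fin 9) :=
  [(136, 2), (6, 4), (18, 0), (20, 5), (48, 7), (17, 8), (144, 8), (257, 7), (132, 5),
  (8, 2), (4, 5), (2, 0), (1, 7), (32, 7), (16, 8), (128, 8), (0, 8)]

theorem v64 : vchk C64 = true := by decide +kernel

theorem l64 : lchk L0 64 C64 = true := by decide +kernel

/-- Collapses of the link of the face with mask 128. -/
def C128 : List (ℕ × Fin 9) :=
  [(72, 2), (48, 6), (40, 2), (65, 8), (80, 8), (258, 0), (68, 5), (2, 0), (16, 8), (8, 2),
  (4, 5), (32, 6), (64, 8), (1, 8), (0, 8)]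

theorem v128 : vchk C128 = true := by decide +kernel

theorem l128 : lchk L0 128 C128 = true := by decide +kernel

/-- Collapses of the link of the face with mask 256. -/
def C256 : List (ℕ × Fin 9) :=
  [(48, 3), (40, 1), (24, 0), (130, 0), (129, 6), (3, 2), (9, 2), (10, 2), (192, 4),
  (65, 4), (8, 2), (64, 4), (128, 4), (32, 1), (2, 2), (16, 0), (1, 2), (0, 2)]

theorem v256 : vchk C256 = true := by decide +kernel

theorem l256 : lchk L0 256 C256 = true := by decide +kernel

end Pool.Agent.H12.Ball
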