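import Pool.Agent.H12.BallGood

set_option linter.unusedSectionVars false

namespace Pool.Agent.H12.Ball

open Finset

theorem body_homeo {N : Type*} [Fintype N] {d : ℕ} (hd : Fintype.card N = d) (T : Set (N → ℝ))
    (hconv : Convex ℝ T) (hcomp : IsCompact T) (hint : (interior T).Nonempty) :
    Nonempty (T ≃ₜ Metric.closedBall (0 : EuclideanSpace ℝ (Fin d)) 1) := by
  classical
  let e : N ≃ Fin d := Fintype.equivFinOfCardEq hd
  let L : (N → ℝ) ≃L[ℝ] EuclideanSpace ℝ (Fin d) :=
    ((LinearEquiv.funCongrLeft ℝ ℝ e.symm).toContinuousLinearEquiv).trans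
      (EuclideanSpace.equiv (Fin d) ℝ).symm
  have h1 : Convex ℝ (L '' T) := hconv.linear_image L.toLinearMap
  have h2 : IsCompact (L '' T) := hcomp.image L.continuous
  have h3 : (interior (L '' T)).Nonempty := by
    have := L.toHomeomorph.image_interior T
    rw [show (L '' T) = L.toHomeomorph '' T from rfl, ← this]
    exact hint.image _
  obtain ⟨h, _, hh, _⟩ := exists_homeomorph_image_interior_closure_frontier_eq_unitBall h1 h3
    h2.isBounded
  rw [h2.isClosed.closure_eq] at hh
  refine ⟨(L.toHomeomorph.image T).trans ?_⟩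
  refine ((h.image (L '' T)).trans (Homeomorph.setCongr hh))

variable {I C : Type*} [Fintype I] [Fintype C] [DecidableEq I] [DecidableEq C]

/-- The convex body. -/
def body (I G : Type*) [Fintype I] [Fintype G] : Set (I ⊕ G → ℝ) :=
  {u | (∀ g, 0 ≤ u (Sum.inr g)) ∧ ∑ i, |u (Sum.inl i)| + ∑ g, u (Sum.inr g) ≤ 1}

theorem body_convex (I G : Type*) [Fintype I] [Fintype G] : Convex ℝ (body I G) := by
  rintro x ⟨hx1, hx2⟩ y ⟨hy1, hy2⟩ a b ha hb hab
  refine ⟨fun g => ?_, ?_⟩
  · simp only [Pi.add_apply, Pi.smul_apply, smul_eq_mul]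
    have := mul_nonneg ha (hx1 g)
    have := mul_nonneg hb (hy1 g)
    linarith
  · simp only [Pi.add_apply, Pi.smul_apply, smul_eq_mul]
    have h1 : ∑ i, |a * x (Sum.inl i) + b * y (Sum.inl i)| ≤
        a * ∑ i, |x (Sum.inl i)| + b * ∑ i, |y (Sum.inl i)| := by
      rw [Finset.mul_sum, Finset.mul_sum, ← Finset.sum_add_distrib]
      apply Finset.sum_le_sum
      intro i _
      calc |a * x (Sum.inl i) + b * y (Sum.inl i)|
          ≤ |a * x (Sum.inl i)| + |b * y (Sum.inl i)| := abs_add_le _ _
        _ = a * |x (Sum.inl i)| + b * |y (Sum.inl i)| := by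
          rw [abs_mul, abs_mul, abs_of_nonneg ha, abs_of_nonneg hb]
    rw [Finset.sum_add_distrib, ← Finset.mul_sum, ← Finset.mul_sum]
    have h3 := mul_le_mul_of_nonneg_left hx2 ha
    have h4 := mul_le_mul_of_nonneg_left hy2 hb
    nlinarith

theorem body_closed (I G : Type*) [Fintype I] [Fintype G] : IsClosed (body I G) := by
  have h1 : IsClosed {u : I ⊕ G → ℝ | ∀ g, 0 ≤ u (Sum.inr g)} := by
    simp only [Set.setOf_forall]
    exact isClosed_iInter fun g => isClosed_le continuous_const (continuous_apply _)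
  have h2 : IsClosed {u : I ⊕ G → ℝ | ∑ i, |u (Sum.inl i)| + ∑ g, u (Sum.inr g) ≤ 1} := by
    apply isClosed_le _ continuous_const
    exact (continuous_finset_sum _ fun i _ => continuous_abs.comp (continuous_apply (Sum.inl i))).add
      (continuous_finset_sum _ fun g _ => continuous_apply _)
  exact h1.inter h2

theorem body_compact (I G : Type*) [Fintype I] [Fintype G] : IsCompact (body I G) := by
  apply IsCompact.of_isClosed_subset (isCompact_univ_pi (fun _ : I ⊕ G => isCompact_Icc (a := (-1 : ℝ))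
    (b := 1))) (body_closed I G)
  rintro u ⟨hu1, hu2⟩ k _
  have hs1 : 0 ≤ ∑ i, |u (Sum.inl i)| := Finset.sum_nonneg fun i _ => abs_nonneg _
  have hs2 : 0 ≤ ∑ g, u (Sum.inr g) := Finset.sum_nonneg fun g _ => hu1 g
  rw [Set.mem_Icc, ← abs_le]
  rcases k with i | g
  · have : |u (Sum.inl i)| ≤ ∑ i, |u (Sum.inl i)| :=
      Finset.single_le_sum (f := fun i => |u (Sum.inl i)|) (fun i _ => abs_nonneg _)
        (Finset.mem_univ i)
    linarith
  · have : u (Sum.inr g) ≤ ∑ g, u (Sum.inr g) :=
      Finset.single_le_sum (f := fun g => u (Sum.inr g)) (fun g _ => hu1 g)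
        (Finset.mem_univ g)
    rw [abs_of_nonneg (hu1 g)]
    linarith

theorem body_interior (I G : Type*) [Fintype I] [Fintype G] :
    (interior (body I G)).Nonempty := by
  have hopen : IsOpen {u : I ⊕ G → ℝ | (∀ g, 0 < u (Sum.inr g)) ∧
      ∑ i, |u (Sum.inl i)| + ∑ g, u (Sum.inr g) < 1} := by
    have h1 : IsOpen {u : I ⊕ G → ℝ | ∀ g, 0 < u (Sum.inr g)} := by
      simp only [Set.setOf_forall]
      exact isOpen_iInter_of_finite fun g => isOpen_lt continuous_const (continuous_apply _)
    have h2 : IsOpen {u : I ⊕ G → ℝ | ∑ i, |u (Sum.inl i)| + ∑ g, u (Sum.inr g) < 1} := by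
      apply isOpen_lt _ continuous_const
      exact (continuous_finset_sum _ fun i _ => continuous_abs.comp (continuous_apply (Sum.inl i))).add
        (continuous_finset_sum _ fun g _ => continuous_apply _)
    exact h1.inter h2
  have hsub : {u : I ⊕ G → ℝ | (∀ g, 0 < u (Sum.inr g)) ∧
      ∑ i, |u (Sum.inl i)| + ∑ g, u (Sum.inr g) < 1} ⊆ body I G := by
    rintro u ⟨h1, h2⟩
    exact ⟨fun g => (h1 g).le, h2.le⟩
  have hmem : (fun k => Sum.elim (fun _ : I => (0 : ℝ))
      (fun _ : G => 1 / ((Fintype.card G : ℝ) + 1)) k) ∈ {u : I ⊕ G → ℝ |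
      (∀ g, 0 < u (Sum.inr g)) ∧ ∑ i, |u (Sum.inl i)| + ∑ g, u (Sum.inr g) < 1} := by
    have hpos : (0 : ℝ) < (Fintype.card G : ℝ) + 1 := by positivity
    refine ⟨fun g => ?_, ?_⟩
    · simp only [Sum.elim_inr]
      positivity
    · simp only [Sum.elim_inl, Sum.elim_inr, abs_zero, Finset.sum_const_zero, zero_add,
        Finset.sum_const, Finset.card_univ, nsmul_eq_mul]
      rw [mul_one_div, div_lt_one hpos]
      linarith
  exact ⟨_, interior_maximal hsub hopen hmem⟩

/-- The simplex on the vertex set `F`. -/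
def simplex (F : Finset C) : Set (Finset C) := {σ | σ ⊆ F}

/-- The forward map. -/
def fwd {F : Finset C} {v0 : C} (x : (I × Bool) ⊕ C → ℝ) : I ⊕ (F.erase v0 : Finset C) → ℝ
  | Sum.inl i => x (Sum.inl (i, true)) - x (Sum.inl (i, false))
  | Sum.inr g => x (Sum.inr g.1)

/-- The backward map. -/
noncomputable def bwd {F : Finset C} {v0 : C} (u : I ⊕ (F.erase v0 : Finset C) → ℝ) :
    (I × Bool) ⊕ C → ℝ
  | Sum.inl (i, true) => max (u (Sum.inl i)) 0
  | Sum.inl (i, false) => max (- u (Sum.inl i)) 0
  | Sum.inr v => if h : v ∈ F.erase v0 then u (Sum.inr ⟨v, h⟩) else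
      if v = v0 then 1 - ∑ i, |u (Sum.inl i)| - ∑ g, u (Sum.inr g) else 0

theorem continuous_fwd {F : Finset C} {v0 : C} :
    Continuous (fwd : ((I × Bool) ⊕ C → ℝ) → (I ⊕ (F.erase v0 : Finset C) → ℝ)) := by
  refine continuous_pi fun k => ?_
  rcases k with i | g
  · exact (continuous_apply _).sub (continuous_apply _)
  · exact continuous_apply _

theorem continuous_bwd {F : Finset C} {v0 : C} :
    Continuous (bwd : (I ⊕ (F.erase v0 : Finset C) → ℝ) → ((I × Bool) ⊕ C → ℝ)) := by
  refine continuous_pi fun k => ?_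
  rcases k with ⟨i, c⟩ | v
  · cases c
    · exact (continuous_apply _).neg.max continuous_const
    · exact (continuous_apply _).max continuous_const
  · show Continuous fun u : I ⊕ (F.erase v0 : Finset C) → ℝ => (if h : v ∈ F.erase v0 then
      u (Sum.inr ⟨v, h⟩) else
      if v = v0 then 1 - ∑ i, |u (Sum.inl i)| - ∑ g, u (Sum.inr g) else 0)
    split_ifs with h1 h2
    · exact continuous_apply _
    · exact (continuous_const.sub (continuous_finset_sum _ fun i _ => continuous_abs.comp (continuous_apply (Sum.inl i)))).sub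
        (continuous_finset_sum _ fun g _ => continuous_apply _)
    · exact continuous_const

theorem max_sub_max (t : ℝ) : max t 0 - max (-t) 0 = t := by
  rcases le_total 0 t with h | h
  · rw [max_eq_left h, max_eq_right (by linarith)]; ring
  · rw [max_eq_right h, max_eq_left (by linarith)]; ring

theorem max_add_max (t : ℝ) : max t 0 + max (-t) 0 = |t| := by
  rcases le_total 0 t with h | h
  · rw [max_eq_left h, max_eq_right (by linarith), abs_of_nonneg h]; ring
  · rw [max_eq_right h, max_eq_left (by linarith), abs_of_nonpos h]; ring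

theorem real_facts {F : Finset C} {x : (I × Bool) ⊕ C → ℝ}
    (hx : x ∈ realization (join (cross (Finset.univ : Finset I)) (simplex F))) :
    (∀ k, 0 ≤ x k) ∧ (∀ i, x (Sum.inl (i, true)) = 0 ∨ x (Sum.inl (i, false)) = 0) ∧
    (∀ v, v ∉ F → x (Sum.inr v) = 0) ∧
    ∑ i, (x (Sum.inl (i, true)) + x (Sum.inl (i, false))) + ∑ v, x (Sum.inr v) = 1 := by
  obtain ⟨h0, h1, h2, h3⟩ := hx
  refine ⟨h0, fun i => ?_, fun v hv => ?_, ?_⟩
  · by_contra hne
    push Not at hne
    have ha : (i, true) ∈ (Finset.univ.filter fun v => x v ≠ 0).toLeft := by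
      simp [hne.1]
    have hb := (h2 _ ha).2
    apply hb
    simp [hne.2]
  · by_contra hne
    apply hv
    apply h3
    simp [hne]
  · rw [← h1, Fintype.sum_sum_type, Fintype.sum_prod_type]
    simp

theorem sum_split {F : Finset C} {v0 : C} (hv0 : v0 ∈ F) (y : C → ℝ) (hy : ∀ v, v ∉ F → y v = 0) :
    ∑ v, y v = y v0 + ∑ g : (F.erase v0 : Finset C), y g.1 := by
  rw [← Finset.sum_subset (Finset.subset_univ F) (fun v _ hv => hy v hv),
    ← Finset.add_sum_erase F y hv0]
  congr 1
  exact (Finset.sum_coe_sort (F.erase v0) y).symm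

theorem abs_sub_eq {a b : ℝ} (ha : 0 ≤ a) (hb : 0 ≤ b) (h : a = 0 ∨ b = 0) : |a - b| = a + b := by
  rcases h with h | h
  · rw [h, zero_sub, abs_neg, abs_of_nonneg hb]; ring
  · rw [h, sub_zero, abs_of_nonneg ha]; ring

theorem fwd_mem {F : Finset C} {v0 : C} (hv0 : v0 ∈ F) {x : (I × Bool) ⊕ C → ℝ}
    (hx : x ∈ realization (join (cross (Finset.univ : Finset I)) (simplex F))) :
    (fwd x : I ⊕ (F.erase v0 : Finset C) → ℝ) ∈ body I (F.erase v0 : Finset C) := by
  obtain ⟨h0, h1, h2, h3⟩ := real_facts hx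
  refine ⟨fun g => h0 _, ?_⟩
  have : ∀ i, |(fwd x : I ⊕ (F.erase v0 : Finset C) → ℝ) (Sum.inl i)| =
      x (Sum.inl (i, true)) + x (Sum.inl (i, false)) := fun i =>
    abs_sub_eq (h0 _) (h0 _) (h1 i)
  rw [Finset.sum_congr rfl fun i _ => this i]
  rw [sum_split hv0 (fun v => x (Sum.inr v)) h2] at h3
  have h4 := h0 (Sum.inr v0)
  have h5 : ∑ g : (F.erase v0 : Finset C), (fwd x : I ⊕ (F.erase v0 : Finset C) → ℝ) (Sum.inr g)
    = ∑ g : (F.erase v0 : Finset C), x (Sum.inr g.1) := rfl
  rw [h5]
  linarith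

theorem bwd_mem {F : Finset C} {v0 : C} (hv0 : v0 ∈ F) {u : I ⊕ (F.erase v0 : Finset C) → ℝ}
    (hu : u ∈ body I (F.erase v0 : Finset C)) :
    (bwd u : (I × Bool) ⊕ C → ℝ) ∈
      realization (join (cross (Finset.univ : Finset I)) (simplex F)) := by
  obtain ⟨h0, h1⟩ := hu
  have hz : ∀ v, v ∉ F → bwd u (Sum.inr v) = 0 := by
    intro v hv
    have h3 : v ∉ F.erase v0 := fun h => hv (Finset.mem_of_mem_erase h)
    have h4 : v ≠ v0 := fun h => hv (h ▸ hv0)
    simp [bwd, h3, h4]
  have hv : bwd u (Sum.inr v0) = 1 - ∑ i, |u (Sum.inl i)| - ∑ g, u (Sum.inr g) := by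
    simp [bwd]
  have hg : ∀ g : (F.erase v0 : Finset C), bwd u (Sum.inr g.1) = u (Sum.inr g) := by
    rintro ⟨g, hg⟩
    simp only [bwd]
    rw [dif_pos hg]
  refine ⟨?_, ?_, ?_, ?_⟩
  · rintro (⟨i, c⟩ | v)
    · cases c
      · exact le_max_right _ _
      · exact le_max_right _ _
    · by_cases h2 : v ∈ F.erase v0
      · have := hg ⟨v, h2⟩
        simp only at this
        rw [this]
        exact h0 _
      · by_cases h3 : v = v0
        · rw [h3, hv]
          linarith
        · have : v ∉ F := fun h => h2 (Finset.mem_erase.2 ⟨h3, h⟩)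
          rw [hz v this]
  · rw [Fintype.sum_sum_type, Fintype.sum_prod_type,
      sum_split hv0 (fun v => bwd u (Sum.inr v)) hz, hv]
    simp only [Fintype.sum_bool]
    have h5 : ∀ i, bwd u (Sum.inl (i, true)) + bwd u (Sum.inl (i, false)) = |u (Sum.inl i)| :=
      fun i => max_add_max _
    rw [Finset.sum_congr rfl fun i _ => h5 i, Finset.sum_congr rfl fun g _ => hg g]
    ring
  · rintro ⟨i, c⟩ hq
    refine ⟨Finset.mem_univ _, ?_⟩
    simp only [Finset.mem_toLeft, Finset.mem_filter, Finset.mem_univ, true_and, not_not] at hq ⊢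
    have h6 : ∀ i, bwd u (Sum.inl (i, true)) = 0 ∨ bwd u (Sum.inl (i, false)) = 0 := by
      intro i
      rcases le_total 0 (u (Sum.inl i)) with h | h
      · right
        exact max_eq_right (by linarith)
      · left
        exact max_eq_right h
    cases c
    · rcases h6 i with h | h
      · exact h
      · exact absurd h hq
    · rcases h6 i with h | h
      · exact absurd h hq
      · exact h
  · intro v hv'
    simp only [Finset.mem_toRight, Finset.mem_filter, Finset.mem_univ, true_and] at hv'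
    by_contra h
    exact hv' (hz v h)

/-- The realization of the join of a cross polytope boundary and a simplex is a ball. -/
theorem cross_simplex_ball {F : Finset C} (hF : F.Nonempty) {d : ℕ}
    (hd : Fintype.card I + F.card = d + 1) :
    Nonempty (realization (join (cross (Finset.univ : Finset I)) (simplex F)) ≃ₜ
      Metric.closedBall (0 : EuclideanSpace ℝ (Fin d)) 1) := by
  obtain ⟨v0, hv0⟩ := hF
  have hcard : Fintype.card (I ⊕ (F.erase v0 : Finset C)) = d := by
    rw [Fintype.card_sum, Fintype.card_coe, Finset.card_erase_of_mem hv0]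
    have : 0 < F.card := Finset.card_pos.2 ⟨v0, hv0⟩
    omega
  obtain ⟨h⟩ := body_homeo hcard _ (body_convex I (F.erase v0 : Finset C))
    (body_compact I (F.erase v0 : Finset C)) (body_interior I (F.erase v0 : Finset C))
  refine ⟨Homeomorph.trans ?_ h⟩
  refine
    { toFun := fun x => ⟨fwd x.1, fwd_mem hv0 x.2⟩
      invFun := fun u => ⟨bwd u.1, bwd_mem hv0 u.2⟩
      left_inv := ?_
      right_inv := ?_
      continuous_toFun := (continuous_fwd.comp continuous_subtype_val).subtype_mk _
      continuous_invFun := (continuous_bwd.comp continuous_subtype_val).subtype_mk _ }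
  · rintro ⟨x, hx⟩
    obtain ⟨h0, h1, h2, h3⟩ := real_facts hx
    apply Subtype.ext
    funext k
    have hfi : ∀ i, |(fwd x : I ⊕ (F.erase v0 : Finset C) → ℝ) (Sum.inl i)| =
      x (Sum.inl (i, true)) + x (Sum.inl (i, false)) := fun i =>
      abs_sub_eq (h0 _) (h0 _) (h1 i)
    rcases k with ⟨i, c⟩ | v
    · cases c
      · show max (-(x (Sum.inl (i, true)) - x (Sum.inl (i, false)))) 0 = x (Sum.inl (i, false))
        rcases h1 i with h | h
        · rw [h]
          have := h0 (Sum.inl (i, false))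
          rw [max_eq_left (by linarith)]
          ring
        · rw [h]
          have := h0 (Sum.inl (i, true))
          exact max_eq_right (by linarith)
      · show max (x (Sum.inl (i, true)) - x (Sum.inl (i, false))) 0 = x (Sum.inl (i, true))
        rcases h1 i with h | h
        · rw [h]
          have := h0 (Sum.inl (i, false))
          exact max_eq_right (by linarith)
        · rw [h]
          have := h0 (Sum.inl (i, true))
          rw [max_eq_left (by linarith)]
          ring
    · show bwd (fwd x) (Sum.inr v) = x (Sum.inr v)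
      by_cases h4 : v ∈ F.erase v0
      · simp only [bwd]
        rw [dif_pos h4]
        rfl
      · by_cases h5 : v = v0
        · subst h5
          simp only [bwd]
          rw [dif_neg h4, if_pos trivial, Finset.sum_congr rfl fun i _ => hfi i]
          rw [sum_split hv0 (fun v => x (Sum.inr v)) h2] at h3
          have h6 : ∑ g : (F.erase v : Finset C),
            (fwd x : I ⊕ (F.erase v : Finset C) → ℝ) (Sum.inr g)
              = ∑ g : (F.erase v : Finset C), x (Sum.inr g.1) := rfl
          rw [h6]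
          linarith
        · simp only [bwd]
          rw [dif_neg h4, if_neg h5]
          exact (h2 v fun h => h4 (Finset.mem_erase.2 ⟨h5, h⟩)).symm
  · rintro ⟨u, hu⟩
    apply Subtype.ext
    funext k
    rcases k with i | ⟨g, hg⟩
    · exact max_sub_max _
    · show bwd u (Sum.inr g) = u (Sum.inr ⟨g, hg⟩)
      simp only [bwd]
      rw [dif_pos hg]

end Pool.Agent.H12.Ball
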