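import Mathlib

/-!
# Definitions for the problem on Boolean interval decompositions of simplicial balls

A simplicial complex on a finite, linearly ordered vertex type `V` (below always `Fin n`) is a
family `Δ : Set (Finset V)` of finite subsets that contains the empty face and is closed under
taking subsets.
-/

namespace Pool.Agent.H12.Ball

open Finset

variable {V : Type*}

/-- `Δ` is a simplicial complex: it contains the empty face and is closed under taking subsets. -/
def IsComplex (Δ : Set (Finset V)) : Prop :=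
  ∅ ∈ Δ ∧ ∀ σ ∈ Δ, ∀ τ, τ ⊆ σ → τ ∈ Δ

/-- The link of the face `σ` in `Δ`: all faces `τ` of `Δ` that are disjoint from `σ` and whose
union with `σ` is a face of `Δ`. -/
def link [DecidableEq V] (Δ : Set (Finset V)) (σ : Finset V) : Set (Finset V) :=
  {τ | τ ∈ Δ ∧ τ ∪ σ ∈ Δ ∧ Disjoint τ σ}

/-- The geometric realization of `Δ`, as a subspace of `ℝ ^ V`: the points of the standard simplex
whose support is a face of `Δ`. -/
def realization [Fintype V] (Δ : Set (Finset V)) : Set (V → ℝ) :=
  {x | (∀ v, 0 ≤ x v) ∧ ∑ v, x v = 1 ∧ (Finset.univ.filter fun v => x v ≠ 0) ∈ Δ}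

/-- `Δ` is a simplicial ball of dimension `d`: a simplicial complex whose geometric realization is
homeomorphic to the closed unit ball of `ℝ ^ d`. -/
def IsSimplicialBall [Fintype V] (d : ℕ) (Δ : Set (Finset V)) : Prop :=
  IsComplex Δ ∧
    Nonempty (realization Δ ≃ₜ Metric.closedBall (0 : EuclideanSpace ℝ (Fin d)) 1)

/-- The boundary map of the augmented simplicial chain complex.  A chain is a function on finite
sets of vertices; the coefficient of `∂ c` at `τ` is the sum over the vertices `v` outside `τ` of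
the coefficient of `c` at `τ ∪ {v}`, with the sign `(-1) ^ (position of v in τ ∪ {v})`. -/
def boundary [Fintype V] [LinearOrder V] {𝕜 : Type*} [Field 𝕜] (c : Finset V → 𝕜)
    (τ : Finset V) : 𝕜 :=
  ∑ v ∈ Finset.univ.filter (fun v => v ∉ τ),
    (-1) ^ (τ.filter (fun w => w < v)).card * c (insert v τ)

/-- `c` is a simplicial chain of `Δ` of dimension `i - 1`: it is supported on the faces of `Δ`
with exactly `i` vertices. -/
def IsChain {𝕜 : Type*} [Field 𝕜] (Δ : Set (Finset V)) (i : ℕ) (c : Finset V → 𝕜) : Prop :=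
  ∀ σ, c σ ≠ 0 → σ ∈ Δ ∧ σ.card = i

/-- `Δ` is acyclic over `𝕜`: the augmented simplicial chain complex of `Δ` is exact, that is, all
reduced homology groups of `Δ` with coefficients in `𝕜` vanish. -/
def Acyclic [Fintype V] [LinearOrder V] (𝕜 : Type*) [Field 𝕜] (Δ : Set (Finset V)) : Prop :=
  ∀ (i : ℕ) (c : Finset V → 𝕜), IsChain Δ i c → (∀ τ, boundary c τ = 0) →
    ∃ b : Finset V → 𝕜, IsChain Δ (i + 1) b ∧ ∀ τ, boundary b τ = c τ

/-- `Δ` is `k`-fold acyclic over `𝕜`: the link of every face with fewer than `k` vertices is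
acyclic over `𝕜`. -/
def KFoldAcyclic [Fintype V] [LinearOrder V] (𝕜 : Type*) [Field 𝕜] (k : ℕ)
    (Δ : Set (Finset V)) : Prop :=
  ∀ σ ∈ Δ, σ.card < k → Acyclic 𝕜 (link Δ σ)

/-- `D` is a rank `k` boolean interval decomposition of `Δ`.  The interval `[x, y]` is given by the
pair `(x, y)`; it has rank `k` when `x ⊆ y` and `|y \ x| = k`.  All intervals lie in the face poset
and every face lies in exactly one of them. -/
def IsDecomposition [DecidableEq V] (k : ℕ) (Δ : Set (Finset V))
    (D : Set (Finset V × Finset V)) : Prop :=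
  (∀ p ∈ D, p.1 ⊆ p.2 ∧ (p.2 \ p.1).card = k ∧ p.2 ∈ Δ) ∧
    ∀ σ ∈ Δ, ∃! p : Finset V × Finset V, p ∈ D ∧ p.1 ⊆ σ ∧ σ ⊆ p.2

/-- The bottoms of a decomposition: the minimal elements of its intervals. -/
def bottoms (D : Set (Finset V × Finset V)) : Set (Finset V) :=
  {x | ∃ y, (x, y) ∈ D}

end Pool.Agent.H12.Ball
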