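import Pool.Agent.H12.BallDefs

namespace Pool.Agent.H12.Ball

open Finset

variable {V : Type*}

/-- The combinatorial exchange of `A * ∂B * L` by `∂A * B * L`. -/
structure Exchange [DecidableEq V] (Δ Δ' : Set (Finset V)) (A B : Finset V) : Prop where
  neA : A.Nonempty
  neB : B.Nonempty
  disj : Disjoint A B
  down : ∀ σ ∈ Δ, ∀ τ, τ ⊆ σ → τ ∈ Δ
  down' : ∀ σ ∈ Δ', ∀ τ, τ ⊆ σ → τ ∈ Δ'
  hB : ∀ σ ∈ Δ, ¬ B ⊆ σ
  hA : ∀ σ ∈ Δ', ¬ A ⊆ σ
  h1 : ∀ σ ∈ Δ, ¬ A ⊆ σ → σ ∈ Δ'
  h1' : ∀ σ ∈ Δ', ¬ B ⊆ σ → σ ∈ Δ
  h2 : ∀ σ ∈ Δ, A ⊆ σ → ∀ a ∈ A, σ.erase a ∪ B ∈ Δ'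
  h3 : ∀ σ ∈ Δ', B ⊆ σ → ∀ b ∈ B, σ.erase b ∪ A ∈ Δ

theorem Exchange.symm [DecidableEq V] {Δ Δ' : Set (Finset V)} {A B : Finset V}
    (h : Exchange Δ Δ' A B) : Exchange Δ' Δ B A :=
  ⟨h.neB, h.neA, h.disj.symm, h.down', h.down, h.hA, h.hB, h.h1', h.h1, h.h3, h.h2⟩

/-- The map realizing an exchange. -/
noncomputable def phi [DecidableEq V] (A B : Finset V) (hA : A.Nonempty) (x : V → ℝ) : V → ℝ :=
  fun v => x v - (if v ∈ A then A.inf' hA x else 0)
    + (if v ∈ B then A.inf' hA x * A.card / B.card else 0)

theorem continuous_phi [DecidableEq V] (A B : Finset V) (hA : A.Nonempty) :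
    Continuous (phi A B hA) := by
  have h0 : Continuous (fun x : V → ℝ => A.inf' hA x) := by
    have : (fun x : V → ℝ => A.inf' hA x) = fun x : V → ℝ => A.inf' hA (fun v => x v) := rfl
    rw [this]
    exact Continuous.finset_inf'_apply hA fun v _ => continuous_apply v
  refine continuous_pi fun v => ?_
  unfold phi
  refine Continuous.add (Continuous.sub (continuous_apply v) ?_) ?_
  · split_ifs
    · exact h0
    · exact continuous_const
  · split_ifs
    · exact (h0.mul continuous_const).div_const _
    · exact continuous_const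

theorem inf'_add_const' {A : Finset V} (hA : A.Nonempty) (x : V → ℝ) (c : ℝ) :
    A.inf' hA (fun v => x v + c) = A.inf' hA x + c := by
  apply le_antisymm
  · obtain ⟨a, ha, hx⟩ := A.exists_mem_eq_inf' hA x
    rw [hx]
    exact Finset.inf'_le (fun v => x v + c) ha
  · rw [Finset.le_inf'_iff]
    intro b hb
    have := Finset.inf'_le x hb
    linarith

theorem phi_mem [Fintype V] [DecidableEq V] {Δ Δ' : Set (Finset V)} {A B : Finset V}
    (h : Exchange Δ Δ' A B) {x : V → ℝ} (hx : x ∈ realization Δ) :
    phi A B h.neA x ∈ realization Δ' := by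
  obtain ⟨hx0, hx1, hxs⟩ := hx
  set t := A.inf' h.neA x with ht
  obtain ⟨a, ha, hta⟩ := A.exists_mem_eq_inf' h.neA x
  have ht0 : 0 ≤ t := by rw [ht, hta]; exact hx0 a
  have hle : ∀ v ∈ A, t ≤ x v := fun v hv => Finset.inf'_le x hv
  have hcB : (0 : ℝ) < B.card := by exact_mod_cast Finset.card_pos.2 h.neB
  have hcA : (0 : ℝ) < A.card := by exact_mod_cast Finset.card_pos.2 h.neA
  have hdis : ∀ v ∈ A, v ∉ B := fun v hv hb => (Finset.disjoint_left.1 h.disj) hv hb
  refine ⟨fun v => ?_, ?_, ?_⟩
  · unfold phi
    by_cases h1 : v ∈ A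
    · have := hle v h1
      have h2 := hdis v h1
      simp only [h1, h2, if_true, if_false]
      linarith
    · by_cases h2 : v ∈ B
      · simp only [h1, h2, if_true, if_false]
        have := hx0 v
        have : 0 ≤ t * A.card / B.card := by positivity
        linarith
      · simp only [h1, h2, if_false]
        have := hx0 v
        linarith
  · unfold phi
    rw [Finset.sum_add_distrib, Finset.sum_sub_distrib, hx1]
    rw [Finset.sum_ite_mem, Finset.sum_ite_mem]
    simp only [Finset.univ_inter, Finset.sum_const, nsmul_eq_mul]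
    field_simp
    ring
  · -- support
    rcases ht0.eq_or_lt with h0 | hpos
    · have hphi : phi A B h.neA x = x := by
        funext v
        unfold phi
        rw [← ht, ← h0]
        simp
      rw [hphi]
      apply h.h1 _ hxs
      intro hsub
      have := hsub ha
      rw [Finset.mem_filter] at this
      apply this.2
      rw [← hta, ← ht, ← h0]
    · have hAs : A ⊆ Finset.univ.filter fun v => x v ≠ 0 := by
        intro v hv
        rw [Finset.mem_filter]
        exact ⟨Finset.mem_univ _, ne_of_gt (lt_of_lt_of_le hpos (hle v hv))⟩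
      have := h.h2 _ hxs hAs a ha
      apply h.down' _ this
      intro v hv
      rw [Finset.mem_filter] at hv
      rw [Finset.mem_union, Finset.mem_erase, Finset.mem_filter]
      by_cases h2 : v ∈ B
      · exact Or.inr h2
      · left
        have hv2 := hv.2
        unfold phi at hv2
        simp only [h2, if_false, add_zero] at hv2
        by_cases h1 : v ∈ A
        · simp only [h1, if_true] at hv2
          refine ⟨?_, Finset.mem_univ _, ?_⟩
          · rintro rfl
            apply hv2
            rw [hta]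
            ring
          · intro h3
            have := hle v h1
            linarith
        · simp only [h1, if_false, sub_zero] at hv2
          refine ⟨?_, Finset.mem_univ _, hv2⟩
          rintro rfl
          exact h1 ha

theorem phi_phi [Fintype V] [DecidableEq V] {Δ Δ' : Set (Finset V)} {A B : Finset V}
    (h : Exchange Δ Δ' A B) {x : V → ℝ} (hx : x ∈ realization Δ) :
    phi B A h.neB (phi A B h.neA x) = x := by
  obtain ⟨hx0, hx1, hxs⟩ := hx
  have hcB : (0 : ℝ) < B.card := by exact_mod_cast Finset.card_pos.2 h.neB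
  have hcA : (0 : ℝ) < A.card := by exact_mod_cast Finset.card_pos.2 h.neA
  have hdis : ∀ v ∈ A, v ∉ B := fun v hv hb => (Finset.disjoint_left.1 h.disj) hv hb
  have hdis' : ∀ v ∈ B, v ∉ A := fun v hv hb => (Finset.disjoint_left.1 h.disj) hb hv
  set t := A.inf' h.neA x with ht
  have hBx : B.inf' h.neB x = 0 := by
    apply le_antisymm
    · have := h.hB _ hxs
      rw [Finset.not_subset] at this
      obtain ⟨b, hb, hb2⟩ := this
      have hb3 : x b = 0 := by
        by_contra hne
        exact hb2 (Finset.mem_filter.2 ⟨Finset.mem_univ _, hne⟩)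
      have := Finset.inf'_le x hb
      rwa [hb3] at this
    · rw [Finset.le_inf'_iff]
      exact fun b _ => hx0 b
  have ht' : B.inf' h.neB (phi A B h.neA x) = t * A.card / B.card := by
    have : B.inf' h.neB (phi A B h.neA x)
        = B.inf' h.neB (fun v => x v + t * A.card / B.card) := by
      apply Finset.inf'_congr h.neB rfl
      intro v hv
      unfold phi
      simp only [hv, hdis' v hv, if_true, if_false, sub_zero]
      rfl
    rw [this, inf'_add_const' h.neB x, hBx, zero_add]
  funext v
  rw [phi, ht']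
  unfold phi
  by_cases h1 : v ∈ A
  · have h2 := hdis v h1
    simp only [h1, h2, if_true, if_false]
    rw [← ht]
    field_simp
    ring
  · by_cases h2 : v ∈ B
    · simp only [h1, h2, if_true, if_false]
      rw [← ht]
      ring
    · simp only [h1, h2, if_false]
      ring

/-- An exchange gives a homeomorphism of geometric realizations. -/
noncomputable def Exchange.homeo [Fintype V] [DecidableEq V] {Δ Δ' : Set (Finset V)}
    {A B : Finset V} (h : Exchange Δ Δ' A B) : realization Δ ≃ₜ realization Δ' where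
  toFun x := ⟨phi A B h.neA x.1, phi_mem h x.2⟩
  invFun x := ⟨phi B A h.neB x.1, phi_mem h.symm x.2⟩
  left_inv x := Subtype.ext (phi_phi h x.2)
  right_inv x := Subtype.ext (phi_phi h.symm x.2)
  continuous_toFun := ((continuous_phi A B h.neA).comp continuous_subtype_val).subtype_mk _
  continuous_invFun := ((continuous_phi B A h.neB).comp continuous_subtype_val).subtype_mk _

/-- Two complexes related by a single exchange. -/
def Ex [DecidableEq V] (Δ Δ' : Set (Finset V)) : Prop := ∃ A B : Finset V, Exchange Δ Δ' A B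

theorem homeo_of_chain [Fintype V] [DecidableEq V] {Δ Δ' : Set (Finset V)}
    (h : Relation.ReflTransGen Ex Δ Δ') : Nonempty (realization Δ ≃ₜ realization Δ') := by
  induction h with
  | refl => exact ⟨Homeomorph.refl _⟩
  | tail _ h2 ih =>
    obtain ⟨A, B, hAB⟩ := h2
    exact ⟨ih.some.trans hAB.homeo⟩

end Pool.Agent.H12.Ball
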