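import Pool.Agent.H12.BallJoin

set_option linter.unusedSectionVars false

namespace Pool.Agent.H12.Ball

open Finset

variable {V W C I J : Type*} [DecidableEq V] [DecidableEq W] [DecidableEq C] [DecidableEq I]
  [DecidableEq J]

/-- A decomposition whose bottoms are closed under taking subsets. -/
def Good (k : ℕ) (Δ : Set (Finset V)) (D : Set (Finset V × Finset V)) : Prop :=
  IsDecomposition k Δ D ∧ Down (bottoms D)

theorem unique_interval {k : ℕ} {Δ : Set (Finset V)} {D : Set (Finset V × Finset V)}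
    (hD : IsDecomposition k Δ D) {p q : Finset V × Finset V} (hp : p ∈ D) (hq : q ∈ D)
    {σ : Finset V} (hΔ : Down Δ) (h1 : p.1 ⊆ σ) (h2 : σ ⊆ p.2) (h3 : q.1 ⊆ σ) (h4 : σ ⊆ q.2) :
    p = q := by
  obtain ⟨r, _, hr⟩ := hD.2 σ (hΔ _ (hD.1 p hp).2.2 _ h2)
  rw [hr p ⟨hp, h1, h2⟩, hr q ⟨hq, h3, h4⟩]

theorem exists_top {k : ℕ} {Δ : Set (Finset V)} {D : Set (Finset V × Finset V)}
    (hD : IsDecomposition k Δ D) (h0 : ∅ ∈ Δ) : ∃ S, (∅, S) ∈ D ∧ S ∈ Δ ∧ S.card = k := by
  obtain ⟨⟨x, S⟩, ⟨hp, h1, _⟩, _⟩ := hD.2 ∅ h0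
  have hx : x = ∅ := Finset.subset_empty.1 h1
  subst hx
  refine ⟨S, hp, (hD.1 _ hp).2.2, ?_⟩
  have := (hD.1 _ hp).2.1
  simpa using this

/-- Faces near a vertex of the top of the interval of the empty face. -/
theorem near {k : ℕ} {Δ : Set (Finset V)} {D : Set (Finset V × Finset V)}
    (hD : Good k Δ D) (hΔ : Down Δ) {S : Finset V} (hS : (∅, S) ∈ D) {a : V} (ha : a ∈ S)
    {τ : Finset V} (haτ : a ∉ τ) (hτ : insert a τ ∈ Δ) :
    ∃ p ∈ D, p.1 ⊆ τ ∧ insert a τ ⊆ p.2 ∧ a ∉ p.1 := by
  obtain ⟨p, ⟨hp, h1, h2⟩, _⟩ := hD.1.2 _ hτ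
  have hap : a ∉ p.1 := by
    intro h
    have hb : {a} ∈ bottoms D := by
      apply hD.2 p.1 ⟨p.2, hp⟩
      rw [Finset.singleton_subset_iff]
      exact h
    obtain ⟨y, hy⟩ := hb
    have h4 := (hD.1.1 _ hy).1
    have := unique_interval hD.1 hy hS hΔ (σ := {a}) (Finset.Subset.refl _) h4
      (Finset.empty_subset _) (Finset.singleton_subset_iff.2 ha)
    have := congrArg Prod.fst this
    simp at this
  refine ⟨p, hp, ?_, h2, hap⟩
  intro x hx
  rcases Finset.mem_insert.1 (h1 hx) with h | h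
  · exact absurd (h ▸ hx) hap
  · exact h

theorem no_missing {k : ℕ} {Δ : Set (Finset V)} {D : Set (Finset V × Finset V)}
    (hD : Good k Δ D) (hΔ : Down Δ) {S : Finset V} (hS : (∅, S) ∈ D) {u w : V} (hu : u ∈ S)
    (hw : w ∈ S) {τ : Finset V} (huτ : u ∉ τ) (hwτ : w ∉ τ) (h1 : insert u τ ∈ Δ)
    (h2 : insert w τ ∈ Δ) : insert u (insert w τ) ∈ Δ := by
  obtain ⟨p, hp, hp1, hp2, _⟩ := near hD hΔ hS hu huτ h1
  obtain ⟨q, hq, hq1, hq2, _⟩ := near hD hΔ hS hw hwτ h2
  have hpq : p = q := unique_interval hD.1 hp hq hΔ hp1 ((Finset.subset_insert _ _).trans hp2)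
    hq1 ((Finset.subset_insert _ _).trans hq2)
  subst hpq
  apply hΔ _ (hD.1.1 p hp).2.2
  intro x hx
  rcases Finset.mem_insert.1 hx with h | h
  · exact hp2 (h ▸ Finset.mem_insert_self _ _)
  · exact hq2 h

/-- Every `k`-element face contains two vertices of a missing face of size at least three. -/
def Blocked (k : ℕ) (Δ : Set (Finset V)) : Prop :=
  ∀ S ∈ Δ, S.card = k → ∃ u ∈ S, ∃ w ∈ S, ∃ τ : Finset V, u ∉ τ ∧ w ∉ τ ∧
    insert u τ ∈ Δ ∧ insert w τ ∈ Δ ∧ insert u (insert w τ) ∉ Δ

/-- Passing to the link of an antipode. -/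
theorem good_link {k : ℕ} {Δ : Set (Finset V)} {D : Set (Finset V × Finset V)}
    (hD : Good k Δ D) (hΔ : Down Δ) {S : Finset V} (hS : (∅, S) ∈ D) {a b : V} (ha : a ∈ S)
    (hab : a ≠ b)
    (h1 : ∀ σ ∈ Δ, a ∈ σ → b ∉ σ) (h2 : ∀ σ ∈ Δ, b ∈ σ → insert a (σ.erase b) ∈ Δ) :
    ∃ D', Good k (link Δ {b}) D' := by
  have hkey : ∀ p ∈ D, ∀ τ : Finset V, b ∉ τ → p.1 ⊆ insert b τ → insert b τ ⊆ p.2 → b ∈ p.1 := by
    intro p hp τ hbτ hp1 hp2
    by_contra hb
    have hτΔ : insert b τ ∈ Δ := hΔ _ (hD.1.1 p hp).2.2 _ hp2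
    have haτ : a ∉ τ := by
      intro h
      exact h1 _ hτΔ (Finset.mem_insert_of_mem h) (Finset.mem_insert_self _ _)
    have h3 : insert a τ ∈ Δ := by
      have := h2 _ hτΔ (Finset.mem_insert_self _ _)
      rwa [Finset.erase_insert hbτ] at this
    obtain ⟨q, hq, hq1, hq2, _⟩ := near hD hΔ hS ha haτ h3
    have hpτ : p.1 ⊆ τ := by
      intro x hx
      rcases Finset.mem_insert.1 (hp1 hx) with h | h
      · exact absurd (h ▸ hx) hb
      · exact h
    have hpq : p = q := unique_interval hD.1 hp hq hΔ hpτ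
      ((Finset.subset_insert _ _).trans hp2) hq1 ((Finset.subset_insert _ _).trans hq2)
    subst hpq
    exact h1 _ (hD.1.1 p hp).2.2 (hq2 (Finset.mem_insert_self _ _))
      (hp2 (Finset.mem_insert_self _ _))
  refine ⟨{q | ∃ p ∈ D, b ∈ p.1 ∧ q = (p.1.erase b, p.2.erase b)}, ⟨?_, ?_⟩, ?_⟩
  · rintro q ⟨p, hp, hb, rfl⟩
    obtain ⟨h3, h4, h5⟩ := hD.1.1 p hp
    refine ⟨Finset.erase_subset_erase b h3, ?_, ?_, ?_, ?_⟩
    · rw [← h4]
      congr 1
      ext x
      simp only [Finset.mem_sdiff, Finset.mem_erase]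
      constructor
      · rintro ⟨⟨h6, h7⟩, h8⟩
        exact ⟨h7, fun h => h8 ⟨h6, h⟩⟩
      · rintro ⟨h6, h7⟩
        exact ⟨⟨fun h => h7 (h ▸ hb), h6⟩, fun h => h7 h.2⟩
    · exact hΔ _ h5 _ (Finset.erase_subset _ _)
    · apply hΔ _ h5
      intro x hx
      simp only [Finset.mem_union, Finset.mem_erase, Finset.mem_singleton] at hx
      rcases hx with hx | hx
      · exact hx.2
      · exact hx ▸ h3 hb
    · rw [Finset.disjoint_singleton_right]
      exact Finset.notMem_erase _ _
  · rintro τ ⟨_, hτ, hdis⟩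
    rw [Finset.disjoint_singleton_right] at hdis
    have hins : τ ∪ {b} = insert b τ := by
      ext x
      simp only [Finset.mem_union, Finset.mem_singleton, Finset.mem_insert]
      tauto
    rw [hins] at hτ
    obtain ⟨p, ⟨hp, hp1, hp2⟩, hpu⟩ := hD.1.2 _ hτ
    have hb := hkey p hp τ hdis hp1 hp2
    refine ⟨(p.1.erase b, p.2.erase b), ⟨⟨p, hp, hb, rfl⟩, ?_, ?_⟩, ?_⟩
    · intro x hx
      rw [Finset.mem_erase] at hx
      rcases Finset.mem_insert.1 (hp1 hx.2) with h | h
      · exact absurd h hx.1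
      · exact h
    · intro x hx
      rw [Finset.mem_erase]
      exact ⟨fun h => hdis (h ▸ hx), hp2 (Finset.mem_insert_of_mem hx)⟩
    · rintro q ⟨⟨r, hr, hbr, rfl⟩, hq1, hq2⟩
      have : r = p := by
        apply hpu
        refine ⟨hr, ?_, ?_⟩
        · intro x hx
          rw [Finset.mem_insert]
          by_cases hxb : x = b
          · exact Or.inl hxb
          · exact Or.inr (hq1 (Finset.mem_erase.2 ⟨hxb, hx⟩))
        · intro x hx
          rcases Finset.mem_insert.1 hx with h | h
          · rw [h]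
            exact (hD.1.1 r hr).1 hbr
          · exact Finset.mem_of_mem_erase (hq2 h)
      rw [this]
  · rintro x ⟨y, p, hp, hb, hxy⟩ t ht
    have hx : x = p.1.erase b := congrArg Prod.fst hxy
    subst hx
    have h3 : insert b t ∈ bottoms D := by
      apply hD.2 p.1 ⟨p.2, hp⟩
      intro x hx
      rcases Finset.mem_insert.1 hx with h | h
      · exact h ▸ hb
      · exact Finset.mem_of_mem_erase (ht h)
    obtain ⟨y', hy'⟩ := h3
    have hbt : b ∉ t := fun h => Finset.notMem_erase b p.1 (ht h)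
    refine ⟨y'.erase b, (insert b t, y'), hy', Finset.mem_insert_self _ _, ?_⟩
    rw [Finset.erase_insert hbt]

/-- The boundary complex of a cross polytope on the index set `P`. -/
def cross (P : Finset I) : Set (Finset (I × Bool)) :=
  {κ | ∀ q ∈ κ, q.1 ∈ P ∧ (q.1, !q.2) ∉ κ}

theorem cross_down (P : Finset I) : Down (cross P) := by
  intro κ hκ τ hτ q hq
  exact ⟨(hκ q (hτ hq)).1, fun h => (hκ q (hτ hq)).2 (hτ h)⟩

theorem link_cross (P : Finset I) (i : I) (hi : i ∈ P) (c : Bool) :
    link (cross P) {(i, c)} = cross (P.erase i) := by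
  ext κ
  constructor
  · rintro ⟨h1, h2, h3⟩ q hq
    rw [Finset.disjoint_singleton_right] at h3
    refine ⟨?_, (h1 q hq).2⟩
    rw [Finset.mem_erase]
    refine ⟨?_, (h1 q hq).1⟩
    intro h
    have hq' : q ∈ κ ∪ {(i, c)} := Finset.mem_union_left _ hq
    have h4 := (h2 q hq').2
    rcases q with ⟨i', c'⟩
    simp only at h h4
    subst h
    by_cases hc : c' = c
    · subst hc
      exact h3 hq
    · apply h4
      have : (!c') = c := by
        cases c <;> cases c' <;> simp_all
      rw [this]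
      exact Finset.mem_union_right _ (Finset.mem_singleton_self _)
  · intro h
    have h0 : (i, c) ∉ κ := by
      intro h1
      have := (h _ h1).1
      simp at this
    have h0' : (i, !c) ∉ κ := by
      intro h1
      have := (h _ h1).1
      simp at this
    refine ⟨?_, ?_, ?_⟩
    · intro q hq
      exact ⟨Finset.mem_of_mem_erase (h q hq).1, (h q hq).2⟩
    · intro q hq
      rcases Finset.mem_union.1 hq with hq | hq
      · refine ⟨Finset.mem_of_mem_erase (h q hq).1, ?_⟩
        rw [Finset.mem_union, not_or]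
        refine ⟨(h q hq).2, ?_⟩
        rw [Finset.mem_singleton]
        intro h1
        have h2 := (Finset.mem_erase.1 (h q hq).1).1
        exact h2 (congrArg Prod.fst h1)
      · rw [Finset.mem_singleton] at hq
        subst hq
        refine ⟨hi, ?_⟩
        rw [Finset.mem_union, not_or]
        refine ⟨h0', ?_⟩
        rw [Finset.mem_singleton]
        intro h1
        have := congrArg Prod.snd h1
        simp at this
    · rw [Finset.disjoint_singleton_right]
      exact h0

theorem link_empty (Δ : Set (Finset V)) : link Δ ∅ = Δ := by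
  ext τ
  simp [link]

theorem no_good_join {k : ℕ} {Δ : Set (Finset C)} (hΔ : IsComplex Δ) (hB : Blocked k Δ)
    (n : ℕ) : ∀ P : Finset I, P.card = n → ∀ D, ¬ Good k (join (cross P) Δ) D := by
  induction n using Nat.strong_induction_on with
  | _ n ih =>
  intro P hP D hD
  have hdown : Down (join (cross P) Δ) := (cross_down P).join hΔ.2
  have h0 : (∅ : Finset ((I × Bool) ⊕ C)) ∈ join (cross P) Δ := by
    refine ⟨?_, ?_⟩
    · intro q hq
      simp at hq
    · have : (∅ : Finset ((I × Bool) ⊕ C)).toRight = ∅ := by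
        ext x
        simp
      rw [this]
      exact hΔ.1
  obtain ⟨S, hS, hSΔ, hSk⟩ := exists_top hD.1 h0
  by_cases hL : S.toLeft.Nonempty
  · obtain ⟨⟨i, c⟩, hic⟩ := hL
    have hiP : i ∈ P := (hSΔ.1 _ hic).1
    rw [Finset.mem_toLeft] at hic
    have := good_link hD hdown hS (a := Sum.inl (i, c)) (b := Sum.inl (i, !c)) hic
      (by simp) (by
        intro σ hσ ha hb
        rw [← Finset.mem_toLeft] at ha hb
        exact (hσ.1 _ ha).2 hb) (by
        intro σ hσ hb
        have hb' : (i, !c) ∈ σ.toLeft := Finset.mem_toLeft.2 hb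
        have hl : (insert (Sum.inl (i, c)) (σ.erase (Sum.inl (i, !c)))).toLeft =
          insert (i, c) (σ.toLeft.erase (i, !c)) := by
          ext x
          simp
        have hr : (insert (Sum.inl (i, c)) (σ.erase (Sum.inl (i, !c)))).toRight =
          σ.toRight := by
          ext x
          simp
        refine ⟨?_, ?_⟩
        · rw [hl]
          intro q hq
          rcases Finset.mem_insert.1 hq with hq | hq
          · subst hq
            refine ⟨hiP, ?_⟩
            rw [Finset.mem_insert, not_or]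
            refine ⟨by simp, Finset.notMem_erase _ _⟩
          · rw [Finset.mem_erase] at hq
            refine ⟨(hσ.1 q hq.2).1, ?_⟩
            rw [Finset.mem_insert, not_or]
            refine ⟨?_, fun h => (hσ.1 q hq.2).2 (Finset.mem_of_mem_erase h)⟩
            intro h
            apply hq.1
            rcases q with ⟨i', c'⟩
            simp only [Prod.mk.injEq] at h ⊢
            refine ⟨h.1, ?_⟩
            rw [← h.2]
            simp
        · rw [hr]
          exact hσ.2)
    obtain ⟨D', hD'⟩ := this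
    rw [link_join] at hD'
    have h1 : ({Sum.inl (i, !c)} : Finset ((I × Bool) ⊕ C)).toLeft = {(i, !c)} := by
      ext x
      simp
    have h2 : ({Sum.inl (i, !c)} : Finset ((I × Bool) ⊕ C)).toRight = ∅ := by
      ext x
      simp
    rw [h1, h2, link_cross P i hiP, link_empty] at hD'
    refine ih (P.erase i).card ?_ (P.erase i) rfl D' hD'
    rw [← hP]
    exact Finset.card_erase_lt_of_mem hiP
  · rw [Finset.not_nonempty_iff_eq_empty] at hL
    have hc : S.toRight.card = k := by
      rw [← hSk, ← Finset.card_toLeft_add_card_toRight (u := S), hL]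
      simp
    obtain ⟨u, hu, w, hw, τ, h1, h2, h3, h4, h5⟩ := hB S.toRight hSΔ.2 hc
    have hmem : ∀ t : Finset C, t ∈ Δ ↔ (∅ : Finset (I × Bool)).disjSum t ∈ join (cross P) Δ := by
      intro t
      unfold join
      rw [Set.mem_setOf_eq, toLeft_disjSum', toRight_disjSum']
      constructor
      · intro h
        exact ⟨fun q hq => by simp at hq, h⟩
      · intro h
        exact h.2
    apply h5
    rw [hmem, ← insert_inr_disjSum, ← insert_inr_disjSum]
    rw [hmem, ← insert_inr_disjSum] at h3 h4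
    exact no_missing hD hdown hS (Finset.mem_toRight.1 hu) (Finset.mem_toRight.1 hw)
      (by simpa using h1) (by simpa using h2) h3 h4

/-- The full simplex as a complex. -/
def full (J : Type*) : Set (Finset J) := Set.univ

theorem blocked_cone [Fintype J] {Δ : Set (Finset C)} (hΔ : Down Δ) (hB : Blocked 2 Δ) :
    Blocked (Fintype.card J + 2) (join (full J) Δ) := by
  intro S hS hc
  have h1 : S.toLeft.card ≤ Fintype.card J := Finset.card_le_univ _
  have h2 := Finset.card_toLeft_add_card_toRight (u := S)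
  have h3 : 2 ≤ S.toRight.card := by omega
  obtain ⟨T, hT, hTc⟩ := Finset.exists_subset_card_eq h3
  obtain ⟨u, hu, w, hw, τ, h4, h5, h6, h7, h8⟩ := hB T (hΔ _ hS.2 _ hT) hTc
  have hmem : ∀ t : Finset C, t ∈ Δ ↔ (∅ : Finset J).disjSum t ∈ join (full J) Δ := by
    intro t
    unfold join full
    rw [Set.mem_setOf_eq, toLeft_disjSum', toRight_disjSum']
    simp
  refine ⟨Sum.inr u, Finset.mem_toRight.1 (hT hu), Sum.inr w, Finset.mem_toRight.1 (hT hw),
    (∅ : Finset J).disjSum τ, by simpa using h4, by simpa using h5, ?_, ?_, ?_⟩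
  · rw [insert_inr_disjSum, ← hmem]
    exact h6
  · rw [insert_inr_disjSum, ← hmem]
    exact h7
  · rw [insert_inr_disjSum, insert_inr_disjSum, ← hmem]
    exact h8

/-- Decomposition of a join with a full simplex. -/
theorem decomp_cone [Fintype J] {k : ℕ} {Δ : Set (Finset C)} {D : Set (Finset C × Finset C)}
    (hD : IsDecomposition k Δ D) :
    ∃ D', IsDecomposition (Fintype.card J + k) (join (full J) Δ) D' := by
  refine ⟨{q | ∃ p ∈ D, q = ((∅ : Finset J).disjSum p.1,
    (Finset.univ : Finset J).disjSum p.2)}, ?_, ?_⟩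
  · rintro q ⟨p, hp, rfl⟩
    obtain ⟨h1, h2, h3⟩ := hD.1 p hp
    refine ⟨?_, ?_, ?_, ?_⟩
    · exact Finset.disjSum_mono (Finset.empty_subset _) h1
    · have : (Finset.univ : Finset J).disjSum p.2 \ (∅ : Finset J).disjSum p.1 =
          (Finset.univ : Finset J).disjSum (p.2 \ p.1) := by
        ext x
        rcases x with x | x <;> simp
      simp only
      rw [this, Finset.card_disjSum, h2, Finset.card_univ]
    · trivial
    · simp only
      rw [toRight_disjSum']
      exact h3
  · rintro σ ⟨_, h2⟩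
    obtain ⟨p, ⟨hp, h3, h4⟩, hu⟩ := hD.2 _ h2
    refine ⟨((∅ : Finset J).disjSum p.1, (Finset.univ : Finset J).disjSum p.2),
      ⟨⟨p, hp, rfl⟩, ?_, ?_⟩, ?_⟩
    · intro x hx
      rcases x with x | x
      · simp at hx
      · rw [Finset.inr_mem_disjSum] at hx
        exact Finset.mem_toRight.1 (h3 hx)
    · intro x hx
      rcases x with x | x
      · simp
      · rw [Finset.inr_mem_disjSum]
        exact h4 (Finset.mem_toRight.2 hx)
    · rintro q ⟨⟨p', hp', rfl⟩, h5, h6⟩
      have : p' = p := by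
        apply hu
        refine ⟨hp', ?_, ?_⟩
        · intro x hx
          exact Finset.mem_toRight.2 (h5 (Finset.inr_mem_disjSum.2 hx))
        · intro x hx
          exact Finset.inr_mem_disjSum.1 (h6 (Finset.mem_toRight.1 hx))
      rw [this]

/-- Decomposition of a join with any complex. -/
theorem decomp_join {k : ℕ} (K : Set (Finset W)) {Δ : Set (Finset C)}
    {D : Set (Finset C × Finset C)}
    (hD : IsDecomposition k Δ D) : ∃ D', IsDecomposition k (join K Δ) D' := by
  refine ⟨{q | ∃ κ ∈ K, ∃ p ∈ D, q = (κ.disjSum p.1, κ.disjSum p.2)}, ?_, ?_⟩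
  · rintro q ⟨κ, hκ, p, hp, rfl⟩
    obtain ⟨h1, h2, h3⟩ := hD.1 p hp
    refine ⟨?_, ?_, ?_, ?_⟩
    · exact Finset.disjSum_mono (Finset.Subset.refl _) h1
    · have : κ.disjSum p.2 \ κ.disjSum p.1 = (∅ : Finset W).disjSum (p.2 \ p.1) := by
        ext x
        rcases x with x | x <;> simp
      simp only
      rw [this, Finset.card_disjSum, h2, Finset.card_empty, zero_add]
    · simp only
      rw [toLeft_disjSum']
      exact hκ
    · simp only
      rw [toRight_disjSum']
      exact h3
  · rintro σ ⟨h1, h2⟩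
    obtain ⟨p, ⟨hp, h3, h4⟩, hu⟩ := hD.2 _ h2
    refine ⟨(σ.toLeft.disjSum p.1, σ.toLeft.disjSum p.2),
      ⟨⟨_, h1, p, hp, rfl⟩, ?_, ?_⟩, ?_⟩
    · intro x hx
      rcases x with x | x
      · rw [Finset.inl_mem_disjSum] at hx
        exact Finset.mem_toLeft.1 hx
      · rw [Finset.inr_mem_disjSum] at hx
        exact Finset.mem_toRight.1 (h3 hx)
    · intro x hx
      rcases x with x | x
      · rw [Finset.inl_mem_disjSum]
        exact Finset.mem_toLeft.2 hx
      · rw [Finset.inr_mem_disjSum]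
        exact h4 (Finset.mem_toRight.2 hx)
    · rintro q ⟨⟨κ, hκ, p', hp', rfl⟩, h5, h6⟩
      have hκ' : κ = σ.toLeft := by
        ext x
        rw [Finset.mem_toLeft]
        constructor
        · intro hx
          exact h5 (Finset.inl_mem_disjSum.2 hx)
        · intro hx
          exact Finset.inl_mem_disjSum.1 (h6 hx)
      have : p' = p := by
        apply hu
        refine ⟨hp', ?_, ?_⟩
        · intro x hx
          exact Finset.mem_toRight.2 (h5 (Finset.inr_mem_disjSum.2 hx))
        · intro x hx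
          exact Finset.inr_mem_disjSum.1 (h6 (Finset.mem_toRight.1 hx))
      rw [this, hκ']

end Pool.Agent.H12.Ball
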