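import Pool.Agent.H12.BallExchange
import Pool.Agent.H12.BallAcyclic

set_option linter.unusedSectionVars false

namespace Pool.Agent.H12.Ball

open Finset

variable {V W C : Type*} [DecidableEq V] [DecidableEq W] [DecidableEq C]

/-- The join of two complexes on disjoint vertex sets. -/
def join (K : Set (Finset W)) (Δ : Set (Finset C)) : Set (Finset (W ⊕ C)) :=
  {σ | σ.toLeft ∈ K ∧ σ.toRight ∈ Δ}

theorem map_inr_sub {A : Finset C} {σ : Finset (W ⊕ C)} :
    A.map ⟨Sum.inr, Sum.inr_injective⟩ ⊆ σ ↔ A ⊆ σ.toRight := by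
  constructor
  · intro h a ha
    rw [Finset.mem_toRight]
    exact h (Finset.mem_map.2 ⟨a, ha, rfl⟩)
  · intro h x hx
    obtain ⟨a, ha, rfl⟩ := Finset.mem_map.1 hx
    exact Finset.mem_toRight.1 (h ha)

theorem toLeft_mono' {σ τ : Finset (W ⊕ C)} (h : τ ⊆ σ) : τ.toLeft ⊆ σ.toLeft := by
  intro x hx
  rw [Finset.mem_toLeft] at hx ⊢
  exact h hx

theorem toRight_mono' {σ τ : Finset (W ⊕ C)} (h : τ ⊆ σ) : τ.toRight ⊆ σ.toRight := by
  intro x hx
  rw [Finset.mem_toRight] at hx ⊢
  exact h hx

theorem Down.join {K : Set (Finset W)} {Δ : Set (Finset C)} (hK : Down K) (hΔ : Down Δ) :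
    Down (join K Δ) := by
  rintro σ ⟨h1, h2⟩ τ hτ
  exact ⟨hK _ h1 _ (toLeft_mono' hτ), hΔ _ h2 _ (toRight_mono' hτ)⟩

theorem Exchange.join {K : Set (Finset W)} (hK : Down K) {Δ Δ' : Set (Finset C)}
    {A B : Finset C} (h : Exchange Δ Δ' A B) :
    Exchange (join K Δ) (join K Δ') (A.map ⟨Sum.inr, Sum.inr_injective⟩)
      (B.map ⟨Sum.inr, Sum.inr_injective⟩) := by
  refine ⟨h.neA.map, h.neB.map, ?_, hK.join h.down, hK.join h.down', ?_, ?_, ?_, ?_, ?_, ?_⟩
  · rw [Finset.disjoint_map]
    exact h.disj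
  · rintro σ ⟨_, h2⟩ hs
    exact h.hB _ h2 (map_inr_sub.1 hs)
  · rintro σ ⟨_, h2⟩ hs
    exact h.hA _ h2 (map_inr_sub.1 hs)
  · rintro σ ⟨h1, h2⟩ hs
    exact ⟨h1, h.h1 _ h2 fun hh => hs (map_inr_sub.2 hh)⟩
  · rintro σ ⟨h1, h2⟩ hs
    exact ⟨h1, h.h1' _ h2 fun hh => hs (map_inr_sub.2 hh)⟩
  · rintro σ ⟨h1, h2⟩ hs a ha
    obtain ⟨a', ha', rfl⟩ := Finset.mem_map.1 ha
    refine ⟨?_, ?_⟩
    · have : (σ.erase ((⟨Sum.inr, Sum.inr_injective⟩ : C ↪ W ⊕ C) a') ∪
          B.map ⟨Sum.inr, Sum.inr_injective⟩).toLeft = σ.toLeft := by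
        ext x
        simp
      rw [this]
      exact h1
    · have : (σ.erase ((⟨Sum.inr, Sum.inr_injective⟩ : C ↪ W ⊕ C) a') ∪
          B.map ⟨Sum.inr, Sum.inr_injective⟩).toRight = σ.toRight.erase a' ∪ B := by
        ext x
        simp
      rw [this]
      exact h.h2 _ h2 (map_inr_sub.1 hs) a' ha'
  · rintro σ ⟨h1, h2⟩ hs a ha
    obtain ⟨a', ha', rfl⟩ := Finset.mem_map.1 ha
    refine ⟨?_, ?_⟩
    · have : (σ.erase ((⟨Sum.inr, Sum.inr_injective⟩ : C ↪ W ⊕ C) a') ∪
          A.map ⟨Sum.inr, Sum.inr_injective⟩).toLeft = σ.toLeft := by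
        ext x
        simp
      rw [this]
      exact h1
    · have : (σ.erase ((⟨Sum.inr, Sum.inr_injective⟩ : C ↪ W ⊕ C) a') ∪
          A.map ⟨Sum.inr, Sum.inr_injective⟩).toRight = σ.toRight.erase a' ∪ A := by
        ext x
        simp
      rw [this]
      exact h.h3 _ h2 (map_inr_sub.1 hs) a' ha'

theorem chain_join {K : Set (Finset W)} (hK : Down K) {Δ Δ' : Set (Finset C)}
    (h : Relation.ReflTransGen Ex Δ Δ') :
    Relation.ReflTransGen Ex (join K Δ) (join K Δ') := by
  induction h with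
  | refl => exact Relation.ReflTransGen.refl
  | tail _ h2 ih =>
    obtain ⟨A, B, hAB⟩ := h2
    exact ih.tail ⟨_, _, hAB.join hK⟩

theorem disjoint_iff_toLR {σ τ : Finset (W ⊕ C)} :
    Disjoint τ σ ↔ Disjoint τ.toLeft σ.toLeft ∧ Disjoint τ.toRight σ.toRight := by
  simp only [Finset.disjoint_left, Finset.mem_toLeft, Finset.mem_toRight]
  constructor
  · intro h
    exact ⟨fun x hx => h hx, fun x hx => h hx⟩
  · rintro ⟨h1, h2⟩ (x | x) hx
    · exact h1 hx
    · exact h2 hx

theorem toLeft_union' {σ τ : Finset (W ⊕ C)} : (τ ∪ σ).toLeft = τ.toLeft ∪ σ.toLeft := by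
  ext x
  simp

theorem toRight_union' {σ τ : Finset (W ⊕ C)} : (τ ∪ σ).toRight = τ.toRight ∪ σ.toRight := by
  ext x
  simp

theorem link_join (K : Set (Finset W)) (Δ : Set (Finset C)) (σ : Finset (W ⊕ C)) :
    link (join K Δ) σ = join (link K σ.toLeft) (link Δ σ.toRight) := by
  ext τ
  simp only [link, join, Set.mem_setOf_eq, disjoint_iff_toLR, toLeft_union', toRight_union']
  tauto

/-- One layer of a join. -/
def layer (κ : Finset W) (L : Set (Finset C)) : Set (Finset (W ⊕ C)) :=
  {σ | σ.toLeft = κ ∧ σ.toRight ∈ L}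

theorem toLeft_disjSum' (κ : Finset W) (σ : Finset C) : (κ.disjSum σ).toLeft = κ := by
  ext x
  simp

theorem toRight_disjSum' (κ : Finset W) (σ : Finset C) : (κ.disjSum σ).toRight = σ := by
  ext x
  simp

theorem eq_disjSum_iff {τ : Finset (W ⊕ C)} {κ : Finset W} {σ : Finset C} :
    τ = κ.disjSum σ ↔ τ.toLeft = κ ∧ τ.toRight = σ := by
  constructor
  · rintro rfl
    exact ⟨toLeft_disjSum' _ _, toRight_disjSum' _ _⟩
  · rintro ⟨rfl, rfl⟩
    exact (Finset.toLeft_disjSum_toRight (u := τ)).symm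

theorem insert_inr_disjSum (κ : Finset W) (σ : Finset C) (v : C) :
    insert (Sum.inr v) (κ.disjSum σ) = κ.disjSum (insert v σ) := by
  ext x
  rcases x with x | x <;> simp

theorem Void.layer {κ : Finset W} {L : Set (Finset C)} (h : Void L) :
    ∀ Base : Set (Finset (W ⊕ C)), Void Base → (∀ σ ∈ Base, ¬ κ ⊆ σ.toLeft) →
      Void (Base ∪ layer κ L) := by
  induction h with
  | empty =>
    intro Base hB _
    have : Base ∪ Pool.Agent.H12.Ball.layer κ (∅ : Set (Finset C)) = Base := by
      ext x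
      simp [Pool.Agent.H12.Ball.layer]
    rw [this]
    exact hB
  | step Δ σ v hv hfree hΔ ih =>
    intro Base hB hBase
    have key : Base ∪ Pool.Agent.H12.Ball.layer κ (insert σ (insert (insert v σ) Δ)) =
        insert (κ.disjSum σ) (insert (insert (Sum.inr v) (κ.disjSum σ))
          (Base ∪ Pool.Agent.H12.Ball.layer κ Δ)) := by
      ext τ
      simp only [Pool.Agent.H12.Ball.layer, Set.mem_union, Set.mem_setOf_eq, Set.mem_insert_iff,
        insert_inr_disjSum, eq_disjSum_iff]
      tauto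
    rw [key]
    refine Void.step _ _ _ ?_ ?_ (ih Base hB hBase)
    · simp [hv]
    · rintro τ (hτ | hτ) hs
      · apply hBase τ hτ
        have := toLeft_mono' hs
        rwa [toLeft_disjSum'] at this
      · apply hfree _ hτ.2
        have := toRight_mono' hs
        rwa [toRight_disjSum'] at this

theorem Void.join_finset {L : Set (Finset C)} (h : Void L) (n : ℕ) :
    ∀ S : Finset (Finset W), S.card = n → Void (join (S : Set (Finset W)) L) := by
  induction n with
  | zero =>
    intro S hS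
    rw [Finset.card_eq_zero] at hS
    subst hS
    have : join ((∅ : Finset (Finset W)) : Set (Finset W)) L = ∅ := by
      ext x
      simp [join]
    rw [this]
    exact Void.empty
  | succ n ih =>
    intro S hS
    have hne : S.Nonempty := by
      rw [← Finset.card_pos, hS]
      omega
    obtain ⟨κ, hκ, hmax⟩ := Finset.exists_max_image S Finset.card hne
    have h1 := ih (S.erase κ) (by rw [Finset.card_erase_of_mem hκ, hS]; rfl)
    have key : join (S : Set (Finset W)) L = join ((S.erase κ : Finset _) : Set (Finset W)) L ∪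
        Pool.Agent.H12.Ball.layer κ L := by
      ext τ
      simp only [join, Pool.Agent.H12.Ball.layer, Set.mem_union, Set.mem_setOf_eq, mem_coe,
        Finset.mem_erase]
      by_cases hτ : τ.toLeft = κ
      · simp [hτ, hκ]
      · simp [hτ]
    rw [key]
    refine Void.layer h _ h1 ?_
    rintro σ ⟨hσ, _⟩ hs
    rw [mem_coe, Finset.mem_erase] at hσ
    have h2 := hmax _ hσ.2
    exact hσ.1 (Finset.eq_of_subset_of_card_le hs h2).symm

theorem Void.join [Fintype W] {L : Set (Finset C)} (h : Void L) (K : Set (Finset W)) :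
    Void (join K L) := by
  classical
  have hfin : K.Finite := Set.toFinite K
  have := Void.join_finset (W := W) h _ hfin.toFinset rfl
  rwa [Set.Finite.coe_toFinset] at this

/-- The cone family. -/
theorem void_cone_finset (z : V) (n : ℕ) :
    ∀ S : Finset (Finset V), S.card = n → (∀ τ ∈ S, z ∉ τ) → Void {τ : Finset V | τ.erase z ∈ S} := by
  induction n with
  | zero =>
    intro S hS _
    rw [Finset.card_eq_zero] at hS
    subst hS
    have : {τ : Finset V | τ.erase z ∈ (∅ : Finset (Finset V))} = ∅ := by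
      ext x
      simp
    rw [this]
    exact Void.empty
  | succ n ih =>
    intro S hS hz
    have hne : S.Nonempty := by
      rw [← Finset.card_pos, hS]
      omega
    obtain ⟨κ, hκ, hmax⟩ := Finset.exists_max_image S Finset.card hne
    have h1 := ih (S.erase κ) (by rw [Finset.card_erase_of_mem hκ, hS]; rfl)
      (fun τ hτ => hz τ (Finset.mem_of_mem_erase hτ))
    have key : {τ : Finset V | τ.erase z ∈ S} =
        insert κ (insert (insert z κ) {τ : Finset V | τ.erase z ∈ S.erase κ}) := by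
      ext τ
      simp only [Set.mem_setOf_eq, Set.mem_insert_iff, Finset.mem_erase]
      constructor
      · intro h
        by_cases h2 : τ.erase z = κ
        · by_cases h3 : z ∈ τ
          · right; left
            rw [← h2, Finset.insert_erase h3]
          · left
            rw [← h2, Finset.erase_eq_of_notMem h3]
        · exact Or.inr (Or.inr ⟨h2, h⟩)
      · rintro (h | h | h)
        · rw [h, Finset.erase_eq_of_notMem (hz κ hκ)]
          exact hκ
        · rw [h, Finset.erase_insert (hz κ hκ)]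
          exact hκ
        · exact h.2
    rw [key]
    refine Void.step _ _ _ (hz κ hκ) ?_ h1
    intro τ hτ hs
    simp only [Set.mem_setOf_eq, Finset.mem_erase] at hτ
    have h2 : κ ⊆ τ.erase z := by
      intro x hx
      rw [Finset.mem_erase]
      exact ⟨fun h => hz κ hκ (h ▸ hx), hs hx⟩
    exact hτ.1 (Finset.eq_of_subset_of_card_le h2 (hmax _ hτ.2)).symm

theorem void_cone [Fintype V] {L : Set (Finset V)} (hL : Down L) (z : V)
    (hz : ∀ τ ∈ L, insert z τ ∈ L) : Void L := by
  classical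
  have hfin : {τ | τ ∈ L ∧ z ∉ τ}.Finite := Set.toFinite _
  have := void_cone_finset z _ hfin.toFinset rfl (by
    intro τ hτ
    rw [Set.Finite.mem_toFinset] at hτ
    exact hτ.2)
  have key : {τ : Finset V | τ.erase z ∈ hfin.toFinset} = L := by
    ext τ
    rw [Set.mem_setOf_eq, Set.Finite.mem_toFinset]
    constructor
    · rintro ⟨h1, _⟩
      by_cases h3 : z ∈ τ
      · have := hz _ h1
        rwa [Finset.insert_erase h3] at this
      · rwa [Finset.erase_eq_of_notMem h3] at h1
    · intro h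
      exact ⟨hL _ h _ (Finset.erase_subset _ _), Finset.notMem_erase _ _⟩
  rwa [key] at this

end Pool.Agent.H12.Ball
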