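import Pool.Agent.H12.BallBase
import Pool.Agent.H12.BallBody

set_option linter.unusedSectionVars false

namespace Pool.Agent.H12.Ball

open Finset

/-- The base complex: a three dimensional ball with nine vertices and twenty one facets. -/
def base : Set (Finset (Fin 9)) := cx L0

theorem base_complex : IsComplex base :=
  ⟨⟨23, by decide, Finset.empty_subset _⟩, cx_down L0⟩

theorem mask_pow (v : Fin 9) : mk (2 ^ v.val) = {v} := by
  have := mk_or_pow 0 v
  rw [Nat.zero_or] at this
  rw [this]
  ext i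
  simp [mem_mk]

theorem mask_zero : mk 0 = ∅ := by
  ext i
  simp [mem_mk]

theorem blocked_check : ∀ u w : Fin 9, u ≠ w → ∃ z : Fin 9, z ≠ u ∧ z ≠ w ∧
    (∃ F ∈ L0, (2 ^ z.val ||| 2 ^ u.val) &&& F = 2 ^ z.val ||| 2 ^ u.val) ∧
    (∃ F ∈ L0, (2 ^ z.val ||| 2 ^ w.val) &&& F = 2 ^ z.val ||| 2 ^ w.val) ∧
    ¬ (∃ F ∈ L0, ((2 ^ z.val ||| 2 ^ w.val) ||| 2 ^ u.val) &&& F =
      (2 ^ z.val ||| 2 ^ w.val) ||| 2 ^ u.val) := by
  decide +kernel

theorem base_blocked : Blocked 2 base := by
  intro S _ hc
  obtain ⟨u, w, huw, rfl⟩ := Finset.card_eq_two.1 hc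
  obtain ⟨z, hzu, hzw, h1, h2, h3⟩ := blocked_check u w huw
  refine ⟨u, by simp, w, by simp, {z}, by simpa using hzu.symm, by simpa using hzw.symm, ?_, ?_, ?_⟩
  · rw [← mask_pow z, ← mk_or_pow]
    exact (mem_cx (or_lt (two_pow_lt z) (two_pow_lt u))).2 h1
  · rw [← mask_pow z, ← mk_or_pow]
    exact (mem_cx (or_lt (two_pow_lt z) (two_pow_lt w))).2 h2
  · rw [← mask_pow z, ← mk_or_pow, ← mk_or_pow]
    intro h
    exact h3 ((mem_cx (or_lt (or_lt (two_pow_lt z) (two_pow_lt w)) (two_pow_lt u))).1 h)

/-- The intervals of a rank two decomposition of the base complex. -/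
def Dlist : List (ℕ × ℕ) :=
  [(0, 3), (4, 7), (8, 13), (16, 19), (20, 23), (32, 37), (40, 45), (48, 53), (24, 57),
  (64, 67), (80, 83), (68, 86), (96, 116), (128, 131), (136, 172), (72, 204), (132, 228),
  (160, 240), (256, 259), (260, 263), (264, 269), (10, 270), (272, 281), (34, 298), (288,
  312), (320, 337), (384, 387), (192, 449), (144, 464)]

theorem dlist_check1 : ∀ p ∈ Dlist, p.1 < 512 ∧ p.2 < 512 ∧ p.1 &&& p.2 = p.1 ∧
    (mk p.2 \ mk p.1).card = 2 ∧ ∃ F ∈ L0, p.2 &&& F = p.2 := by
  decide +kernel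

theorem dlist_check2 : ((List.range 512).all fun m =>
    !(L0.any fun F => decide (m &&& F = m)) ||
      (Dlist.any fun p => decide (p.1 &&& m = p.1) && decide (m &&& p.2 = m) &&
        Dlist.all fun q => !(decide (q.1 &&& m = q.1) && decide (m &&& q.2 = m)) ||
          decide (q = p))) = true := by
  decide +kernel

theorem base_decomp : IsDecomposition 2 base {p | ∃ q ∈ Dlist, p = (mk q.1, mk q.2)} := by
  refine ⟨?_, ?_⟩
  · rintro p ⟨q, hq, rfl⟩
    obtain ⟨h1, h2, h3, h4, h5⟩ := dlist_check1 q hq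
    exact ⟨mk_sub_of h3, h4, (mem_cx h2).2 h5⟩
  · intro σ hσ
    obtain ⟨m, hm, rfl⟩ := exists_mk σ
    have h := dlist_check2
    rw [List.all_eq_true] at h
    have h1 := h m (List.mem_range.2 hm)
    have h2 := (mem_cx hm).1 hσ
    simp only [Bool.or_eq_true, Bool.not_eq_true', List.any_eq_true, Bool.and_eq_true,
      decide_eq_true_eq, List.all_eq_true] at h1
    rcases h1 with h1 | ⟨p, hp, ⟨hp1, hp2⟩, hp3⟩
    · exfalso
      obtain ⟨F, hF, h3⟩ := h2
      rw [List.any_eq_false] at h1
      exact h1 F hF (by simpa using h3)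
    · refine ⟨(mk p.1, mk p.2), ⟨⟨p, hp, rfl⟩, mk_sub_of hp1, mk_sub_of hp2⟩, ?_⟩
      rintro r ⟨⟨q, hq, rfl⟩, h3, h4⟩
      have h5 := of_mk_sub (dlist_check1 q hq).1 h3
      have h6 := of_mk_sub hm h4
      rcases hp3 q hq with h7 | h7
      · rw [Bool.and_eq_false_iff] at h7
        rcases h7 with h7 | h7
        · exact absurd h5 (by simpa using h7)
        · exact absurd h6 (by simpa using h7)
      · rw [h7]

theorem base_links (σ : Finset (Fin 9)) (hσ : σ.card < 2) : Void (link base σ) := by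
  have h0 : σ.card = 0 ∨ σ.card = 1 := by omega
  rcases h0 with h | h
  · rw [Finset.card_eq_zero] at h
    rw [h, ← mask_zero]
    unfold base
    have h1 : link (cx L0) (mk 0) = fam C0 := link_eq_of_lchk (by norm_num) v0 l0
    rw [h1]
    exact void_of_vchk v0
  · obtain ⟨v, rfl⟩ := Finset.card_eq_one.1 h
    rw [← mask_pow v]
    unfold base
    fin_cases v
    · have h1 := link_eq_of_lchk (by norm_num) v1 l1
      exact h1 ▸ void_of_vchk v1
    · have h1 := link_eq_of_lchk (by norm_num) v2 l2
      exact h1 ▸ void_of_vchk v2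
    · have h1 := link_eq_of_lchk (by norm_num) v4 l4
      exact h1 ▸ void_of_vchk v4
    · have h1 := link_eq_of_lchk (by norm_num) v8 l8
      exact h1 ▸ void_of_vchk v8
    · have h1 := link_eq_of_lchk (by norm_num) v16 l16
      exact h1 ▸ void_of_vchk v16
    · have h1 := link_eq_of_lchk (by norm_num) v32 l32
      exact h1 ▸ void_of_vchk v32
    · have h1 := link_eq_of_lchk (by norm_num) v64 l64
      exact h1 ▸ void_of_vchk v64
    · have h1 := link_eq_of_lchk (by norm_num) v128 l128
      exact h1 ▸ void_of_vchk v128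
    · have h1 := link_eq_of_lchk (by norm_num) v256 l256
      exact h1 ▸ void_of_vchk v256

theorem cx_single : cx L12 = simplex (mk 178) := by
  ext σ
  simp [cx, L12, simplex]

theorem base_chain : Relation.ReflTransGen Ex base (simplex (mk 178)) := by
  rw [← cx_single]
  exact chain_base

section Transfer

variable {U U' : Type*} [DecidableEq U] [DecidableEq U'] [Fintype U] [Fintype U']

/-- Relabelling of vertices. -/
def tr (e : U ≃ U') (Δ : Set (Finset U)) : Set (Finset U') :=
  {σ | σ.map e.symm.toEmbedding ∈ Δ}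

theorem tr_complex (e : U ≃ U') {Δ : Set (Finset U)} (h : IsComplex Δ) : IsComplex (tr e Δ) := by
  refine ⟨?_, ?_⟩
  · show (∅ : Finset U').map _ ∈ Δ
    rw [Finset.map_empty]
    exact h.1
  · intro σ hσ τ hτ
    exact h.2 _ hσ _ (Finset.map_subset_map.2 hτ)

theorem tr_homeo (e : U ≃ U') (Δ : Set (Finset U)) :
    Nonempty (realization (tr e Δ) ≃ₜ realization Δ) := by
  have hmem : ∀ x : U' → ℝ, x ∈ realization (tr e Δ) ↔ (fun u => x (e u)) ∈ realization Δ := by
    intro x
    have hs : (Finset.univ.filter fun v => x v ≠ 0).map e.symm.toEmbedding =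
        Finset.univ.filter fun u => x (e u) ≠ 0 := by
      ext u
      simp only [Finset.mem_map, Finset.mem_filter, Finset.mem_univ, true_and,
        Equiv.coe_toEmbedding]
      constructor
      · rintro ⟨v, hv, rfl⟩
        simpa using hv
      · intro hu
        exact ⟨e u, hu, by simp⟩
    unfold realization tr
    simp only [Set.mem_setOf_eq, hs]
    constructor
    · rintro ⟨h1, h2, h3⟩
      exact ⟨fun u => h1 _, by rw [← h2]; exact e.sum_comp x, h3⟩
    · rintro ⟨h1, h2, h3⟩
      refine ⟨fun v => ?_, by rw [← h2]; exact (e.sum_comp x).symm, h3⟩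
      have := h1 (e.symm v)
      simpa using this
  refine ⟨
    { toFun := fun x => ⟨fun u => x.1 (e u), (hmem x.1).1 x.2⟩
      invFun := fun y => ⟨fun v => y.1 (e.symm v), (hmem _).2 (by
        have : (fun u => y.1 (e.symm (e u))) = y.1 := by
          funext u
          simp
        simp only [this]
        exact y.2)⟩
      left_inv := fun x => by
        apply Subtype.ext
        funext v
        simp
      right_inv := fun y => by
        apply Subtype.ext
        funext u
        simp
      continuous_toFun := ?_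
      continuous_invFun := ?_ }⟩
  · refine Continuous.subtype_mk (continuous_pi fun u => ?_) _
    exact (continuous_apply (e u)).comp continuous_subtype_val
  · refine Continuous.subtype_mk (continuous_pi fun v => ?_) _
    exact (continuous_apply (e.symm v)).comp continuous_subtype_val

theorem map_symm_eq_iff (e : U ≃ U') {σ : Finset U'} {τ : Finset U} :
    σ.map e.symm.toEmbedding = τ ↔ σ = τ.map e.toEmbedding := by
  constructor
  · rintro rfl
    ext x
    simp
  · rintro rfl
    ext x
    simp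

theorem Void.tr (e : U ≃ U') {Δ : Set (Finset U)} (h : Void Δ) : Void (tr e Δ) := by
  induction h with
  | empty =>
    have : Pool.Agent.H12.Ball.tr e (∅ : Set (Finset U)) = ∅ := by
      ext x
      simp [Pool.Agent.H12.Ball.tr]
    rw [this]
    exact Void.empty
  | step Δ σ v hv hfree hΔ ih =>
    have key : Pool.Agent.H12.Ball.tr e (insert σ (insert (insert v σ) Δ)) =
        insert (σ.map e.toEmbedding) (insert (insert (e v) (σ.map e.toEmbedding))
          (Pool.Agent.H12.Ball.tr e Δ)) := by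
      ext τ
      have h1 : insert (e v) (σ.map e.toEmbedding) = (insert v σ).map e.toEmbedding := by
        rw [Finset.map_insert]
        rfl
      rw [h1]
      simp only [Pool.Agent.H12.Ball.tr, Set.mem_setOf_eq, Set.mem_insert_iff, map_symm_eq_iff]
    rw [key]
    refine Void.step _ _ _ ?_ ?_ ih
    · simpa using hv
    · intro τ hτ hs
      apply hfree _ hτ
      intro x hx
      have : e x ∈ τ := hs (Finset.mem_map_of_mem _ hx)
      rw [Finset.mem_map]
      exact ⟨e x, this, by simp⟩

theorem link_tr (e : U ≃ U') (Δ : Set (Finset U)) (σ : Finset U') :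
    link (tr e Δ) σ = tr e (link Δ (σ.map e.symm.toEmbedding)) := by
  ext τ
  simp only [link, tr, Set.mem_setOf_eq, Finset.map_union, Finset.disjoint_map]

theorem decomp_tr (e : U ≃ U') {k : ℕ} {Δ : Set (Finset U)} {D : Set (Finset U × Finset U)}
    (hD : IsDecomposition k Δ D) : IsDecomposition k (tr e Δ)
      {p | (p.1.map e.symm.toEmbedding, p.2.map e.symm.toEmbedding) ∈ D} := by
  refine ⟨?_, ?_⟩
  · intro p hp
    obtain ⟨h1, h2, h3⟩ := hD.1 _ hp
    refine ⟨Finset.map_subset_map.1 h1, ?_, h3⟩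
    rw [← h2, ← Finset.card_map e.symm.toEmbedding]
    congr 1
    ext x
    simp
  · intro σ hσ
    obtain ⟨p, ⟨hp, h1, h2⟩, hu⟩ := hD.2 _ hσ
    have hp1 : (p.1.map e.toEmbedding).map e.symm.toEmbedding = p.1 := by
      rw [map_symm_eq_iff]
    have hp2 : (p.2.map e.toEmbedding).map e.symm.toEmbedding = p.2 := by
      rw [map_symm_eq_iff]
    refine ⟨(p.1.map e.toEmbedding, p.2.map e.toEmbedding), ⟨?_, ?_, ?_⟩, ?_⟩
    · show ((p.1.map e.toEmbedding).map e.symm.toEmbedding,
        (p.2.map e.toEmbedding).map e.symm.toEmbedding) ∈ D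
      rw [hp1, hp2]
      exact hp
    · rw [← Finset.map_subset_map (f := e.symm.toEmbedding)]
      simp only
      rw [hp1]
      exact h1
    · rw [← Finset.map_subset_map (f := e.symm.toEmbedding)]
      simp only
      rw [hp2]
      exact h2
    · rintro q ⟨hq, h3, h4⟩
      have := hu _ ⟨hq, Finset.map_subset_map.2 h3, Finset.map_subset_map.2 h4⟩
      rw [← this]
      apply Prod.ext
      · exact (map_symm_eq_iff e).1 rfl
      · exact (map_symm_eq_iff e).1 rfl

theorem tr_symm_tr (e : U ≃ U') (Δ : Set (Finset U)) : tr e.symm (tr e Δ) = Δ := by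
  ext σ
  simp only [tr, Set.mem_setOf_eq, Equiv.symm_symm]
  rw [(map_symm_eq_iff e).2 rfl]

theorem good_tr (e : U ≃ U') {k : ℕ} {Δ : Set (Finset U)} {D : Set (Finset U × Finset U)}
    (hD : Good k Δ D) : ∃ D', Good k (tr e Δ) D' := by
  refine ⟨_, decomp_tr e hD.1, ?_⟩
  rintro x ⟨y, hy⟩ t ht
  obtain ⟨z, hz⟩ := hD.2 _ ⟨_, hy⟩ (t.map e.symm.toEmbedding) (Finset.map_subset_map.2 ht)
  refine ⟨z.map e.toEmbedding, ?_⟩
  show (t.map e.symm.toEmbedding, (z.map e.toEmbedding).map e.symm.toEmbedding) ∈ D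
  rw [(map_symm_eq_iff e).2 rfl]
  exact hz

end Transfer

theorem full_down (J : Type*) : Down (full J) := fun _ _ _ _ => trivial

theorem link_down {V : Type*} [DecidableEq V] {Δ : Set (Finset V)} (h : Down Δ) (σ : Finset V) :
    Down (link Δ σ) := by
  rintro τ ⟨h1, h2, h3⟩ ρ hρ
  exact ⟨h _ h1 _ hρ, h _ h2 _ (Finset.union_subset_union_left hρ),
    Finset.disjoint_of_subset_left hρ h3⟩

/-- The links in the cone. -/
theorem cone_links (j : ℕ) (σ : Finset (Fin j ⊕ Fin 9)) (hσ : σ.card < j + 2) :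
    Void (link (join (full (Fin j)) base) σ) := by
  rw [link_join]
  by_cases hz : ∃ z, z ∉ σ.toLeft
  · obtain ⟨z, hz⟩ := hz
    refine void_cone (Down.join (link_down (full_down _) _) (link_down (cx_down L0) _))
      (Sum.inl z) ?_
    rintro τ ⟨h1, h2⟩
    have hl : (insert (Sum.inl z) τ).toLeft = insert z τ.toLeft := by
      ext x
      simp
    have hr : (insert (Sum.inl z) τ).toRight = τ.toRight := by
      ext x
      simp
    refine ⟨?_, ?_⟩
    · rw [hl]
      refine ⟨trivial, trivial, ?_⟩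
      rw [Finset.disjoint_insert_left]
      exact ⟨hz, h1.2.2⟩
    · rw [hr]
      exact h2
  · push Not at hz
    have h1 : σ.toLeft = Finset.univ := by
      ext x
      simp [hz x]
    apply Void.join
    apply base_links
    have h2 := Finset.card_toLeft_add_card_toRight (u := σ)
    rw [h1, Finset.card_univ, Fintype.card_fin] at h2
    omega

/-- The general example, before relabelling. -/
def exampleComplex (j m : ℕ) : Set (Finset ((Fin m × Bool) ⊕ (Fin j ⊕ Fin 9))) :=
  join (cross (Finset.univ : Finset (Fin m))) (join (full (Fin j)) base)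

theorem cone_complex (j : ℕ) : IsComplex (join (full (Fin j)) base) := by
  refine ⟨⟨trivial, ?_⟩, (full_down _).join (cx_down L0)⟩
  have : (∅ : Finset (Fin j ⊕ Fin 9)).toRight = ∅ := by
    ext x
    simp
  rw [this]
  exact base_complex.1

theorem example_complex (j m : ℕ) : IsComplex (exampleComplex j m) := by
  refine ⟨⟨?_, ?_⟩, (cross_down _).join (cone_complex j).2⟩
  · intro q hq
    simp at hq
  · have : (∅ : Finset ((Fin m × Bool) ⊕ (Fin j ⊕ Fin 9))).toRight = ∅ := by
      ext x
      simp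
    rw [this]
    exact (cone_complex j).1

theorem example_links (j m : ℕ) (σ : Finset ((Fin m × Bool) ⊕ (Fin j ⊕ Fin 9)))
    (hσ : σ.card < j + 2) : Void (link (exampleComplex j m) σ) := by
  unfold exampleComplex
  rw [link_join]
  apply Void.join
  apply cone_links
  have h2 := Finset.card_toLeft_add_card_toRight (u := σ)
  omega

theorem full_join_simplex (j : ℕ) (F : Finset (Fin 9)) :
    join (full (Fin j)) (simplex F) = simplex ((Finset.univ : Finset (Fin j)).disjSum F) := by
  ext σ
  constructor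
  · rintro ⟨_, h2⟩ x hx
    rcases x with x | x
    · simp
    · rw [Finset.inr_mem_disjSum]
      exact h2 (Finset.mem_toRight.2 hx)
  · intro h
    refine ⟨trivial, fun x hx => ?_⟩
    exact Finset.inr_mem_disjSum.1 (h (Finset.mem_toRight.1 hx))

theorem example_ball (j m : ℕ) : Nonempty (realization (exampleComplex j m) ≃ₜ
    Metric.closedBall (0 : EuclideanSpace ℝ (Fin (j + m + 3))) 1) := by
  have h1 := chain_join (cross_down (Finset.univ : Finset (Fin m)))
    (chain_join (full_down (Fin j)) base_chain)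
  obtain ⟨h2⟩ := homeo_of_chain h1
  rw [full_join_simplex] at h2
  obtain ⟨h3⟩ := cross_simplex_ball (I := Fin m)
    (F := (Finset.univ : Finset (Fin j)).disjSum (mk 178))
    (by
      have : (1 : Fin 9) ∈ mk 178 := by decide
      exact ⟨Sum.inr 1, Finset.inr_mem_disjSum.2 this⟩)
    (d := j + m + 3) (by
      have : (mk 178).card = 4 := by decide
      rw [Finset.card_disjSum, this, Finset.card_univ, Fintype.card_fin, Fintype.card_fin]
      omega)
  exact ⟨h2.trans h3⟩

theorem main (k d : ℕ) (hk : 2 ≤ k) (hkd : k < d) :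
    ∃ (n : ℕ) (Δ : Set (Finset (Fin n))), IsSimplicialBall d Δ ∧
      (∀ (𝕜 : Type*) [Field 𝕜], KFoldAcyclic 𝕜 k Δ) ∧
      (∃ D, IsDecomposition k Δ D) ∧
      ¬ ∃ D, IsDecomposition k Δ D ∧ IsComplex (bottoms D) := by
  obtain ⟨j, rfl⟩ : ∃ j, k = j + 2 := ⟨k - 2, by omega⟩
  obtain ⟨m, rfl⟩ : ∃ m, d = j + m + 3 := ⟨d - j - 3, by omega⟩
  let U := (Fin m × Bool) ⊕ (Fin j ⊕ Fin 9)
  let e : U ≃ Fin (Fintype.card U) := Fintype.equivFin U
  refine ⟨Fintype.card U, tr e (exampleComplex j m), ⟨?_, ?_⟩, ?_, ?_, ?_⟩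
  · exact tr_complex e (example_complex j m)
  · obtain ⟨h1⟩ := tr_homeo e (exampleComplex j m)
    obtain ⟨h2⟩ := example_ball j m
    exact ⟨h1.trans h2⟩
  · intro 𝕜 _ σ _ hc
    rw [link_tr]
    refine Void.acyclic (Void.tr e (example_links j m _ ?_)) ?_
    · rw [Finset.card_map]
      exact hc
    · rw [← link_tr]
      exact link_down (tr_complex e (example_complex j m)).2 _
  · obtain ⟨D1, hD1⟩ := decomp_cone (J := Fin j) base_decomp
    obtain ⟨D2, hD2⟩ := decomp_join (cross (Finset.univ : Finset (Fin m))) hD1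
    rw [Fintype.card_fin] at hD2
    exact ⟨_, decomp_tr e hD2⟩
  · rintro ⟨D, hD, hb⟩
    obtain ⟨D', hD'⟩ := good_tr e.symm (⟨hD, hb.2⟩ : Good (j + 2) _ D)
    rw [tr_symm_tr] at hD'
    have hB := blocked_cone (J := Fin j) (cx_down L0) base_blocked
    rw [Fintype.card_fin] at hB
    exact no_good_join (cone_complex j) hB _ _ rfl D' hD'

end Pool.Agent.H12.Ball
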