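import Pool.Agent.H12.BallExchange
import Pool.Agent.H12.BallAcyclic

set_option linter.unusedSectionVars false

namespace Pool.Agent.H12.Ball

open Finset

/-- The set of positions of the binary digits 1 of `m`. -/
def mk (m : ℕ) : Finset (Fin 9) := Finset.univ.filter (fun i => m.testBit i.val = true)

theorem mem_mk {m : ℕ} {i : Fin 9} : i ∈ mk m ↔ m.testBit i.val = true := by
  simp [mk]

theorem testBit_ge {m : ℕ} (hm : m < 512) {i : ℕ} (hi : 9 ≤ i) : m.testBit i = false := by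
  apply Nat.testBit_lt_two_pow
  calc m < 512 := hm
    _ = 2 ^ 9 := by norm_num
    _ ≤ 2 ^ i := Nat.pow_le_pow_right (by norm_num) hi

theorem mk_sub_of {m F : ℕ} (h : m &&& F = m) : mk m ⊆ mk F := by
  intro i hi
  rw [mem_mk] at hi ⊢
  rw [← h, Nat.testBit_and] at hi
  simp only [Bool.and_eq_true] at hi
  exact hi.2

theorem of_mk_sub {m F : ℕ} (hm : m < 512) (h : mk m ⊆ mk F) : m &&& F = m := by
  apply Nat.eq_of_testBit_eq
  intro i
  rw [Nat.testBit_and]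
  by_cases hi : i < 9
  · by_cases h1 : m.testBit i = true
    · have : (⟨i, hi⟩ : Fin 9) ∈ mk m := mem_mk.2 h1
      have := mem_mk.1 (h this)
      simp only at this
      rw [h1, this]
      rfl
    · simp only [Bool.not_eq_true] at h1
      rw [h1]
      rfl
  · rw [testBit_ge hm (not_lt.1 hi)]
    rfl

theorem mk_inj {m F : ℕ} (hm : m < 512) (hF : F < 512) (h : mk m = mk F) : m = F := by
  have h1 := of_mk_sub hm h.subset
  have h2 := of_mk_sub hF h.symm.subset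
  rw [Nat.land_comm] at h2
  rw [← h1, h2]

theorem exists_mk (σ : Finset (Fin 9)) : ∃ m < 512, mk m = σ := by
  refine ⟨Nat.ofBits (fun i : Fin 9 => decide (i ∈ σ)), Nat.ofBits_lt_two_pow _, ?_⟩
  ext i
  rw [mem_mk, Nat.testBit_ofBits_lt _ _ i.2]
  simp

theorem mk_or (m s : ℕ) : mk (m ||| s) = mk m ∪ mk s := by
  ext i
  rw [Finset.mem_union, mem_mk, mem_mk, mem_mk, Nat.testBit_or]
  simp

theorem mk_or_pow (m : ℕ) (v : Fin 9) : mk (m ||| 2 ^ v.val) = insert v (mk m) := by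
  ext i
  rw [Finset.mem_insert, mem_mk, mem_mk, Nat.testBit_or, Nat.testBit_two_pow]
  simp only [Bool.or_eq_true, decide_eq_true_eq]
  rw [or_comm]
  constructor
  · rintro (h | h)
    · exact Or.inl (Fin.ext h.symm)
    · exact Or.inr h
  · rintro (h | h)
    · exact Or.inl (by rw [h])
    · exact Or.inr h

theorem mk_disjoint {m s : ℕ} (h : m &&& s = 0) : Disjoint (mk m) (mk s) := by
  rw [Finset.disjoint_left]
  intro i hi hs
  rw [mem_mk] at hi hs
  have : (m &&& s).testBit i.val = true := by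
    rw [Nat.testBit_and, hi, hs]
    rfl
  rw [h] at this
  simp at this

theorem and_eq_zero_of_disjoint {m s : ℕ} (hm : m < 512) (h : Disjoint (mk m) (mk s)) :
    m &&& s = 0 := by
  apply Nat.eq_of_testBit_eq
  intro i
  rw [Nat.testBit_and, Nat.zero_testBit]
  by_cases hi : i < 9
  · by_contra hne
    simp only [Bool.not_eq_false, Bool.and_eq_true] at hne
    exact Finset.disjoint_left.1 h (mem_mk.2 hne.1 : (⟨i, hi⟩ : Fin 9) ∈ mk m) (mem_mk.2 hne.2)
  · rw [testBit_ge hm (not_lt.1 hi)]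
    rfl

/-- The complex with facets given by the masks in `L`. -/
def cx (L : List ℕ) : Set (Finset (Fin 9)) := {σ | ∃ F ∈ L, σ ⊆ mk F}

theorem cx_down (L : List ℕ) : ∀ σ ∈ cx L, ∀ τ, τ ⊆ σ → τ ∈ cx L := by
  rintro σ ⟨F, hF, h⟩ τ hτ
  exact ⟨F, hF, hτ.trans h⟩

theorem mem_cx {L : List ℕ} {m : ℕ} (hm : m < 512) :
    mk m ∈ cx L ↔ ∃ F ∈ L, m &&& F = m := by
  constructor
  · rintro ⟨F, hF, h⟩
    exact ⟨F, hF, of_mk_sub hm h⟩
  · rintro ⟨F, hF, h⟩
    exact ⟨F, hF, mk_sub_of h⟩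

/-- The check for an exchange of masks. -/
def Chk (L L' : List ℕ) (A B : ℕ) : Prop :=
  A &&& B = 0 ∧ A ≠ 0 ∧ B ≠ 0 ∧ A < 512 ∧ B < 512 ∧
  (∀ F ∈ L, B &&& F ≠ B) ∧ (∀ F ∈ L', A &&& F ≠ A) ∧
  (∀ F ∈ L, ∀ a ∈ List.range 9, A.testBit a = true → ∃ G ∈ L', F &&& (G ||| 2 ^ a) = F) ∧
  (∀ F ∈ L', ∀ a ∈ List.range 9, B.testBit a = true → ∃ G ∈ L, F &&& (G ||| 2 ^ a) = F) ∧
  (∀ F ∈ L, A &&& F = A → ∀ a ∈ List.range 9, A.testBit a = true →
    ∃ G ∈ L', F &&& (G ||| 2 ^ a) = F ∧ B &&& G = B) ∧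
  (∀ F ∈ L', B &&& F = B → ∀ a ∈ List.range 9, B.testBit a = true →
    ∃ G ∈ L, F &&& (G ||| 2 ^ a) = F ∧ A &&& G = A)

instance (L L' : List ℕ) (A B : ℕ) : Decidable (Chk L L' A B) := by
  unfold Chk
  infer_instance

theorem mk_nonempty {A : ℕ} (h : A ≠ 0) (hA : A < 512) : (mk A).Nonempty := by
  rw [Finset.nonempty_iff_ne_empty]
  intro he
  apply h
  apply mk_inj hA (by norm_num)
  rw [he]
  ext i
  simp [mem_mk]

theorem sub_insert_erase {F G : ℕ} {a : Fin 9} (h : F &&& (G ||| 2 ^ a.val) = F) :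
    (mk F).erase a ⊆ mk G := by
  have h1 := mk_sub_of h
  rw [mk_or_pow] at h1
  intro i hi
  rw [Finset.mem_erase] at hi
  rcases Finset.mem_insert.1 (h1 hi.2) with h2 | h2
  · exact absurd h2 hi.1
  · exact h2

theorem exchange_of_chk {L L' : List ℕ} {A B : ℕ} (h : Chk L L' A B) :
    Exchange (cx L) (cx L') (mk A) (mk B) := by
  obtain ⟨h0, hA0, hB0, hA, hB, h1, h2, h3, h4, h5, h6⟩ := h
  refine ⟨mk_nonempty hA0 hA, mk_nonempty hB0 hB, mk_disjoint h0, cx_down L, cx_down L',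
    ?_, ?_, ?_, ?_, ?_, ?_⟩
  · rintro σ ⟨F, hF, hσ⟩ hs
    exact h1 F hF (of_mk_sub hB (hs.trans hσ))
  · rintro σ ⟨F, hF, hσ⟩ hs
    exact h2 F hF (of_mk_sub hA (hs.trans hσ))
  · rintro σ ⟨F, hF, hσ⟩ hs
    rw [Finset.not_subset] at hs
    obtain ⟨a, ha, has⟩ := hs
    obtain ⟨G, hG, hFG⟩ := h3 F hF a.val (List.mem_range.2 a.2) (mem_mk.1 ha)
    refine ⟨G, hG, fun i hi => sub_insert_erase hFG ?_⟩
    rw [Finset.mem_erase]
    exact ⟨fun h => has (h ▸ hi), hσ hi⟩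
  · rintro σ ⟨F, hF, hσ⟩ hs
    rw [Finset.not_subset] at hs
    obtain ⟨a, ha, has⟩ := hs
    obtain ⟨G, hG, hFG⟩ := h4 F hF a.val (List.mem_range.2 a.2) (mem_mk.1 ha)
    refine ⟨G, hG, fun i hi => sub_insert_erase hFG ?_⟩
    rw [Finset.mem_erase]
    exact ⟨fun h => has (h ▸ hi), hσ hi⟩
  · rintro σ ⟨F, hF, hσ⟩ hs a ha
    obtain ⟨G, hG, hFG, hBG⟩ := h5 F hF (of_mk_sub hA (hs.trans hσ)) a.val
      (List.mem_range.2 a.2) (mem_mk.1 ha)
    refine ⟨G, hG, Finset.union_subset ?_ (mk_sub_of hBG)⟩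
    exact (Finset.erase_subset_erase a hσ).trans (sub_insert_erase hFG)
  · rintro σ ⟨F, hF, hσ⟩ hs a ha
    obtain ⟨G, hG, hFG, hBG⟩ := h6 F hF (of_mk_sub hB (hs.trans hσ)) a.val
      (List.mem_range.2 a.2) (mem_mk.1 ha)
    refine ⟨G, hG, Finset.union_subset ?_ (mk_sub_of hBG)⟩
    exact (Finset.erase_subset_erase a hσ).trans (sub_insert_erase hFG)

/-- The family given by a list of collapses. -/
def fam : List (ℕ × Fin 9) → Set (Finset (Fin 9))
  | [] => ∅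
  | p :: C => insert (mk p.1) (insert (insert p.2 (mk p.1)) (fam C))

/-- The check for a list of collapses. -/
def vchk : List (ℕ × Fin 9) → Bool
  | [] => true
  | p :: C => !(p.1.testBit p.2.val) && decide (p.1 < 512) &&
      C.all (fun q => (p.1 &&& q.1 != p.1) && (p.1 &&& (q.1 ||| 2 ^ q.2.val) != p.1)) && vchk C

theorem mem_fam {C : List (ℕ × Fin 9)} {τ : Finset (Fin 9)} :
    τ ∈ fam C ↔ ∃ p ∈ C, τ = mk p.1 ∨ τ = mk (p.1 ||| 2 ^ p.2.val) := by
  induction C with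
  | nil => simp [fam]
  | cons p C ih =>
    simp only [fam, Set.mem_insert_iff, List.mem_cons, exists_eq_or_imp, ih, mk_or_pow]
    rw [or_assoc]

theorem void_of_vchk {C : List (ℕ × Fin 9)} (h : vchk C = true) : Void (fam C) := by
  induction C with
  | nil => exact Void.empty
  | cons p C ih =>
    simp only [vchk, Bool.and_eq_true, Bool.not_eq_true', decide_eq_true_eq, List.all_eq_true,
      bne_iff_ne, ne_eq] at h
    obtain ⟨⟨⟨h1, h2⟩, h3⟩, h4⟩ := h
    refine Void.step (fam C) (mk p.1) p.2 ?_ ?_ (ih h4)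
    · rw [mem_mk, h1]
      simp
    · intro τ hτ hs
      obtain ⟨q, hq, hq2 | hq2⟩ := mem_fam.1 hτ
      · exact (h3 q hq).1 (of_mk_sub h2 (hq2 ▸ hs))
      · exact (h3 q hq).2 (of_mk_sub h2 (hq2 ▸ hs))

/-- The check that a list of collapses lists exactly the link of `s`. -/
def lchk (L : List ℕ) (s : ℕ) (C : List (ℕ × Fin 9)) : Bool :=
  (List.range 512).all fun m =>
    (decide (m &&& s = 0) && L.any fun F => decide ((m ||| s) &&& F = m ||| s)) ==
      C.any fun p => decide (m = p.1) || decide (m = p.1 ||| 2 ^ p.2.val)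

theorem or_lt {m s : ℕ} (hm : m < 512) (hs : s < 512) : m ||| s < 512 :=
  Nat.or_lt_two_pow (n := 9) hm hs

theorem two_pow_lt (v : Fin 9) : 2 ^ v.val < 512 := by
  calc 2 ^ v.val < 2 ^ 9 := Nat.pow_lt_pow_right (by norm_num) v.2
    _ = 512 := by norm_num

theorem link_eq_of_lchk {L : List ℕ} {s : ℕ} {C : List (ℕ × Fin 9)} (hs : s < 512)
    (hC : vchk C = true)
    (h : lchk L s C = true) : link (cx L) (mk s) = fam C := by
  have hC' : ∀ p ∈ C, p.1 < 512 := by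
    clear h
    induction C with
    | nil => simp
    | cons p C ih =>
      simp only [vchk, Bool.and_eq_true, Bool.not_eq_true', decide_eq_true_eq] at hC
      intro q hq
      rcases List.mem_cons.1 hq with rfl | hq
      · exact hC.1.1.2
      · exact ih hC.2 q hq
  ext τ
  obtain ⟨m, hm, rfl⟩ := exists_mk τ
  unfold lchk at h
  rw [List.all_eq_true] at h
  have := h m (List.mem_range.2 hm)
  rw [beq_iff_eq] at this
  have h2 : (m &&& s = 0 ∧ ∃ F ∈ L, (m ||| s) &&& F = m ||| s) ↔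
      ∃ p ∈ C, m = p.1 ∨ m = p.1 ||| 2 ^ p.2.val := by
    rw [Bool.eq_iff_iff] at this
    simpa [List.any_eq_true] using this
  rw [mem_fam]
  constructor
  · rintro ⟨_, h3, h4⟩
    rw [← mk_or] at h3
    obtain ⟨p, hp, hp2⟩ := h2.1 ⟨and_eq_zero_of_disjoint hm h4,
      (mem_cx (or_lt hm hs)).1 h3⟩
    refine ⟨p, hp, ?_⟩
    rcases hp2 with h5 | h5
    · exact Or.inl (by rw [h5])
    · exact Or.inr (by rw [h5])
  · rintro ⟨p, hp, hp2⟩
    have h5 : m = p.1 ∨ m = p.1 ||| 2 ^ p.2.val := by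
      rcases hp2 with h5 | h5
      · exact Or.inl (mk_inj hm (hC' p hp) h5)
      · exact Or.inr (mk_inj hm (or_lt (hC' p hp) (two_pow_lt p.2)) h5)
    obtain ⟨h6, h7⟩ := h2.2 ⟨p, hp, h5⟩
    have h8 := (mem_cx (or_lt hm hs)).2 h7
    rw [mk_or] at h8
    exact ⟨cx_down L _ h8 _ Finset.subset_union_left, h8, mk_disjoint h6⟩

end Pool.Agent.H12.Ball
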