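import Mathlib

/-!
Arithmetic in `ZMod (p^2)`: the multiplicative lift `om : ZMod p → ZMod (p^2)`.
-/

namespace Pool.Agent.H12.Sc

open Finset

variable {p : ℕ} [hp : Fact p.Prime]

/-- reduction map `ZMod (p^2) → ZMod p`. -/
noncomputable def red (p : ℕ) : ZMod (p ^ 2) →+* ZMod p :=
  ZMod.castHom (dvd_pow_self p two_ne_zero) (ZMod p)

lemma red_natCast (k : ℕ) : red p (k : ZMod (p ^ 2)) = (k : ZMod p) := by
  simp [red]

lemma red_intCast (k : ℤ) : red p (k : ZMod (p ^ 2)) = (k : ZMod p) := by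
  simp [red]

lemma red_eq_zero_iff (r : ZMod (p ^ 2)) : red p r = 0 ↔ ∃ s, r = p * s := by
  constructor
  · intro h
    obtain ⟨k, rfl⟩ := ZMod.natCast_zmod_surjective r
    rw [red_natCast, ZMod.natCast_eq_zero_iff] at h
    obtain ⟨c, rfl⟩ := h
    exact ⟨c, by push_cast; ring⟩
  · rintro ⟨s, rfl⟩
    rw [map_mul, red_natCast]
    simp

omit hp in
lemma p_mul_p : (p : ZMod (p ^ 2)) * p = 0 := by
  have : ((p ^ 2 : ℕ) : ZMod (p ^ 2)) = 0 := ZMod.natCast_self _
  rw [← this]; push_cast; ring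

lemma mul_eq_zero_of_red {r s : ZMod (p ^ 2)} (hr : red p r = 0) (hs : red p s = 0) :
    r * s = 0 := by
  obtain ⟨a, rfl⟩ := (red_eq_zero_iff r).1 hr
  obtain ⟨b, rfl⟩ := (red_eq_zero_iff s).1 hs
  calc (p : ZMod (p ^ 2)) * a * (p * b) = (p * p) * (a * b) := by ring
    _ = 0 := by rw [p_mul_p, zero_mul]

lemma red_p : red p (p : ZMod (p ^ 2)) = 0 := by rw [red_natCast]; simp

lemma isUnit_iff_red {r : ZMod (p ^ 2)} : IsUnit r ↔ red p r ≠ 0 := by
  constructor
  · intro h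
    exact (h.map (red p)).ne_zero
  · intro h
    obtain ⟨k, rfl⟩ := ZMod.natCast_zmod_surjective r
    rw [red_natCast, Ne, ZMod.natCast_eq_zero_iff] at h
    rw [ZMod.isUnit_iff_coprime]
    exact (Nat.Coprime.pow_right 2 ((Nat.Prime.coprime_iff_not_dvd hp.out).2 h).symm)

lemma isUnit_natCast {k : ℕ} (h : ¬ p ∣ k) : IsUnit (k : ZMod (p ^ 2)) := by
  rw [isUnit_iff_red, red_natCast, Ne, ZMod.natCast_eq_zero_iff]
  exact h

/-- the `p`-th power only depends on the residue mod `p`. -/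
lemma pow_p_eq_of_red {r s : ZMod (p ^ 2)} (h : red p r = red p s) : r ^ p = s ^ p := by
  obtain ⟨a, rfl⟩ := ZMod.intCast_surjective r
  obtain ⟨b, rfl⟩ := ZMod.intCast_surjective s
  rw [red_intCast, red_intCast] at h
  have h1 : (p : ℤ) ∣ a - b := by
    rw [← ZMod.intCast_zmod_eq_zero_iff_dvd] 
    push_cast
    rw [h, sub_self]
  have h2 := dvd_sub_pow_of_dvd_sub h1 1
  rw [pow_one] at h2
  have h3 : ((a ^ p - b ^ p : ℤ) : ZMod (p ^ 2)) = 0 := by
    rw [ZMod.intCast_zmod_eq_zero_iff_dvd]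
    push_cast
    simpa using h2
  push_cast at h3
  exact sub_eq_zero.1 h3

/-- multiplicative lift. -/
noncomputable def om (p : ℕ) (t : ZMod p) : ZMod (p ^ 2) := ((t.val : ℕ) : ZMod (p ^ 2)) ^ p

lemma om_red (r : ZMod (p ^ 2)) : om p (red p r) = r ^ p := by
  unfold om
  apply pow_p_eq_of_red
  rw [red_natCast]
  exact ZMod.natCast_zmod_val _

lemma red_surj (t : ZMod p) : ∃ r : ZMod (p ^ 2), red p r = t :=
  ⟨(t.val : ZMod (p ^ 2)), by rw [red_natCast]; exact ZMod.natCast_zmod_val _⟩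

lemma red_om (t : ZMod p) : red p (om p t) = t := by
  obtain ⟨r, rfl⟩ := red_surj t
  rw [om_red, map_pow, ZMod.pow_card]

lemma om_mul (s t : ZMod p) : om p (s * t) = om p s * om p t := by
  obtain ⟨r, rfl⟩ := red_surj s
  obtain ⟨r', rfl⟩ := red_surj t
  rw [← map_mul, om_red, om_red, om_red, mul_pow]

lemma om_zero : om p 0 = 0 := by
  have := om_red (p := p) 0
  rw [map_zero] at this
  rw [this, zero_pow hp.out.ne_zero]

lemma om_one : om p 1 = 1 := by
  have := om_red (p := p) 1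
  rw [map_one] at this
  rw [this, one_pow]

lemma om_pow (t : ZMod p) (k : ℕ) : om p (t ^ k) = om p t ^ k := by
  induction k with
  | zero => simp [om_one]
  | succ k ih => rw [pow_succ t, om_mul, ih, ← pow_succ]

lemma om_neg_one (h2 : p ≠ 2) : om p (-1) = -1 := by
  have := om_red (p := p) (-1)
  rw [map_neg, map_one] at this
  rw [this, Odd.neg_one_pow (hp.out.odd_of_ne_two h2)]

lemma om_neg (h2 : p ≠ 2) (t : ZMod p) : om p (-t) = - om p t := by
  rw [neg_eq_neg_one_mul, om_mul, om_neg_one h2]; ring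

lemma om_pow_card_sub_one {t : ZMod p} (ht : t ≠ 0) : om p t ^ (p - 1) = 1 := by
  rw [← om_pow, ZMod.pow_card_sub_one_eq_one ht, om_one]

lemma om_pow_p (t : ZMod p) : om p t ^ p = om p t := by
  rw [← om_pow, ZMod.pow_card]

lemma om_mul_inv {t : ZMod p} (ht : t ≠ 0) : om p t * om p t⁻¹ = 1 := by
  rw [← om_mul, mul_inv_cancel₀ ht, om_one]

lemma isUnit_om {t : ZMod p} (ht : t ≠ 0) : IsUnit (om p t) := by
  rw [isUnit_iff_red, red_om]; exact ht

/-- Power sums of the lifts. -/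
lemma sum_om_pow_eq_zero {k : ℕ} (h : ¬ (p - 1) ∣ k) :
    ∑ t : ZMod p, om p t ^ k = 0 := by
  obtain ⟨g, hg⟩ := IsCyclic.exists_generator (α := (ZMod p)ˣ)
  have hg1 : orderOf g = p - 1 := by
    rw [orderOf_eq_card_of_forall_mem_zpowers hg, Nat.card_eq_fintype_card, ZMod.card_units]
  have hgk : ((g : ZMod p)) ^ k ≠ 1 := by
    intro h'
    apply h
    rw [← hg1]
    apply orderOf_dvd_of_pow_eq_one
    ext
    push_cast
    exact h'
  have hu : IsUnit (om p (g : ZMod p) ^ k - 1) := by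
    rw [isUnit_iff_red, map_sub, map_pow, red_om, map_one]
    exact sub_ne_zero.2 hgk
  have h1 : ∑ t : ZMod p, om p t ^ k = om p (g : ZMod p) ^ k * ∑ t : ZMod p, om p t ^ k := by
    rw [Finset.mul_sum]
    have : ∀ t : ZMod p, om p (g : ZMod p) ^ k * om p t ^ k = om p ((g : ZMod p) * t) ^ k := by
      intro t; rw [om_mul, mul_pow]
    simp_rw [this]
    exact (Equiv.sum_comp (Units.mulLeft g) (fun t => om p t ^ k)).symm
  have h2 : (om p (g : ZMod p) ^ k - 1) * ∑ t : ZMod p, om p t ^ k = 0 := by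
    rw [sub_mul, one_mul, ← h1, sub_self]
  exact (hu.mul_right_eq_zero).1 h2

lemma sum_om_pow_eq {k : ℕ} (hk : 0 < k) (h : (p - 1) ∣ k) :
    ∑ t : ZMod p, om p t ^ k = p - 1 := by
  obtain ⟨c, rfl⟩ := h
  have h1 : ∀ t : ZMod p, om p t ^ ((p - 1) * c) = if t = 0 then 0 else 1 := by
    intro t
    split_ifs with ht
    · rw [ht, om_zero, zero_pow hk.ne']
    · rw [pow_mul, om_pow_card_sub_one ht, one_pow]
  simp_rw [h1]
  rw [Finset.sum_ite, Finset.sum_const_zero, zero_add, Finset.sum_const, nsmul_eq_mul, mul_one]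
  have : (Finset.univ.filter (fun t : ZMod p => ¬ t = 0)) = Finset.univ.erase 0 := by
    ext t; simp
  rw [this, Finset.card_erase_of_mem (Finset.mem_univ _), Finset.card_univ, ZMod.card,
    Nat.cast_sub hp.out.one_lt.le]
  simp

end Pool.Agent.H12.Sc
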