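import Pool.Agent.H12.Sc9

/-!
The second hypergeometric sum in `ZMod (p^2)`.
-/

namespace Pool.Agent.H12.Sc

open Finset

variable {p : ℕ} [hp : Fact p.Prime]

lemma nat_choose_rec {R : Type*} [CommRing R] (N k : ℕ) :
    ((k : R) + 1) * (N.choose (k + 1) : R) = ((N : R) - k) * (N.choose k : R) := by
  rcases Nat.lt_or_ge N k with h | h
  · rw [Nat.choose_eq_zero_of_lt h, Nat.choose_eq_zero_of_lt (by omega)]; simp
  · have := congrArg (Nat.cast : ℕ → R) (Nat.choose_succ_right_eq N k)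
    push_cast [Nat.cast_sub h] at this
    linear_combination this

/-- first order variation of binomial coefficients. -/
noncomputable def Xk (p n k : ℕ) : ZMod (p ^ 2) :=
  ((n + p).choose k : ZMod (p ^ 2)) - (n.choose k : ZMod (p ^ 2))

lemma red_Xk (n k : ℕ) (hk : k < p) : red p (Xk p n k) = 0 := by
  induction k with
  | zero => simp [Xk]
  | succ k ih =>
    have ih' := ih (by omega)
    have h1 := nat_choose_rec (R := ZMod (p ^ 2)) (n + p) k
    have h2 := nat_choose_rec (R := ZMod (p ^ 2)) n k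
    have h3 : ((k : ZMod (p ^ 2)) + 1) * Xk p n (k + 1) =
        ((n : ZMod (p ^ 2)) - k) * Xk p n k + p * ((n + p).choose k : ZMod (p ^ 2)) := by
      unfold Xk
      push_cast at h1
      linear_combination h1 - h2
    have h4 : red p ((k : ZMod (p ^ 2)) + 1) * red p (Xk p n (k + 1)) = 0 := by
      rw [← map_mul, h3, map_add, map_mul, map_mul, ih', red_p]; ring
    rcases mul_eq_zero.1 h4 with h | h
    · exact absurd h (isUnit_iff_red.1 (isUnit_succ hk))
    · exact h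

lemma seq_linear (n : ℕ) (t : ZMod (p ^ 2)) (z : ℕ → ZMod (p ^ 2)) (hz0 : z 0 = 1)
    (hz : ∀ k : ℕ, ((k : ZMod (p ^ 2)) + 1) * z (k + 1) =
      ((n : ZMod (p ^ 2)) + t * (p : ZMod (p ^ 2)) - (k : ZMod (p ^ 2))) * z k)
    (k : ℕ) (hk : k < p) : z k = (n.choose k : ZMod (p ^ 2)) + t * Xk p n k := by
  induction k with
  | zero => simp [hz0, Xk]
  | succ k ih =>
    have ih' := ih (by omega)
    apply (isUnit_succ hk).mul_left_cancel
    have h1 := nat_choose_rec (R := ZMod (p ^ 2)) (n + p) k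
    have h2 := nat_choose_rec (R := ZMod (p ^ 2)) n k
    have h3 : (p : ZMod (p ^ 2)) * Xk p n k = 0 :=
      mul_eq_zero_of_red red_p (red_Xk n k (by omega))
    rw [hz k, ih']
    push_cast at h1
    have h4 : ((n + p).choose k : ZMod (p ^ 2)) = (n.choose k : ZMod (p ^ 2)) + Xk p n k := by
      unfold Xk; ring
    have h5 : ((n + p).choose (k + 1) : ZMod (p ^ 2)) =
        (n.choose (k + 1) : ZMod (p ^ 2)) + Xk p n (k + 1) := by
      unfold Xk; ring
    rw [h4, h5] at h1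
    linear_combination (t * t - t) * h3 - t * h1 + (t - 1) * h2

/-- the terminating evaluation in `ZMod (p^2)`. -/
lemma sum_Tn_red (n : ℕ) {a : ℤ_[p]} (ha : (a : ℚ_[p]) = ((-1 / 4 : ℚ) : ℚ_[p])) :
    ∑ k ∈ range (n + 1), 8 ^ k * Ab (3 * (n : ℤ_[p]) - 2 * a) k *
      ((4 * n - k).choose (n - k) : ZMod (p ^ 2)) = 16 ^ n * ((2 * n).choose n : ZMod (p ^ 2)) := by
  have hb : ((3 * (n : ℤ_[p]) - 2 * a : ℤ_[p]) : ℚ_[p]) = ((3 * (n : ℚ) + 1 / 2 : ℚ) : ℚ_[p]) := by
    have h3 : ((3 : ℤ_[p]) : ℚ_[p]) = 3 := rfl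
    have h2 : ((2 : ℤ_[p]) : ℚ_[p]) = 2 := rfl
    rw [PadicInt.coe_sub, PadicInt.coe_mul, PadicInt.coe_mul, ha, h3, h2, PadicInt.coe_natCast]
    push_cast
    norm_num
  have h1 : ∑ k ∈ range (n + 1), (8 : ℤ_[p]) ^ k * Ring.choose (3 * (n : ℤ_[p]) - 2 * a) k *
      ((4 * n - k).choose (n - k) : ℤ_[p]) = 16 ^ n * ((2 * n).choose n : ℤ_[p]) := by
    apply PadicInt.ext
    have h := congrArg (Rat.castHom ℚ_[p]) (sum_Tn n)
    rw [map_sum] at h
    have h16 : (((16 : ℤ_[p]) ^ n * ((2 * n).choose n : ℤ_[p]) : ℤ_[p]) : ℚ_[p]) =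
        (Rat.castHom ℚ_[p]) (16 ^ n * ((2 * n).choose n : ℚ)) := by
      rw [map_mul, map_pow, map_natCast, PadicInt.coe_mul, PadicInt.coe_pow, PadicInt.coe_natCast]
      rfl
    rw [h16, ← h, PadicInt.coe_sum]
    apply Finset.sum_congr rfl
    intro k _
    unfold Tn
    rw [map_mul, map_mul, map_pow, map_natCast, PadicInt.coe_mul, PadicInt.coe_mul,
      PadicInt.coe_pow, PadicInt.coe_natCast, coe_choose _ _ hb]
    rfl
  have h2 := congrArg (PadicInt.toZModPow 2) h1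
  rw [map_sum, map_mul, map_pow, map_natCast, map_ofNat] at h2
  rw [← h2]
  apply Finset.sum_congr rfl
  intro k _
  rw [map_mul, map_mul, map_pow, map_natCast, map_ofNat]
  rfl

/-- The second sum in terms of the first. -/
theorem sum_two {n : ℕ} (hn : p = 4 * n + 1) {a : ℤ_[p]} (ha : 4 * a = -1)
    (ha' : (a : ℚ_[p]) = ((-1 / 4 : ℚ) : ℚ_[p])) :
    2 * ∑ k ∈ range (n + 1), Ab a k ^ 2 * (-8) ^ (n - k) =
      (-16) ^ n * ((2 * n).choose n : ZMod (p ^ 2)) + ∑ k ∈ range p, Ab a k ^ 2 * (-8) ^ k := by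
  have t1 : ∑ k ∈ range p, Ab a k ^ 2 * (-8) ^ k = ∑ k ∈ range (n + 1), Ab a k ^ 2 * (-8) ^ k := by
    symm
    apply Finset.sum_subset
    · intro k hk; rw [Finset.mem_range] at *; omega
    · intro k hk hk2
      rw [Finset.mem_range] at *
      rw [Ab_sq_eq_zero hn ha (by omega) hk, zero_mul]
  have t2 : ∑ k ∈ range (n + 1), Ab a k ^ 2 * (-8) ^ (n - k) =
      ∑ k ∈ range (n + 1), Ab a (n - k) ^ 2 * (-8) ^ k := by
    rw [← Finset.sum_range_reflect]
    apply Finset.sum_congr rfl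
    intro k hk
    rw [Finset.mem_range] at hk
    have e1 : n + 1 - 1 - k = n - k := by omega
    have e2 : n - (n - k) = k := by omega
    rw [e1, e2]
  have t3 : (-16 : ZMod (p ^ 2)) ^ n * ((2 * n).choose n : ZMod (p ^ 2)) =
      ∑ k ∈ range (n + 1), Ab (3 * (n : ℤ_[p]) - 2 * a) k *
        ((-1) ^ (n - k) * ((3 * n + (n - k)).choose (n - k) : ZMod (p ^ 2))) * (-8) ^ k := by
    rw [neg_pow, mul_assoc, ← sum_Tn_red n ha', Finset.mul_sum]
    apply Finset.sum_congr rfl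
    intro k hk
    rw [Finset.mem_range] at hk
    have e1 : 3 * n + (n - k) = 4 * n - k := by omega
    have e2 : (-1 : ZMod (p ^ 2)) ^ n = (-1) ^ (n - k) * (-1) ^ k := by
      rw [← pow_add]; congr 1; omega
    rw [e1, e2, neg_pow (8 : ZMod (p ^ 2)) k]; ring
  rw [t1, t2, t3, ← Finset.sum_add_distrib, Finset.mul_sum]
  apply Finset.sum_congr rfl
  intro k hk
  rw [Finset.mem_range] at hk
  have hq := toZModPow_quarter ha
  set q : ZMod (p ^ 2) := PadicInt.toZModPow 2 a with hqdef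
  have hP : (p : ZMod (p ^ 2)) = 4 * (n : ZMod (p ^ 2)) + 1 := by
    have : (p : ZMod (p ^ 2)) = ((4 * n + 1 : ℕ) : ZMod (p ^ 2)) := by rw [← hn]
    rw [this]; push_cast; ring
  -- the four expansions
  have l1 : ∀ i : ℕ, i < p → Ab a i = (n.choose i : ZMod (p ^ 2)) + q * Xk p n i := by
    intro i hi
    apply seq_linear n q (Ab a) (Ab_zero a) _ i hi
    intro m
    rw [Ab_rec, hP, ← hqdef]
    linear_combination (-(n : ZMod (p ^ 2)) * Ab a m) * hq
  have l2 : ∀ i : ℕ, i < p → Ab (3 * (n : ℤ_[p]) - 2 * a) i =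
      (n.choose i : ZMod (p ^ 2)) + (-2 * q) * Xk p n i := by
    intro i hi
    apply seq_linear n (-2 * q) (Ab (3 * (n : ℤ_[p]) - 2 * a)) (Ab_zero _) _ i hi
    intro m
    rw [Ab_rec, hP, map_sub, map_mul, map_mul, map_natCast, map_ofNat, map_ofNat, ← hqdef]
    linear_combination (2 * (n : ZMod (p ^ 2)) * Ab (3 * (n : ℤ_[p]) - 2 * a) m) * hq
  have l3 : ∀ i : ℕ, i < p → (-1) ^ i * ((3 * n + i).choose i : ZMod (p ^ 2)) =
      (n.choose i : ZMod (p ^ 2)) + (-1) * Xk p n i := by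
    intro i hi
    apply seq_linear n (-1) (fun i => (-1) ^ i * ((3 * n + i).choose i : ZMod (p ^ 2)))
      (by simp) _ i hi
    intro m
    have h1 := congrArg (Nat.cast : ℕ → ZMod (p ^ 2)) (Nat.add_one_mul_choose_eq (3 * n + m) m)
    push_cast at h1
    rw [show 3 * n + (m + 1) = 3 * n + m + 1 by ring, pow_succ (-1 : ZMod (p ^ 2)) m, hP]
    linear_combination ((-1) ^ m) * h1
  rw [l1 (n - k) (by omega), l1 k (by omega), l2 k (by omega), l3 (n - k) (by omega),
    Nat.choose_symm (by omega : k ≤ n)]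
  have x1 := mul_eq_zero_of_red (red_Xk (p := p) n k (by omega)) (red_Xk (p := p) n k (by omega))
  have x2 := mul_eq_zero_of_red (red_Xk (p := p) n (n - k) (by omega))
    (red_Xk (p := p) n (n - k) (by omega))
  have x3 := mul_eq_zero_of_red (red_Xk (p := p) n k (by omega))
    (red_Xk (p := p) n (n - k) (by omega))
  generalize (n.choose k : ZMod (p ^ 2)) = c at *
  generalize Xk p n k = X at *
  generalize Xk p n (n - k) = Y at *
  generalize (-8 : ZMod (p ^ 2)) ^ k = w at *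
  linear_combination w * (2 * q ^ 2) * x2 - w * q ^ 2 * x1 - w * (2 * q) * x3 + w * c * Y * hq

end Pool.Agent.H12.Sc
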