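import Pool.Agent.H12.Sc10

/-!
`(-1)^n C(2n,n) = 16^n C(3n,n)` modulo `p^2`, `p = 4n+1`.
-/

namespace Pool.Agent.H12.Sc

open Finset

variable {p : ℕ} [hp : Fact p.Prime]

lemma prod_linear (N : ℕ) (hN : N < p) : ∃ u : ZMod (p ^ 2), red p u = 0 ∧
    ∀ t : ZMod (p ^ 2), ∏ i ∈ range N, (((i : ZMod (p ^ 2)) + 1) + t * (p : ZMod (p ^ 2))) =
      (N.factorial : ZMod (p ^ 2)) * (1 + t * u) := by
  induction N with
  | zero => exact ⟨0, map_zero _, fun t => by simp⟩
  | succ N ih =>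
    obtain ⟨u, hu, h⟩ := ih (by omega)
    obtain ⟨v, hv⟩ := (isUnit_succ hN).exists_right_inv
    refine ⟨u + (p : ZMod (p ^ 2)) * v, by rw [map_add, map_mul, hu, red_p]; ring, fun t => ?_⟩
    have h1 : (p : ZMod (p ^ 2)) * u = 0 := mul_eq_zero_of_red red_p hu
    rw [Finset.prod_range_succ, h, Nat.factorial_succ]
    push_cast
    linear_combination (N.factorial : ZMod (p ^ 2)) * t ^ 2 * h1 -
      (N.factorial : ZMod (p ^ 2)) * t * (p : ZMod (p ^ 2)) * hv

lemma factorial_two_mul (N : ℕ) :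
    (2 * N).factorial = 2 ^ N * N.factorial * ∏ j ∈ range N, (2 * j + 1) := by
  induction N with
  | zero => simp
  | succ N ih =>
    rw [show 2 * (N + 1) = (2 * N + 1) + 1 by ring, Nat.factorial_succ, Nat.factorial_succ, ih,
      Finset.prod_range_succ, pow_succ, Nat.factorial_succ]
    ring

theorem sixteen {n : ℕ} (hn : p = 4 * n + 1) :
    (-1) ^ n * ((2 * n).choose n : ZMod (p ^ 2)) = 16 ^ n * ((3 * n).choose n : ZMod (p ^ 2)) := by
  have hn0 : 0 < n := by
    rcases Nat.eq_zero_or_pos n with h | h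
    · subst h; exact absurd hp.out (by rw [hn]; norm_num)
    · exact h
  have hP : (p : ZMod (p ^ 2)) = 4 * (n : ZMod (p ^ 2)) + 1 := by
    have : (p : ZMod (p ^ 2)) = ((4 * n + 1 : ℕ) : ZMod (p ^ 2)) := by rw [← hn]
    rw [this]; push_cast; ring
  have u2' : IsUnit (2 : ZMod (p ^ 2)) := by
    have := isUnit_natCast (p := p) (k := 2) (by
      intro h
      have h6 := Nat.le_of_dvd (by norm_num) h
      omega)
    simpa using this
  have ufac : ∀ N : ℕ, N < p → IsUnit (N.factorial : ZMod (p ^ 2)) := by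
    intro N hN
    apply isUnit_natCast
    intro h
    have := (hp.out.dvd_factorial).1 h
    omega
  obtain ⟨η', hη'⟩ := u2'.exists_right_inv
  obtain ⟨η, hη⟩ : ∃ η : ZMod (p ^ 2), 2 * η = -1 := ⟨-η', by linear_combination -hη'⟩
  obtain ⟨w1, hw1, f1⟩ := prod_linear (p := p) n (by omega)
  obtain ⟨w2, hw2, f2⟩ := prod_linear (p := p) (2 * n) (by omega)
  obtain ⟨w4, hw4, f4⟩ := prod_linear (p := p) (4 * n) (by omega)
  have sg : ∀ N : ℕ, ((-1 : ZMod (p ^ 2)) ^ N) * (-1) ^ N = 1 := by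
    intro N; rw [← mul_pow]; simp
  -- (a) w4 = 0
  have ha : w4 = 0 := by
    have h1 := f4 (-1)
    have h2 : ∏ i ∈ range (4 * n), (((i : ZMod (p ^ 2)) + 1) + (-1) * (p : ZMod (p ^ 2))) =
        ((4 * n).factorial : ZMod (p ^ 2)) := by
      rw [← Finset.prod_range_reflect, ← Finset.prod_range_add_one_eq_factorial]
      push_cast
      have h3 : ∀ i ∈ range (4 * n), ((((4 * n - 1 - i : ℕ) : ZMod (p ^ 2)) + 1) +
          (-1) * (p : ZMod (p ^ 2))) = (-1) * ((i : ZMod (p ^ 2)) + 1) := by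
        intro i hi
        rw [Finset.mem_range] at hi
        have e : ((4 * n - 1 - i : ℕ) : ZMod (p ^ 2)) = 4 * n - 1 - i := by
          rw [Nat.cast_sub (by omega), Nat.cast_sub (by omega)]; push_cast; ring
        rw [e, hP]; ring
      rw [Finset.prod_congr rfl h3, Finset.prod_mul_distrib, Finset.prod_const, Finset.card_range,
        show 4 * n = 2 * (2 * n) by ring, pow_mul]
      simp
    rw [h2] at h1
    have h3 : ((4 * n).factorial : ZMod (p ^ 2)) * w4 = 0 := by linear_combination h1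
    exact ((ufac (4 * n) (by omega)).mul_right_eq_zero).1 h3
  -- (a2)
  have ha2 : ((4 * n).factorial : ZMod (p ^ 2)) =
      ((2 * n).factorial : ZMod (p ^ 2)) * (((2 * n).factorial : ZMod (p ^ 2)) * (1 - w2)) := by
    have h1 := f2 (-1)
    have h2 : ((4 * n).factorial : ZMod (p ^ 2)) = ((2 * n).factorial : ZMod (p ^ 2)) *
        ∏ i ∈ range (2 * n), (((i : ZMod (p ^ 2)) + 1) + (-1) * (p : ZMod (p ^ 2))) := by
      rw [← Finset.prod_range_reflect, ← Finset.prod_range_add_one_eq_factorial,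
        ← Finset.prod_range_add_one_eq_factorial, show 4 * n = 2 * n + 2 * n by ring,
        Finset.prod_range_add]
      push_cast
      congr 1
      have h3 : ∀ i ∈ range (2 * n), ((((2 * n - 1 - i : ℕ) : ZMod (p ^ 2)) + 1) +
          (-1) * (p : ZMod (p ^ 2))) = (-1) * (2 * (n : ZMod (p ^ 2)) + (i : ZMod (p ^ 2)) + 1) := by
        intro i hi
        rw [Finset.mem_range] at hi
        have e : ((2 * n - 1 - i : ℕ) : ZMod (p ^ 2)) = 2 * n - 1 - i := by
          rw [Nat.cast_sub (by omega), Nat.cast_sub (by omega)]; push_cast; ring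
        rw [e, hP]; ring
      rw [Finset.prod_congr rfl h3, Finset.prod_mul_distrib, Finset.prod_const, Finset.card_range,
        pow_mul]
      simp
    rw [h2, h1]; ring
  -- (a3)
  have ha3 : ((4 * n).factorial : ZMod (p ^ 2)) =
      ((3 * n).factorial : ZMod (p ^ 2)) * ((-1) ^ n * ((n.factorial : ZMod (p ^ 2)) * (1 - w1))) := by
    have h1 := f1 (-1)
    have h2 : ((4 * n).factorial : ZMod (p ^ 2)) = ((3 * n).factorial : ZMod (p ^ 2)) *
        ((-1) ^ n * ∏ i ∈ range n, (((i : ZMod (p ^ 2)) + 1) + (-1) * (p : ZMod (p ^ 2)))) := by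
      rw [← Finset.prod_range_reflect, ← Finset.prod_range_add_one_eq_factorial,
        ← Finset.prod_range_add_one_eq_factorial, show 4 * n = 3 * n + n by ring,
        Finset.prod_range_add]
      push_cast
      congr 1
      have h3 : ∀ i ∈ range n, ((((n - 1 - i : ℕ) : ZMod (p ^ 2)) + 1) +
          (-1) * (p : ZMod (p ^ 2))) = (-1) * (3 * (n : ZMod (p ^ 2)) + (i : ZMod (p ^ 2)) + 1) := by
        intro i hi
        rw [Finset.mem_range] at hi
        have e : ((n - 1 - i : ℕ) : ZMod (p ^ 2)) = n - 1 - i := by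
          rw [Nat.cast_sub (by omega), Nat.cast_sub (by omega)]; push_cast; ring
        rw [e, hP]; ring
      rw [Finset.prod_congr rfl h3, Finset.prod_mul_distrib, Finset.prod_const, Finset.card_range,
        ← mul_assoc, sg, one_mul]
    rw [h2, h1]; ring
  -- products of `2 i - p`
  have hprod2 : ∀ N : ℕ, ∏ i ∈ range N, (2 * ((i : ZMod (p ^ 2)) + 1) - (p : ZMod (p ^ 2))) =
      2 ^ N * ∏ i ∈ range N, (((i : ZMod (p ^ 2)) + 1) + η * (p : ZMod (p ^ 2))) := by
    intro N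
    have : ∀ i ∈ range N, (2 * ((i : ZMod (p ^ 2)) + 1) - (p : ZMod (p ^ 2))) =
        2 * (((i : ZMod (p ^ 2)) + 1) + η * (p : ZMod (p ^ 2))) := by
      intro i _
      linear_combination (-(p : ZMod (p ^ 2))) * hη
    rw [Finset.prod_congr rfl this, Finset.prod_mul_distrib, Finset.prod_const, Finset.card_range]
  set O : ZMod (p ^ 2) := ∏ j ∈ range (2 * n), (2 * (j : ZMod (p ^ 2)) + 1) with hO
  have hO1 : ((4 * n).factorial : ZMod (p ^ 2)) = 2 ^ (2 * n) * ((2 * n).factorial : ZMod (p ^ 2)) * O := by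
    have h1 := congrArg (Nat.cast : ℕ → ZMod (p ^ 2)) (factorial_two_mul (2 * n))
    rw [show 2 * (2 * n) = 4 * n by ring] at h1
    push_cast at h1
    rw [h1, hO]
  -- (b1)
  have hb1 : (16 : ZMod (p ^ 2)) ^ n = 1 + η * w2 := by
    have h1 : ∏ i ∈ range (4 * n), (2 * ((i : ZMod (p ^ 2)) + 1) - (p : ZMod (p ^ 2))) =
        (∏ i ∈ range (2 * n), (2 * ((i : ZMod (p ^ 2)) + 1) - (p : ZMod (p ^ 2)))) * O := by
      rw [show 4 * n = 2 * n + 2 * n by ring, Finset.prod_range_add, hO]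
      congr 1
      apply Finset.prod_congr rfl
      intro j _
      push_cast
      rw [hP]; ring
    rw [hprod2, hprod2, f4, f2, ha] at h1
    apply (ufac (4 * n) (by omega)).mul_right_cancel
    have h16 : (2 : ZMod (p ^ 2)) ^ (4 * n) = 16 ^ n := by rw [pow_mul]; norm_num
    rw [h16] at h1
    linear_combination h1 - (1 + η * w2) * hO1
  -- (c)
  have hc : O = ((2 * n).factorial : ZMod (p ^ 2)) * (-1) ^ n * (1 + η * w1) := by
    have h1 : O = (∏ j ∈ range n, (2 * (j : ZMod (p ^ 2)) + 1)) *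
        ((-1) ^ n * ∏ i ∈ range n, (2 * ((i : ZMod (p ^ 2)) + 1) - (p : ZMod (p ^ 2)))) := by
      rw [hO, show 2 * n = n + n by ring, Finset.prod_range_add]
      congr 1
      rw [← Finset.prod_range_reflect (fun i : ℕ => (2 * ((i : ZMod (p ^ 2)) + 1) - (p : ZMod (p ^ 2))))]
      have h3 : ∀ i ∈ range n, (2 * (((n - 1 - i : ℕ) : ZMod (p ^ 2)) + 1) - (p : ZMod (p ^ 2))) =
          (-1) * (2 * ((n + i : ℕ) : ZMod (p ^ 2)) + 1) := by
        intro i hi
        rw [Finset.mem_range] at hi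
        have e : ((n - 1 - i : ℕ) : ZMod (p ^ 2)) = n - 1 - i := by
          rw [Nat.cast_sub (by omega), Nat.cast_sub (by omega)]; push_cast; ring
        rw [e, hP]; push_cast; ring
      rw [Finset.prod_congr rfl h3, Finset.prod_mul_distrib, Finset.prod_const, Finset.card_range,
        ← mul_assoc, sg, one_mul]
    rw [hprod2, f1] at h1
    have h2 := congrArg (Nat.cast : ℕ → ZMod (p ^ 2)) (factorial_two_mul n)
    push_cast at h2
    rw [h1, h2]; ring
  -- conclusion for factorials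
  have hw22 := mul_eq_zero_of_red hw2 hw2
  have hw11 := mul_eq_zero_of_red hw1 hw1
  have hw12 := mul_eq_zero_of_red hw1 hw2
  have h4 : (2 : ZMod (p ^ 2)) ^ (2 * n) * (-1) ^ n * (1 + η * w1) = 1 - w2 := by
    have e1 : ((2 * n).factorial : ZMod (p ^ 2)) * (((2 * n).factorial : ZMod (p ^ 2)) *
        ((2 : ZMod (p ^ 2)) ^ (2 * n) * (-1) ^ n * (1 + η * w1))) =
        ((2 * n).factorial : ZMod (p ^ 2)) * (((2 * n).factorial : ZMod (p ^ 2)) * (1 - w2)) := by
      rw [← ha2, hO1, hc]; ring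
    exact (ufac (2 * n) (by omega)).mul_left_cancel ((ufac (2 * n) (by omega)).mul_left_cancel e1)
  have h5 : (16 : ZMod (p ^ 2)) ^ n * (1 - w1) = 1 - 2 * w2 := by
    have e1 : (2 : ZMod (p ^ 2)) ^ (2 * n) * 2 ^ (2 * n) = 16 ^ n := by
      rw [← pow_add, show 2 * n + 2 * n = 4 * n by ring, pow_mul]; norm_num
    linear_combination ((2 : ZMod (p ^ 2)) ^ (2 * n) * (-1) ^ n * (1 + η * w1) + (1 - w2)) * h4
      - (1 - w1) * e1 - ((2 : ZMod (p ^ 2)) ^ (2 * n)) ^ 2 * (1 - w1) * sg n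
      - ((2 : ZMod (p ^ 2)) ^ (2 * n)) ^ 2 * ((-1) ^ n * (-1) ^ n) * w1 * hη
      - ((2 : ZMod (p ^ 2)) ^ (2 * n)) ^ 2 * ((-1) ^ n * (-1) ^ n) * η ^ 2 * hw11 + hw22
  have g1 : ((3 * n).factorial : ZMod (p ^ 2)) * (-1) ^ n * (n.factorial : ZMod (p ^ 2)) * (1 - w1) =
      ((2 * n).factorial : ZMod (p ^ 2)) ^ 2 * (1 - w2) := by
    linear_combination ha2 - ha3
  have c2 : ((2 * n).choose n : ZMod (p ^ 2)) * (n.factorial : ZMod (p ^ 2)) *
      (n.factorial : ZMod (p ^ 2)) = ((2 * n).factorial : ZMod (p ^ 2)) := by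
    have := Nat.choose_mul_factorial_mul_factorial (show n ≤ 2 * n by omega)
    rw [show 2 * n - n = n by omega] at this
    exact_mod_cast congrArg (Nat.cast : ℕ → ZMod (p ^ 2)) this
  have c3 : ((3 * n).choose n : ZMod (p ^ 2)) * (n.factorial : ZMod (p ^ 2)) *
      ((2 * n).factorial : ZMod (p ^ 2)) = ((3 * n).factorial : ZMod (p ^ 2)) := by
    have := Nat.choose_mul_factorial_mul_factorial (show n ≤ 3 * n by omega)
    rw [show 3 * n - n = 2 * n by omega] at this
    exact_mod_cast congrArg (Nat.cast : ℕ → ZMod (p ^ 2)) this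
  have v1 := ufac n (by omega)
  have v2 := ufac (2 * n) (by omega)
  have hs := sg n
  generalize ((3 * n).factorial : ZMod (p ^ 2)) = F3 at *
  generalize ((2 * n).factorial : ZMod (p ^ 2)) = F2 at *
  generalize (n.factorial : ZMod (p ^ 2)) = F1 at *
  generalize ((2 * n).choose n : ZMod (p ^ 2)) = C2 at *
  generalize ((3 * n).choose n : ZMod (p ^ 2)) = C3 at *
  generalize (-1 : ZMod (p ^ 2)) ^ n = s at *
  generalize (16 : ZMod (p ^ 2)) ^ n = T at *
  have g2 : F3 * s * F1 * (1 - 2 * w2) = T * F2 ^ 2 * (1 - w2) := by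
    linear_combination T * g1 - F3 * s * F1 * h5
  have g3 : F3 * s * F1 = T * F2 ^ 2 * (1 + w2) := by
    linear_combination (1 + 2 * w2) * g2 + (4 * F3 * s * F1 - 2 * T * F2 ^ 2) * hw22
  have g4 : T * F3 * s * F1 = F2 ^ 2 := by
    linear_combination T * g3 + F2 ^ 2 * (1 + w2) * (T + 1 + η * w2) * hb1 +
      F2 ^ 2 * w2 * hη + F2 ^ 2 * (2 * η + η ^ 2 + η ^ 2 * w2) * hw22
  apply ((v1.mul v1).mul v2).mul_right_cancel
  linear_combination s * F2 * c2 - s * g4 - T * F1 * c3 + T * F1 * F3 * hs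

end Pool.Agent.H12.Sc
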