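import Pool.Agent.H12.Sc11

/-!
The quartic character of `2` (Gauss, following the argument of Dirichlet).
-/

namespace Pool.Agent.H12.Sc

open Finset NumberTheorySymbols

variable {p : ℕ} [hp : Fact p.Prime]

omit hp in
lemma jac_recip {a : ℤ} (ha : a % 2 = 1) (hp4 : p % 4 = 1) :
    jacobiSym a p = jacobiSym p a.natAbs := by
  have hodd : Odd a.natAbs := by
    rw [Nat.odd_iff]; omega
  have h1 : jacobiSym a p = jacobiSym a.natAbs p := by
    rcases Int.natAbs_eq a with h | h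
    · rw [← h]
    · have hpo : Odd p := by rw [Nat.odd_iff]; omega
      conv_lhs => rw [h]
      rw [jacobiSym.neg _ hpo, ZMod.χ₄_nat_one_mod_four hp4, one_mul]
  rw [h1]
  exact jacobiSym.quadratic_reciprocity_one_mod_four' hodd hp4

lemma coprime_xy {x y : ℤ} (hxy : x ^ 2 + y ^ 2 = p) : IsCoprime x y := by
  rw [Int.isCoprime_iff_gcd_eq_one]
  by_contra hne
  obtain ⟨q, hq, hqd⟩ := Nat.exists_prime_and_dvd hne
  have h1 : (q : ℤ) ∣ x := (Int.natCast_dvd_natCast.2 hqd).trans (Int.gcd_dvd_left ..)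
  have h2 : (q : ℤ) ∣ y := (Int.natCast_dvd_natCast.2 hqd).trans (Int.gcd_dvd_right ..)
  obtain ⟨a, rfl⟩ := h1
  obtain ⟨b, rfl⟩ := h2
  have h3 : (q : ℤ) ^ 2 ∣ p := ⟨a ^ 2 + b ^ 2, by rw [← hxy]; ring⟩
  have h4 : q ^ 2 ∣ p := by exact_mod_cast h3
  have h5 : q ∣ p := (dvd_pow_self q two_ne_zero).trans h4
  have h6 := (Nat.prime_dvd_prime_iff_eq hq hp.out).1 h5
  subst h6
  have h7 := Nat.le_of_dvd hq.pos h4
  have := hq.two_le
  nlinarith

lemma jac_x {x y : ℤ} (hxy : x ^ 2 + y ^ 2 = p) (hx : x % 2 = 1) (hp4 : p % 4 = 1) :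
    jacobiSym x p = 1 := by
  rw [jac_recip hx hp4]
  have h1 : ((p : ℤ) % (x.natAbs : ℤ)) = (y ^ 2) % (x.natAbs : ℤ) := by
    apply Int.ModEq.symm
    rw [Int.modEq_iff_dvd, ← hxy]
    have : x ^ 2 + y ^ 2 - y ^ 2 = x * x := by ring
    rw [this, Int.natAbs_dvd]
    exact dvd_mul_right _ _
  rw [jacobiSym.mod_left' h1]
  apply jacobiSym.sq_one'
  have h2 := (coprime_xy hxy).symm
  rw [Int.isCoprime_iff_gcd_eq_one] at h2
  simpa [Int.gcd, Int.natAbs_abs] using h2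

lemma jac_xy {x y : ℤ} (hxy : x ^ 2 + y ^ 2 = p) (hx : x % 2 = 1) (hy : y % 2 = 0)
    (hp4 : p % 4 = 1) :
    jacobiSym (x + y) p = ZMod.χ₈ ((x + y).natAbs) := by
  have hodd : Odd (x + y).natAbs := by
    rw [Nat.odd_iff]; omega
  rw [jac_recip (by omega) hp4]
  have h1 : jacobiSym (2 * p) (x + y).natAbs = 1 := by
    have h2 : ((2 * p : ℤ) % ((x + y).natAbs : ℤ)) = ((x - y) ^ 2) % ((x + y).natAbs : ℤ) := by
      apply Int.ModEq.symm
      rw [Int.modEq_iff_dvd, ← hxy]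
      have : 2 * (x ^ 2 + y ^ 2) - (x - y) ^ 2 = (x + y) * (x + y) := by ring
      rw [this, Int.natAbs_dvd]
      exact dvd_mul_right _ _
    rw [jacobiSym.mod_left' h2]
    apply jacobiSym.sq_one'
    have h3 : IsCoprime (x - y) (x + y) := by
      obtain ⟨a, b, hab⟩ := coprime_xy hxy
      obtain ⟨c, hc⟩ : ∃ c, x + y = 2 * c + 1 := ⟨(x + y) / 2, by omega⟩
      -- 1 = (x+y) - 2c, and 2 = 2 (a x + b y)
      have e : (a - b) * (x - y) + (a + b) * (x + y) = 2 := by linear_combination 2 * hab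
      refine ⟨-c * (a - b), 1 - c * (a + b), ?_⟩
      linear_combination (-c) * e + hc
    rw [Int.isCoprime_iff_gcd_eq_one] at h3
    simpa [Int.gcd, Int.natAbs_abs] using h3
  rw [jacobiSym.mul_left, jacobiSym.at_two hodd] at h1
  have h4 := ZMod.isQuadratic_χ₈ ((x + y).natAbs : ZMod 8)
  rcases h4 with h | h | h
  · rw [h] at h1; norm_num at h1
  · rw [h] at h1 ⊢; linarith
  · rw [h] at h1 ⊢; linarith

/-- raw form of the quartic law. -/
lemma quartic_raw {n : ℕ} (hn : p = 4 * n + 1) {x y : ℤ} (hxy : x ^ 2 + y ^ 2 = p)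
    (hx : x % 2 = 1) (hy : y % 2 = 0) :
    (2 : ZMod p) ^ n * ((x : ZMod p) ^ n * (y : ZMod p) ^ n) =
      ((ZMod.χ₈ ((x + y).natAbs) : ℤ) : ZMod p) ∧ (x : ZMod p) ^ (2 * n) = 1 := by
  have hp4 : p % 4 = 1 := by omega
  have hp2 : p / 2 = 2 * n := by omega
  constructor
  · rw [← jac_xy hxy hx hy hp4, ← jacobiSym.legendreSym.to_jacobiSym, legendreSym.eq_pow, hp2]
    have h0 : (x : ZMod p) ^ 2 + (y : ZMod p) ^ 2 = 0 := by
      have := congrArg (Int.cast : ℤ → ZMod p) hxy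
      push_cast at this
      rw [this]; simp
    have h1 : (((x + y : ℤ) : ZMod p)) ^ 2 = 2 * ((x : ZMod p) * y) := by
      push_cast
      linear_combination h0
    rw [pow_mul, h1, mul_pow, mul_pow]
  · have h1 := jac_x hxy hx hp4
    rw [← jacobiSym.legendreSym.to_jacobiSym] at h1
    have h2 := legendreSym.eq_pow p x
    rw [h1, hp2] at h2
    rw [← h2]; simp

lemma sq16 (a r : ℤ) (h : a % 8 = r) : a ^ 2 % 16 = r ^ 2 % 16 := by
  have : a ^ 2 = 16 * (4 * (a / 8) ^ 2 + (a / 8) * r) + r ^ 2 := by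
    have h1 : a = 8 * (a / 8) + r := by omega
    calc a ^ 2 = (8 * (a / 8) + r) ^ 2 := by rw [← h1]
      _ = _ := by ring
  omega

lemma sign_even {ν : ℕ} {x y : ℤ} (h : x ^ 2 + y ^ 2 = 8 * ν + 1) (hx : x % 2 = 1)
    (hy : y % 4 = 0) :
    (-1 : ℤ) ^ ν * ZMod.χ₈ ((x + y).natAbs) = if (y / 4) % 2 = 0 then 1 else -1 := by
  have hν : (-1 : ℤ) ^ ν = if ν % 2 = 0 then 1 else -1 := by
    split_ifs with h1
    · exact Even.neg_one_pow (Nat.even_iff.2 h1)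
    · exact Odd.neg_one_pow (Nat.odd_iff.2 (by omega))
  rw [ZMod.χ₈_nat_eq_if_mod_eight, hν]
  have hx8 : x % 8 = 1 ∨ x % 8 = 3 ∨ x % 8 = 5 ∨ x % 8 = 7 := by omega
  have hy8 : y % 8 = 0 ∨ y % 8 = 4 := by omega
  rcases hx8 with hx8 | hx8 | hx8 | hx8 <;> rcases hy8 with hy8 | hy8 <;>
  · have e1 := sq16 _ _ hx8
    have e2 := sq16 _ _ hy8
    norm_num at e1 e2
    split_ifs <;> first | rfl | (exfalso; omega) | norm_num

lemma sign_odd {ν : ℕ} {x y : ℤ} (h : x ^ 2 + y ^ 2 = 8 * ν + 5) (hx : x % 4 = 1)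
    (hy : y % 4 = 2) :
    -((-1 : ℤ) ^ ν * ZMod.χ₈ ((x + y).natAbs)) = if ((y - 2) / 4) % 2 = 0 then 1 else -1 := by
  have hν : (-1 : ℤ) ^ ν = if ν % 2 = 0 then 1 else -1 := by
    split_ifs with h1
    · exact Even.neg_one_pow (Nat.even_iff.2 h1)
    · exact Odd.neg_one_pow (Nat.odd_iff.2 (by omega))
  rw [ZMod.χ₈_nat_eq_if_mod_eight, hν]
  have hx8 : x % 8 = 1 ∨ x % 8 = 5 := by omega
  have hy8 : y % 8 = 2 ∨ y % 8 = 6 := by omega
  rcases hx8 with hx8 | hx8 <;> rcases hy8 with hy8 | hy8 <;>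
  · have e1 := sq16 _ _ hx8
    have e2 := sq16 _ _ hy8
    norm_num at e1 e2
    split_ifs <;> first | rfl | (exfalso; omega) | norm_num

lemma y_mod {n : ℕ} (hn : p = 4 * n + 1) {x y : ℤ} (hxy : x ^ 2 + y ^ 2 = p)
    (hx : x % 2 = 1) : y % 2 = 0 ∧ (n % 2 = 0 → y % 4 = 0) ∧ (n % 2 = 1 → y % 4 = 2) := by
  have h8 := int_sq_mod_eight_of_odd hx
  have hpn : (p : ℤ) = 4 * n + 1 := by exact_mod_cast hn
  have hy : y % 2 = 0 := by
    by_contra h
    have h2 := int_sq_mod_eight_of_odd (show y % 2 = 1 by omega)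
    omega
  refine ⟨hy, fun h => ?_, fun h => ?_⟩
  · by_contra h1
    have h2 := int_sq_mod_eight_of_two (show y % 4 = 2 by omega)
    omega
  · by_contra h1
    have h2 := int_sq_mod_eight_of_four (show y % 4 = 0 by omega)
    omega

lemma x_ne_zero {x y : ℤ} (hxy : x ^ 2 + y ^ 2 = p) (hx : x % 2 = 1) : (x : ZMod p) ≠ 0 := by
  intro h
  rw [ZMod.intCast_zmod_eq_zero_iff_dvd] at h
  obtain ⟨c, hc⟩ := h
  have hp2 : (2 : ℤ) ≤ p := by exact_mod_cast hp.out.two_le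
  have hc0 : c ≠ 0 := by rintro rfl; omega
  have h1 : 1 ≤ c ^ 2 := by have := sq_pos_of_ne_zero hc0 (a := c); omega
  have h2 : (p : ℤ) ^ 2 ≤ x ^ 2 := by
    rw [hc, mul_pow]; nlinarith [sq_nonneg (p : ℤ)]
  nlinarith [sq_nonneg y]

/-- the quartic law, `p ≡ 1 mod 8`. -/
theorem quartic_even {n : ℕ} (hn : p = 4 * n + 1) (he : n % 2 = 0) {x y : ℤ}
    (hxy : x ^ 2 + y ^ 2 = p) (hx : x % 2 = 1) :
    (2 : ZMod p) ^ n = ((if (y / 4) % 2 = 0 then (1 : ℤ) else -1 : ℤ) : ZMod p) := by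
  obtain ⟨hy, hy4, -⟩ := y_mod hn hxy hx
  obtain ⟨h1, h2⟩ := quartic_raw hn hxy hx hy
  obtain ⟨ν, rfl⟩ : ∃ ν, n = 2 * ν := ⟨n / 2, by omega⟩
  have hx0 := x_ne_zero hxy hx
  have hf : (x : ZMod p) ^ (2 * ν) * (y : ZMod p) ^ (2 * ν) = (-1) ^ ν := by
    have h0 : (y : ZMod p) ^ 2 = - (x : ZMod p) ^ 2 := by
      have := congrArg (Int.cast : ℤ → ZMod p) hxy
      push_cast at this
      have h3 : (x : ZMod p) ^ 2 + (y : ZMod p) ^ 2 = 0 := by rw [this]; simp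
      linear_combination h3
    rw [pow_mul (y : ZMod p), h0, neg_pow, ← pow_mul]
    have h5 : (x : ZMod p) ^ (2 * ν) * (x : ZMod p) ^ (2 * ν) = 1 := by
      rw [← pow_add, ← h2]; congr 1; ring
    linear_combination ((-1) ^ ν) * h5
  rw [hf] at h1
  rw [← sign_even (ν := ν) (x := x) (y := y) (by rw [hxy, hn]; push_cast; ring) hx (hy4 (by omega))]
  push_cast
  rw [← h1]
  have : ((-1 : ZMod p) ^ ν) * (-1) ^ ν = 1 := by rw [← mul_pow]; simp
  linear_combination (-(2 : ZMod p) ^ (2 * ν)) * this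

/-- the quartic law, `p ≡ 5 mod 8`. -/
theorem quartic_odd {n : ℕ} (hn : p = 4 * n + 1) (ho : n % 2 = 1) {x y : ℤ}
    (hxy : x ^ 2 + y ^ 2 = p) (hx : x % 4 = 1) :
    (2 : ZMod p) ^ n * x = ((if ((y - 2) / 4) % 2 = 0 then (1 : ℤ) else -1 : ℤ) : ZMod p) * y := by
  have hx2 : x % 2 = 1 := by omega
  obtain ⟨hy, -, hy4⟩ := y_mod hn hxy hx2
  obtain ⟨h1, h2⟩ := quartic_raw hn hxy hx2 hy
  obtain ⟨ν, rfl⟩ : ∃ ν, n = 2 * ν + 1 := ⟨n / 2, by omega⟩
  have hx0 := x_ne_zero hxy hx2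
  rw [← sign_odd (ν := ν) (x := x) (y := y) (by rw [hxy, hn]; push_cast; ring) hx (hy4 (by omega))]
  push_cast
  rw [← h1]
  have h0 : (y : ZMod p) ^ 2 = - (x : ZMod p) ^ 2 := by
    have := congrArg (Int.cast : ℤ → ZMod p) hxy
    push_cast at this
    have h3 : (x : ZMod p) ^ 2 + (y : ZMod p) ^ 2 = 0 := by rw [this]; simp
    linear_combination h3
  have hf : (x : ZMod p) ^ (2 * ν + 1) * (y : ZMod p) ^ (2 * ν + 1) * y = -(-1) ^ ν * x := by
    have e1 : (y : ZMod p) ^ (2 * ν + 1) * y = -(-1) ^ ν * (x : ZMod p) ^ (2 * ν + 2) := by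
      calc (y : ZMod p) ^ (2 * ν + 1) * y = ((y : ZMod p) ^ 2) ^ (ν + 1) := by
            rw [← pow_mul, ← pow_succ]; congr 1
        _ = _ := by rw [h0, neg_pow, ← pow_mul, pow_succ (-1 : ZMod p)]; ring
    have e2 : (x : ZMod p) ^ (2 * ν + 1) * (x : ZMod p) ^ (2 * ν + 2) = x := by
      have : (x : ZMod p) ^ (2 * ν + 1) * (x : ZMod p) ^ (2 * ν + 2) =
        (x : ZMod p) ^ (2 * (2 * ν + 1)) * x := by ring
      rw [this, h2, one_mul]
    linear_combination (x : ZMod p) ^ (2 * ν + 1) * e1 - (-1) ^ ν * e2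
  have : ((-1 : ZMod p) ^ ν) * (-1) ^ ν = 1 := by rw [← mul_pow]; simp
  linear_combination ((-1) ^ ν * (2 : ZMod p) ^ (2 * ν + 1)) * hf -
    ((2 : ZMod p) ^ (2 * ν + 1)) * x * this

end Pool.Agent.H12.Sc
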