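import Pool.Agent.H12.Sc12

/-!
The second congruence.
-/

namespace Pool.Agent.H12.Sc

open Finset

variable {p : ℕ} [hp : Fact p.Prime]

lemma isUnit_two' {n : ℕ} (hn : p = 4 * n + 1) : IsUnit (2 : ZMod (p ^ 2)) := by
  have := isUnit_natCast (p := p) (k := 2) (by
    intro h
    have h6 := Nat.le_of_dvd (by norm_num) h
    have hn0 : n = 0 := by omega
    subst hn0
    exact absurd hp.out (by rw [hn]; norm_num))
  simpa using this

/-- the first sum equals `-Jc`. -/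
lemma sum_one_eq {n : ℕ} (hn : p = 4 * n + 1) {a : ℤ_[p]} (ha : 4 * a = -1) :
    ∑ k ∈ range p, Ab a k ^ 2 * (-8) ^ k = - Jc p (2 * n) (3 * n) := by
  have h1 := sum_one hn ha
  have h2 := two_delannoy hn
  have h3 := two_Jc hn
  have h5 : (2 : ZMod (p ^ 2)) * (∑ k ∈ range p, Ab a k ^ 2 * (-8) ^ k + Jc p (2 * n) (3 * n)) = 0 := by
    rw [mul_add, h1, h2, h3]; ring
  have h7 := ((isUnit_two' hn).mul_right_eq_zero).1 h5
  exact eq_neg_of_add_eq_zero_left h7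

lemma four_eps {n : ℕ} (hn : p = 4 * n + 1) :
    4 * (8 ^ n * 2 ^ (p * n)) = (1 : ZMod (p ^ 2)) + 3 * 16 ^ n := by
  have hP : (p : ZMod (p ^ 2)) = 4 * (n : ZMod (p ^ 2)) + 1 := by
    have : (p : ZMod (p ^ 2)) = ((4 * n + 1 : ℕ) : ZMod (p ^ 2)) := by rw [← hn]
    rw [this]; push_cast; ring
  have hT : red p ((16 : ZMod (p ^ 2)) ^ n - 1) = 0 := by
    have h2 : (2 : ZMod p) ≠ 0 := by
      have := isUnit_iff_red.1 (isUnit_two' (p := p) hn)
      rwa [map_ofNat] at this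
    have h3 := ZMod.pow_card_sub_one_eq_one h2
    have hp1 : p - 1 = 4 * n := by omega
    rw [hp1, pow_mul] at h3
    rw [map_sub, map_pow, map_one, map_ofNat]
    have : ((2 : ZMod p) ^ 4) = 16 := by norm_num
    rw [this] at h3
    rw [h3, sub_self]
  have h1 := add_pow_of_red (a := (1 : ZMod (p ^ 2))) hT n
  have h2 := mul_eq_zero_of_red (red_p (p := p)) hT
  have h3 : (8 : ZMod (p ^ 2)) ^ n * 2 ^ (p * n) = (16 ^ n) ^ (n + 1) := by
    have e1 : (8 : ZMod (p ^ 2)) = 2 ^ 3 := by norm_num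
    have e2 : (16 : ZMod (p ^ 2)) = 2 ^ 4 := by norm_num
    rw [e1, e2, ← pow_mul, ← pow_add, ← pow_mul, ← pow_mul]
    congr 1
    rw [hn]; ring
  rw [h3]
  have h4 : (1 : ZMod (p ^ 2)) + (16 ^ n - 1) = 16 ^ n := by ring
  rw [h4, one_pow, one_pow] at h1
  rw [h1]
  rw [hP] at h2
  linear_combination h2

/-- The value of the second sum (scaled). -/
lemma sum_two_eq {n : ℕ} (hn : p = 4 * n + 1) {a : ℤ_[p]} (ha : 4 * a = -1)
    (ha' : (a : ℚ_[p]) = ((-1 / 4 : ℚ) : ℚ_[p])) :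
    ∑ k ∈ range p, Ab a k ^ 2 * (-8) ^ (p - k) =
      (-1) ^ n * (-8) ^ p * 2 ^ (p * n) * (- Jc p (2 * n) (3 * n)) := by
  have hu2 := isUnit_two' (p := p) hn
  have t1 : ∑ k ∈ range p, Ab a k ^ 2 * (-8) ^ (p - k) =
      (-8) ^ (p - n) * ∑ k ∈ range (n + 1), Ab a k ^ 2 * (-8) ^ (n - k) := by
    rw [Finset.mul_sum]
    symm
    have t2 : ∑ k ∈ range (n + 1), (-8) ^ (p - n) * (Ab a k ^ 2 * (-8) ^ (n - k)) =
        ∑ k ∈ range (n + 1), Ab a k ^ 2 * (-8) ^ (p - k) := by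
      apply Finset.sum_congr rfl
      intro k hk
      rw [Finset.mem_range] at hk
      have e : (-8 : ZMod (p ^ 2)) ^ (p - k) = (-8) ^ (p - n) * (-8) ^ (n - k) := by
        rw [← pow_add]; congr 1; omega
      rw [e]; ring
    rw [t2]
    apply Finset.sum_subset
    · intro k hk; rw [Finset.mem_range] at *; omega
    · intro k hk hk2
      rw [Finset.mem_range] at *
      rw [Ab_sq_eq_zero hn ha (by omega) hk, zero_mul]
  have h1 := sum_two hn ha ha'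
  rw [sum_one_eq hn ha] at h1
  have h2 := two_Jc hn
  have h3 := sixteen (p := p) hn
  have h4 := four_eps (p := p) hn
  have hT : ((16 : ZMod (p ^ 2)) ^ n - 1) * ((16 : ZMod (p ^ 2)) ^ n - 1) = 0 := by
    have hT : red p ((16 : ZMod (p ^ 2)) ^ n - 1) = 0 := by
      have h2 : (2 : ZMod p) ≠ 0 := by
        have := isUnit_iff_red.1 hu2
        rwa [map_ofNat] at this
      have h3 := ZMod.pow_card_sub_one_eq_one h2
      have hp1 : p - 1 = 4 * n := by omega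
      rw [hp1, pow_mul] at h3
      rw [map_sub, map_pow, map_one, map_ofNat]
      have : ((2 : ZMod p) ^ 4) = 16 := by norm_num
      rw [this] at h3
      rw [h3, sub_self]
    exact mul_eq_zero_of_red hT hT
  have e16 : (-16 : ZMod (p ^ 2)) ^ n = (-1) ^ n * 16 ^ n := by rw [neg_pow]
  have e8 : (-8 : ZMod (p ^ 2)) ^ (p - n) * 8 ^ n = (-1) ^ n * (-8) ^ p := by
    have e1 : (8 : ZMod (p ^ 2)) ^ n = (-1) ^ n * (-8) ^ n := by
      rw [← mul_pow]; norm_num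
    have e2 : (-8 : ZMod (p ^ 2)) ^ p = (-8) ^ (p - n) * (-8) ^ n := by
      rw [← pow_add]; congr 1; omega
    rw [e1, e2]; ring
  rw [t1]
  rw [e16] at h1
  have hu8 : IsUnit (8 : ZMod (p ^ 2)) := by
    have := hu2.pow 3
    norm_num at this
    exact this
  apply hu8.mul_left_cancel
  generalize ∑ k ∈ range (n + 1), Ab a k ^ 2 * (-8 : ZMod (p ^ 2)) ^ (n - k) = S at *
  generalize Jc p (2 * n) (3 * n) = J at *
  generalize ((2 * n).choose n : ZMod (p ^ 2)) = C2 at *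
  generalize ((3 * n).choose n : ZMod (p ^ 2)) = C3 at *
  generalize (16 : ZMod (p ^ 2)) ^ n = T at *
  generalize (2 : ZMod (p ^ 2)) ^ (p * n) = ε at *
  -- 8 S = 2 (1 + 3T) (-J)
  have k1 : 8 * S = 2 * (1 + 3 * T) * (-J) := by
    linear_combination 4 * h1 + (3 * T - 1) * h2 + (T + 1) * h3 + C3 * hT
  linear_combination ((-8) ^ (p - n)) * k1 + 2 * ((-8) ^ (p - n)) * J * h4 - 8 * ε * J * e8

/-- first case. -/
lemma sum_two_even {n : ℕ} (hn : p = 4 * n + 1) (he : n % 2 = 0) {x y : ℤ}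
    (hxy : x ^ 2 + y ^ 2 = p) (hx : x % 4 = 1) {a : ℤ_[p]} (ha : 4 * a = -1)
    (ha' : (a : ℚ_[p]) = ((-1 / 4 : ℚ) : ℚ_[p])) :
    2 * (x : ZMod (p ^ 2)) * ∑ k ∈ range p, Ab a k ^ 2 * (-8) ^ (p - k) =
      (-8) ^ p * ((if (y / 4) % 2 = 0 then (1 : ℤ) else -1 : ℤ) : ZMod (p ^ 2)) *
        (4 * (x : ZMod (p ^ 2)) ^ 2 - p) := by
  rw [sum_two_eq hn ha ha']
  have h1 := Jc_value hn hxy hx
  have h2 := quartic_even hn he hxy (by omega)
  have hs : ((-1 : ZMod (p ^ 2)) ^ n) * (-1) ^ n = 1 := by rw [← mul_pow]; simp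
  have hε : (2 : ZMod (p ^ 2)) ^ (p * n) =
      ((if (y / 4) % 2 = 0 then (1 : ℤ) else -1 : ℤ) : ZMod (p ^ 2)) := by
    have hpo : Odd p := by rw [Nat.odd_iff]; omega
    rw [mul_comm p n, pow_mul]
    have h3 : ((2 : ZMod (p ^ 2)) ^ n) ^ p =
        (((if (y / 4) % 2 = 0 then (1 : ℤ) else -1 : ℤ) : ZMod (p ^ 2))) ^ p := by
      apply pow_p_eq_of_red
      rw [map_pow, map_ofNat, h2, red_intCast]
    rw [h3]
    split_ifs
    · simp
    · push_cast; exact hpo.neg_one_pow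
  rw [hε]
  generalize ((if (y / 4) % 2 = 0 then (1 : ℤ) else -1 : ℤ) : ZMod (p ^ 2)) = ε at *
  linear_combination (-(-1) ^ n * (-8) ^ p * ε) * h1 +
    ((-8) ^ p * ε * (4 * (x : ZMod (p ^ 2)) ^ 2 - p)) * hs

/-- second case. -/
lemma sum_two_odd {n : ℕ} (hn : p = 4 * n + 1) (ho : n % 2 = 1) {x y : ℤ}
    (hxy : x ^ 2 + y ^ 2 = p) (hx : x % 4 = 1) {a : ℤ_[p]} (ha : 4 * a = -1)
    (ha' : (a : ℚ_[p]) = ((-1 / 4 : ℚ) : ℚ_[p])) :
    2 * (y : ZMod (p ^ 2)) * ∑ k ∈ range p, Ab a k ^ 2 * (-8) ^ (p - k) =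
      (-8) ^ p * ((if ((y - 2) / 4) % 2 = 0 then (1 : ℤ) else -1 : ℤ) : ZMod (p ^ 2)) *
        (4 * (y : ZMod (p ^ 2)) ^ 2 - p) := by
  rw [sum_two_eq hn ha ha']
  have h1 := Jc_value hn hxy hx
  have h2 := quartic_odd hn ho hxy hx
  have hs : ((-1 : ZMod (p ^ 2)) ^ n) * (-1) ^ n = 1 := by rw [← mul_pow]; simp
  have hp2 : p ≠ 2 := by omega
  have hx0 := x_ne_zero hxy (by omega)
  have hux : IsUnit (x : ZMod (p ^ 2)) := by
    rw [isUnit_iff_red, red_intCast]; exact hx0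
  have hε : (2 : ZMod (p ^ 2)) ^ (p * n) = om p ((2 : ZMod p) ^ n) := by
    rw [mul_comm p n, pow_mul, ← om_red, map_pow, map_ofNat]
  have hs2 : ((if ((y - 2) / 4) % 2 = 0 then (1 : ℤ) else -1 : ℤ)) ^ 2 = 1 := by
    split_ifs <;> norm_num
  have hxyp : (x : ZMod p) ^ 2 + (y : ZMod p) ^ 2 = 0 := by
    have := congrArg (Int.cast : ℤ → ZMod p) hxy
    push_cast at this
    rw [this]; simp
  have hXY : (x : ZMod (p ^ 2)) ^ 2 + (y : ZMod (p ^ 2)) ^ 2 = p := by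
    have := congrArg (Int.cast : ℤ → ZMod (p ^ 2)) hxy
    push_cast at this
    exact this
  have hPP := p_mul_p (p := p)
  generalize (if ((y - 2) / 4) % 2 = 0 then (1 : ℤ) else -1 : ℤ) = s at *
  have hf : ((2 : ZMod p) ^ n) ^ 2 = -1 := by
    have hs2' : ((s : ZMod p)) ^ 2 = 1 := by exact_mod_cast congrArg (Int.cast : ℤ → ZMod p) hs2
    have h3 : (((2 : ZMod p) ^ n) * x) ^ 2 = - (x : ZMod p) ^ 2 := by
      rw [h2]
      linear_combination (y : ZMod p) ^ 2 * hs2' + hxyp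
    have h4 : ((x : ZMod p) ^ 2) ≠ 0 := pow_ne_zero 2 hx0
    apply mul_right_cancel₀ h4
    linear_combination h3
  have hε2 : (om p ((2 : ZMod p) ^ n)) ^ 2 = -1 := by
    rw [← om_pow, hf, om_neg_one hp2]
  have hE : red p (om p ((2 : ZMod p) ^ n) * x - s * y) = 0 := by
    rw [map_sub, map_mul, map_mul, red_om, red_intCast, red_intCast, red_intCast, h2, sub_self]
  have hEE := mul_eq_zero_of_red hE hE
  have hPE := mul_eq_zero_of_red (red_p (p := p)) hE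
  have hss : (s : ZMod (p ^ 2)) ^ 2 = 1 := by
    exact_mod_cast congrArg (Int.cast : ℤ → ZMod (p ^ 2)) hs2
  rw [hε]
  have hu : IsUnit (4 * (x : ZMod (p ^ 2)) ^ 2) := by
    have h2' := isUnit_two' (p := p) hn
    have : (4 : ZMod (p ^ 2)) = 2 ^ 2 := by norm_num
    rw [this]
    exact (h2'.pow 2).mul (hux.pow 2)
  apply hu.mul_left_cancel
  generalize om p ((2 : ZMod p) ^ n) = ε at *
  generalize Jc p (2 * n) (3 * n) = J at *
  generalize (x : ZMod (p ^ 2)) = X at *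
  generalize (y : ZMod (p ^ 2)) = Y at *
  generalize (s : ZMod (p ^ 2)) = S at *
  generalize (p : ZMod (p ^ 2)) = P at *
  generalize (-8 : ZMod (p ^ 2)) ^ p = W at *
  generalize (-1 : ZMod (p ^ 2)) ^ n = e at *
  -- E = ε X - S Y
  have k1 : 2 * S * Y * (ε * X - S * Y) = -P := by
    linear_combination X ^ 2 * hε2 - Y ^ 2 * hss - hXY - hEE
  have k2 : Y * (ε * X) * (4 * X ^ 2 - P) = X ^ 2 * S * (4 * Y ^ 2 - P) := by
    linear_combination 2 * X ^ 2 * S * k1 - 4 * X ^ 2 * Y * (ε * X - S * Y) * hss - Y * hPE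
      - S * P * hXY - S * hPP
  linear_combination (-4 * X * Y * e * W * ε) * h1 + 4 * W * Y * ε * X * (4 * X ^ 2 - P) * hs
    + 4 * W * k2

lemma ne_zero_of_sq_add_sq {x y : ℤ} (hxy : x ^ 2 + y ^ 2 = p) (hx : x ≠ 0) :
    ¬ (p : ℤ) ∣ x := by
  rintro ⟨c, hc⟩
  have hp2 : (2 : ℤ) ≤ p := by exact_mod_cast hp.out.two_le
  have hc0 : c ≠ 0 := by rintro rfl; apply hx; rw [hc, mul_zero]
  have h1 : 1 ≤ c ^ 2 := by have := sq_pos_of_ne_zero hc0 (a := c); omega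
  have h2 : (p : ℤ) ^ 2 ≤ x ^ 2 := by
    rw [hc, mul_pow]; nlinarith [sq_nonneg (p : ℤ)]
  nlinarith [sq_nonneg y]

lemma neg_one_zpow_eq (m : ℤ) : (-1 : ℚ) ^ m = ((if m % 2 = 0 then (1 : ℤ) else -1 : ℤ) : ℚ) := by
  split_ifs with h
  · rw [Even.neg_one_zpow (Int.even_iff.2 h)]; simp
  · rw [Odd.neg_one_zpow (Int.odd_iff.2 (by omega))]; simp

/-- transfer of the second congruence. -/
lemma q2_transfer {n : ℕ} (hn : p = 4 * n + 1) {v s : ℤ} (hv : ¬ (p : ℤ) ∣ v)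
    {a0 : ℤ_[p]} (ha0' : (a0 : ℚ_[p]) = ((-1 / 4 : ℚ) : ℚ_[p]))
    (h : 2 * (v : ZMod (p ^ 2)) * ∑ k ∈ range p, Ab a0 k ^ 2 * (-8) ^ (p - k) =
      (-8) ^ p * (s : ZMod (p ^ 2)) * (4 * (v : ZMod (p ^ 2)) ^ 2 - p)) :
    ∃ a b : ℤ, ¬ (p : ℤ) ∣ b ∧
      (∑ k ∈ range p, (Ring.choose (-1 / 4 : ℚ) k) ^ 2 / (-8) ^ k) -
        s * (2 * v - p / (2 * v)) = (p : ℚ) ^ 2 * (a / b) := by
  have hv0 : (v : ℚ) ≠ 0 := by
    have : v ≠ 0 := by rintro rfl; exact hv (dvd_zero _)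
    exact_mod_cast this
  set Z : ℤ_[p] := 2 * v * (∑ k ∈ range p, (Ring.choose a0 k) ^ 2 * (-8) ^ (p - k)) -
    (-8) ^ p * s * (4 * v ^ 2 - p) with hZ
  have hcast : (Z : ℚ_[p]) = ((2 * v * (∑ k ∈ range p, (Ring.choose (-1 / 4 : ℚ) k) ^ 2 *
      (-8) ^ (p - k)) - (-8) ^ p * s * (4 * v ^ 2 - p) : ℚ) : ℚ_[p]) := by
    rw [hZ]
    push_cast [PadicInt.coe_sum, coe_choose a0 _ ha0']
    norm_num
    rfl
  have hred : (PadicInt.toZModPow 2 Z : ZMod (p ^ 2)) = 0 := by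
    rw [hZ]
    have h8 : (PadicInt.toZModPow 2 (∑ k ∈ range p, (Ring.choose a0 k) ^ 2 * (-8) ^ (p - k)) :
        ZMod (p ^ 2)) = ∑ k ∈ range p, Ab a0 k ^ 2 * (-8) ^ (p - k) := by
      rw [map_sum]
      apply Finset.sum_congr rfl
      intro k _
      rw [map_mul, map_pow, map_pow, map_neg, map_ofNat]
      rfl
    rw [map_sub, map_mul, map_mul, h8, map_mul, map_mul, map_sub, map_mul, map_pow, map_pow,
      map_natCast, map_intCast, map_intCast, map_neg, map_ofNat, map_ofNat, map_ofNat]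
    linear_combination h
  obtain ⟨a, b, hb, hab⟩ := transfer _ Z hcast hred
  have hp2 : ¬ (p : ℤ) ∣ 2 := by
    intro h
    have h1 := Int.le_of_dvd (by norm_num) h
    have h2 := hp.out.two_le
    have : p = 2 := by omega
    omega
  have hp8 : ¬ (p : ℤ) ∣ (-8) ^ p := by
    intro h
    have h1 := Int.Prime.dvd_pow' hp.out h
    have h2 : (p : ℤ) ∣ 2 ^ 3 := by
      have h3 : (p : ℤ) ∣ 8 := (dvd_neg (α := ℤ)).1 h1
      norm_num
      exact h3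
    exact hp2 (Int.Prime.dvd_pow' hp.out h2)
  refine ⟨a, b * (2 * v) * (-8) ^ p, ?_, ?_⟩
  · intro h
    rcases Int.Prime.dvd_mul' hp.out h with h | h
    · rcases Int.Prime.dvd_mul' hp.out h with h | h
      · exact hb h
      · rcases Int.Prime.dvd_mul' hp.out h with h | h
        · exact hp2 h
        · exact hv h
    · exact hp8 h
  · have hS : (∑ k ∈ range p, (Ring.choose (-1 / 4 : ℚ) k) ^ 2 / (-8) ^ k) =
        (∑ k ∈ range p, (Ring.choose (-1 / 4 : ℚ) k) ^ 2 * (-8) ^ (p - k)) / (-8) ^ p := by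
      rw [Finset.sum_div]
      apply Finset.sum_congr rfl
      intro k hk
      rw [Finset.mem_range] at hk
      have e : (-8 : ℚ) ^ p = (-8) ^ (p - k) * (-8) ^ k := by
        rw [← pow_add]; congr 1; omega
      have e1 : (-8 : ℚ) ^ (p - k) ≠ 0 := pow_ne_zero _ (by norm_num)
      have e2 : (-8 : ℚ) ^ k ≠ 0 := pow_ne_zero _ (by norm_num)
      rw [e]
      field_simp
    rw [hS]
    generalize (∑ k ∈ range p, (Ring.choose (-1 / 4 : ℚ) k) ^ 2 * (-8) ^ (p - k)) = S at *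
    have h8 : (-8 : ℚ) ^ p ≠ 0 := pow_ne_zero _ (by norm_num)
    have hq : S / (-8) ^ p - s * (2 * (v : ℚ) - p / (2 * v)) =
        (2 * v * S - (-8) ^ p * s * (4 * (v : ℚ) ^ 2 - p)) / (2 * v * (-8) ^ p) := by
      field_simp
      ring
    rw [hq, hab]
    push_cast
    have hb0 : (b : ℚ) ≠ 0 := by
      have : b ≠ 0 := by rintro rfl; exact hb (dvd_zero _)
      exact_mod_cast this
    field_simp

/-- Q2, `p ≡ 1 mod 8`. -/
theorem q2_even {n : ℕ} (hn : p = 4 * n + 1) (he : n % 2 = 0) {x y : ℤ}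
    (hxy : x ^ 2 + y ^ 2 = p) (hx : x % 4 = 1) :
    ∃ a b : ℤ, ¬ (p : ℤ) ∣ b ∧
      (∑ k ∈ range p, (Ring.choose (-1 / 4 : ℚ) k) ^ 2 / (-8) ^ k) -
        (-1) ^ (y / 4) * (2 * x - p / (2 * x)) = (p : ℚ) ^ 2 * (a / b) := by
  obtain ⟨a0, ha0, ha0'⟩ := exists_a0 hn
  rw [neg_one_zpow_eq]
  apply q2_transfer hn _ ha0' (sum_two_even hn he hxy hx ha0 ha0')
  exact ne_zero_of_sq_add_sq hxy (by rintro rfl; omega)

/-- Q2, `p ≡ 5 mod 8`. -/
theorem q2_odd {n : ℕ} (hn : p = 4 * n + 1) (ho : n % 2 = 1) {x y : ℤ}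
    (hxy : x ^ 2 + y ^ 2 = p) (hx : x % 4 = 1) :
    ∃ a b : ℤ, ¬ (p : ℤ) ∣ b ∧
      (∑ k ∈ range p, (Ring.choose (-1 / 4 : ℚ) k) ^ 2 / (-8) ^ k) -
        (-1) ^ ((y - 2) / 4) * (2 * y - p / (2 * y)) = (p : ℚ) ^ 2 * (a / b) := by
  obtain ⟨a0, ha0, ha0'⟩ := exists_a0 hn
  rw [neg_one_zpow_eq]
  apply q2_transfer hn _ ha0' (sum_two_odd hn ho hxy hx ha0 ha0')
  obtain ⟨hy, -, hy4⟩ := y_mod hn hxy (by omega)
  have := hy4 ho
  exact ne_zero_of_sq_add_sq (x := y) (y := x) (by rw [add_comm]; exact hxy) (by rintro rfl; omega)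

end Pool.Agent.H12.Sc
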