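import Pool.Agent.H12.Sc1

/-!
Evaluation modulo `p^2` of the Jacobi type sum `∑ om(t)^(2n) om(1-t)^(3n)`, `p = 4n+1`.
-/

namespace Pool.Agent.H12.Sc

open Finset

variable {p : ℕ} [hp : Fact p.Prime]

lemma mul_eq_mul_of_red {a b x : ZMod (p ^ 2)} (h : red p a = red p b) (hx : red p x = 0) :
    a * x = b * x := by
  have h1 : red p (a - b) = 0 := by rw [map_sub, h, sub_self]
  have h2 := mul_eq_zero_of_red h1 hx
  rw [sub_mul, sub_eq_zero] at h2
  exact h2

lemma add_pow_of_red {a x : ZMod (p ^ 2)} (hx : red p x = 0) (k : ℕ) :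
    (a + x) ^ (k + 1) = a ^ (k + 1) + ((k : ZMod (p ^ 2)) + 1) * a ^ k * x := by
  have hxx : x * x = 0 := mul_eq_zero_of_red hx hx
  induction k with
  | zero => simp
  | succ k ih =>
    rw [pow_succ (a + x), ih]
    push_cast
    have : (a ^ (k + 1) + ((k : ZMod (p ^ 2)) + 1) * a ^ k * x) * (a + x) =
      a ^ (k + 1 + 1) + ((k : ZMod (p ^ 2)) + 1 + 1) * a ^ (k + 1) * x +
        ((k : ZMod (p ^ 2)) + 1) * a ^ k * (x * x) := by ring
    rw [this, hxx]; ring

/-- the defect `om t + om (1-t) - 1`. -/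
noncomputable def dl (p : ℕ) (t : ZMod p) : ZMod (p ^ 2) := om p t + om p (1 - t) - 1

lemma red_dl (t : ZMod p) : red p (dl p t) = 0 := by
  unfold dl
  rw [map_sub, map_add, red_om, red_om, map_one]; ring

lemma dl_symm (t : ZMod p) : dl p (1 - t) = dl p t := by
  unfold dl
  rw [sub_sub_cancel]; ring

lemma dl_one : dl p 1 = 0 := by
  unfold dl
  rw [sub_self, om_zero, om_one]; ring

noncomputable def Jc (p e f : ℕ) [Fact p.Prime] : ZMod (p ^ 2) :=
  ∑ t : ZMod p, om p t ^ e * om p (1 - t) ^ f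

noncomputable def Yc (p e f : ℕ) [Fact p.Prime] : ZMod (p ^ 2) :=
  ∑ t : ZMod p, om p t ^ e * (1 - om p t) ^ f

noncomputable def Dc (p e f : ℕ) [Fact p.Prime] : ZMod (p ^ 2) :=
  ∑ t : ZMod p, om p t ^ e * om p (1 - t) ^ f * dl p t

lemma Jc_symm (e f : ℕ) : Jc p e f = Jc p f e := by
  unfold Jc
  rw [← Equiv.sum_comp (Equiv.subLeft (1 : ZMod p))]
  apply Finset.sum_congr rfl
  intro t _
  simp only [Equiv.subLeft_apply, sub_sub_cancel]
  ring

lemma Dc_symm (e f : ℕ) : Dc p e f = Dc p f e := by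
  unfold Dc
  rw [← Equiv.sum_comp (Equiv.subLeft (1 : ZMod p))]
  apply Finset.sum_congr rfl
  intro t _
  simp only [Equiv.subLeft_apply, sub_sub_cancel, dl_symm]
  ring

lemma Jc_eq (e f : ℕ) :
    Jc p e (f + 1) = Yc p e (f + 1) + ((f : ZMod (p ^ 2)) + 1) * Dc p e f := by
  unfold Jc Yc Dc
  rw [Finset.mul_sum, ← Finset.sum_add_distrib]
  apply Finset.sum_congr rfl
  intro t _
  have h1 : om p (1 - t) = (1 - om p t) + dl p t := by unfold dl; ring
  have h2 : om p (1 - t) ^ f * dl p t = (1 - om p t) ^ f * dl p t := by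
    apply mul_eq_mul_of_red _ (red_dl t)
    rw [map_pow, map_pow, map_sub, red_om, red_om, map_one]
  have h3 := add_pow_of_red (a := 1 - om p t) (red_dl t) f
  rw [← h1] at h3
  rw [h3, mul_assoc (om p t ^ e) (om p (1 - t) ^ f), h2]
  ring

lemma Dc_rec (e f : ℕ) : Dc p (e + 1) f + Dc p e (f + 1) = Dc p e f := by
  unfold Dc
  rw [← Finset.sum_add_distrib]
  apply Finset.sum_congr rfl
  intro t _
  have h1 : (om p t + om p (1 - t)) * dl p t = dl p t := by
    have : om p t + om p (1 - t) = 1 + dl p t := by unfold dl; ring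
    rw [this, add_mul, one_mul, mul_eq_zero_of_red (red_dl t) (red_dl t), add_zero]
  calc om p t ^ (e + 1) * om p (1 - t) ^ f * dl p t + om p t ^ e * om p (1 - t) ^ (f + 1) * dl p t
      = om p t ^ e * om p (1 - t) ^ f * ((om p t + om p (1 - t)) * dl p t) := by ring
    _ = _ := by rw [h1]

lemma Dc_inv {n : ℕ} (hn : p = 4 * n + 1) (hn0 : 0 < n) :
    Dc p (2 * n) (3 * n - 1) = - Dc p (2 * n) (3 * n) := by
  have h2 : p ≠ 2 := by omega
  unfold Dc
  have key : ∀ f : ℕ, ∑ t : ZMod p, om p t ^ (2 * n) * om p (1 - t) ^ f * dl p t =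
      ∑ t ∈ (Finset.univ.filter (fun t : ZMod p => t ≠ 1)),
        om p t ^ (2 * n) * om p (1 - t) ^ f * dl p t := by
    intro f
    rw [Finset.sum_filter]
    apply Finset.sum_congr rfl
    intro t _
    split_ifs with h
    · rfl
    · push Not at h
      rw [h, dl_one, mul_zero]
  rw [key, key, ← Finset.sum_neg_distrib]
  have hne : ∀ t : ZMod p, t ≠ 1 → 1 - t ≠ 0 := fun t ht h => ht (sub_eq_zero.1 h).symm
  have hinv : ∀ t : ZMod p, t ≠ 1 → -t * (1 - t)⁻¹ ≠ 1 := by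
    intro t ht h
    have h1 := hne t ht
    field_simp at h
    have : (1 : ZMod p) = 0 := by linear_combination -h
    exact one_ne_zero this
  have hinv2 : ∀ t : ZMod p, t ≠ 1 → -(-t * (1 - t)⁻¹) * (1 - (-t * (1 - t)⁻¹))⁻¹ = t := by
    intro t ht
    have h1 := hne t ht
    have h3 : 1 - (-t * (1 - t)⁻¹) = (1 - t)⁻¹ := by
      field_simp; ring
    rw [h3, inv_inv]
    field_simp
  apply Finset.sum_nbij' (fun t => -t * (1 - t)⁻¹) (fun t => -t * (1 - t)⁻¹)
  · intro t ht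
    simp only [Finset.mem_filter, Finset.mem_univ, true_and] at ht ⊢
    exact hinv t ht
  · intro t ht
    simp only [Finset.mem_filter, Finset.mem_univ, true_and] at ht ⊢
    exact hinv t ht
  · intro t ht
    simp only [Finset.mem_filter, Finset.mem_univ, true_and] at ht ⊢
    exact hinv2 t ht
  · intro t ht
    simp only [Finset.mem_filter, Finset.mem_univ, true_and] at ht ⊢
    exact hinv2 t ht
  · intro t ht
    simp only [Finset.mem_filter, Finset.mem_univ, true_and] at ht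
    have h1 := hne t ht
    have h3 : 1 - (-t * (1 - t)⁻¹) = (1 - t)⁻¹ := by
      field_simp; ring
    have hw : om p (1 - t) * om p (1 - t)⁻¹ = 1 := om_mul_inv h1
    have hp1 : p - 1 = 4 * n := by omega
    have hw4 : om p (1 - t)⁻¹ ^ (4 * n) = 1 := by
      have := om_pow_card_sub_one (p := p) (inv_ne_zero h1)
      rwa [hp1] at this
    have hs4 : om p (1 - t) ^ (4 * n) = 1 := by
      have := om_pow_card_sub_one (p := p) h1
      rwa [hp1] at this
    have hdl : dl p (-t * (1 - t)⁻¹) = - (om p (1 - t)⁻¹ * dl p t) := by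
      unfold dl
      rw [h3, om_mul, om_neg h2]
      linear_combination hw
    have hs3 : om p (1 - t)⁻¹ ^ (5 * n + 1) = om p (1 - t) ^ (3 * n - 1) := by
      obtain ⟨m, rfl⟩ : ∃ m, n = m + 1 := ⟨n - 1, by omega⟩
      have e1 : 3 * (m + 1) - 1 = 3 * m + 2 := by omega
      rw [e1]
      calc om p (1 - t)⁻¹ ^ (5 * (m + 1) + 1)
          = om p (1 - t)⁻¹ ^ (4 * (m + 1)) * om p (1 - t)⁻¹ ^ (m + 2) := by
            rw [← pow_add]; congr 1; ring
        _ = om p (1 - t)⁻¹ ^ (m + 2) * om p (1 - t) ^ (4 * (m + 1)) := by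
            rw [hw4, hs4]; ring
        _ = om p (1 - t) ^ (3 * m + 2) * (om p (1 - t) * om p (1 - t)⁻¹) ^ (m + 2) := by
            rw [mul_pow]
            have : 4 * (m + 1) = (3 * m + 2) + (m + 2) := by ring
            rw [this, pow_add]; ring
        _ = _ := by rw [hw, one_pow, mul_one]
    rw [hdl, h3, om_mul, om_neg h2, mul_pow, Even.neg_pow (even_two_mul n), ← hs3]
    ring

/-- expansion of the sums `Yc`. -/
lemma Yc_expand (e f : ℕ) :
    Yc p e f = ∑ j ∈ range (f + 1), (-1 : ZMod (p ^ 2)) ^ j * (f.choose j : ZMod (p ^ 2)) *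
      ∑ t : ZMod p, om p t ^ (e + j) := by
  unfold Yc
  simp_rw [Finset.mul_sum]
  rw [Finset.sum_comm]
  apply Finset.sum_congr rfl
  intro t _
  have h1 : (1 : ZMod (p ^ 2)) - om p t = -om p t + 1 := by ring
  rw [h1, add_pow, Finset.mul_sum]
  apply Finset.sum_congr rfl
  intro j _
  rw [one_pow, neg_pow, pow_add]
  ring

lemma Yc_eq {n : ℕ} (hn : p = 4 * n + 1) {e f j0 : ℕ} (he : 0 < e)
    (hj : e + j0 = 4 * n) (hjf : j0 ≤ f) (hf : f < j0 + 4 * n) :
    Yc p e f = 4 * n * (-1 : ZMod (p ^ 2)) ^ j0 * (f.choose j0 : ZMod (p ^ 2)) := by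
  have hp1 : p - 1 = 4 * n := by omega
  rw [Yc_expand, Finset.sum_eq_single j0]
  · rw [sum_om_pow_eq (by omega) (by rw [hp1, hj])]
    have : ((p : ZMod (p ^ 2)) - 1) = 4 * n := by
      have : (p : ZMod (p ^ 2)) = ((4 * n + 1 : ℕ) : ZMod (p ^ 2)) := by rw [← hn]
      rw [this]; push_cast; ring
    rw [this]; ring
  · intro j hj1 hj2
    rw [sum_om_pow_eq_zero, mul_zero]
    rw [hp1]
    rintro ⟨c, hc⟩
    rw [Finset.mem_range] at hj1
    have h1 : 4 * n * c < 4 * n * 2 := by omega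
    have h2 : c < 2 := Nat.lt_of_mul_lt_mul_left h1
    interval_cases c <;> omega
  · intro h
    rw [Finset.mem_range] at h
    omega

lemma red_Dc (e f : ℕ) : red p (Dc p e f) = 0 := by
  unfold Dc
  rw [map_sum]
  apply Finset.sum_eq_zero
  intro t _
  rw [map_mul, red_dl, mul_zero]

lemma isUnit_Jc {n : ℕ} (hn : p = 4 * n + 1) : IsUnit (Jc p (2 * n) (3 * n)) := by
  have hn0 : 0 < n := by
    rcases Nat.eq_zero_or_pos n with h | h
    · subst h; exact absurd hp.out (by rw [hn]; norm_num)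
    · exact h
  rw [isUnit_iff_red]
  obtain ⟨m, hm⟩ : ∃ m, 3 * n = m + 1 := ⟨3 * n - 1, by omega⟩
  rw [hm, Jc_eq, map_add, map_mul, red_Dc, mul_zero, add_zero, ← hm,
    Yc_eq hn (e := 2 * n) (f := 3 * n) (j0 := 2 * n) (by omega) (by omega) (by omega) (by omega),
    Even.neg_one_pow (even_two_mul _), mul_one]
  have h1 : (4 * (n : ZMod (p ^ 2)) * ((3 * n).choose (2 * n) : ZMod (p ^ 2))) =
    ((4 * n * (3 * n).choose (2 * n) : ℕ) : ZMod (p ^ 2)) := by push_cast; ring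
  rw [h1, red_natCast, Ne, ZMod.natCast_eq_zero_iff, hp.out.dvd_mul]
  push Not
  constructor
  · intro h
    have := Nat.le_of_dvd (by omega) h
    omega
  · intro h
    have h2 : (3 * n).choose (2 * n) ∣ (3 * n).factorial := by
      refine ⟨(2 * n).factorial * (3 * n - 2 * n).factorial, ?_⟩
      rw [← mul_assoc]
      exact (Nat.choose_mul_factorial_mul_factorial (by omega)).symm
    have := (hp.out.dvd_factorial).1 (h.trans h2)
    omega

/-- The evaluation of the Jacobi type sum modulo `p^2`. -/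
theorem two_Jc {n : ℕ} (hn : p = 4 * n + 1) :
    2 * Jc p (2 * n) (3 * n) =
      - (((3 * n).choose n : ZMod (p ^ 2)) + (-1) ^ n * ((2 * n).choose n : ZMod (p ^ 2))) := by
  have hn0 : 0 < n := by
    rcases Nat.eq_zero_or_pos n with h | h
    · subst h; exact absurd hp.out (by rw [hn]; norm_num)
    · exact h
  obtain ⟨m, rfl⟩ : ∃ m, n = m + 1 := ⟨n - 1, by omega⟩
  have hP : (p : ZMod (p ^ 2)) = 4 * ((m : ZMod (p ^ 2)) + 1) + 1 := by
    have : (p : ZMod (p ^ 2)) = ((4 * (m + 1) + 1 : ℕ) : ZMod (p ^ 2)) := by rw [← hn]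
    rw [this]; push_cast; ring
  -- the four values of `Yc`
  have y1 := Yc_eq hn (e := 2 * (m + 1)) (f := 3 * (m + 1)) (j0 := 2 * (m + 1)) (by omega)
    (by omega) (by omega) (by omega)
  have y2 := Yc_eq hn (e := 2 * (m + 1)) (f := 3 * (m + 1) + 1) (j0 := 2 * (m + 1)) (by omega)
    (by omega) (by omega) (by omega)
  have y3 := Yc_eq hn (e := 3 * (m + 1)) (f := 2 * (m + 1)) (j0 := m + 1) (by omega)
    (by omega) (by omega) (by omega)
  have y4 := Yc_eq hn (e := 3 * (m + 1) + 1) (f := 2 * (m + 1)) (j0 := m) (by omega)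
    (by omega) (by omega) (by omega)
  -- relations
  have r1 := Jc_eq (p := p) (2 * (m + 1)) (3 * m + 2)
  have r2 := Jc_eq (p := p) (2 * (m + 1)) (3 * (m + 1))
  have r3 := Jc_eq (p := p) (3 * (m + 1)) (2 * m + 1)
  have r4 := Jc_eq (p := p) (3 * (m + 1) + 1) (2 * m + 1)
  have d1 := Dc_rec (p := p) (3 * (m + 1)) (2 * m + 1)
  have d2 := Dc_inv hn hn0
  have s1 := Jc_symm (p := p) (2 * (m + 1)) (3 * (m + 1))
  have s2 := Jc_symm (p := p) (2 * (m + 1)) (3 * (m + 1) + 1)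
  have s3 := Dc_symm (p := p) (2 * (m + 1)) (3 * (m + 1))
  have i1 : 3 * m + 2 + 1 = 3 * (m + 1) := by ring
  have i2 : 2 * m + 1 + 1 = 2 * (m + 1) := by ring
  have i3 : 3 * (m + 1) - 1 = 3 * m + 2 := by omega
  have i4 : (3 * m + 2 : ℕ) + 1 = 3 * (m + 1) := by ring
  rw [i1, y1] at r1
  rw [y2] at r2
  rw [i2, y3, ← s1] at r3
  rw [i2, y4, ← s2] at r4
  rw [i2, ← s3] at d1
  rw [i3] at d2
  rw [d2] at r1
  have hPD : (p : ZMod (p ^ 2)) * Dc p (2 * (m + 1)) (3 * (m + 1)) = 0 := by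
    unfold Dc
    rw [Finset.mul_sum]
    apply Finset.sum_eq_zero
    intro t _
    have := mul_eq_zero_of_red (red_p (p := p)) (red_dl t)
    calc _ = om p t ^ (2 * (m + 1)) * om p (1 - t) ^ (3 * (m + 1)) * ((p : ZMod (p ^ 2)) * dl p t) := by
          ring
      _ = 0 := by rw [this, mul_zero]
  -- binomial ratios
  have e1 : ((m : ZMod (p ^ 2)) + 1 + 1) * ((3 * (m + 1) + 1).choose (2 * (m + 1)) : ZMod (p ^ 2)) =
      (3 * ((m : ZMod (p ^ 2)) + 1) + 1) * ((3 * (m + 1)).choose (2 * (m + 1)) : ZMod (p ^ 2)) := by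
    have := Nat.add_one_mul_choose_eq (3 * (m + 1)) (m + 1)
    have h1 : (3 * (m + 1)).choose (m + 1) = (3 * (m + 1)).choose (2 * (m + 1)) := by
      rw [← Nat.choose_symm (by omega : m + 1 ≤ 3 * (m + 1))]
      congr 1; omega
    have h2 : (3 * (m + 1) + 1).choose (m + 1 + 1) = (3 * (m + 1) + 1).choose (2 * (m + 1)) := by
      rw [← Nat.choose_symm (by omega : m + 1 + 1 ≤ 3 * (m + 1) + 1)]
      congr 1; omega
    rw [h1, h2] at this
    have h3 := congrArg (Nat.cast : ℕ → ZMod (p ^ 2)) this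
    push_cast at h3
    rw [h3]; ring
  have e2 : ((m : ZMod (p ^ 2)) + 1 + 1) * ((2 * (m + 1)).choose m : ZMod (p ^ 2)) =
      ((m : ZMod (p ^ 2)) + 1) * ((2 * (m + 1)).choose (m + 1) : ZMod (p ^ 2)) := by
    have := Nat.choose_succ_right_eq (2 * (m + 1)) m
    have h1 : 2 * (m + 1) - m = m + 1 + 1 := by omega
    rw [h1] at this
    have h3 := congrArg (Nat.cast : ℕ → ZMod (p ^ 2)) this
    push_cast at h3
    linear_combination -h3
  have h1 : (3 * (m + 1)).choose (m + 1) = (3 * (m + 1)).choose (2 * (m + 1)) := by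
    rw [← Nat.choose_symm (by omega : m + 1 ≤ 3 * (m + 1))]
    congr 1; omega
  rw [h1]
  have hPP := p_mul_p (p := p)
  have u2 : IsUnit (2 : ZMod (p ^ 2)) := by
    have := isUnit_natCast (p := p) (k := 2) (by
      intro h
      have := Nat.le_of_dvd (by norm_num) h
      omega)
    simpa using this
  have hs1 : (-1 : ZMod (p ^ 2)) ^ (2 * (m + 1)) = 1 := Even.neg_one_pow (even_two_mul _)
  have hs2 : (-1 : ZMod (p ^ 2)) ^ (m + 1) = - (-1 : ZMod (p ^ 2)) ^ m := by rw [pow_succ]; ring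
  rw [hs1] at r1 r2
  rw [hs2] at r3
  rw [hs2]
  push_cast at r1 r2 r3 r4
  generalize Jc p (2 * (m + 1)) (3 * (m + 1)) = J at *
  generalize Jc p (2 * (m + 1)) (3 * (m + 1) + 1) = J' at *
  generalize Dc p (2 * (m + 1)) (3 * (m + 1)) = D0 at *
  generalize Dc p (3 * (m + 1)) (2 * m + 1) = D1 at *
  generalize Dc p (3 * (m + 1) + 1) (2 * m + 1) = D2 at *
  generalize ((3 * (m + 1)).choose (2 * (m + 1)) : ZMod (p ^ 2)) = C1 at *
  generalize ((3 * (m + 1) + 1).choose (2 * (m + 1)) : ZMod (p ^ 2)) = C2 at *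
  generalize ((2 * (m + 1)).choose (m + 1) : ZMod (p ^ 2)) = C3 at *
  generalize ((2 * (m + 1)).choose m : ZMod (p ^ 2)) = C4 at *
  generalize (-1 : ZMod (p ^ 2)) ^ m = s at *
  generalize (m : ZMod (p ^ 2)) = M at *
  generalize (p : ZMod (p ^ 2)) = P at *
  have k1 : J = 4 * (M + 1) * C1 - 3 * (M + 1) * D0 := by linear_combination r1
  have k2 : J' = 4 * (M + 1) * C2 + (3 * (M + 1) + 1) * D0 := by linear_combination r2
  have k3 : J = -4 * (M + 1) * s * C3 + 2 * (M + 1) * D1 := by linear_combination r3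
  have k4 : J' = 4 * (M + 1) * s * C4 + 2 * (M + 1) * D2 := by linear_combination r4
  have k5 : 0 = -4 * (M + 1) * s * (C3 + C4) - 4 * (M + 1) * C1 + 4 * (M + 1) * C2
      + (8 * (M + 1) + 1) * D0 := by
    linear_combination k3 - k4 - k1 + k2 - 2 * (M + 1) * d1
  rw [hP] at hPD hPP
  have k6 : 3 * D0 = - 16 * (M + 1) * (2 * (M + 1) + 1) * s * C3 + 32 * (M + 1) ^ 2 * C1 := by
    linear_combination (4 * (M + 1 + 1)) * k5 - 16 * (M + 1) * s * e2 + 16 * (M + 1) * e1
      + (2 * (4 * (M + 1) + 1) + 5) * hPD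
  have k7 : 4 * J = 16 * (M + 1) * C1 + 3 * D0 := by
    linear_combination 4 * k1 - 3 * hPD
  have k8 : 2 * (2 * J - -(C1 + -s * C3)) = 0 := by
    linear_combination k7 + k6 + 2 * (C1 - s * C3) * hPP
  have := (u2.mul_right_eq_zero).1 k8
  exact sub_eq_zero.1 this

end Pool.Agent.H12.Sc
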