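import Pool.Agent.H12.Sc2

/-!
The Gaussian integer behind `Jc p (2n) (3n)`.
-/

namespace Pool.Agent.H12.Sc

open Finset

variable {p : ℕ} [hp : Fact p.Prime]

/-- The unit `i` of the Gaussian integers. -/
def gI : GaussianIntˣ where
  val := ⟨0, 1⟩
  inv := ⟨0, -1⟩
  val_inv := by ext <;> simp
  inv_val := by ext <;> simp

lemma gI_sq : (gI : GaussianInt) ^ 2 = -1 := by
  rw [sq]; ext <;> simp [gI]

lemma gI_pow_four : gI ^ 4 = 1 := by
  ext1
  push_cast
  have : (gI : GaussianInt) ^ 4 = ((gI : GaussianInt) ^ 2) ^ 2 := by ring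
  rw [this, gI_sq]; ring

/-- Every power of `i` differs from `1` by a multiple of `1+i`. -/
lemma gI_pow_sub_one (k : ℕ) : (⟨1, 1⟩ : GaussianInt) ∣ (gI : GaussianInt) ^ k - 1 := by
  have h : (⟨1, 1⟩ : GaussianInt) ∣ (gI : GaussianInt) - 1 := ⟨⟨0, 1⟩, by ext <;> simp [gI]⟩
  exact h.trans (sub_one_dvd_pow_sub_one _ k)

theorem exists_gauss {n : ℕ} (hn : p = 4 * n + 1) :
    ∃ (f : GaussianInt →+* ZMod (p ^ 2)) (J : GaussianInt),
      f J = Jc p (2 * n) (3 * n) ∧ J.re ^ 2 + J.im ^ 2 = p ∧ (J.re + J.im) % 4 = 3 ∧ J.im % 2 = 0 := by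
  have hn0 : 0 < n := by
    rcases Nat.eq_zero_or_pos n with h | h
    · subst h; exact absurd hp.out (by rw [hn]; norm_num)
    · exact h
  have hp1 : p - 1 = 4 * n := by omega
  obtain ⟨g, hg⟩ := IsCyclic.exists_generator (α := (ZMod p)ˣ)
  have hcard : Fintype.card (ZMod p)ˣ = 4 * n := by rw [ZMod.card_units, hp1]
  have hog : orderOf g = 4 * n := by
    rw [orderOf_eq_card_of_forall_mem_zpowers hg, Nat.card_eq_fintype_card, hcard]
  have hζ : gI ∈ rootsOfUnity (Fintype.card (ZMod p)ˣ) GaussianInt := by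
    rw [mem_rootsOfUnity, hcard, pow_mul, gI_pow_four, one_pow]
  set χ : MulChar (ZMod p) GaussianInt := MulChar.ofRootOfUnity hζ hg with hχ
  have hχg : χ (g : ZMod p) = gI := MulChar.ofRootOfUnity_spec hζ hg
  -- the square root of `-1`
  set ι : ZMod (p ^ 2) := om p (g : ZMod p) ^ (3 * n) with hι
  have hg4 : om p (g : ZMod p) ^ (4 * n) = 1 := by
    have := om_pow_card_sub_one (p := p) (Units.ne_zero g)
    rwa [hp1] at this
  have hg2 : om p (g : ZMod p) ^ (2 * n) = -1 := by
    have h1 : (om p (g : ZMod p) ^ (2 * n) - 1) * (om p (g : ZMod p) ^ (2 * n) + 1) = 0 := by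
      have : (om p (g : ZMod p) ^ (2 * n) - 1) * (om p (g : ZMod p) ^ (2 * n) + 1) =
        om p (g : ZMod p) ^ (4 * n) - 1 := by
        have h4 : 4 * n = 2 * n + 2 * n := by ring
        rw [h4, pow_add]; ring
      rw [this, hg4, sub_self]
    have h2 : IsUnit (om p (g : ZMod p) ^ (2 * n) - 1) := by
      rw [isUnit_iff_red, map_sub, map_pow, red_om, map_one]
      intro h
      have h3 : g ^ (2 * n) = 1 := by
        ext; push_cast; exact sub_eq_zero.1 h
      have h4 := orderOf_dvd_of_pow_eq_one h3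
      rw [hog] at h4
      have := Nat.le_of_dvd (by omega) h4
      omega
    have := (h2.mul_right_eq_zero).1 h1
    exact eq_neg_of_add_eq_zero_left this
  have hι2 : ι * ι = ((-1 : ℤ) : ZMod (p ^ 2)) := by
    rw [hι, ← pow_add]
    have : 3 * n + 3 * n = 4 * n + 2 * n := by ring
    rw [this, pow_add, hg4, hg2]; push_cast; ring
  set f : GaussianInt →+* ZMod (p ^ 2) := Zsqrtd.lift ⟨ι, hι2⟩ with hf
  have hfI : f gI = ι := by
    rw [hf, Zsqrtd.lift_apply_apply]
    simp [gI]
  -- all nonzero elements are powers of g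
  have hpow : ∀ t : ZMod p, t ≠ 0 → ∃ k : ℕ, t = (g : ZMod p) ^ k := by
    intro t ht
    obtain ⟨k, hk⟩ := (mem_powers_iff_mem_zpowers (x := g) (y := Units.mk0 t ht)).2 (hg _)
    refine ⟨k, ?_⟩
    have := congrArg (Units.val) hk
    simpa using this.symm
  have hfχ : ∀ t : ZMod p, f (χ t) = om p t ^ (3 * n) := by
    intro t
    by_cases ht : t = 0
    · rw [ht, om_zero, zero_pow (by omega), MulChar.map_zero, map_zero]
    · obtain ⟨k, rfl⟩ := hpow t ht
      rw [map_pow, hχg, map_pow, hfI, om_pow, hι, ← pow_mul, ← pow_mul, mul_comm]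
  have hfχ2 : ∀ t : ZMod p, f ((χ ^ 2) t) = om p t ^ (2 * n) := by
    intro t
    by_cases ht : t = 0
    · rw [ht, om_zero, zero_pow (by omega), MulChar.map_zero, map_zero]
    · rw [MulChar.pow_apply' _ two_ne_zero, map_pow, hfχ, ← pow_mul]
      have h4 := om_pow_card_sub_one (p := p) ht
      rw [hp1] at h4
      have : 3 * n * 2 = 4 * n + 2 * n := by ring
      rw [this, pow_add, h4, one_mul]
  refine ⟨f, jacobiSum (χ ^ 2) χ, ?_, ?_, ?_⟩
  · unfold jacobiSum Jc
    rw [map_sum]
    apply Finset.sum_congr rfl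
    intro t _
    rw [map_mul, hfχ, hfχ2]
  · -- norm
    set c : MulChar (ZMod p) ℂ := χ.ringHomComp GaussianInt.toComplex with hc
    have hcg : c (g : ZMod p) = Complex.I := by
      rw [hc, MulChar.ringHomComp_apply, hχg]
      simp [gI, GaussianInt.toComplex_def']
    have hc1 : c ≠ 1 := by
      intro h
      have := hcg
      rw [h, MulChar.one_apply_coe] at this
      have := congrArg Complex.re this
      simp at this
    have hc2 : c ^ 2 ≠ 1 := by
      intro h
      have h2 : (c ^ 2) (g : ZMod p) = -1 := by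
        rw [MulChar.pow_apply' _ two_ne_zero, hcg, Complex.I_sq]
      rw [h, MulChar.one_apply_coe] at h2
      have := congrArg Complex.re h2
      norm_num at this
    have hc3 : c ^ 2 * c ≠ 1 := by
      intro h
      have h2 : (c ^ 2 * c) (g : ZMod p) = -Complex.I := by
        rw [MulChar.mul_apply, MulChar.pow_apply' _ two_ne_zero, hcg, Complex.I_sq]; ring
      rw [h, MulChar.one_apply_coe] at h2
      have := congrArg Complex.re h2
      simp at this
    have hchar : ringChar ℂ ≠ ringChar (ZMod p) := by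
      rw [ringChar.eq_zero, ZMod.ringChar_zmod_n]
      exact hp.out.ne_zero.symm
    have h1 := jacobiSum_mul_jacobiSum_inv hchar hc2 hc1 hc3
    rw [← MulChar.star_eq_inv, ← MulChar.star_eq_inv] at h1
    have h2 : jacobiSum (star (c ^ 2)) (star c) = star (jacobiSum (c ^ 2) c) := by
      have := jacobiSum_ringHomComp (c ^ 2) c (starRingEnd ℂ)
      exact this
    have h3 : jacobiSum (c ^ 2) c = GaussianInt.toComplex (jacobiSum (χ ^ 2) χ) := by
      rw [← jacobiSum_ringHomComp]
      congr 1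
      rw [hc, MulChar.ringHomComp_pow]
    rw [h2, h3, ZMod.card] at h1
    set J := jacobiSum (χ ^ 2) χ
    have h4 : ((J.norm : ℤ) : ℂ) = (p : ℂ) := by
      rw [GaussianInt.intCast_complex_norm, ← h1, Complex.normSq_eq_conj_mul_self]
      simp [mul_comm]
    have h5 : J.norm = p := by exact_mod_cast h4
    rw [Zsqrtd.norm_def] at h5
    linarith
  · -- congruence
    have hs1 : ∑ t : ZMod p, (χ ^ 2) t = 0 := by
      apply MulChar.sum_eq_zero_of_ne_one
      intro h
      have h2 : (χ ^ 2) (g : ZMod p) = -1 := by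
        rw [MulChar.pow_apply' _ two_ne_zero, hχg, gI_sq]
      rw [h, MulChar.one_apply_coe] at h2
      have := congrArg Zsqrtd.re h2
      norm_num at this
    have hs2 : ∑ t : ZMod p, χ (1 - t) = 0 := by
      have h0 : ∑ t : ZMod p, χ t = 0 := by
        apply MulChar.sum_eq_zero_of_ne_one
        intro h
        have h2 : χ (g : ZMod p) = gI := hχg
        rw [h, MulChar.one_apply_coe] at h2
        have := congrArg Zsqrtd.re h2
        simp [gI] at this
      rw [← h0]
      exact Equiv.sum_comp (Equiv.subLeft (1 : ZMod p)) (fun t => χ t)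
    -- each product
    have hdvd : ∀ t : ZMod p, t ≠ 0 → t ≠ 1 →
        (⟨2, 2⟩ : GaussianInt) ∣ ((χ ^ 2) t - 1) * (χ (1 - t) - 1) := by
      intro t ht ht1
      have e : (⟨2, 2⟩ : GaussianInt) = 2 * ⟨1, 1⟩ := by ext <;> simp
      rw [e]
      apply mul_dvd_mul
      · obtain ⟨k, rfl⟩ := hpow t ht
        rw [map_pow, MulChar.pow_apply' _ two_ne_zero, hχg, gI_sq]
        have h := sub_one_dvd_pow_sub_one (-1 : GaussianInt) k
        have e2 : (-1 : GaussianInt) - 1 = -2 := by norm_num
        rw [e2, neg_dvd] at h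
        exact h
      · obtain ⟨k, hk⟩ := hpow (1 - t) (sub_ne_zero.2 (Ne.symm ht1))
        rw [hk, map_pow, hχg]
        exact gI_pow_sub_one k
    have hsum : (⟨2, 2⟩ : GaussianInt) ∣ jacobiSum (χ ^ 2) χ + p := by
      have e1 : jacobiSum (χ ^ 2) χ + p =
          ∑ t : ZMod p, ((χ ^ 2) t - 1) * (χ (1 - t) - 1) := by
        have e2 : ∀ t : ZMod p, ((χ ^ 2) t - 1) * (χ (1 - t) - 1) =
          (χ ^ 2) t * χ (1 - t) - (χ ^ 2) t - χ (1 - t) + 1 := by intro t; ring
        simp_rw [e2]
        rw [Finset.sum_add_distrib, Finset.sum_sub_distrib, Finset.sum_sub_distrib, hs1, hs2,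
          Finset.sum_const, Finset.card_univ, ZMod.card]
        unfold jacobiSum
        simp
      rw [e1]
      apply Finset.dvd_sum
      intro t _
      by_cases h0 : t = 0
      · rw [h0, sub_zero, MulChar.map_one, sub_self, mul_zero]
        exact dvd_zero _
      · by_cases h1 : t = 1
        · rw [h1, MulChar.map_one, sub_self, zero_mul]
          exact dvd_zero _
        · exact hdvd t h0 h1
    obtain ⟨z, hz⟩ := hsum
    have hre := congrArg Zsqrtd.re hz
    have him := congrArg Zsqrtd.im hz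
    simp at hre him
    constructor
    · omega
    · omega

end Pool.Agent.H12.Sc
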