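import Pool.Agent.H12.Sc3

/-!
The value of `Jc p (2n) (3n)` in terms of the representation `p = x^2 + y^2`.
-/

namespace Pool.Agent.H12.Sc

open Finset

variable {p : ℕ} [hp : Fact p.Prime]

lemma sq_add_sq_unique_aux {x y a b : ℤ} (h1 : x ^ 2 + y ^ 2 = p) (h2 : a ^ 2 + b ^ 2 = p)
    (hx : x % 2 = 1) (hb : b % 2 = 0) (hd : (p : ℤ) ∣ x * b - y * a) : x = a ∨ x = -a := by
  obtain ⟨k, hk⟩ := hd
  have hp0 : (p : ℤ) ≠ 0 := by exact_mod_cast hp.out.ne_zero
  have h3 : (p : ℤ) ∣ x * a + y * b := by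
    have h4 : (p : ℤ) ∣ (x * a + y * b) ^ 2 := by
      refine ⟨p - p * k ^ 2, ?_⟩
      have : (x * a + y * b) ^ 2 = (x ^ 2 + y ^ 2) * (a ^ 2 + b ^ 2) - (x * b - y * a) ^ 2 := by ring
      rw [this, h1, h2, hk]; ring
    exact Int.Prime.dvd_pow' hp.out h4
  obtain ⟨l, hl⟩ := h3
  have h5 : k ^ 2 + l ^ 2 = 1 := by
    have h6 : (p : ℤ) ^ 2 * (k ^ 2 + l ^ 2) = (p : ℤ) ^ 2 * 1 := by
      have : (x * a + y * b) ^ 2 + (x * b - y * a) ^ 2 = (x ^ 2 + y ^ 2) * (a ^ 2 + b ^ 2) := by ring
      rw [h1, h2, hk, hl] at this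
      linear_combination this
    exact mul_left_cancel₀ (pow_ne_zero 2 hp0) h6
  have hk1 : k ≤ 1 := by nlinarith
  have hk2 : -1 ≤ k := by nlinarith
  have hl1 : l ≤ 1 := by nlinarith
  have hl2 : -1 ≤ l := by nlinarith
  have e1 : x * (x * a + y * b) - y * (x * b - y * a) = p * a := by
    have : x * (x * a + y * b) - y * (x * b - y * a) = (x ^ 2 + y ^ 2) * a := by ring
    rw [this, h1]
  have e2 : x * (x * b - y * a) + y * (x * a + y * b) = p * b := by
    have : x * (x * b - y * a) + y * (x * a + y * b) = (x ^ 2 + y ^ 2) * b := by ring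
    rw [this, h1]
  have e1' : x * l - y * k = a := by
    apply mul_left_cancel₀ hp0
    rw [hk, hl] at e1
    linear_combination e1
  have e2' : x * k + y * l = b := by
    apply mul_left_cancel₀ hp0
    rw [hk, hl] at e2
    linear_combination e2
  have hk3 : k = 0 ∨ k = 1 ∨ k = -1 := by omega
  have hl3 : l = 0 ∨ l = 1 ∨ l = -1 := by omega
  rcases hk3 with rfl | rfl | rfl <;> rcases hl3 with rfl | rfl | rfl
  all_goals first
    | (norm_num at h5; done)
    | (left; linarith)
    | (right; linarith)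
    | (exfalso; omega)

lemma sq_add_sq_unique {x y a b : ℤ} (h1 : x ^ 2 + y ^ 2 = p) (h2 : a ^ 2 + b ^ 2 = p)
    (hx : x % 2 = 1) (hb : b % 2 = 0) : x = a ∨ x = -a := by
  have h3 : (p : ℤ) ∣ (x * b - y * a) * (x * b + y * a) := by
    refine ⟨x ^ 2 - a ^ 2, ?_⟩
    have hb2 : b ^ 2 = p - a ^ 2 := by linarith
    have hy2 : y ^ 2 = p - x ^ 2 := by linarith
    have : (x * b - y * a) * (x * b + y * a) = x ^ 2 * b ^ 2 - y ^ 2 * a ^ 2 := by ring
    rw [this, hb2, hy2]; ring
  rcases Int.Prime.dvd_mul' hp.out h3 with h | h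
  · exact sq_add_sq_unique_aux h1 h2 hx hb h
  · exact sq_add_sq_unique_aux (y := -y) (by rw [neg_sq]; exact h1) h2 hx hb
      (by rw [neg_mul, sub_neg_eq_add]; exact h)

lemma int_sq_mod_eight_of_odd {a : ℤ} (h : a % 2 = 1) : a ^ 2 % 8 = 1 := by
  have : a % 8 = 1 ∨ a % 8 = 3 ∨ a % 8 = 5 ∨ a % 8 = 7 := by omega
  rcases this with h | h | h | h <;> simp [pow_two, Int.mul_emod, h]

lemma int_sq_mod_eight_of_two {a : ℤ} (h : a % 4 = 2) : a ^ 2 % 8 = 4 := by
  have : a % 8 = 2 ∨ a % 8 = 6 := by omega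
  rcases this with h | h <;> simp [pow_two, Int.mul_emod, h]

lemma int_sq_mod_eight_of_four {a : ℤ} (h : a % 4 = 0) : a ^ 2 % 8 = 0 := by
  have : a % 8 = 0 ∨ a % 8 = 4 := by omega
  rcases this with h | h <;> simp [pow_two, Int.mul_emod, h]

/-- Value of the Jacobi type sum. -/
theorem Jc_value {n : ℕ} (hn : p = 4 * n + 1) {x y : ℤ} (hxy : x ^ 2 + y ^ 2 = p)
    (hx : x % 4 = 1) :
    (2 * (x : ZMod (p ^ 2))) * Jc p (2 * n) (3 * n) =
      - ((-1) ^ n * (4 * (x : ZMod (p ^ 2)) ^ 2 - p)) := by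
  obtain ⟨f, J, hJ, hnorm, hcong, heven⟩ := exists_gauss hn
  have hpn : (p : ℤ) = 4 * n + 1 := by exact_mod_cast hn
  -- sign determination
  have hsign : J.re = -((-1) ^ n * x) := by
    have hu := sq_add_sq_unique hxy hnorm (by omega) heven
    have hodd : J.re % 2 = 1 := by omega
    have h8 := int_sq_mod_eight_of_odd hodd
    rcases Nat.even_or_odd n with he | ho
    · rw [he.neg_one_pow, one_mul]
      have hn8 : (n : ℤ) % 2 = 0 := by exact_mod_cast Nat.even_iff.1 he
      have : J.im % 4 = 0 := by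
        by_contra hne
        have h2 : J.im % 4 = 2 := by omega
        have := int_sq_mod_eight_of_two h2
        omega
      rcases hu with h | h <;> omega
    · rw [ho.neg_one_pow]
      have hn8 : (n : ℤ) % 2 = 1 := by exact_mod_cast Nat.odd_iff.1 ho
      have : J.im % 4 = 2 := by
        by_contra hne
        have h2 : J.im % 4 = 0 := by omega
        have := int_sq_mod_eight_of_four h2
        omega
      rcases hu with h | h <;> omega
  -- algebra
  have hprod : f J * f (star J) = p := by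
    rw [← map_mul]
    have : J * star J = ((p : ℤ) : GaussianInt) := by
      ext
      · rw [Zsqrtd.re_intCast, ← hnorm]
        simp; ring
      · rw [Zsqrtd.im_intCast]
        simp; ring
    rw [this, map_intCast]; simp
  have hsum : f J + f (star J) = ((2 * J.re : ℤ) : ZMod (p ^ 2)) := by
    rw [← map_add]
    have : J + star J = ((2 * J.re : ℤ) : GaussianInt) := by
      ext
      · simp; ring
      · simp
    rw [this, map_intCast]
  have hunit : IsUnit (f J) := by rw [hJ]; exact isUnit_Jc hn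
  have hred : red p (f (star J)) = 0 := by
    have h1 : red p (f J) * red p (f (star J)) = 0 := by
      rw [← map_mul, hprod, red_p]
    rcases mul_eq_zero.1 h1 with h | h
    · exact absurd h (isUnit_iff_red.1 hunit)
    · exact h
  have hsq : f (star J) * f (star J) = 0 := mul_eq_zero_of_red hred hred
  rw [hsign] at hsum
  rw [← hJ]
  push_cast at hsum
  have hs2 : ((-1 : ZMod (p ^ 2)) ^ n) * (-1) ^ n = 1 := by
    rw [← mul_pow]; simp
  generalize f (star J) = j' at *
  generalize f J = j at *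
  generalize (-1 : ZMod (p ^ 2)) ^ n = s at *
  generalize (x : ZMod (p ^ 2)) = X at *
  generalize (p : ZMod (p ^ 2)) = P at *
  -- j + j' = -2 s X, j j' = P, j'^2 = 0, s^2 = 1
  linear_combination s * (2 * s * X - j') * hsum + s * hprod + s * hsq
    - (2 * X * j + 4 * s * X ^ 2) * hs2

end Pool.Agent.H12.Sc
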