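import Pool.Agent.H12.Sc4

/-!
Binomial sums: `2 ∑ C(2n,k) C(2n+k,k) = C(3n,n) + (-1)^n C(2n,n)` modulo `p^2`, `p = 4n+1`.
-/

namespace Pool.Agent.H12.Sc

open Finset

/-- Alternating sum of squares. -/
theorem alt_sum_sq (n : ℕ) :
    ∑ k ∈ range (2 * n + 1), (-1 : ℤ) ^ k * ((2 * n).choose k : ℤ) ^ 2 =
      (-1) ^ n * ((2 * n).choose n : ℤ) := by
  have h1 : ((Polynomial.X + Polynomial.C (-1 : ℤ)) ^ (2 * n)) * ((1 + Polynomial.X) ^ (2 * n)) =
      Polynomial.expand ℤ 2 ((Polynomial.X + Polynomial.C (-1 : ℤ)) ^ (2 * n)) := by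
    rw [← mul_pow, map_pow, map_add, Polynomial.expand_X, Polynomial.expand_C]
    congr 1
    simp only [map_neg, map_one]; ring
  have h2 := congrArg (fun q => Polynomial.coeff q (n * 2)) h1
  rw [Polynomial.coeff_expand_mul (by norm_num), Polynomial.coeff_mul] at h2
  simp only [Polynomial.coeff_X_add_C_pow, Polynomial.coeff_one_add_X_pow] at h2
  rw [Finset.Nat.sum_antidiagonal_eq_sum_range_succ
    (fun i j => (-(1 : ℤ)) ^ (2 * n - i) * ((2 * n).choose i : ℤ) * ((2 * n).choose j : ℤ))] at h2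
  have e : 2 * n - n = n := by omega
  rw [e] at h2
  rw [← h2, mul_comm n 2]
  apply Finset.sum_congr rfl
  intro k hk
  rw [Finset.mem_range] at hk
  have hk' : k ≤ 2 * n := by omega
  rw [Nat.choose_symm hk']
  have : (-1 : ℤ) ^ (2 * n - k) = (-1) ^ k := by
    have h3 : (-1 : ℤ) ^ (2 * n - k) * (-1) ^ k = 1 := by
      rw [← pow_add, Nat.sub_add_cancel hk', Even.neg_one_pow (even_two_mul n)]
    have h4 : (-1 : ℤ) ^ k * (-1) ^ k = 1 := by rw [← mul_pow]; simp
    calc (-1 : ℤ) ^ (2 * n - k) = (-1 : ℤ) ^ (2 * n - k) * ((-1 : ℤ) ^ k * (-1) ^ k) := by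
          rw [h4, mul_one]
      _ = _ := by rw [← mul_assoc, h3, one_mul]
  rw [this]; ring

/-- Alternating convolution. -/
theorem alt_sum_conv (n : ℕ) :
    ∑ k ∈ range (2 * n + 1), (-1 : ℤ) ^ k * ((2 * n + k).choose k : ℤ) *
      ((4 * n - k).choose (2 * n - k) : ℤ) = ((3 * n).choose n : ℤ) := by
  set d := 2 * n with hd
  set A : PowerSeries ℤ := PowerSeries.mk fun k => ((d + k).choose d : ℤ) with hA
  have hA1 : A * (1 - PowerSeries.X) ^ (d + 1) = 1 :=
    PowerSeries.mk_add_choose_mul_one_sub_pow_eq_one ℤ d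
  have hA2 : PowerSeries.rescale (-1 : ℤ) A * (1 + PowerSeries.X) ^ (d + 1) = 1 := by
    have := congrArg (PowerSeries.rescale (-1 : ℤ)) hA1
    rw [map_mul, map_pow, map_sub, map_one, PowerSeries.rescale_X] at this
    have e : (1 : PowerSeries ℤ) - PowerSeries.C (-1 : ℤ) * PowerSeries.X = 1 + PowerSeries.X := by
      simp
    rwa [e] at this
  have hA3 : PowerSeries.expand 2 two_ne_zero A * (1 - PowerSeries.X ^ 2) ^ (d + 1) = 1 := by
    have := congrArg (PowerSeries.expand 2 two_ne_zero (R := ℤ)) hA1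
    rw [map_mul, map_pow, map_sub, map_one, PowerSeries.expand_X] at this
    exact this
  have h1 : PowerSeries.rescale (-1 : ℤ) A * A = PowerSeries.expand 2 two_ne_zero A := by
    have e : (1 - PowerSeries.X ^ 2 : PowerSeries ℤ) ^ (d + 1) =
        (1 - PowerSeries.X) ^ (d + 1) * (1 + PowerSeries.X) ^ (d + 1) := by
      rw [← mul_pow]; congr 1; ring
    rw [e] at hA3
    calc PowerSeries.rescale (-1 : ℤ) A * A
        = PowerSeries.rescale (-1 : ℤ) A * A * (PowerSeries.expand 2 two_ne_zero A *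
            ((1 - PowerSeries.X) ^ (d + 1) * (1 + PowerSeries.X) ^ (d + 1))) := by
          rw [hA3, mul_one]
      _ = (A * (1 - PowerSeries.X) ^ (d + 1)) * (PowerSeries.rescale (-1 : ℤ) A *
            (1 + PowerSeries.X) ^ (d + 1)) * PowerSeries.expand 2 two_ne_zero A := by ring
      _ = _ := by rw [hA1, hA2]; ring
  have h2 := congrArg (fun q => PowerSeries.coeff (2 * n) q) h1
  rw [PowerSeries.coeff_expand_mul, PowerSeries.coeff_mul] at h2
  simp only [PowerSeries.coeff_rescale, hA, PowerSeries.coeff_mk] at h2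
  rw [Finset.Nat.sum_antidiagonal_eq_sum_range_succ
    (fun i j => (-(1 : ℤ)) ^ i * ((d + i).choose d : ℤ) * ((d + j).choose d : ℤ))] at h2
  have e3 : (d + n).choose d = (3 * n).choose n := by
    rw [show d + n = 3 * n by omega, ← Nat.choose_symm (by omega : n ≤ 3 * n)]
    congr 1; omega
  rw [e3] at h2
  rw [← h2]
  apply Finset.sum_congr rfl
  intro k hk
  rw [Finset.mem_range] at hk
  have hk' : k ≤ d := by omega
  have e1 : (d + k).choose k = (d + k).choose d := by
    rw [← Nat.choose_symm (Nat.le_add_right d k)]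
    congr 1; omega
  have e2 : (4 * n - k).choose (d - k) = (d + (d - k)).choose d := by
    rw [show 4 * n - k = d + (d - k) by omega, ← Nat.choose_symm (Nat.le_add_right d (d - k))]
    congr 1; omega
  rw [e1, e2]

variable {p : ℕ} [hp : Fact p.Prime]

lemma choose_red {n : ℕ} (hn : p = 4 * n + 1) (k : ℕ) (hk : k ≤ 2 * n) :
    ((-1) ^ k * ((2 * n + k).choose k : ZMod p)) = ((2 * n).choose k : ZMod p) := by
  induction k with
  | zero => simp
  | succ k ih =>
    have ih' := ih (by omega)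
    have hk1 : ((k + 1 : ℕ) : ZMod p) ≠ 0 := by
      rw [Ne, ZMod.natCast_eq_zero_iff]
      intro h
      have := Nat.le_of_dvd (by omega) h
      omega
    apply mul_right_cancel₀ hk1
    have h1 := congrArg (Nat.cast : ℕ → ZMod p) (Nat.add_one_mul_choose_eq (2 * n + k) k)
    have h2 := congrArg (Nat.cast : ℕ → ZMod p) (Nat.choose_succ_right_eq (2 * n) k)
    have h3 : ((2 * n - k : ℕ) : ZMod p) = 2 * n - k := by
      rw [Nat.cast_sub (by omega)]; push_cast; ring
    push_cast at h1 h2 ⊢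
    rw [h3] at h2
    have hP : (4 * (n : ZMod p) + 1) = 0 := by
      have : ((4 * n + 1 : ℕ) : ZMod p) = 0 := by rw [← hn]; exact ZMod.natCast_self p
      push_cast at this; exact this
    rw [show 2 * n + (k + 1) = 2 * n + k + 1 by ring, h2, pow_succ]
    linear_combination ((-1) ^ k) * h1 + ((2 * (n : ZMod p)) - k) * ih' -
      ((-1) ^ k) * ((2 * n + k).choose k : ZMod p) * hP

/-- The central Delannoy type sum modulo `p^2`. -/
theorem two_delannoy {n : ℕ} (hn : p = 4 * n + 1) :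
    2 * ∑ k ∈ range (2 * n + 1), ((2 * n).choose k : ZMod (p ^ 2)) * ((2 * n + k).choose k) =
      ((3 * n).choose n : ZMod (p ^ 2)) + (-1) ^ n * ((2 * n).choose n : ZMod (p ^ 2)) := by
  have hT := congrArg (Int.cast : ℤ → ZMod (p ^ 2)) (alt_sum_conv n)
  have hB := congrArg (Int.cast : ℤ → ZMod (p ^ 2)) (alt_sum_sq n)
  push_cast at hT hB
  rw [← hT, ← hB]
  have hrefl : ∑ k ∈ range (2 * n + 1), ((2 * n).choose k : ZMod (p ^ 2)) *
      ((4 * n - k).choose (2 * n - k)) =
      ∑ k ∈ range (2 * n + 1), ((2 * n).choose k : ZMod (p ^ 2)) * ((2 * n + k).choose k) := by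
    rw [← Finset.sum_range_reflect]
    apply Finset.sum_congr rfl
    intro k hk
    rw [Finset.mem_range] at hk
    have e1 : 2 * n + 1 - 1 - k = 2 * n - k := by omega
    have e2 : 4 * n - (2 * n - k) = 2 * n + k := by omega
    have e3 : 2 * n - (2 * n - k) = k := by omega
    rw [e1, e2, e3, Nat.choose_symm (by omega)]
  rw [two_mul]
  nth_rewrite 2 [← hrefl]
  rw [← Finset.sum_add_distrib, ← Finset.sum_add_distrib]
  apply Finset.sum_congr rfl
  intro k hk
  rw [Finset.mem_range] at hk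
  have hk' : k ≤ 2 * n := by omega
  have r1 : red p ((-1) ^ k * ((2 * n + k).choose k : ZMod (p ^ 2)) -
      ((2 * n).choose k : ZMod (p ^ 2))) = 0 := by
    rw [map_sub, map_mul, map_pow, map_neg, map_one, red_natCast, red_natCast,
      choose_red hn k hk', sub_self]
  have r2 : red p ((-1) ^ k * ((4 * n - k).choose (2 * n - k) : ZMod (p ^ 2)) -
      ((2 * n).choose k : ZMod (p ^ 2))) = 0 := by
    have h1 := choose_red hn (2 * n - k) (by omega)
    rw [show 2 * n + (2 * n - k) = 4 * n - k by omega, Nat.choose_symm hk'] at h1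
    have h2 : (-1 : ZMod p) ^ (2 * n - k) = (-1) ^ k := by
      have h3 : (-1 : ZMod p) ^ (2 * n - k) * (-1) ^ k = 1 := by
        rw [← pow_add, Nat.sub_add_cancel hk', Even.neg_one_pow (even_two_mul n)]
      have h4 : (-1 : ZMod p) ^ k * (-1) ^ k = 1 := by rw [← mul_pow]; simp
      calc (-1 : ZMod p) ^ (2 * n - k) = (-1 : ZMod p) ^ (2 * n - k) * ((-1) ^ k * (-1) ^ k) := by
            rw [h4, mul_one]
        _ = _ := by rw [← mul_assoc, h3, one_mul]
    rw [h2] at h1
    rw [map_sub, map_mul, map_pow, map_neg, map_one, red_natCast, red_natCast, h1, sub_self]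
  have h0 := mul_eq_zero_of_red r1 r2
  have hs : ((-1 : ZMod (p ^ 2)) ^ k) * (-1) ^ k = 1 := by rw [← mul_pow]; simp
  generalize (((2 * n + k).choose k : ℕ) : ZMod (p ^ 2)) = d at *
  generalize (((4 * n - k).choose (2 * n - k) : ℕ) : ZMod (p ^ 2)) = e at *
  generalize (((2 * n).choose k : ℕ) : ZMod (p ^ 2)) = c at *
  generalize (-1 : ZMod (p ^ 2)) ^ k = s at *
  linear_combination (-s) * h0 + (s * d * e - c * d - c * e) * hs

end Pool.Agent.H12.Sc
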