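import Pool.Agent.H12.Sc5

/-!
Generalised binomial coefficients; the quadratic transformation at the level of coefficients.
-/

namespace Pool.Agent.H12.Sc

open Finset

/-- Recurrence for generalised binomial coefficients in a commutative binomial domain. -/
lemma choose_succ_rec {R : Type*} [CommRing R] [BinomialRing R] (r : R) (k : ℕ) :
    ((k : R) + 1) * Ring.choose r (k + 1) = (r - k) * Ring.choose r k := by
  have h1 := Ring.descPochhammer_eq_factorial_smul_choose r (k + 1)
  have h2 := Ring.descPochhammer_eq_factorial_smul_choose r k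
  rw [descPochhammer_succ_right, Polynomial.smeval_mul, h2, Nat.factorial_succ] at h1
  have h3 : ((Polynomial.X : Polynomial ℤ) - (k : Polynomial ℤ)).smeval r = r - k := by
    rw [Polynomial.smeval_sub, Polynomial.smeval_X, pow_one, Polynomial.smeval_natCast]
    simp
  rw [h3] at h1
  have h4 : k.factorial • (((k : R) + 1) * Ring.choose r (k + 1)) =
      k.factorial • ((r - k) * Ring.choose r k) := by
    simp only [nsmul_eq_mul] at h1 ⊢
    push_cast at h1
    linear_combination -h1
  have : IsAddTorsionFree R := BinomialRing.toIsAddTorsionFree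
  exact nsmul_right_injective (Nat.factorial_ne_zero k) h4

/-- coefficient sum of the quadratic transformation. -/
noncomputable def cN {R : Type*} [CommRing R] [BinomialRing R] (a : R) (N : ℕ) : R :=
  ∑ k ∈ range (N + 1), Ring.choose a k ^ 2 * 4 ^ k * (-1) ^ (N + k) * (k.choose (N - k) : R)

lemma cN_rec {R : Type*} [CommRing R] [BinomialRing R] {a : R} (ha : 4 * a = -1) (N : ℕ) :
    4 * ((N : R) + 1) ^ 2 * cN a (N + 1) = (2 * (N : R) + 1) ^ 2 * cN a N := by
  -- telescoping
  set G : ℕ → R := fun k => Ring.choose a k ^ 2 * 4 ^ k * (-1) ^ (N + k) * k *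
    (2 * k - N - 1) * (k.choose (N + 1 - k) : R) with hG
  have key : ∀ k ∈ range (N + 1),
      4 * ((N : R) + 1) ^ 2 * (Ring.choose a k ^ 2 * 4 ^ k * (-1) ^ (N + 1 + k) *
        (k.choose (N + 1 - k) : R)) -
      (2 * (N : R) + 1) ^ 2 * (Ring.choose a k ^ 2 * 4 ^ k * (-1) ^ (N + k) *
        (k.choose (N - k) : R)) = 4 * (G (k + 1) - G k) := by
    intro k hk
    rw [Finset.mem_range] at hk
    obtain ⟨j, rfl⟩ : ∃ j, N = k + j := ⟨N - k, by omega⟩
    have e1 : k + j + 1 - k = j + 1 := by omega
    have e2 : k + j - k = j := by omega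
    have e3 : k + j + 1 - (k + 1) = j := by omega
    have hC1 : (k.choose (j + 1) : R) * ((j : R) + 1) = (k.choose j : R) * ((k : R) - j) := by
      rcases Nat.lt_or_ge k j with h | h
      · rw [Nat.choose_eq_zero_of_lt h, Nat.choose_eq_zero_of_lt (by omega)]; simp
      · have := congrArg (Nat.cast : ℕ → R) (Nat.choose_succ_right_eq k j)
        push_cast [Nat.cast_sub h] at this
        exact this
    have hC2 : (k.choose j : R) * ((k : R) + 1) = ((k + 1).choose j : R) * ((k : R) + 1 - j) := by
      rcases Nat.lt_or_ge (k + 1) j with h | h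
      · rw [Nat.choose_eq_zero_of_lt h, Nat.choose_eq_zero_of_lt (by omega)]; simp
      · have := congrArg (Nat.cast : ℕ → R) (Nat.choose_mul_succ_eq k j)
        push_cast [Nat.cast_sub h] at this
        exact this
    have hu := choose_succ_rec a k
    have s1 : (-1 : R) ^ (k + j + 1 + k) = - (-1) ^ (k + j + k) := by
      rw [show k + j + 1 + k = (k + j + k) + 1 by ring, pow_succ]; ring
    have s2 : (-1 : R) ^ (k + j + (k + 1)) = - (-1) ^ (k + j + k) := by
      rw [show k + j + (k + 1) = (k + j + k) + 1 by ring, pow_succ]; ring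
    simp only [hG, e1, e2, e3, s1, s2, pow_succ (4 : R) k]
    push_cast
    generalize (-1 : R) ^ (k + j + k) = s
    generalize (4 : R) ^ k = w
    generalize (k.choose (j + 1) : R) = C' at *
    generalize (k.choose j : R) = C at *
    generalize ((k + 1).choose j : R) = C'' at *
    generalize Ring.choose a (k + 1) = v at *
    generalize Ring.choose a k = u at *
    generalize (k : R) = K at *
    generalize (j : R) = J at *
    linear_combination (-4 * (3 * K + J + 1) * w * s * u ^ 2) * hC1
      - 16 * w * s * v ^ 2 * (K + 1) * hC2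
      + 16 * w * s * C * ((K + 1) * v + (a - K) * u) * hu
      + w * s * C * u ^ 2 * (4 * a - 1 - 8 * K) * ha
  have hsum := Finset.sum_congr rfl key
  rw [Finset.sum_sub_distrib, ← Finset.mul_sum, ← Finset.mul_sum, ← Finset.mul_sum,
    Finset.sum_range_sub] at hsum
  have hG0 : G 0 = 0 := by simp [hG]
  have hG1 : G (N + 1) = - ((N : R) + 1) ^ 2 * (Ring.choose a (N + 1) ^ 2 * 4 ^ (N + 1)) := by
    simp only [hG]
    have : (-1 : R) ^ (N + (N + 1)) = -1 := by
      rw [show N + (N + 1) = 2 * N + 1 by ring, pow_succ, pow_mul]; simp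
    rw [this, Nat.sub_self, Nat.choose_zero_right]
    push_cast; ring
  unfold cN
  rw [Finset.sum_range_succ]
  have e4 : (-1 : R) ^ (N + 1 + (N + 1)) = 1 := by
    rw [← two_mul, pow_mul]; simp
  rw [Nat.sub_self, Nat.choose_zero_right, e4]
  rw [hG0, hG1] at hsum
  push_cast at hsum ⊢
  linear_combination hsum

/-- The coefficient identity `cN a N = (choose h N)^2` for `a = -1/4`, `h = -1/2`. -/
theorem cN_eq {R : Type*} [CommRing R] [IsDomain R] [CharZero R] [BinomialRing R] {a h : R}
    (ha : 4 * a = -1) (hh : 2 * h = -1) (N : ℕ) : cN a N = Ring.choose h N ^ 2 := by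
  induction N with
  | zero => simp [cN]
  | succ N ih =>
    have h1 := cN_rec ha N
    rw [ih] at h1
    have h2 := choose_succ_rec h N
    have hN1 : ((N : R) + 1) ≠ 0 := Nat.cast_add_one_ne_zero N
    have hN : (4 * ((N : R) + 1) ^ 2) ≠ 0 := mul_ne_zero (by norm_num) (pow_ne_zero 2 hN1)
    apply mul_left_cancel₀ hN
    rw [h1]
    generalize Ring.choose h (N + 1) = v at *
    generalize Ring.choose h N = u at *
    linear_combination (-4 * (((N : R) + 1) * v + (h - N) * u)) * h2 -
      u ^ 2 * (2 * h - 1 - 4 * N) * hh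

end Pool.Agent.H12.Sc
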