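import Pool.Agent.H12.Sc6

/-!
Transfer of the hypergeometric sums to `ZMod (p^2)`.
-/

namespace Pool.Agent.H12.Sc

open Finset

variable {p : ℕ} [hp : Fact p.Prime]

/-- image of a generalised binomial coefficient in `ZMod (p^2)`. -/
noncomputable def Ab (a : ℤ_[p]) (k : ℕ) : ZMod (p ^ 2) :=
  PadicInt.toZModPow 2 (Ring.choose a k)

lemma Ab_zero (a : ℤ_[p]) : Ab a 0 = 1 := by
  unfold Ab
  rw [Ring.choose_zero_right, map_one]

lemma Ab_rec (a : ℤ_[p]) (k : ℕ) :
    ((k : ZMod (p ^ 2)) + 1) * Ab a (k + 1) = (PadicInt.toZModPow 2 a - k) * Ab a k := by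
  unfold Ab
  have := congrArg (PadicInt.toZModPow 2) (choose_succ_rec a k)
  rw [map_mul, map_mul, map_add, map_sub, map_natCast, map_one] at this
  exact this

lemma isUnit_succ {k : ℕ} (hk : k + 1 < p) : IsUnit ((k : ZMod (p ^ 2)) + 1) := by
  have := isUnit_natCast (p := p) (k := k + 1) (by
    intro h
    have := Nat.le_of_dvd (by omega) h
    omega)
  simpa using this

/-- `4 a = -1` in the image. -/
lemma toZModPow_quarter {a : ℤ_[p]} (ha : 4 * a = -1) :
    4 * (PadicInt.toZModPow 2 a : ZMod (p ^ 2)) = -1 := by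
  have := congrArg (PadicInt.toZModPow 2) ha
  simpa [map_ofNat] using this

lemma toZModPow_half {a : ℤ_[p]} (ha : 2 * a = -1) :
    2 * (PadicInt.toZModPow 2 a : ZMod (p ^ 2)) = -1 := by
  have := congrArg (PadicInt.toZModPow 2) ha
  simpa [map_ofNat] using this

/-- vanishing mod `p` of `C(-1/4, k)` for `n < k < p`. -/
lemma red_Ab_eq_zero {n : ℕ} (hn : p = 4 * n + 1) {a : ℤ_[p]} (ha : 4 * a = -1) {k : ℕ}
    (hk : n < k) (hkp : k < p) : red p (Ab a k) = 0 := by
  induction k, hk using Nat.le_induction with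
  | base =>
    have h1 := congrArg (red p) (Ab_rec a n)
    rw [map_mul, map_mul] at h1
    have h2 : red p (PadicInt.toZModPow 2 a - n) = 0 := by
      have h3 : (4 : ZMod (p ^ 2)) * (PadicInt.toZModPow 2 a - n) = -p := by
        have hP : (p : ZMod (p ^ 2)) = ((4 * n + 1 : ℕ) : ZMod (p ^ 2)) := by rw [← hn]
        rw [mul_sub, toZModPow_quarter ha, hP]; push_cast; ring
      have h4 := congrArg (red p) h3
      rw [map_mul, map_neg, red_p, neg_zero] at h4
      rcases mul_eq_zero.1 h4 with h | h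
      · exfalso
        have h5 : ((4 : ℕ) : ZMod p) = 0 := by
          rw [← red_natCast]; push_cast; exact h
        rw [ZMod.natCast_eq_zero_iff] at h5
        have := Nat.le_of_dvd (by norm_num) h5
        have : p ≤ 4 := this
        have hn0 : n = 0 := by omega
        subst hn0
        exact absurd hp.out (by rw [hn]; norm_num)
      · exact h
    rw [h2, zero_mul] at h1
    rcases mul_eq_zero.1 h1 with h | h
    · exact absurd h (isUnit_iff_red.1 (isUnit_succ hkp))
    · exact h
  | succ k hk ih =>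
    have h1 := congrArg (red p) (Ab_rec a k)
    rw [map_mul, map_mul, ih (by omega), mul_zero] at h1
    rcases mul_eq_zero.1 h1 with h | h
    · exact absurd h (isUnit_iff_red.1 (isUnit_succ hkp))
    · exact h

lemma Ab_sq_eq_zero {n : ℕ} (hn : p = 4 * n + 1) {a : ℤ_[p]} (ha : 4 * a = -1) {k : ℕ}
    (hk : n < k) (hkp : k < p) : Ab a k ^ 2 = 0 := by
  rw [pow_two (Ab a k)]
  exact mul_eq_zero_of_red (red_Ab_eq_zero hn ha hk hkp) (red_Ab_eq_zero hn ha hk hkp)

/-- `C(-1/2,k)^2 = (-1)^k C(2n,k) C(2n+k,k)` modulo `p^2`. -/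
lemma Ab_half_sq {n : ℕ} (hn : p = 4 * n + 1) {h : ℤ_[p]} (hh : 2 * h = -1) {k : ℕ}
    (hk : k ≤ 2 * n) : Ab h k ^ 2 = (-1) ^ k * ((2 * n).choose k * (2 * n + k).choose k) := by
  induction k with
  | zero => simp [Ab_zero]
  | succ k ih =>
    have ih' := ih (by omega)
    have hu : IsUnit (4 * ((k : ZMod (p ^ 2)) + 1) ^ 2) := by
      have h1 := isUnit_succ (p := p) (k := k) (by omega)
      have h2 := isUnit_natCast (p := p) (k := 4) (by
        intro h
        have := Nat.le_of_dvd (by norm_num) h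
        omega)
      push_cast at h2
      exact h2.mul (h1.pow 2)
    apply hu.mul_left_cancel
    have hr := Ab_rec h k
    have hh' := toZModPow_half hh
    have h1 := congrArg (Nat.cast : ℕ → ZMod (p ^ 2)) (Nat.add_one_mul_choose_eq (2 * n + k) k)
    have h2 := congrArg (Nat.cast : ℕ → ZMod (p ^ 2)) (Nat.choose_succ_right_eq (2 * n) k)
    have h3 : ((2 * n - k : ℕ) : ZMod (p ^ 2)) = 2 * n - k := by
      rw [Nat.cast_sub (by omega)]; push_cast; ring
    push_cast at h1 h2
    rw [h3] at h2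
    have hPP := p_mul_p (p := p)
    have hP : (p : ZMod (p ^ 2)) = 4 * n + 1 := by
      have : (p : ZMod (p ^ 2)) = ((4 * n + 1 : ℕ) : ZMod (p ^ 2)) := by rw [← hn]
      rw [this]; push_cast; ring
    rw [hP] at hPP
    rw [show 2 * n + (k + 1) = 2 * n + k + 1 by ring, pow_succ (-1 : ZMod (p ^ 2))]
    generalize ((2 * n + k + 1).choose (k + 1) : ZMod (p ^ 2)) = D' at *
    generalize ((2 * n + k).choose k : ZMod (p ^ 2)) = D at *
    generalize ((2 * n).choose (k + 1) : ZMod (p ^ 2)) = C' at *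
    generalize ((2 * n).choose k : ZMod (p ^ 2)) = C at *
    generalize Ab h (k + 1) = v at *
    generalize Ab h k = u at *
    generalize (PadicInt.toZModPow 2 h : ZMod (p ^ 2)) = r at *
    generalize (-1 : ZMod (p ^ 2)) ^ k = s at *
    generalize (k : ZMod (p ^ 2)) = K at *
    generalize (n : ZMod (p ^ 2)) = M at *
    linear_combination 4 * ((K + 1) * v + (r - K) * u) * hr + u ^ 2 * (2 * r - 4 * K - 1) * hh'
      + (1 + 2 * K) ^ 2 * ih' + 4 * s * (K + 1) * D' * h2 - 4 * s * C * (2 * M - K) * h1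
      + s * C * D * hPP

/-- The first hypergeometric sum in `ZMod (p^2)`. -/
theorem sum_one {n : ℕ} (hn : p = 4 * n + 1) {a : ℤ_[p]} (ha : 4 * a = -1) :
    ∑ k ∈ range p, Ab a k ^ 2 * (-8) ^ k =
      ∑ k ∈ range (2 * n + 1), ((2 * n).choose k : ZMod (p ^ 2)) * ((2 * n + k).choose k) := by
  have hh : 2 * (2 * a) = -1 := by rw [← ha]; ring
  -- step 1: truncate
  have t1 : ∑ k ∈ range p, Ab a k ^ 2 * (-8) ^ k = ∑ k ∈ range (2 * n + 1), Ab a k ^ 2 * (-8) ^ k := by
    symm
    apply Finset.sum_subset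
    · intro k hk; rw [Finset.mem_range] at *; omega
    · intro k hk hk2
      rw [Finset.mem_range] at *
      rw [Ab_sq_eq_zero hn ha (by omega) hk, zero_mul]
  rw [t1]
  -- step 2: the double sum
  have t2 : ∀ N ∈ range (2 * n + 1), ((2 * n).choose N : ZMod (p ^ 2)) * ((2 * n + N).choose N) =
      ∑ k ∈ range (2 * n + 1), if k ≤ N then
        Ab a k ^ 2 * (-4) ^ k * (k.choose (N - k) : ZMod (p ^ 2)) else 0 := by
    intro N hN
    rw [Finset.mem_range] at hN
    have h1 := Ab_half_sq hn hh (k := N) (by omega)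
    have h2 : Ab (2 * a) N ^ 2 = (-1) ^ N * ∑ k ∈ range (N + 1), Ab a k ^ 2 * (-4) ^ k *
        (k.choose (N - k) : ZMod (p ^ 2)) := by
      unfold Ab
      rw [← map_pow, ← cN_eq ha hh, cN, map_sum, Finset.mul_sum]
      apply Finset.sum_congr rfl
      intro k _
      rw [map_mul, map_mul, map_mul, map_pow, map_pow, map_pow, map_natCast, map_neg, map_one,
        map_ofNat, pow_add, neg_pow (4 : ZMod (p ^ 2)) k]
      ring
    rw [h1] at h2
    have hs : ((-1 : ZMod (p ^ 2)) ^ N) * (-1) ^ N = 1 := by rw [← mul_pow]; simp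
    have h3 : ((2 * n).choose N : ZMod (p ^ 2)) * ((2 * n + N).choose N) =
        ∑ k ∈ range (N + 1), Ab a k ^ 2 * (-4) ^ k * (k.choose (N - k) : ZMod (p ^ 2)) := by
      have h4 := congrArg (fun z => (-1 : ZMod (p ^ 2)) ^ N * z) h2
      simp only [← mul_assoc, hs, one_mul] at h4
      exact h4
    rw [h3, ← Finset.sum_filter]
    apply Finset.sum_congr _ (fun _ _ => rfl)
    ext k
    simp only [Finset.mem_range, Finset.mem_filter]
    omega
  rw [Finset.sum_congr rfl t2, Finset.sum_comm]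
  apply Finset.sum_congr rfl
  intro k hk
  rw [Finset.mem_range] at hk
  rw [← Finset.sum_filter]
  rcases Nat.lt_or_ge n k with h | h
  · -- vanishing terms
    have hz := Ab_sq_eq_zero hn ha h (by omega)
    rw [hz, zero_mul]
    symm
    apply Finset.sum_eq_zero
    intro N _
    rw [zero_mul, zero_mul]
  · rw [← Finset.mul_sum]
    have e1 : ∑ N ∈ (range (2 * n + 1)).filter (fun N => k ≤ N), (k.choose (N - k) : ZMod (p ^ 2)) =
        2 ^ k := by
      have h5 : ∑ j ∈ range (k + 1), (k.choose j : ZMod (p ^ 2)) = 2 ^ k := by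
        have := congrArg (Nat.cast : ℕ → ZMod (p ^ 2)) (Nat.sum_range_choose k)
        push_cast at this
        exact this
      have h6 : (range (2 * n + 1)).filter (fun N => k ≤ N) = Finset.Ico k (2 * n + 1) := by
        ext N
        simp only [Finset.mem_filter, Finset.mem_range, Finset.mem_Ico]
        omega
      rw [h6, Finset.sum_Ico_eq_sum_range, ← h5]
      symm
      have h7 : ∀ j, k + j - k = j := fun j => by omega
      simp_rw [h7]
      apply Finset.sum_subset
      · intro j hj; rw [Finset.mem_range] at *; omega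
      · intro j _ hj2
        rw [Finset.mem_range] at hj2
        rw [Nat.choose_eq_zero_of_lt (by omega)]; simp
    rw [e1, mul_assoc, ← mul_pow]
    norm_num

end Pool.Agent.H12.Sc
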