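import Pool.Agent.H12.Sc7

/-!
Transfer from `ZMod (p^2)` to the rational numbers.
-/

namespace Pool.Agent.H12.Sc

open Finset

variable {p : ℕ} [hp : Fact p.Prime]

lemma transfer (q : ℚ) (Z : ℤ_[p]) (h : (Z : ℚ_[p]) = (q : ℚ_[p]))
    (hz : (PadicInt.toZModPow 2 Z : ZMod (p ^ 2)) = 0) :
    ∃ a b : ℤ, ¬ (p : ℤ) ∣ b ∧ q = (p : ℚ) ^ 2 * (a / b) := by
  have h1 : Z ∈ RingHom.ker (PadicInt.toZModPow 2 : ℤ_[p] →+* ZMod (p ^ 2)) := hz
  rw [PadicInt.ker_toZModPow, Ideal.mem_span_singleton] at h1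
  obtain ⟨W, hW⟩ := h1
  have hp0 : (p : ℚ) ≠ 0 := by exact_mod_cast hp.out.ne_zero
  have hp0' : (p : ℚ_[p]) ≠ 0 := by exact_mod_cast hp.out.ne_zero
  have h2 : ((q / (p : ℚ) ^ 2 : ℚ) : ℚ_[p]) = (W : ℚ_[p]) := by
    push_cast
    rw [← h, hW]
    push_cast
    field_simp
  have h3 : ‖((q / (p : ℚ) ^ 2 : ℚ) : ℚ_[p])‖ ≤ 1 := by
    rw [h2]; exact W.2
  have h4 : ¬ p ∣ (q / (p : ℚ) ^ 2).den := by
    have := PadicInt.isUnit_iff.1 (PadicInt.isUnit_den _ h3)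
    intro hd
    have h5 : ‖((q / (p : ℚ) ^ 2).den : ℤ_[p])‖ < 1 := by
      rw [PadicInt.norm_lt_one_iff_dvd]
      exact_mod_cast (Nat.cast_dvd_cast hd : ((p : ℕ) : ℤ_[p]) ∣ _)
    rw [this] at h5
    exact lt_irrefl _ h5
  refine ⟨(q / (p : ℚ) ^ 2).num, (q / (p : ℚ) ^ 2).den, ?_, ?_⟩
  · exact_mod_cast h4
  · have h5 : q / (p : ℚ) ^ 2 = ((q / (p : ℚ) ^ 2).num : ℚ) / ((q / (p : ℚ) ^ 2).den : ℚ) :=
      (Rat.num_div_den _).symm
    have : (((q / (p : ℚ) ^ 2).den : ℤ) : ℚ) = ((q / (p : ℚ) ^ 2).den : ℚ) := by push_cast; rfl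
    rw [this, ← h5]
    field_simp

lemma exists_a0 {n : ℕ} (hn : p = 4 * n + 1) :
    ∃ a : ℤ_[p], 4 * a = -1 ∧ (a : ℚ_[p]) = ((-1 / 4 : ℚ) : ℚ_[p]) := by
  have hden : ((-1 / 4 : ℚ)).den = 4 := by norm_num
  have h1 : ‖((-1 / 4 : ℚ) : ℚ_[p])‖ ≤ 1 := by
    apply Padic.norm_rat_le_one
    rw [hden]
    intro h
    have h2 := Nat.le_of_dvd (by norm_num) h
    have hn0 : n = 0 := by omega
    subst hn0
    exact absurd hp.out (by rw [hn]; norm_num)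
  obtain ⟨a, ha⟩ : ∃ a : ℤ_[p], (a : ℚ_[p]) = ((-1 / 4 : ℚ) : ℚ_[p]) :=
    ⟨⟨((-1 / 4 : ℚ) : ℚ_[p]), h1⟩, rfl⟩
  refine ⟨a, ?_, ha⟩
  apply PadicInt.ext
  have : ((4 : ℤ_[p]) : ℚ_[p]) = 4 := rfl
  rw [PadicInt.coe_mul, this, ha, PadicInt.coe_neg, PadicInt.coe_one]
  norm_num

lemma coe_choose (a : ℤ_[p]) (r : ℚ) (h : (a : ℚ_[p]) = (r : ℚ_[p])) (k : ℕ) :
    ((Ring.choose a k : ℤ_[p]) : ℚ_[p]) = ((Ring.choose r k : ℚ) : ℚ_[p]) := by
  have h1 := Ring.map_choose (PadicInt.Coe.ringHom (p := p)) a k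
  have h2 := Ring.map_choose (Rat.castHom ℚ_[p]) r k
  have h3 : (PadicInt.Coe.ringHom (p := p)) a = (Rat.castHom ℚ_[p]) r := h
  rw [h3, ← h2] at h1
  exact h1

/-- Q1. -/
theorem q1 {n : ℕ} (hn : p = 4 * n + 1) {x y : ℤ} (hxy : x ^ 2 + y ^ 2 = p) (hx : x % 4 = 1) :
    ∃ a b : ℤ, ¬ (p : ℤ) ∣ b ∧
      (∑ k ∈ range p, (Ring.choose (-1 / 4 : ℚ) k) ^ 2 * (-8) ^ k) -
        (-1) ^ n * (2 * x - p / (2 * x)) = (p : ℚ) ^ 2 * (a / b) := by
  obtain ⟨a0, ha0, ha0'⟩ := exists_a0 hn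
  have hx0 : (x : ℚ) ≠ 0 := by
    have : x ≠ 0 := by rintro rfl; omega
    exact_mod_cast this
  -- the integral version
  set Z : ℤ_[p] := 2 * x * (∑ k ∈ range p, (Ring.choose a0 k) ^ 2 * (-8) ^ k) -
    (-1) ^ n * (4 * x ^ 2 - p) with hZ
  have hcast : (Z : ℚ_[p]) = ((2 * x * (∑ k ∈ range p, (Ring.choose (-1 / 4 : ℚ) k) ^ 2 * (-8) ^ k) -
    (-1) ^ n * (4 * x ^ 2 - p) : ℚ) : ℚ_[p]) := by
    rw [hZ]
    push_cast [PadicInt.coe_sum, coe_choose a0 _ ha0']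
    norm_num
    rfl
  have hred : (PadicInt.toZModPow 2 Z : ZMod (p ^ 2)) = 0 := by
    rw [hZ]
    have h1 := sum_one hn ha0
    have h2 := two_delannoy hn
    have h3 := two_Jc hn
    have h4 := Jc_value hn hxy hx
    have h5 : (2 : ZMod (p ^ 2)) * (∑ k ∈ range p, Ab a0 k ^ 2 * (-8) ^ k + Jc p (2 * n) (3 * n)) = 0 := by
      rw [mul_add, h1, h2, h3]; ring
    have u2 : IsUnit (2 : ZMod (p ^ 2)) := by
      have := isUnit_natCast (p := p) (k := 2) (by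
        intro h
        have h6 := Nat.le_of_dvd (by norm_num) h
        have hn0 : n = 0 := by omega
        subst hn0
        exact absurd hp.out (by rw [hn]; norm_num))
      simpa using this
    have h7 := (u2.mul_right_eq_zero).1 h5
    have h8 : (PadicInt.toZModPow 2 (∑ k ∈ range p, (Ring.choose a0 k) ^ 2 * (-8) ^ k) : ZMod (p ^ 2)) =
        ∑ k ∈ range p, Ab a0 k ^ 2 * (-8) ^ k := by
      rw [map_sum]
      apply Finset.sum_congr rfl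
      intro k _
      rw [map_mul, map_pow, map_pow, map_neg, map_ofNat]
      rfl
    rw [map_sub, map_mul, map_mul, h8, map_mul, map_sub, map_mul, map_pow, map_pow, map_natCast,
      map_intCast, map_neg, map_one, map_ofNat, map_ofNat]
    linear_combination 2 * (x : ZMod (p ^ 2)) * h7 - h4
  obtain ⟨a, b, hb, hab⟩ := transfer _ Z hcast hred
  refine ⟨a, b * (2 * x), ?_, ?_⟩
  · intro h
    rcases Int.Prime.dvd_mul' hp.out h with h | h
    · exact hb h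
    · rcases Int.Prime.dvd_mul' hp.out h with h | h
      · have := Int.le_of_dvd (by norm_num) h
        have h2 := hp.out.two_le
        have : p = 2 := by omega
        omega
      · obtain ⟨c, hc⟩ := h
        have hp2 := hp.out.two_le
        have hc0 : c ≠ 0 := by rintro rfl; rw [mul_zero] at hc; exact hx0 (by exact_mod_cast hc)
        have : (p : ℤ) ^ 2 ≤ x ^ 2 := by
          rw [hc, mul_pow]
          have : 1 ≤ c ^ 2 := by have := sq_pos_of_ne_zero hc0 (a := c); omega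
          nlinarith [sq_nonneg (p : ℤ)]
        have hp2' : (2 : ℤ) ≤ p := by exact_mod_cast hp2
        nlinarith [sq_nonneg y]
  · generalize (∑ k ∈ range p, (Ring.choose (-1 / 4 : ℚ) k) ^ 2 * (-8) ^ k) = S at *
    have hq : S - (-1) ^ n * (2 * (x : ℚ) - p / (2 * x)) =
        (2 * x * S - (-1) ^ n * (4 * (x : ℚ) ^ 2 - p)) / (2 * x) := by
      field_simp
      ring
    rw [hq, hab]
    push_cast
    have hb0 : (b : ℚ) ≠ 0 := by
      have : b ≠ 0 := by rintro rfl; exact hb (dvd_zero _)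
      exact_mod_cast this
    field_simp

end Pool.Agent.H12.Sc
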