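import Pool.Agent.H12.Sc8

/-!
A terminating hypergeometric evaluation at `-8`:
`∑ 8^k C(3n+1/2,k) C(4n-k,n-k) = 16^n C(2n,n)`.
-/

namespace Pool.Agent.H12.Sc

open Finset

lemma choose_shift {R : Type*} [CommRing R] [IsDomain R] [CharZero R] [BinomialRing R]
    (r : R) (k : ℕ) :
    (r + 1 - k) * Ring.choose (r + 1) k = (r + 1) * Ring.choose r k := by
  induction k with
  | zero => simp
  | succ k ih =>
    have h1 := choose_succ_rec (r + 1) k
    have h2 := choose_succ_rec r k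
    have hk : ((k : R) + 1) ≠ 0 := Nat.cast_add_one_ne_zero k
    apply mul_left_cancel₀ hk
    push_cast
    linear_combination (r + 1 - (k + 1)) * h1 + (r - k) * ih - (r + 1) * h2

noncomputable def Tn (n k : ℕ) : ℚ :=
  8 ^ k * Ring.choose (3 * (n : ℚ) + 1 / 2) k * ((4 * n - k).choose (n - k) : ℚ)

noncomputable def sn (n k : ℚ) : ℚ :=
  ((-478 - 4112 * n - 13416 * n ^ 2 - 20848 * n ^ 3 - 15488 * n ^ 4 - 4416 * n ^ 5) +
  (321 + 2454 * n + 6612 * n ^ 2 + 7464 * n ^ 3 + 2976 * n ^ 4) * k -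
  (53 + 354 * n + 748 * n ^ 2 + 504 * n ^ 3) * k ^ 2) / (8 * (3 * n + 2) * (3 * n + 1))

noncomputable def Gn (n k : ℕ) : ℚ :=
  8 ^ k * k * sn n k * Ring.choose (3 * (n : ℚ) + 7 / 2) k * ((4 * n + 1 - k).choose (n + 1 - k) : ℚ)
    / ((3 * (n : ℚ) + 3 / 2) * (3 * n + 5 / 2) * (3 * n + 7 / 2))

lemma choose_up (a b : ℕ) : ((a + 1).choose (b + 1) : ℚ) = (a.choose b : ℚ) * (a + 1) / (b + 1) := by
  have h := congrArg (Nat.cast : ℕ → ℚ) (Nat.add_one_mul_choose_eq a b)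
  push_cast at h
  have hb : ((b : ℚ) + 1) ≠ 0 := by positivity
  field_simp
  linarith

lemma choose_up' (a b c : ℕ) (h : a + 1 = b + c) (hc : 0 < c) :
    ((a + 1).choose b : ℚ) = (a.choose b : ℚ) * (a + 1) / c := by
  have h1 := congrArg (Nat.cast : ℕ → ℚ) (Nat.choose_mul_succ_eq a b)
  have e : a + 1 - b = c := by omega
  rw [e] at h1
  push_cast at h1
  have hc' : ((c : ℚ)) ≠ 0 := by positivity
  field_simp
  linarith

lemma Tn_key (n k : ℕ) (hk : k ≤ n) :
    ((n : ℚ) + 1) * Tn (n + 1) k - 32 * (2 * n + 1) * Tn n k = Gn n (k + 1) - Gn n k := by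
  obtain ⟨j, rfl⟩ : ∃ j, n = k + j := ⟨n - k, by omega⟩
  unfold Tn Gn sn
  have e1 : 4 * (k + j + 1) - k = 3 * k + 4 * j + 4 := by omega
  have e2 : k + j + 1 - k = j + 1 := by omega
  have e3 : 4 * (k + j) - k = 3 * k + 4 * j := by omega
  have e4 : k + j - k = j := by omega
  have e5 : 4 * (k + j) + 1 - (k + 1) = 3 * k + 4 * j := by omega
  have e6 : k + j + 1 - (k + 1) = j := by omega
  have e7 : 4 * (k + j) + 1 - k = 3 * k + 4 * j + 1 := by omega
  rw [e1, e2, e3, e4, e5, e6, e7]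
  -- binomials
  have c1 : ((3 * k + 4 * j + 1).choose (j + 1) : ℚ) = ((3 * k + 4 * j).choose j : ℚ) *
      (3 * k + 4 * j + 1) / (j + 1) := by
    have := choose_up (3 * k + 4 * j) j
    push_cast at this ⊢
    exact this
  have c2 : ((3 * k + 4 * j + 2).choose (j + 1) : ℚ) = ((3 * k + 4 * j + 1).choose (j + 1) : ℚ) *
      (3 * k + 4 * j + 2) / (3 * k + 3 * j + 1) := by
    have := choose_up' (3 * k + 4 * j + 1) (j + 1) (3 * k + 3 * j + 1) (by ring) (by omega)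
    push_cast at this ⊢
    rw [this]; ring
  have c3 : ((3 * k + 4 * j + 3).choose (j + 1) : ℚ) = ((3 * k + 4 * j + 2).choose (j + 1) : ℚ) *
      (3 * k + 4 * j + 3) / (3 * k + 3 * j + 2) := by
    have := choose_up' (3 * k + 4 * j + 2) (j + 1) (3 * k + 3 * j + 2) (by ring) (by omega)
    push_cast at this ⊢
    rw [this]; ring
  have c4 : ((3 * k + 4 * j + 4).choose (j + 1) : ℚ) = ((3 * k + 4 * j + 3).choose (j + 1) : ℚ) *
      (3 * k + 4 * j + 4) / (3 * k + 3 * j + 3) := by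
    have := choose_up' (3 * k + 4 * j + 3) (j + 1) (3 * k + 3 * j + 3) (by ring) (by omega)
    push_cast at this ⊢
    rw [this]; ring
  rw [c4, c3, c2, c1]
  -- generalised binomials
  set r : ℚ := 3 * ((k + j : ℕ) : ℚ) + 1 / 2 with hr
  have g1 := choose_shift r k
  have g2 := choose_shift (r + 1) k
  have g3 := choose_shift (r + 1 + 1) k
  have g4 := choose_succ_rec (r + 1 + 1 + 1) k
  have r3 : 3 * ((k + j : ℕ) : ℚ) + 7 / 2 = r + 1 + 1 + 1 := by rw [hr]; ring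
  have r4 : 3 * ((k + j + 1 : ℕ) : ℚ) + 1 / 2 = r + 1 + 1 + 1 := by rw [hr]; push_cast; ring
  rw [r3, r4]
  have hK : (0 : ℚ) ≤ k := Nat.cast_nonneg k
  have hJ : (0 : ℚ) ≤ j := Nat.cast_nonneg j
  have hr' : r = 3 * ((k : ℚ) + j) + 1 / 2 := by rw [hr]; push_cast; ring
  have p1 : (0 : ℚ) < r + 1 := by rw [hr']; positivity
  have p2 : (0 : ℚ) < r + 1 + 1 := by rw [hr']; positivity
  have p3 : (0 : ℚ) < r + 1 + 1 + 1 := by rw [hr']; positivity
  have q1 : Ring.choose r k = Ring.choose (r + 1 + 1 + 1) k * (r + 1 + 1 + 1 - k) *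
      (r + 1 + 1 - k) * (r + 1 - k) / ((r + 1 + 1 + 1) * (r + 1 + 1) * (r + 1)) := by
    rw [eq_div_iff (by positivity)]
    linear_combination (-(r + 1 + 1 + 1) * (r + 1 + 1)) * g1 -
      (r + 1 + 1 + 1) * (r + 1 - k) * g2 - (r + 1 - k) * (r + 1 + 1 - k) * g3
  have q2 : Ring.choose (r + 1 + 1 + 1) (k + 1) =
      (r + 1 + 1 + 1 - k) * Ring.choose (r + 1 + 1 + 1) k / (k + 1) := by
    rw [eq_div_iff (by positivity)]
    linear_combination g4
  rw [q1, q2]
  clear g1 g2 g3 g4 q1 q2 c1 c2 c3 c4 p1 p2 p3 r3 r4 hr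
  clear_value r
  subst hr'
  push_cast
  rw [pow_succ]
  generalize Ring.choose (3 * ((k : ℚ) + j) + 1 / 2 + 1 + 1 + 1) k = B
  generalize ((3 * k + 4 * j).choose j : ℚ) = C0
  generalize (8 : ℚ) ^ k = w
  generalize (k : ℚ) = K at *
  generalize (j : ℚ) = J at *
  field_simp
  ring

lemma Gn_top (n : ℕ) : Gn n (n + 1) = - (((n : ℚ) + 1) * Tn (n + 1) (n + 1)) := by
  unfold Tn Gn sn
  have e1 : n + 1 - (n + 1) = 0 := by omega
  have r3 : 3 * ((n + 1 : ℕ) : ℚ) + 1 / 2 = 3 * (n : ℚ) + 7 / 2 := by push_cast; ring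
  rw [e1, Nat.choose_zero_right, Nat.choose_zero_right, r3]
  generalize Ring.choose (3 * (n : ℚ) + 7 / 2) (n + 1) = B
  generalize (8 : ℚ) ^ (n + 1) = w
  push_cast
  have hN : (0 : ℚ) ≤ n := Nat.cast_nonneg n
  generalize (n : ℚ) = N at *
  field_simp
  ring

/-- The terminating evaluation. -/
theorem sum_Tn (n : ℕ) :
    ∑ k ∈ range (n + 1), Tn n k = 16 ^ n * ((2 * n).choose n : ℚ) := by
  induction n with
  | zero => simp [Tn]
  | succ n ih =>
    have hN : ((n : ℚ) + 1) ≠ 0 := by positivity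
    apply mul_left_cancel₀ hN
    have h1 : ∑ k ∈ range (n + 1), (((n : ℚ) + 1) * Tn (n + 1) k - 32 * (2 * n + 1) * Tn n k) =
        Gn n (n + 1) - Gn n 0 := by
      rw [← Finset.sum_range_sub]
      apply Finset.sum_congr rfl
      intro k hk
      rw [Finset.mem_range] at hk
      exact Tn_key n k (by omega)
    rw [Finset.sum_sub_distrib, ← Finset.mul_sum, ← Finset.mul_sum, ih, Gn_top] at h1
    have h2 : Gn n 0 = 0 := by simp [Gn]
    rw [h2] at h1
    have h3 := congrArg (Nat.cast : ℕ → ℚ) (Nat.succ_mul_centralBinom_succ n)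
    rw [Nat.centralBinom_eq_two_mul_choose, Nat.centralBinom_eq_two_mul_choose] at h3
    push_cast at h3
    rw [Finset.sum_range_succ, pow_succ]
    linear_combination h1 - 16 * 16 ^ n * h3

end Pool.Agent.H12.Sc
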