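import Pool.Agent.H12.WormCover

namespace Pool.Agent.H12.Worm

open MeasureTheory Set

/-- A vertical strip: `(XA, XB, u, l, A)`. -/
abbrev Strip := ℤ × ℤ × Edge × Edge × ℤ

/-- The conditions for a strip. -/
def StripOK (L : List Edge) (s : Strip) : Prop :=
  s.2.2.1 ∈ L ∧ s.2.2.2.1 ∈ L ∧ 0 < s.2.2.1.2.1 ∧ s.2.2.2.1.2.1 < 0 ∧ s.1 < s.2.1 ∧
  0 ≤ (s.2.2.1.2.2.1 * s.2.2.1.2.2.2 - s.2.2.1.1 * s.1) * (-s.2.2.2.1.2.1) +
    10 * s.2.2.1.2.1 * (-s.2.2.2.1.2.1) +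
    (s.2.2.2.1.2.2.1 * s.2.2.2.1.2.2.2 - s.2.2.2.1.1 * s.1) * s.2.2.1.2.1 ∧
  0 ≤ (s.2.2.1.2.2.1 * s.2.2.1.2.2.2 - s.2.2.1.1 * s.2.1) * (-s.2.2.2.1.2.1) +
    10 * s.2.2.1.2.1 * (-s.2.2.2.1.2.1) +
    (s.2.2.2.1.2.2.1 * s.2.2.2.1.2.2.2 - s.2.2.2.1.1 * s.2.1) * s.2.2.1.2.1 ∧
  (s.2.1 - s.1) * ((2 * (s.2.2.1.2.2.1 * s.2.2.1.2.2.2) - s.2.2.1.1 * (s.1 + s.2.1)) *
      (-s.2.2.2.1.2.1) + 20 * s.2.2.1.2.1 * (-s.2.2.2.1.2.1) +
    (2 * (s.2.2.2.1.2.2.1 * s.2.2.2.1.2.2.2) - s.2.2.2.1.1 * (s.1 + s.2.1)) * s.2.2.1.2.1) ≤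
    s.2.2.2.2 * 20000 * (s.2.2.1.2.1 * (-s.2.2.2.1.2.1))

instance (L : List Edge) (s : Strip) : Decidable (StripOK L s) := by
  unfold StripOK
  infer_instance

/-- The upper line. -/
noncomputable def upA (e : Edge) : ℝ := bd e / e.2.1 + 1 / 10 ^ 7

/-- The lower line. -/
noncomputable def loA (e : Edge) : ℝ := bd e / e.2.1

/-- The slope of the line of an edge. -/
noncomputable def slo (e : Edge) : ℝ := -(e.1 : ℝ) / e.2.1

/-- The closed region of a strip. -/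
def region (s : Strip) : Set (ℝ × ℝ) :=
  {p | p.1 ∈ Icc ((s.1 : ℝ) / SS) ((s.2.1 : ℝ) / SS) ∧
    loA s.2.2.2.1 + slo s.2.2.2.1 * p.1 ≤ p.2 ∧ p.2 ≤ upA s.2.2.1 + slo s.2.2.1 * p.1}

theorem region_volume {L : List Edge} {s : Strip} (h : StripOK L s) :
    volume (region s) ≤ ENNReal.ofReal ((s.2.2.2.2 : ℝ) / 10 ^ 12) := by
  obtain ⟨XA, XB, ⟨a, b, D, C⟩, ⟨a', b', D', C'⟩, A⟩ := s
  obtain ⟨_, _, hb, hb', hX, h1, h2, h3⟩ := h
  simp only at hb hb' hX h1 h2 h3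
  have hS : (SS : ℝ) = 100000000 := by norm_num [SS]
  have pb : (0 : ℝ) < b := by exact_mod_cast hb
  have pb' : (b' : ℝ) < 0 := by exact_mod_cast hb'
  have hX' : (XA : ℝ) < XB := by exact_mod_cast hX
  have g1 : (0 : ℝ) ≤ (D * C - a * XA) * (-b') + 10 * b * (-b') + (D' * C' - a' * XA) * b := by
    exact_mod_cast h1
  have g2 : (0 : ℝ) ≤ (D * C - a * XB) * (-b') + 10 * b * (-b') + (D' * C' - a' * XB) * b := by
    exact_mod_cast h2
  have g3 : ((XB : ℝ) - XA) * ((2 * (D * C) - a * (XA + XB)) * (-b') + 20 * b * (-b') +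
      (2 * (D' * C') - a' * (XA + XB)) * b) ≤ A * 20000 * (b * (-b')) := by
    exact_mod_cast h3
  have w : ∀ X : ℝ, upA (a, b, D, C) + slo (a, b, D, C) * (X / SS) -
      (loA (a', b', D', C') + slo (a', b', D', C') * (X / SS)) =
      ((D * C - a * X) * (-b') + 10 * b * (-b') + (D' * C' - a' * X) * b) / (SS * (b * (-b'))) := by
    intro X
    unfold upA loA slo bd
    rw [hS]
    have : (b' : ℝ) ≠ 0 := pb'.ne
    simp only
    field_simp
    ring
  have hpos : (0 : ℝ) < SS * (b * (-b')) := by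
    rw [hS]
    have : 0 < (b : ℝ) * (-b') := mul_pos pb (by linarith)
    linarith
  refine (trap_volume (a := (XA : ℝ) / SS) (b := (XB : ℝ) / SS) ?_ ?_ ?_).trans ?_
  · rw [hS]
    gcongr
  · rw [← sub_nonneg, w]
    exact div_nonneg g1 hpos.le
  · rw [← sub_nonneg, w]
    exact div_nonneg g2 hpos.le
  · apply ENNReal.ofReal_le_ofReal
    have e1 : upA (a, b, D, C) - loA (a', b', D', C') + (slo (a, b, D, C) - slo (a', b', D', C')) *
        (((XA : ℝ) / SS + XB / SS) / 2) =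
        upA (a, b, D, C) + slo (a, b, D, C) * ((((XA : ℝ) + XB) / 2) / SS) -
      (loA (a', b', D', C') + slo (a', b', D', C') * ((((XA : ℝ) + XB) / 2) / SS)) := by ring
    simp only
    rw [e1, w]
    have e2 : ((XB : ℝ) / SS - XA / SS) * (((D * C - a * (((XA : ℝ) + XB) / 2)) * (-b') +
        10 * b * (-b') + (D' * C' - a' * (((XA : ℝ) + XB) / 2)) * b) / (SS * (b * (-b')))) =
        (((XB : ℝ) - XA) * ((2 * (D * C) - a * (XA + XB)) * (-b') + 20 * b * (-b') +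
      (2 * (D' * C') - a' * (XA + XB)) * b)) / (2 * SS * (SS * (b * (-b')))) := by
      rw [hS]
      have : (b' : ℝ) ≠ 0 := pb'.ne
      field_simp
      ring
    rw [e2, div_le_iff₀ (by rw [hS] at hpos ⊢; positivity)]
    calc _ ≤ _ := g3
      _ = (A : ℝ) / 10 ^ 12 * (2 * SS * (SS * (b * (-b')))) := by
        rw [hS]
        ring

/-- The union of the regions of a list of strips. -/
def uni : List Strip → Set (ℝ × ℝ)
  | [] => ∅
  | s :: t => region s ∪ uni t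

/-- The sum of the area bounds. -/
def tot : List Strip → ℤ
  | [] => 0
  | s :: t => s.2.2.2.2 + tot t

theorem uni_volume {L : List Edge} {T : List Strip} (h : ∀ s ∈ T, StripOK L s)
    (h0 : ∀ s ∈ T, 0 ≤ s.2.2.2.2) :
    0 ≤ tot T ∧ volume (uni T) ≤ ENNReal.ofReal ((tot T : ℝ) / 10 ^ 12) := by
  induction T with
  | nil => simp [uni, tot]
  | cons s t ih =>
    obtain ⟨h1, h2⟩ := ih (fun s hs => h s (List.mem_cons_of_mem _ hs))
      (fun s hs => h0 s (List.mem_cons_of_mem _ hs))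
    have h3 := h0 s List.mem_cons_self
    refine ⟨by simp only [tot]; omega, ?_⟩
    refine (measure_union_le _ _).trans ?_
    refine (add_le_add (region_volume (h s List.mem_cons_self)) h2).trans ?_
    have p1 : (0 : ℝ) ≤ s.2.2.2.2 := by exact_mod_cast h3
    have p2 : (0 : ℝ) ≤ tot t := by exact_mod_cast h1
    rw [← ENNReal.ofReal_add (by positivity) (by positivity)]
    apply ENNReal.ofReal_le_ofReal
    apply le_of_eq
    simp only [tot]
    push_cast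
    ring

/-- The strips are consecutive. -/
def chain : ℤ → List Strip → ℤ → Bool
  | X, [], Y => decide (X = Y)
  | X, s :: t, Y => decide (s.1 = X) && chain s.2.1 t Y

theorem exists_strip {T : List Strip} : ∀ {X Y : ℤ}, chain X T Y = true → T ≠ [] → ∀ x : ℝ,
    (X : ℝ) / SS ≤ x → x ≤ (Y : ℝ) / SS →
    ∃ s ∈ T, x ∈ Icc ((s.1 : ℝ) / SS) ((s.2.1 : ℝ) / SS) := by
  induction T with
  | nil => intro X Y _ h; exact absurd rfl h
  | cons s t ih =>
    intro X Y hc _ x hx hy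
    simp only [chain, Bool.and_eq_true, decide_eq_true_eq] at hc
    by_cases h : x ≤ (s.2.1 : ℝ) / SS
    · refine ⟨s, List.mem_cons_self, ?_, h⟩
      rw [hc.1]
      exact hx
    · push Not at h
      by_cases ht : t = []
      · subst ht
        have := hc.2
        simp only [chain, decide_eq_true_eq] at this
        rw [this] at h
        exact absurd hy (not_le.2 h)
      · obtain ⟨s', hs', hx'⟩ := ih hc.2 ht x h.le hy
        exact ⟨s', List.mem_cons_of_mem _ hs', hx'⟩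

theorem mem_uni {T : List Strip} {p : ℝ × ℝ} : p ∈ uni T ↔ ∃ s ∈ T, p ∈ region s := by
  induction T with
  | nil => simp [uni]
  | cons s t ih => simp [uni, ih]

theorem poly_sub {L : List Edge} {T : List Strip} (h : ∀ s ∈ T, StripOK L s) {X Y : ℤ}
    (hc : chain X T Y = true) (hT : T ≠ [])
    (hx : ∀ v ∈ poly L, (X : ℝ) / SS ≤ v 0 ∧ v 0 ≤ (Y : ℝ) / SS) :
    ∀ v ∈ poly L, (v 0, v 1) ∈ uni T := by
  intro v hv
  obtain ⟨h1, h2⟩ := hx v hv
  obtain ⟨s, hs, hxs⟩ := exists_strip hc hT (v 0) h1 h2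
  rw [mem_uni]
  refine ⟨s, hs, hxs, ?_, ?_⟩
  · obtain ⟨_, hl, _, hb', _⟩ := h s hs
    have := hv _ hl
    unfold lin at this
    have pb : ((s.2.2.2.1.2.1 : ℤ) : ℝ) < 0 := by exact_mod_cast hb'
    simp only [loA, slo]
    rw [show bd s.2.2.2.1 / (s.2.2.2.1.2.1 : ℝ) + -(s.2.2.2.1.1 : ℝ) / s.2.2.2.1.2.1 * v 0 =
      (bd s.2.2.2.1 - s.2.2.2.1.1 * v 0) / s.2.2.2.1.2.1 by ring]
    rw [div_le_iff_of_neg pb]
    linarith
  · obtain ⟨hu, _, hb, _⟩ := h s hs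
    have := hv _ hu
    unfold lin at this
    have pb : (0 : ℝ) < ((s.2.2.1.2.1 : ℤ) : ℝ) := by exact_mod_cast hb
    simp only [upA, slo]
    have h5 : v 1 ≤ (bd s.2.2.1 - s.2.2.1.1 * v 0) / s.2.2.1.2.1 := by
      rw [le_div_iff₀ pb]
      linarith
    have h6 : bd s.2.2.1 / (s.2.2.1.2.1 : ℝ) + 1 / 10 ^ 7 + -(s.2.2.1.1 : ℝ) / s.2.2.1.2.1 * v 0 =
      (bd s.2.2.1 - s.2.2.1.1 * v 0) / s.2.2.1.2.1 + 1 / 10 ^ 7 := by ring
    rw [h6]
    have : (0 : ℝ) < 1 / 10 ^ 7 := by positivity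
    linarith

theorem poly_volume {L : List Edge} {T : List Strip} (h : ∀ s ∈ T, StripOK L s)
    (h0 : ∀ s ∈ T, 0 ≤ s.2.2.2.2) {X Y : ℤ}
    (hc : chain X T Y = true) (hT : T ≠ [])
    (hx : ∀ v ∈ poly L, (X : ℝ) / SS ≤ v 0 ∧ v 0 ≤ (Y : ℝ) / SS) :
    volume (poly L) ≤ ENNReal.ofReal ((tot T : ℝ) / 10 ^ 12) := by
  have hmp : MeasurePreserving (fun v : Plane => (v 0, v 1)) volume volume :=
    (volume_preserving_finTwoArrow ℝ).comp
      (EuclideanSpace.volume_preserving_symm_measurableEquiv_toLp (Fin 2))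
  have hsub : poly L ⊆ (fun v : Plane => (v 0, v 1)) ⁻¹' uni T := by
    intro v hv
    exact poly_sub h hc hT hx v hv
  refine (measure_mono hsub).trans ?_
  have hm : MeasurableSet (uni T) := by
    clear hsub hc hT h h0
    induction T with
    | nil => exact MeasurableSet.empty
    | cons s t ih =>
      refine MeasurableSet.union ?_ ih
      apply IsClosed.measurableSet
      have c1 : IsClosed {p : ℝ × ℝ | loA s.2.2.2.1 + slo s.2.2.2.1 * p.1 ≤ p.2} :=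
        isClosed_le (by fun_prop) (by fun_prop)
      have c2 : IsClosed {p : ℝ × ℝ | p.2 ≤ upA s.2.2.1 + slo s.2.2.1 * p.1} :=
        isClosed_le (by fun_prop) (by fun_prop)
      exact (isClosed_Icc.preimage continuous_fst).inter (c1.inter c2)
  rw [hmp.measure_preimage hm.nullMeasurableSet]
  exact (uni_volume h h0).2

end Pool.Agent.H12.Worm
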