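import Pool.Agent.H12.WormUpper

namespace Pool.Agent.H12.Worm

open MeasureTheory Set

/-- The basic conditions for one edge. -/
def EdgeOK (e : Edge) : Prop :=
  e.1 ^ 2 + e.2.1 ^ 2 = e.2.2.1 ^ 2 ∧ 0 < e.2.2.1 ∧ |e.1| ≤ 6000 ∧ |e.2.1| ≤ 6000 ∧
    0 ≤ e.2.2.1 * e.2.2.2

instance (e : Edge) : Decidable (EdgeOK e) := by
  unfold EdgeOK
  infer_instance

/-- The condition for three edges. -/
def TripleOK (e1 e2 e3 : Edge) : Prop :=
  0 < e2.1 * e3.2.1 - e2.2.1 * e3.1 ∧ 0 < e3.1 * e1.2.1 - e3.2.1 * e1.1 ∧
  0 < e1.1 * e2.2.1 - e1.2.1 * e2.1 ∧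
  SS * e1.2.2.1 * e2.2.2.1 * e3.2.2.1 ≤
      2 * ((e2.1 * e3.2.1 - e2.2.1 * e3.1) * (e1.2.2.1 * e1.2.2.2) +
        (e3.1 * e1.2.1 - e3.2.1 * e1.1) * (e2.2.2.1 * e2.2.2.2) +
        (e1.1 * e2.2.1 - e1.2.1 * e2.1) * (e3.2.2.1 * e3.2.2.2))

instance (e1 e2 e3 : Edge) : Decidable (TripleOK e1 e2 e3) := by
  unfold TripleOK
  infer_instance

theorem poly_cover (A1 A2 A3 : List Edge) (hok : ∀ e ∈ A1 ++ A2 ++ A3, EdgeOK e)
    (h3 : ∀ e1 ∈ A1, ∀ e2 ∈ A2, ∀ e3 ∈ A3, TripleOK e1 e2 e3)
    (h12 : ∀ e ∈ A1 ++ A2, e.1 * (-3) + e.2.1 * (-4) ≤ -1)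
    (h13 : ∀ e ∈ A1 ++ A3, e.1 * (-3) + e.2.1 * 4 ≤ -1)
    (h23 : ∀ e ∈ A2 ++ A3, e.1 * 1 + e.2.1 * 0 ≤ -1) :
    IsTranslationCover (poly (A1 ++ A2 ++ A3)) := by
  classical
  intro γ hγ
  have main : (⋂ e ∈ (A1 ++ A2 ++ A3).toFinset, adm γ e).Nonempty := by
    apply Convex.helly_theorem' (𝕜 := ℝ)
    · intro e _
      exact adm_convex γ e
    · intro I hI hcard
      rw [finrank_euclideanSpace_fin] at hcard
      have hI' : ∀ e ∈ I, EdgeOK e := fun e he => hok e (List.mem_toFinset.1 (hI he))
      have hhalf : ∀ w0 w1 : ℤ, (∀ e ∈ I, e.1 * w0 + e.2.1 * w1 ≤ -1) →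
          (⋂ e ∈ I, adm γ e).Nonempty := by
        intro w0 w1 hw
        obtain ⟨v, hv⟩ := adm_half hγ w0 w1
        refine ⟨v, mem_iInter₂.2 fun e he => ?_⟩
        obtain ⟨_, _, h4, h5, h6⟩ := hI' e he
        exact hv e h4 h5 h6 (hw e he)
      have hmem : ∀ e ∈ I, e ∈ A1 ∨ e ∈ A2 ∨ e ∈ A3 := by
        intro e he
        have := List.mem_toFinset.1 (hI he)
        simpa [or_assoc] using this
      by_cases c1 : ∃ e ∈ I, e ∈ A1
      · by_cases c2 : ∃ e ∈ I, e ∈ A2
        · by_cases c3 : ∃ e ∈ I, e ∈ A3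
          · obtain ⟨e1, he1, he1'⟩ := c1
            obtain ⟨e2, he2, he2'⟩ := c2
            obtain ⟨e3, he3, he3'⟩ := c3
            obtain ⟨q1, q2, q3, q4⟩ := h3 e1 he1' e2 he2' e3 he3'
            have n12 : e1 ≠ e2 := by
              rintro rfl
              apply absurd q3
              have : e1.1 * e1.2.1 - e1.2.1 * e1.1 = 0 := by ring
              omega
            have n23 : e2 ≠ e3 := by
              rintro rfl
              apply absurd q1
              have : e2.1 * e2.2.1 - e2.2.1 * e2.1 = 0 := by ring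
              omega
            have n13 : e1 ≠ e3 := by
              rintro rfl
              apply absurd q2
              have : e1.1 * e1.2.1 - e1.2.1 * e1.1 = 0 := by ring
              omega
            have hsub : ({e1, e2, e3} : Finset Edge) ⊆ I := by
              intro x hx
              simp only [Finset.mem_insert, Finset.mem_singleton] at hx
              rcases hx with rfl | rfl | rfl <;> assumption
            have hc3 : ({e1, e2, e3} : Finset Edge).card = 3 := by
              rw [Finset.card_insert_of_notMem, Finset.card_insert_of_notMem,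
                Finset.card_singleton]
              · simp [n23]
              · simp [n12, n13]
            have hIeq : ({e1, e2, e3} : Finset Edge) = I :=
              Finset.eq_of_subset_of_card_le hsub (by rw [hc3]; exact hcard)
            obtain ⟨p1, d1, _⟩ := hI' e1 he1
            obtain ⟨p2, d2, _⟩ := hI' e2 he2
            obtain ⟨p3, d3, _⟩ := hI' e3 he3
            obtain ⟨v, hv1, hv2, hv3⟩ := adm_three hγ e1 e2 e3 p1 p2 p3 d1 d2 d3 q1 q2 q3 q4
            refine ⟨v, mem_iInter₂.2 fun e he => ?_⟩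
            rw [← hIeq] at he
            simp only [Finset.mem_insert, Finset.mem_singleton] at he
            rcases he with rfl | rfl | rfl <;> assumption
          · push Not at c3
            apply hhalf (-3) (-4)
            intro e he
            apply h12
            rw [List.mem_append]
            rcases hmem e he with h | h | h
            · exact Or.inl h
            · exact Or.inr h
            · exact absurd h (c3 e he)
        · push Not at c2
          apply hhalf (-3) 4
          intro e he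
          apply h13
          rw [List.mem_append]
          rcases hmem e he with h | h | h
          · exact Or.inl h
          · exact absurd h (c2 e he)
          · exact Or.inr h
      · push Not at c1
        apply hhalf 1 0
        intro e he
        apply h23
        rw [List.mem_append]
        rcases hmem e he with h | h | h
        · exact absurd h (c1 e he)
        · exact Or.inl h
        · exact Or.inr h
  obtain ⟨v, hv⟩ := main
  rw [mem_iInter₂] at hv
  refine ⟨v, fun t ht e he => ?_⟩
  exact hv e (List.mem_toFinset.2 he) t ht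

/-- The volume of a closed trapezoid is at most the usual expression. -/
theorem trap_volume {a b α β α' β' : ℝ} (hab : a ≤ b) (ha : α + β * a ≤ α' + β' * a)
    (hb : α + β * b ≤ α' + β' * b) :
    volume {p : ℝ × ℝ | p.1 ∈ Icc a b ∧ α + β * p.1 ≤ p.2 ∧ p.2 ≤ α' + β' * p.1} ≤
      ENNReal.ofReal ((b - a) * ((α' - α) + (β' - β) * ((a + b) / 2))) := by
  have hmeas : MeasurableSet {p : ℝ × ℝ | p.1 ∈ Icc a b ∧ α + β * p.1 ≤ p.2 ∧
      p.2 ≤ α' + β' * p.1} := by
    apply IsClosed.measurableSet
    have c1 : IsClosed {p : ℝ × ℝ | α + β * p.1 ≤ p.2} :=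
      isClosed_le (by fun_prop) (by fun_prop)
    have c2 : IsClosed {p : ℝ × ℝ | p.2 ≤ α' + β' * p.1} :=
      isClosed_le (by fun_prop) (by fun_prop)
    exact (isClosed_Icc.preimage continuous_fst).inter (c1.inter c2)
  rw [Measure.volume_eq_prod, Measure.prod_apply hmeas]
  have hsec : ∀ x : ℝ, volume (Prod.mk x ⁻¹' {p : ℝ × ℝ | p.1 ∈ Icc a b ∧ α + β * p.1 ≤ p.2 ∧
      p.2 ≤ α' + β' * p.1}) ≤ (Icc a b).indicator
        (fun x => ENNReal.ofReal ((α' - α) + (β' - β) * x)) x := by
    intro x
    by_cases hx : x ∈ Icc a b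
    · rw [Set.indicator_of_mem hx]
      have : Prod.mk x ⁻¹' {p : ℝ × ℝ | p.1 ∈ Icc a b ∧ α + β * p.1 ≤ p.2 ∧
          p.2 ≤ α' + β' * p.1} ⊆ Icc (α + β * x) (α' + β' * x) := by
        intro y hy
        exact ⟨hy.2.1, hy.2.2⟩
      refine (measure_mono this).trans ?_
      rw [Real.volume_Icc]
      apply le_of_eq
      congr 1
      ring
    · have : Prod.mk x ⁻¹' {p : ℝ × ℝ | p.1 ∈ Icc a b ∧ α + β * p.1 ≤ p.2 ∧
          p.2 ≤ α' + β' * p.1} = ∅ := by
        ext y
        simp only [mem_preimage, mem_setOf_eq, mem_empty_iff_false, iff_false]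
        exact fun h => hx h.1
      rw [this, measure_empty]
      exact zero_le
  refine (lintegral_mono hsec).trans ?_
  rw [lintegral_indicator measurableSet_Icc]
  have hint : IntegrableOn (fun x => (α' - α) + (β' - β) * x) (Icc a b) := by
    apply ContinuousOn.integrableOn_Icc
    fun_prop
  have hnn : ∀ᵐ x ∂(volume.restrict (Icc a b)), 0 ≤ (α' - α) + (β' - β) * x := by
    rw [ae_restrict_iff' measurableSet_Icc]
    refine Filter.Eventually.of_forall fun x hx => ?_
    rcases hab.eq_or_lt with h | h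
    · have : x = a := le_antisymm (h ▸ hx.2) hx.1
      rw [this]
      linarith
    · have h1 : 0 ≤ (b - x) / (b - a) := div_nonneg (by linarith [hx.2]) (by linarith)
      have h2 : 0 ≤ (x - a) / (b - a) := div_nonneg (by linarith [hx.1]) (by linarith)
      have h3 : (α' - α) + (β' - β) * x = (b - x) / (b - a) * ((α' - α) + (β' - β) * a) +
          (x - a) / (b - a) * ((α' - α) + (β' - β) * b) := by
        have : b - a ≠ 0 := by linarith
        field_simp
        ring
      rw [h3]
      apply add_nonneg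
      · exact mul_nonneg h1 (by linarith)
      · exact mul_nonneg h2 (by linarith)
  rw [← ofReal_integral_eq_lintegral_ofReal hint hnn]
  apply ENNReal.ofReal_le_ofReal
  rw [integral_Icc_eq_integral_Ioc, ← intervalIntegral.integral_of_le hab]
  rw [intervalIntegral.integral_add (by simp) (by
    apply Continuous.intervalIntegrable
    fun_prop), intervalIntegral.integral_const, intervalIntegral.integral_const_mul,
    integral_id]
  simp only [smul_eq_mul]
  apply le_of_eq
  ring

end Pool.Agent.H12.Worm
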