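import Mathlib

/-!
# Definitions for the problem on convex translation covers for closed curves of length one
-/

namespace Pool.Agent.H12.Worm

open MeasureTheory

/-- The Euclidean plane. -/
abbrev Plane := EuclideanSpace ℝ (Fin 2)

/-- A closed worm: a continuous closed curve `γ : [0,1] → ℝ²` of length (total variation) `1`. -/
def IsClosedWorm (γ : ℝ → Plane) : Prop :=
  ContinuousOn γ (Set.Icc 0 1) ∧ γ 0 = γ 1 ∧ eVariationOn γ (Set.Icc 0 1) = 1

/-- `R` is a translation cover for closed worms: it contains a translate of every closed worm. -/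
def IsTranslationCover (R : Set Plane) : Prop :=
  ∀ γ : ℝ → Plane, IsClosedWorm γ → ∃ v : Plane, ∀ t ∈ Set.Icc (0 : ℝ) 1, γ t + v ∈ R

/-- The infimum of the areas of the convex (compact) translation covers for closed worms. -/
noncomputable def muTilde : ENNReal :=
  ⨅ R : {R : Set Plane // IsCompact R ∧ Convex ℝ R ∧ IsTranslationCover R}, volume R.1

end Pool.Agent.H12.Worm
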