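import Pool.Agent.H12.WormLTri

/-!
# Lower bound: areas of triangles and of circular sectors
-/

namespace Pool.Agent.H12.Worm

open MeasureTheory Set

/-- The cross product. -/
def cr (a b : Plane) : ℝ := a 0 * b 1 - a 1 * b 0

/-- The open triangle with vertices `A B C` (in positive order; empty if the order is negative). -/
def tri (A B C : Plane) : Set Plane :=
  {z | 0 < cr (B - A) (z - A) ∧ 0 < cr (C - B) (z - B) ∧ 0 < cr (A - C) (z - C)}

theorem tri_bary {A B C z : Plane} (h : z ∈ tri A B C) :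
    ∃ a b c : ℝ, 0 < a ∧ 0 < b ∧ 0 < c ∧ a + b + c = 1 ∧ z = a • A + b • B + c • C := by
  obtain ⟨h1, h2, h3⟩ := h
  have hD : 0 < cr (B - A) (z - A) + cr (C - B) (z - B) + cr (A - C) (z - C) := by linarith
  refine ⟨cr (C - B) (z - B) / (cr (B - A) (z - A) + cr (C - B) (z - B) + cr (A - C) (z - C)),
    cr (A - C) (z - C) / (cr (B - A) (z - A) + cr (C - B) (z - B) + cr (A - C) (z - C)),
    cr (B - A) (z - A) / (cr (B - A) (z - A) + cr (C - B) (z - B) + cr (A - C) (z - C)),
    div_pos h2 hD, div_pos h3 hD, div_pos h1 hD, ?_, ?_⟩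
  · field_simp
    ring
  · ext i
    have hD' := hD.ne'
    fin_cases i
    · simp only [Fin.zero_eta, Fin.isValue, PiLp.add_apply, PiLp.smul_apply, smul_eq_mul]
      field_simp
      simp only [cr, PiLp.sub_apply]
      ring
    · simp only [Fin.mk_one, Fin.isValue, PiLp.add_apply, PiLp.smul_apply, smul_eq_mul]
      field_simp
      simp only [cr, PiLp.sub_apply]
      ring

theorem tri_open (A B C : Plane) : IsOpen (tri A B C) := by
  have : tri A B C = {z | 0 < cr (B - A) (z - A)} ∩ ({z | 0 < cr (C - B) (z - B)} ∩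
      {z | 0 < cr (A - C) (z - C)}) := by
    ext z
    simp [tri]
  rw [this]
  unfold cr
  refine (isOpen_lt continuous_const (by fun_prop)).inter
    ((isOpen_lt continuous_const (by fun_prop)).inter (isOpen_lt continuous_const (by fun_prop)))

theorem tri_subset {K : Set Plane} (hK : Convex ℝ K) {A B C : Plane} (hA : A ∈ K) (hB : B ∈ K)
    (hC : C ∈ K) : tri A B C ⊆ K := by
  intro z hz
  obtain ⟨a, b, c, ha, hb, hc, habc, rfl⟩ := tri_bary hz
  have h := hK.sum_mem (t := Finset.univ) (w := ![a, b, c]) (z := ![A, B, C])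
    (by intro i _; fin_cases i <;> simp [ha.le, hb.le, hc.le])
    (by simp [Fin.sum_univ_three, habc])
    (by intro i _; fin_cases i <;> simp [hA, hB, hC])
  simpa [Fin.sum_univ_three] using h

/-- The map to `ℝ × ℝ` preserves the area. -/
theorem mp_prod : MeasurePreserving (fun v : Plane => (v 0, v 1)) volume volume :=
  (volume_preserving_finTwoArrow ℝ).comp
    (EuclideanSpace.volume_preserving_symm_measurableEquiv_toLp (Fin 2))

/-- The standard triangle. -/
def stdt : Set (ℝ × ℝ) := regionBetween (fun _ => 0) (fun x => 1 - x) (Ioo 0 1)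

theorem stdt_volume : volume stdt = ENNReal.ofReal (1 / 2) := by
  unfold stdt
  rw [show (volume : Measure (ℝ × ℝ)) = volume.prod volume from rfl]
  rw [volume_regionBetween_eq_integral]
  · congr 1
    rw [← integral_Ioc_eq_integral_Ioo, ← intervalIntegral.integral_of_le zero_le_one]
    simp only [Pi.sub_apply, sub_zero]
    rw [intervalIntegral.integral_sub (by simp) (by simp)]
    simp
    norm_num
  · exact integrableOn_zero
  · exact (Continuous.integrableOn_Icc (by fun_prop)).mono_set Ioo_subset_Icc_self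
  · exact measurableSet_Ioo
  · intro x hx
    have := hx.2
    show (0 : ℝ) ≤ 1 - x
    linarith

theorem tri_volume (A B C : Plane) :
    ENNReal.ofReal (cr (B - A) (C - A) / 2) ≤ volume (tri A B C) := by
  rcases le_or_gt (cr (B - A) (C - A)) 0 with h0 | hD
  · rw [ENNReal.ofReal_of_nonpos (by linarith)]
    exact bot_le
  obtain ⟨D, hDd⟩ : ∃ D, D = cr (B - A) (C - A) := ⟨_, rfl⟩
  rw [← hDd] at hD ⊢
  set u0 := (B - A) 0 with hu0
  set u1 := (B - A) 1 with hu1
  set v0 := (C - A) 0 with hv0
  set v1 := (C - A) 1 with hv1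
  have hDe : D = u0 * v1 - u1 * v0 := hDd
  set g : ℝ × ℝ →ₗ[ℝ] ℝ × ℝ := Matrix.toLin (.finTwoProd ℝ) (.finTwoProd ℝ)
    !![v1 / D, -v0 / D; -u1 / D, u0 / D] with hg
  have hdet : LinearMap.det g = 1 / D := by
    rw [hg, LinearMap.det_toLin, Matrix.det_fin_two]
    simp only [Matrix.of_apply, Matrix.cons_val', Matrix.cons_val_zero, Matrix.cons_val_one,
      Matrix.cons_val_fin_one]
    field_simp
    linarith
  have happ : ∀ p : ℝ × ℝ, g p = ((v1 * p.1 - v0 * p.2) / D, (u0 * p.2 - u1 * p.1) / D) := by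
    intro p
    rw [hg, Matrix.toLin_finTwoProd_apply]
    ext
    · simp only; ring
    · simp only; ring
  have hdet0 : LinearMap.det g ≠ 0 := by
    rw [hdet]
    positivity
  have e1 : volume (g ⁻¹' stdt) = ENNReal.ofReal (D / 2) := by
    rw [Measure.addHaar_preimage_linearMap _ hdet0, hdet, stdt_volume,
      ← ENNReal.ofReal_mul (abs_nonneg _)]
    congr 1
    rw [one_div, inv_inv, abs_of_pos hD]
    ring
  have hmeas : MeasurableSet (g ⁻¹' stdt) := by
    apply measurableSet_preimage
    · exact (LinearMap.continuous_of_finiteDimensional g).measurable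
    · apply measurableSet_regionBetween measurable_const (by fun_prop) measurableSet_Ioo
  have e2 : tri A B C = (fun v : Plane => v - A) ⁻¹' ((fun v : Plane => (v 0, v 1)) ⁻¹' (g ⁻¹' stdt)) := by
    ext z
    simp only [tri, mem_preimage, happ, stdt, regionBetween]
    show _ ↔ (_ ∈ Ioo _ _ ∧ _ ∈ Ioo _ _)
    simp only [mem_Ioo]
    have k1 : cr (B - A) (z - A) = u0 * (z - A) 1 - u1 * (z - A) 0 := rfl
    have k2 : cr (A - C) (z - C) = v1 * (z - A) 0 - v0 * (z - A) 1 := by
      simp only [cr, hv0, hv1, PiLp.sub_apply]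
      ring
    have k3 : cr (C - B) (z - B) = D - (v1 * (z - A) 0 - v0 * (z - A) 1) -
        (u0 * (z - A) 1 - u1 * (z - A) 0) := by
      rw [hDe]
      simp only [cr, hv0, hv1, hu0, hu1, PiLp.sub_apply]
      ring
    show (_ ∧ _ ∧ _) ↔ _
    rw [k1, k2, k3]
    constructor
    · rintro ⟨h1, h2, h3⟩
      refine ⟨⟨div_pos h3 hD, ?_⟩, div_pos h1 hD, ?_⟩
      · rw [div_lt_one hD]; linarith
      · rw [lt_sub_iff_add_lt, ← add_div, div_lt_one hD]; linarith
    · rintro ⟨⟨h1, h2⟩, h3, h4⟩
      rw [lt_sub_iff_add_lt, ← add_div, div_lt_one hD] at h4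
      refine ⟨(div_pos_iff_of_pos_right hD).1 h3, by linarith, (div_pos_iff_of_pos_right hD).1 h1⟩
  rw [e2, ← e1]
  rw [(measurePreserving_sub_right volume A).measure_preimage
    (mp_prod.measurable hmeas).nullMeasurableSet,
    mp_prod.measure_preimage hmeas.nullMeasurableSet]

/-- A circular sector. -/
def sec (α β r : ℝ) : Set Plane :=
  {z | ∃ ρ θ : ℝ, 0 < ρ ∧ ρ ≤ r ∧ α < θ ∧ θ < β ∧ z = ρ • ev θ}

theorem sec_volume {α β r : ℝ} (hr : 0 ≤ r) :
    volume (sec α β r) ≤ ENNReal.ofReal (r ^ 2 * (β - α) / 2) := by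
  have h1 : volume (polarCoord.symm '' (Ioc 0 r ×ˢ Ioo α β)) ≤
      ENNReal.ofReal (r ^ 2 * (β - α) / 2) := by
    refine (addHaar_image_le_lintegral_abs_det_fderiv volume
      (measurableSet_Ioc.prod measurableSet_Ioo)
      (fun x _ => (hasFDerivAt_polarCoord_symm x).hasFDerivWithinAt)).trans ?_
    have : ∀ x : ℝ × ℝ, (fderivPolarCoordSymm x).det = x.1 := det_fderivPolarCoordSymm
    simp only [this]
    rw [show (volume : Measure (ℝ × ℝ)) = volume.prod volume from rfl,
      ← Measure.prod_restrict]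
    have h2 := lintegral_prod_mul (μ := volume.restrict (Ioc 0 r)) (ν := volume.restrict (Ioo α β))
      (f := fun x : ℝ => ENNReal.ofReal |x|) (g := fun _ : ℝ => (1 : ENNReal)) (by fun_prop)
      (by fun_prop)
    simp only [mul_one] at h2
    rw [h2, lintegral_one, Measure.restrict_apply_univ, Real.volume_Ioo]
    have h3 : ∫⁻ x in Ioc 0 r, ENNReal.ofReal |x| = ENNReal.ofReal (r ^ 2 / 2) := by
      rw [← ofReal_integral_eq_lintegral_ofReal]
      · congr 1
        rw [setIntegral_congr_fun measurableSet_Ioc (g := fun x => x)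
          (fun x hx => abs_of_pos hx.1), ← intervalIntegral.integral_of_le hr, integral_id]
        ring
      · exact (Continuous.integrableOn_Icc (by fun_prop)).mono_set Ioc_subset_Icc_self
      · exact Filter.Eventually.of_forall fun x => abs_nonneg x
    rw [h3, ← ENNReal.ofReal_mul (by positivity)]
    apply le_of_eq
    congr 1
    ring
  refine le_trans ?_ h1
  have hsub : sec α β r ⊆ (fun v : Plane => (v 0, v 1)) ⁻¹'
      (toMeasurable volume (polarCoord.symm '' (Ioc 0 r ×ˢ Ioo α β))) := by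
    rintro z ⟨ρ, θ, h1, h2, h3, h4, rfl⟩
    apply subset_toMeasurable
    refine ⟨(ρ, θ), ⟨⟨h1, h2⟩, h3, h4⟩, ?_⟩
    simp [polarCoord_symm_apply]
  refine (measure_mono hsub).trans ?_
  rw [mp_prod.measure_preimage (measurableSet_toMeasurable _ _).nullMeasurableSet,
    measure_toMeasurable]

end Pool.Agent.H12.Worm
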