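import Pool.Agent.H12.WormLFrame
import Pool.Agent.H12.WormLMeas

/-!
# Lower bound: the area of a convex set containing a disc, three tips, and touching given lines
-/

namespace Pool.Agent.H12.Worm

open MeasureTheory Set

theorem cos_le_of_abs {β x : ℝ} (h0 : 0 ≤ β) (h1 : β ≤ |x|) (h2 : |x| ≤ 2 * Real.pi - β) :
    Real.cos x ≤ Real.cos β := by
  rw [← Real.cos_abs x]
  rcases le_total |x| Real.pi with h | h
  · exact Real.cos_le_cos_of_nonneg_of_le_pi h0 h h1
  · have : Real.cos |x| = Real.cos (2 * Real.pi - |x|) := by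
      rw [Real.cos_two_pi_sub]
    rw [this]
    exact Real.cos_le_cos_of_nonneg_of_le_pi h0 (by linarith) (by linarith)

/-- The sign. -/
noncomputable def sg (b : Bool) : ℝ := if b then 1 else -1

theorem sg_cases (b : Bool) : sg b = 1 ∨ sg b = -1 := by
  cases b <;> simp [sg]

theorem outer_key {θ θ' r : ℝ} {A B P A' B' P' z : Plane}
    (hA : Lf θ A = r) (hB : Lf θ B = r) (hA' : Lf θ' A' = r) (hB' : Lf θ' B' = r)
    (h1 : Lf θ A' ≤ r) (h2 : Lf θ B' ≤ r) (h3 : Lf θ' A ≤ r) (h4 : Lf θ' B ≤ r)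
    (hP : Lf θ P' ≤ Lf θ P) (hP' : Lf θ' P ≤ Lf θ' P') (hx : r < Lf θ P) (hx' : r < Lf θ' P')
    {a b p a' b' p' : ℝ} (ha : 0 < a) (hb : 0 < b) (hp : 0 < p) (hs : a + b + p = 1)
    (ha' : 0 < a') (hb' : 0 < b') (hp' : 0 < p') (hs' : a' + b' + p' = 1)
    (hz : z = a • A + b • B + p • P) (hz' : z = a' • A' + b' • B' + p' • P') :
    p = p' ∧ Lf θ B' = r ∧ Lf θ A' = r := by
  have e1 : Lf θ z = a * Lf θ A + b * Lf θ B + p * Lf θ P := by
    rw [hz, Lf_add, Lf_add, Lf_smul, Lf_smul, Lf_smul]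
  have e2 : Lf θ z = a' * Lf θ A' + b' * Lf θ B' + p' * Lf θ P' := by
    rw [hz', Lf_add, Lf_add, Lf_smul, Lf_smul, Lf_smul]
  have e3 : Lf θ' z = a * Lf θ' A + b * Lf θ' B + p * Lf θ' P := by
    rw [hz, Lf_add, Lf_add, Lf_smul, Lf_smul, Lf_smul]
  have e4 : Lf θ' z = a' * Lf θ' A' + b' * Lf θ' B' + p' * Lf θ' P' := by
    rw [hz', Lf_add, Lf_add, Lf_smul, Lf_smul, Lf_smul]
  rw [hA, hB] at e1
  rw [hA', hB'] at e4
  have f1 : p * (Lf θ P - r) ≤ p' * (Lf θ P - r) := by
    have g1 := mul_le_mul_of_nonneg_left h1 ha'.le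
    have g2 := mul_le_mul_of_nonneg_left h2 hb'.le
    have g3 := mul_le_mul_of_nonneg_left hP hp'.le
    have g4 : (a + b + p) * r = r := by rw [hs, one_mul]
    have g5 : (a' + b' + p') * r = r := by rw [hs', one_mul]
    linarith
  have f2 : p' * (Lf θ' P' - r) ≤ p * (Lf θ' P' - r) := by
    have g1 := mul_le_mul_of_nonneg_left h3 ha.le
    have g2 := mul_le_mul_of_nonneg_left h4 hb.le
    have g3 := mul_le_mul_of_nonneg_left hP' hp.le
    have g4 : (a + b + p) * r = r := by rw [hs, one_mul]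
    have g5 : (a' + b' + p') * r = r := by rw [hs', one_mul]
    linarith
  have f3 : p ≤ p' := le_of_mul_le_mul_right f1 (by linarith)
  have f4 : p' ≤ p := le_of_mul_le_mul_right f2 (by linarith)
  have f5 : p = p' := le_antisymm f3 f4
  subst f5
  have g1 := mul_le_mul_of_nonneg_left h1 ha'.le
  have g2 := mul_le_mul_of_nonneg_left h2 hb'.le
  have g3 := mul_le_mul_of_nonneg_left hP hp'.le
  have g4 : (a + b + p) * r = r := by rw [hs, one_mul]
  have g5 : (a' + b' + p) * r = r := by rw [hs', one_mul]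
  refine ⟨rfl, ?_, ?_⟩
  · have : b' * Lf θ B' = b' * r := by linarith
    exact mul_left_cancel₀ hb'.ne' this
  · have : a' * Lf θ A' = a' * r := by linarith
    exact mul_left_cancel₀ ha'.ne' this

theorem ev_eq_of_cos {x y : ℝ} (h : Real.cos (x - y) = 1) : ev x = ev y := by
  have h1 : Real.sin (x - y) = 0 := by
    have := Real.sin_sq_add_cos_sq (x - y)
    rw [h] at this
    nlinarith
  have e : x = (x - y) + y := by ring
  ext i
  fin_cases i
  · simp only [Fin.zero_eta, ev_zero]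
    rw [e, Real.cos_add, h, h1]
    ring
  · simp only [Fin.mk_one, ev_one]
    rw [e, Real.sin_add, h, h1]
    ring

theorem cr_ev (x y : ℝ) : cr (ev x) (ev y) = Real.sin (y - x) := by
  simp only [cr, ev_zero, ev_one, Real.sin_sub]
  ring

theorem cr_add (x y z : Plane) : cr x (y + z) = cr x y + cr x z := by
  simp only [cr, PiLp.add_apply]; ring

theorem cr_smul (c : ℝ) (x y : Plane) : cr x (c • y) = c * cr x y := by
  simp only [cr, PiLp.smul_apply, smul_eq_mul]; ring

/-- An element of the open sector between two directions. -/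
theorem mem_sec {α β r : ℝ} {z : Plane} (hab0 : α ≤ β) (hz : ‖z‖ ≤ r)
    (h1 : 0 < cr (ev α) z) (h2 : cr (ev β) z < 0) : z ∈ sec α β r := by
  obtain ⟨ρ, θ', hρ, ha, hb⟩ := polar (z 0) (z 1)
  obtain ⟨n, hn⟩ := shift_Ico α θ'
  set θ := θ' + n * (2 * Real.pi) with hθ
  have hzρ : z = ρ • ev θ := by
    ext i
    fin_cases i
    · simp only [Fin.zero_eta, PiLp.smul_apply, ev_zero, smul_eq_mul]
      rw [hθ, Real.cos_add_int_mul_two_pi]
      exact ha
    · simp only [Fin.mk_one, PiLp.smul_apply, ev_one, smul_eq_mul]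
      rw [hθ, Real.sin_add_int_mul_two_pi]
      exact hb
  rw [hzρ, cr_smul, cr_ev] at h1 h2
  have hρ' : 0 < ρ := by
    rcases eq_or_lt_of_le hρ with h | h
    · rw [← h, zero_mul] at h1
      exact absurd h1 (lt_irrefl _)
    · exact h
  have s1 : 0 < Real.sin (θ - α) := (mul_pos_iff_of_pos_left hρ').1 h1
  have s2 : Real.sin (θ - β) < 0 := by
    by_contra h
    push Not at h
    have := mul_nonneg hρ h
    linarith
  have t1 : α < θ := by
    rcases eq_or_lt_of_le hn.1 with h | h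
    · rw [← h, sub_self, Real.sin_zero] at s1
      exact absurd s1 (lt_irrefl _)
    · exact h
  have t2 : θ - α < Real.pi := by
    by_contra h
    push Not at h
    have h3 : Real.sin (θ - α - Real.pi) = -Real.sin (θ - α) := Real.sin_sub_pi _
    have h4 : 0 ≤ Real.sin (θ - α - Real.pi) :=
      Real.sin_nonneg_of_nonneg_of_le_pi (by linarith) (by linarith [hn.2])
    linarith
  have t3 : θ < β := by
    by_contra h
    push Not at h
    have : 0 ≤ Real.sin (θ - β) :=
      Real.sin_nonneg_of_nonneg_of_le_pi (by linarith) (by linarith)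
    linarith
  refine ⟨ρ, θ, hρ', ?_, t1, t3, hzρ⟩
  rw [hzρ, norm_smul, norm_ev, mul_one, Real.norm_eq_abs, abs_of_nonneg hρ] at hz
  exact hz

theorem tri_swap_bary {A B C z : Plane} (h : z ∈ tri A B C) :
    ∃ a b c : ℝ, 0 < a ∧ 0 < b ∧ 0 < c ∧ a + b + c = 1 ∧ z = a • B + b • A + c • C := by
  obtain ⟨a, b, c, ha, hb, hc, hs, hz⟩ := tri_bary h
  refine ⟨b, a, c, hb, ha, hc, by linarith, ?_⟩
  rw [hz]
  abel

/-- Real numbers. -/
structure Conf (K : Set Plane) where
  /-- radius -/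
  r : ℝ
  /-- distance of the tips -/
  d : ℝ
  /-- half angle -/
  β : ℝ
  /-- angles of the tips -/
  φ : Fin 3 → ℝ
  /-- support points -/
  P : Plane → Plane
  hK : IsCompact K
  hc : Convex ℝ K
  hβ0 : 0 < β
  hβ1 : β < Real.pi / 2
  hd : 0 < d
  hrd : r = d * Real.cos β
  hball : Metric.closedBall 0 r ⊆ K
  htip : ∀ k, d • ev (φ k) ∈ K
  hsep : ∀ j k, j ≠ k → 2 * β ≤ |φ j - φ k| ∧ |φ j - φ k| ≤ 2 * Real.pi - 2 * β
  hP : ∀ θ, P (ev θ) ∈ K ∧ Lf θ (P (ev θ)) = hs K θ

namespace Conf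

variable {K : Set Plane} (C : Conf K)

/-- The angle of the normal. -/
noncomputable def nu (e : Fin 3 × Bool) : ℝ := C.φ e.1 + sg e.2 * C.β

/-- The touching point. -/
noncomputable def Y (e : Fin 3 × Bool) : Plane := C.r • ev (C.nu e)

/-- The tip. -/
noncomputable def T (e : Fin 3 × Bool) : Plane := C.d • ev (C.φ e.1)

/-- The support point. -/
noncomputable def Q (e : Fin 3 × Bool) : Plane := C.P (ev (C.nu e))

/-- Inner triangle. -/
noncomputable def H (e : Fin 3 × Bool) : Set Plane :=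
  if e.2 then tri 0 (C.T e) (C.Y e) else tri 0 (C.Y e) (C.T e)

/-- Outer triangle. -/
noncomputable def O (e : Fin 3 × Bool) : Set Plane :=
  if e.2 then tri (C.Y e) (C.T e) (C.Q e) else tri (C.T e) (C.Y e) (C.Q e)

theorem cosβ_pos : 0 < Real.cos C.β :=
  Real.cos_pos_of_mem_Ioo ⟨by linarith [C.hβ0, Real.pi_pos], C.hβ1⟩

theorem sinβ_pos : 0 < Real.sin C.β :=
  Real.sin_pos_of_pos_of_lt_pi C.hβ0 (by linarith [C.hβ1, Real.pi_pos])

theorem r_pos : 0 < C.r := by
  rw [C.hrd]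
  exact mul_pos C.hd C.cosβ_pos

theorem O_bary {e : Fin 3 × Bool} {z : Plane} (h : z ∈ C.O e) :
    ∃ a b p : ℝ, 0 < a ∧ 0 < b ∧ 0 < p ∧ a + b + p = 1 ∧
      z = a • C.T e + b • C.Y e + p • C.Q e := by
  unfold O at h
  split_ifs at h with hb
  · exact tri_swap_bary h
  · exact tri_bary h

theorem H_bary {e : Fin 3 × Bool} {z : Plane} (h : z ∈ C.H e) :
    ∃ a b : ℝ, 0 < a ∧ 0 < b ∧ a + b < 1 ∧ z = a • C.T e + b • C.Y e := by
  unfold H at h
  split_ifs at h with hb
  · obtain ⟨p, a, b, hp, ha, hb, hs, hz⟩ := tri_bary h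
    refine ⟨a, b, ha, hb, by linarith, ?_⟩
    rw [hz, smul_zero, zero_add]
  · obtain ⟨p, b, a, hp, hb, ha, hs, hz⟩ := tri_bary h
    refine ⟨a, b, ha, hb, by linarith, ?_⟩
    rw [hz, smul_zero, zero_add, add_comm]

theorem cos_nu_le (e f : Fin 3 × Bool) : Real.cos (C.φ f.1 - C.nu e) ≤ Real.cos C.β := by
  have h0 := C.hβ0
  have h1 := C.hβ1
  unfold nu
  by_cases h : e.1 = f.1
  · rw [h]
    rcases sg_cases e.2 with hs | hs
    · rw [hs, show C.φ f.1 - (C.φ f.1 + 1 * C.β) = -C.β by ring, Real.cos_neg]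
    · rw [hs, show C.φ f.1 - (C.φ f.1 + -1 * C.β) = C.β by ring]
  · obtain ⟨g1, g2⟩ := C.hsep f.1 e.1 (Ne.symm h)
    apply cos_le_of_abs h0.le
    · have := abs_sub_abs_le_abs_sub (C.φ f.1 - C.φ e.1) (sg e.2 * C.β)
      have h3 : |sg e.2 * C.β| = C.β := by
        rcases sg_cases e.2 with hs | hs <;> rw [hs] <;> simp [abs_of_pos h0]
      rw [h3] at this
      rw [← sub_sub]
      linarith
    · have := abs_sub (C.φ f.1 - C.φ e.1) (sg e.2 * C.β)
      have h3 : |sg e.2 * C.β| = C.β := by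
        rcases sg_cases e.2 with hs | hs <;> rw [hs] <;> simp [abs_of_pos h0]
      rw [h3] at this
      rw [← sub_sub]
      linarith

theorem Lf_T (e f : Fin 3 × Bool) : Lf (C.nu e) (C.T f) ≤ C.r := by
  unfold T
  rw [Lf_smul, Lf_ev, C.hrd]
  exact mul_le_mul_of_nonneg_left (C.cos_nu_le e f) C.hd.le

theorem Lf_T_self (e : Fin 3 × Bool) : Lf (C.nu e) (C.T e) = C.r := by
  unfold T
  rw [Lf_smul, Lf_ev, C.hrd]
  congr 1
  unfold nu
  rcases sg_cases e.2 with hs | hs
  · rw [hs, show C.φ e.1 - (C.φ e.1 + 1 * C.β) = -C.β by ring, Real.cos_neg]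
  · rw [hs, show C.φ e.1 - (C.φ e.1 + -1 * C.β) = C.β by ring]

theorem Lf_Y (e f : Fin 3 × Bool) : Lf (C.nu e) (C.Y f) ≤ C.r := by
  unfold Y
  rw [Lf_smul, Lf_ev]
  calc _ ≤ C.r * 1 := mul_le_mul_of_nonneg_left (Real.cos_le_one _) C.r_pos.le
    _ = C.r := mul_one _

theorem Lf_Y_self (e : Fin 3 × Bool) : Lf (C.nu e) (C.Y e) = C.r := by
  unfold Y
  rw [Lf_smul, Lf_ev, sub_self, Real.cos_zero, mul_one]

theorem Lf_Q (e : Fin 3 × Bool) {x : Plane} (hx : x ∈ K) : Lf (C.nu e) x ≤ Lf (C.nu e) (C.Q e) := by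
  unfold Q
  rw [(C.hP _).2]
  exact le_hs C.hK _ hx

theorem Q_mem (e : Fin 3 × Bool) : C.Q e ∈ K := (C.hP _).1

theorem T_mem (e : Fin 3 × Bool) : C.T e ∈ K := C.htip _

theorem Y_mem (e : Fin 3 × Bool) : C.Y e ∈ K := by
  apply C.hball
  rw [mem_closedBall_zero_iff]
  unfold Y
  rw [norm_smul, norm_ev, mul_one, Real.norm_eq_abs, abs_of_pos C.r_pos]

include C in
theorem zero_mem : (0 : Plane) ∈ K := by
  apply C.hball
  rw [mem_closedBall_zero_iff, norm_zero]
  exact C.r_pos.le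

theorem O_sub (e : Fin 3 × Bool) : C.O e ⊆ K := by
  unfold O
  split_ifs
  · exact tri_subset C.hc (C.Y_mem e) (C.T_mem e) (C.Q_mem e)
  · exact tri_subset C.hc (C.T_mem e) (C.Y_mem e) (C.Q_mem e)

theorem H_sub (e : Fin 3 × Bool) : C.H e ⊆ K := by
  unfold H
  split_ifs
  · exact tri_subset C.hc C.zero_mem (C.T_mem e) (C.Y_mem e)
  · exact tri_subset C.hc C.zero_mem (C.Y_mem e) (C.T_mem e)

theorem O_gt {e : Fin 3 × Bool} {z : Plane} (h : z ∈ C.O e) :
    C.r < Lf (C.nu e) z ∧ C.r < Lf (C.nu e) (C.Q e) := by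
  have h0 : C.r ≤ Lf (C.nu e) (C.Q e) := by
    have := C.Lf_Q e (C.Y_mem e)
    rwa [C.Lf_Y_self] at this
  have h1 : C.r < Lf (C.nu e) (C.Q e) := by
    rcases eq_or_lt_of_le h0 with h2 | h2
    · exfalso
      have k : ∀ A B z : Plane, z ∈ tri A B (C.Q e) → cr (B - A) (C.Q e - A) = 0 → False := by
        intro A B z hz h0
        obtain ⟨h1, h2, h3⟩ := hz
        have : cr (B - A) (z - A) + cr (C.Q e - B) (z - B) + cr (A - C.Q e) (z - C.Q e) =
            cr (B - A) (C.Q e - A) := by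
          simp only [cr, PiLp.sub_apply]
          ring
        linarith
      have hcr : cr (C.T e - C.Y e) (C.Q e - C.Y e) = 0 := by
        have e1 := C.Lf_T_self e
        have e2 := C.Lf_Y_self e
        have e3 : Lf (C.nu e) (C.Q e) = C.r := h2.symm
        simp only [Lf] at e1 e2 e3
        simp only [cr, PiLp.sub_apply]
        have hcs := Real.sin_sq_add_cos_sq (C.nu e)
        set c := Real.cos (C.nu e)
        set s := Real.sin (C.nu e)
        have f1 : c * (C.T e 0 - C.Y e 0) + s * (C.T e 1 - C.Y e 1) = 0 := by linarith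
        have f2 : c * (C.Q e 0 - C.Y e 0) + s * (C.Q e 1 - C.Y e 1) = 0 := by linarith
        linear_combination (-(C.T e 0 - C.Y e 0) * (C.Q e 1 - C.Y e 1) +
          (C.T e 1 - C.Y e 1) * (C.Q e 0 - C.Y e 0)) * hcs +
          (c * (C.Q e 1 - C.Y e 1) - s * (C.Q e 0 - C.Y e 0)) * f1 -
          (c * (C.T e 1 - C.Y e 1) - s * (C.T e 0 - C.Y e 0)) * f2
      unfold O at h
      split_ifs at h
      · exact k _ _ _ h hcr
      · apply k _ _ _ h
        have : cr (C.Y e - C.T e) (C.Q e - C.T e) = - cr (C.T e - C.Y e) (C.Q e - C.Y e) := by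
          simp only [cr, PiLp.sub_apply]
          ring
        rw [this, hcr, neg_zero]
    · exact h2
  refine ⟨?_, h1⟩
  obtain ⟨a, b, p, ha, hb, hp, hs, hz⟩ := C.O_bary h
  rw [hz, Lf_add, Lf_add, Lf_smul, Lf_smul, Lf_smul, C.Lf_T_self, C.Lf_Y_self]
  have g4 : (a + b + p) * C.r = C.r := by rw [hs, one_mul]
  have := mul_lt_mul_of_pos_left h1 hp
  linarith

theorem H_le {e f : Fin 3 × Bool} {z : Plane} (h : z ∈ C.H f) : Lf (C.nu e) z ≤ C.r := by
  obtain ⟨a, b, ha, hb, hs, hz⟩ := C.H_bary h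
  rw [hz, Lf_add, Lf_smul, Lf_smul]
  have h1 := mul_le_mul_of_nonneg_left (C.Lf_T e f) ha.le
  have h2 := mul_le_mul_of_nonneg_left (C.Lf_Y e f) hb.le
  have h3 := C.r_pos
  nlinarith

theorem cos_two : Real.cos (2 * C.β) < 1 := by
  rw [Real.cos_two_mul]
  have := C.cosβ_pos
  have h2 := Real.sin_sq_add_cos_sq C.β
  have h3 := C.sinβ_pos
  nlinarith

theorem cr_nu_T (e : Fin 3 × Bool) : cr (ev (C.nu e)) (C.T e) = -sg e.2 * (C.d * Real.sin C.β) := by
  unfold T
  rw [cr_smul, cr_ev]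
  unfold nu
  rcases sg_cases e.2 with hs | hs
  · rw [hs, show C.φ e.1 - (C.φ e.1 + 1 * C.β) = -C.β by ring, Real.sin_neg]
    ring
  · rw [hs, show C.φ e.1 - (C.φ e.1 + -1 * C.β) = C.β by ring]
    ring

theorem cr_nu_Y (e : Fin 3 × Bool) : cr (ev (C.nu e)) (C.Y e) = 0 := by
  unfold Y
  rw [cr_smul, cr_ev, sub_self, Real.sin_zero, mul_zero]

/-- The outer triangles are disjoint. -/
theorem O_disj {e f : Fin 3 × Bool} (hef : e ≠ f) : Disjoint (C.O e) (C.O f) := by
  rw [Set.disjoint_left]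
  intro z h1 h2
  obtain ⟨_, x1⟩ := C.O_gt h1
  obtain ⟨_, x2⟩ := C.O_gt h2
  obtain ⟨a, b, p, ha, hb, hp, hs, hz⟩ := C.O_bary h1
  obtain ⟨a', b', p', ha', hb', hp', hs', hz'⟩ := C.O_bary h2
  obtain ⟨k1, k2, _⟩ := outer_key (C.Lf_T_self e) (C.Lf_Y_self e) (C.Lf_T_self f) (C.Lf_Y_self f)
    (C.Lf_T e f) (C.Lf_Y e f) (C.Lf_T f e) (C.Lf_Y f e) (C.Lf_Q e (C.Q_mem f))
    (C.Lf_Q f (C.Q_mem e)) x1 x2 ha hb hp hs ha' hb' hp' hs' hz hz'
  subst k1
  have hcos : Real.cos (C.nu f - C.nu e) = 1 := by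
    unfold Y at k2
    rw [Lf_smul, Lf_ev] at k2
    have := C.r_pos
    have h3 : C.r * Real.cos (C.nu f - C.nu e) = C.r * 1 := by rw [k2, mul_one]
    exact mul_left_cancel₀ this.ne' h3
  have hev := ev_eq_of_cos hcos
  have hQ : C.Q e = C.Q f := by
    unfold Q
    rw [hev]
  have hzz : a • C.T e + b • C.Y e = a' • C.T f + b' • C.Y f := by
    have : a • C.T e + b • C.Y e + p • C.Q e = a' • C.T f + b' • C.Y f + p • C.Q e := by
      rw [← hz, hz', hQ]
    exact add_right_cancel this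
  have hcr := congrArg (cr (ev (C.nu e))) hzz
  rw [cr_add, cr_add, cr_smul, cr_smul, cr_smul, cr_smul, cr_nu_T, cr_nu_Y, ← hev, cr_nu_T,
    cr_nu_Y] at hcr
  have hds : 0 < C.d * Real.sin C.β := mul_pos C.hd C.sinβ_pos
  have hsg : sg e.2 = sg f.2 := by
    rcases sg_cases e.2 with s1 | s1 <;> rcases sg_cases f.2 with s2 | s2
    · rw [s1, s2]
    · exfalso
      rw [s1, s2] at hcr
      nlinarith [mul_pos ha hds, mul_pos ha' hds]
    · exfalso
      rw [s1, s2] at hcr
      nlinarith [mul_pos ha hds, mul_pos ha' hds]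
    · rw [s1, s2]
  have hk : e.1 = f.1 := by
    by_contra hk
    obtain ⟨g1, g2⟩ := C.hsep f.1 e.1 (Ne.symm hk)
    have g3 : Real.cos (C.φ f.1 - C.φ e.1) ≤ Real.cos (2 * C.β) :=
      cos_le_of_abs (by linarith [C.hβ0]) g1 g2
    have g4 : C.nu f - C.nu e = C.φ f.1 - C.φ e.1 := by
      unfold nu
      rw [hsg]
      ring
    rw [g4] at hcos
    have := C.cos_two
    linarith
  apply hef
  refine Prod.ext hk ?_
  revert hsg
  cases e.2 <;> cases f.2 <;> simp [sg] <;> norm_num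

theorem H_norm {e : Fin 3 × Bool} {z : Plane} (h : z ∈ C.H e) :
    Real.cos C.β * ‖z‖ < Lf (C.φ e.1) z := by
  obtain ⟨a, b, ha, hb, hs, hz⟩ := C.H_bary h
  have h1 : ‖z‖ ≤ a * C.d + b * C.r := by
    rw [hz]
    refine (norm_add_le _ _).trans ?_
    unfold T Y
    rw [norm_smul, norm_smul, norm_smul, norm_smul, norm_ev, norm_ev, Real.norm_eq_abs,
      Real.norm_eq_abs, Real.norm_eq_abs, Real.norm_eq_abs, abs_of_pos ha, abs_of_pos hb,
      abs_of_pos C.hd, abs_of_pos C.r_pos, mul_one, mul_one]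
  have h2 : Lf (C.φ e.1) z = a * C.d + b * C.r * Real.cos C.β := by
    rw [hz, Lf_add, Lf_smul, Lf_smul]
    unfold T Y
    rw [Lf_smul, Lf_smul, Lf_ev, Lf_ev, sub_self, Real.cos_zero]
    unfold nu
    rcases sg_cases e.2 with hs | hs
    · rw [hs, show C.φ e.1 + 1 * C.β - C.φ e.1 = C.β by ring]
      ring
    · rw [hs, show C.φ e.1 + -1 * C.β - C.φ e.1 = -C.β by ring, Real.cos_neg]
      ring
  rw [h2]
  have h3 := C.cosβ_pos
  have h4 : Real.cos C.β < 1 := by
    have h2 := Real.sin_sq_add_cos_sq C.β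
    have h3 := C.sinβ_pos
    nlinarith
  have h5 := mul_le_mul_of_nonneg_left h1 h3.le
  have h6 : 0 < a * C.d := mul_pos ha C.hd
  nlinarith

theorem cr_phi {e : Fin 3 × Bool} {z : Plane} (h : z ∈ C.H e) :
    0 < sg e.2 * cr (ev (C.φ e.1)) z ∧ 0 < - sg e.2 * cr (ev (C.nu e)) z := by
  obtain ⟨a, b, ha, hb, hs, hz⟩ := C.H_bary h
  constructor
  · rw [hz, cr_add, cr_smul, cr_smul]
    unfold T Y
    rw [cr_smul, cr_smul, cr_ev, cr_ev, sub_self, Real.sin_zero]
    have := mul_pos (mul_pos hb C.r_pos) C.sinβ_pos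
    unfold nu
    rcases sg_cases e.2 with hs | hs
    · rw [hs, show C.φ e.1 + 1 * C.β - C.φ e.1 = C.β by ring]
      linarith
    · rw [hs, show C.φ e.1 + -1 * C.β - C.φ e.1 = -C.β by ring, Real.sin_neg]
      linarith
  · rw [hz, cr_add, cr_smul, cr_smul, cr_nu_T, cr_nu_Y]
    have := mul_pos ha (mul_pos C.hd C.sinβ_pos)
    rcases sg_cases e.2 with hs | hs <;> rw [hs] <;> linarith

/-- The inner triangles are disjoint. -/
theorem H_disj {e f : Fin 3 × Bool} (hef : e ≠ f) : Disjoint (C.H e) (C.H f) := by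
  rw [Set.disjoint_left]
  intro z h1 h2
  by_cases hk : e.1 = f.1
  · have h3 := (C.cr_phi h1).1
    have h4 := (C.cr_phi h2).1
    rw [hk] at h3
    have hsg : sg e.2 = sg f.2 := by
      rcases sg_cases e.2 with s1 | s1 <;> rcases sg_cases f.2 with s2 | s2
      · rw [s1, s2]
      · exfalso
        rw [s1] at h3
        rw [s2] at h4
        linarith
      · exfalso
        rw [s1] at h3
        rw [s2] at h4
        linarith
      · rw [s1, s2]
    apply hef
    refine Prod.ext hk ?_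
    revert hsg
    cases e.2 <;> cases f.2 <;> simp [sg] <;> norm_num
  · have h3 := C.H_norm h1
    have h4 := C.H_norm h2
    obtain ⟨g1, g2⟩ := C.hsep e.1 f.1 hk
    have g3 : Real.cos (C.φ e.1 - C.φ f.1) ≤ Real.cos (2 * C.β) :=
      cos_le_of_abs (by linarith [C.hβ0]) g1 g2
    obtain ⟨ρ, θ, hρ, ha, hb⟩ := polar (z 0) (z 1)
    have hzρ : z = ρ • ev θ := by
      ext i
      fin_cases i
      · simpa using ha
      · simpa using hb
    have hn : ‖z‖ = ρ := by
      rw [hzρ, norm_smul, norm_ev, mul_one, Real.norm_eq_abs, abs_of_nonneg hρ]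
    rw [hn, hzρ, Lf_smul, Lf_ev] at h3 h4
    have hρ' : 0 < ρ := by
      rcases eq_or_lt_of_le hρ with h | h
      · rw [← h] at h3
        simp at h3
      · exact h
    have k1 : Real.cos C.β < Real.cos (θ - C.φ e.1) := by
      rw [mul_comm] at h3
      exact lt_of_mul_lt_mul_left h3 hρ
    have k2 : Real.cos C.β < Real.cos (θ - C.φ f.1) := by
      rw [mul_comm] at h4
      exact lt_of_mul_lt_mul_left h4 hρ
    have k3 : Real.cos (C.φ e.1 - C.φ f.1) = Real.cos (θ - C.φ e.1) * Real.cos (θ - C.φ f.1) +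
        Real.sin (θ - C.φ e.1) * Real.sin (θ - C.φ f.1) := by
      rw [← Real.cos_sub, ← Real.cos_neg]
      congr 1
      ring
    rw [k3, Real.cos_two_mul] at g3
    have c0 := C.cosβ_pos
    have q1 := Real.sin_sq_add_cos_sq (θ - C.φ e.1)
    have q2 := Real.sin_sq_add_cos_sq (θ - C.φ f.1)
    set p := Real.cos (θ - C.φ e.1)
    set q := Real.cos (θ - C.φ f.1)
    set u := Real.sin (θ - C.φ e.1)
    set v := Real.sin (θ - C.φ f.1)
    set c := Real.cos C.β
    have m1 : c ^ 2 < p * q := by nlinarith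
    have m2 : u ^ 2 < 1 - c ^ 2 := by nlinarith
    have m3 : v ^ 2 < 1 - c ^ 2 := by nlinarith
    have m4 : -(1 - c ^ 2) < u * v := by nlinarith [sq_nonneg (u + v)]
    linarith

theorem H_open (e : Fin 3 × Bool) : IsOpen (C.H e) := by
  unfold H
  split_ifs <;> exact tri_open _ _ _

theorem O_open (e : Fin 3 × Bool) : IsOpen (C.O e) := by
  unfold O
  split_ifs <;> exact tri_open _ _ _

theorem cr_frame (θ : ℝ) (a b : Plane) :
    cr a b = Lf θ a * cr (ev θ) b - cr (ev θ) a * Lf θ b := by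
  have h := Real.sin_sq_add_cos_sq θ
  simp only [cr, Lf, ev_zero, ev_one]
  linear_combination (-(a 0 * b 1 - a 1 * b 0)) * h

theorem cr_TY (e : Fin 3 × Bool) :
    cr (C.T e) (C.Y e) = sg e.2 * (C.r * (C.d * Real.sin C.β)) := by
  rw [cr_frame (C.nu e), C.Lf_T_self, C.Lf_Y_self, C.cr_nu_T, C.cr_nu_Y]
  ring

theorem H_volume (e : Fin 3 × Bool) :
    ENNReal.ofReal (C.r * (C.d * Real.sin C.β) / 2) ≤ volume (C.H e) := by
  unfold H
  split_ifs with h
  · refine le_trans (le_of_eq ?_) (tri_volume _ _ _)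
    rw [sub_zero, sub_zero, cr_TY, h]
    simp [sg]
  · refine le_trans (le_of_eq ?_) (tri_volume _ _ _)
    have : cr (C.Y e) (C.T e) = - cr (C.T e) (C.Y e) := by
      simp only [cr]; ring
    rw [sub_zero, sub_zero, this, cr_TY]
    have h' : e.2 = false := by simpa using h
    rw [h']
    simp [sg]

theorem O_volume (e : Fin 3 × Bool) :
    ENNReal.ofReal (C.d * Real.sin C.β * (hs K (C.nu e) - C.r) / 2) ≤ volume (C.O e) := by
  have hQ : Lf (C.nu e) (C.Q e) = hs K (C.nu e) := (C.hP _).2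
  have hsub : ∀ x y : Plane, cr (ev (C.nu e)) (x - y) = cr (ev (C.nu e)) x - cr (ev (C.nu e)) y := by
    intro x y
    simp only [cr, PiLp.sub_apply]; ring
  unfold O
  split_ifs with h
  · refine le_trans (le_of_eq ?_) (tri_volume _ _ _)
    rw [cr_frame (C.nu e), Lf_sub, Lf_sub, C.Lf_T_self, C.Lf_Y_self, hQ, hsub, hsub, C.cr_nu_T,
      C.cr_nu_Y, h]
    congr 1
    simp only [sg, if_true]
    ring
  · refine le_trans (le_of_eq ?_) (tri_volume _ _ _)
    have h' : e.2 = false := by simpa using h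
    rw [cr_frame (C.nu e), Lf_sub, Lf_sub, C.Lf_T_self, C.Lf_Y_self, hQ, hsub, hsub, C.cr_nu_T,
      C.cr_nu_Y, h']
    congr 1
    simp only [sg, Bool.false_eq_true, if_false]
    ring

theorem H_ball (e : Fin 3 × Bool) :
    volume (C.H e ∩ Metric.closedBall 0 C.r) ≤ ENNReal.ofReal (C.r ^ 2 * C.β / 2) := by
  rcases sg_cases e.2 with hs | hs
  · have : C.H e ∩ Metric.closedBall 0 C.r ⊆ sec (C.φ e.1) (C.φ e.1 + C.β) C.r := by
      rintro z ⟨h1, h2⟩
      rw [mem_closedBall_zero_iff] at h2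
      obtain ⟨h3, h4⟩ := C.cr_phi h1
      rw [hs] at h3 h4
      have h5 : C.nu e = C.φ e.1 + C.β := by unfold nu; rw [hs]; ring
      rw [h5] at h4
      exact mem_sec (by linarith [C.hβ0]) h2 (by linarith) (by linarith)
    refine (measure_mono this).trans ((sec_volume C.r_pos.le).trans (le_of_eq ?_))
    congr 1
    ring
  · have : C.H e ∩ Metric.closedBall 0 C.r ⊆ sec (C.φ e.1 - C.β) (C.φ e.1) C.r := by
      rintro z ⟨h1, h2⟩
      rw [mem_closedBall_zero_iff] at h2
      obtain ⟨h3, h4⟩ := C.cr_phi h1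
      rw [hs] at h3 h4
      have h5 : C.nu e = C.φ e.1 - C.β := by unfold nu; rw [hs]; ring
      rw [h5] at h4
      exact mem_sec (by linarith [C.hβ0]) h2 (by linarith) (by linarith)
    refine (measure_mono this).trans ((sec_volume C.r_pos.le).trans (le_of_eq ?_))
    congr 1
    ring

theorem HD_volume (e : Fin 3 × Bool) :
    ENNReal.ofReal (C.r * (C.d * Real.sin C.β) / 2 - C.r ^ 2 * C.β / 2) ≤
      volume (C.H e \ Metric.closedBall 0 C.r) := by
  have h1 := measure_inter_add_diff (μ := volume) (C.H e)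
    (t := Metric.closedBall 0 C.r) measurableSet_closedBall
  have h2 := C.H_ball e
  have h3 := C.H_volume e
  rw [ENNReal.ofReal_sub _ (by have := C.hβ0; positivity), tsub_le_iff_left]
  calc _ ≤ _ := h3
    _ = _ := h1.symm
    _ ≤ _ := by gcongr

/-- A piece. -/
noncomputable def U (e : Fin 3 × Bool) : Set Plane := (C.H e \ Metric.closedBall 0 C.r) ∪ C.O e

theorem HO_disj (e f : Fin 3 × Bool) : Disjoint (C.H e) (C.O f) := by
  rw [Set.disjoint_left]
  intro z h1 h2
  have := C.H_le (e := f) h1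
  have := (C.O_gt h2).1
  linarith

theorem DO_disj (f : Fin 3 × Bool) : Disjoint (Metric.closedBall 0 C.r) (C.O f) := by
  rw [Set.disjoint_left]
  intro z h1 h2
  rw [mem_closedBall_zero_iff] at h1
  have := Lf_le_norm (C.nu f) z
  have := (C.O_gt h2).1
  linarith

theorem U_volume (e : Fin 3 × Bool) :
    ENNReal.ofReal (C.r * (C.d * Real.sin C.β) / 2 - C.r ^ 2 * C.β / 2 +
      C.d * Real.sin C.β * (hs K (C.nu e) - C.r) / 2) ≤ volume (C.U e) := by
  unfold U
  rw [measure_union (Set.disjoint_of_subset_left diff_subset (C.HO_disj e e))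
    (C.O_open e).measurableSet]
  refine ENNReal.ofReal_add_le.trans ?_
  exact add_le_add (C.HD_volume e) (C.O_volume e)

theorem U_meas (e : Fin 3 × Bool) : MeasurableSet (C.U e) :=
  ((C.H_open e).measurableSet.diff measurableSet_closedBall).union (C.O_open e).measurableSet

theorem U_sub (e : Fin 3 × Bool) : C.U e ⊆ K :=
  union_subset (diff_subset.trans (C.H_sub e)) (C.O_sub e)

theorem U_disj {e f : Fin 3 × Bool} (hef : e ≠ f) : Disjoint (C.U e) (C.U f) := by
  unfold U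
  rw [disjoint_union_left, disjoint_union_right, disjoint_union_right]
  refine ⟨⟨?_, ?_⟩, ?_, C.O_disj hef⟩
  · exact Disjoint.mono diff_subset diff_subset (C.H_disj hef)
  · exact Disjoint.mono_left diff_subset (C.HO_disj e f)
  · exact Disjoint.mono_right diff_subset (C.HO_disj f e).symm

theorem DU_disj (e : Fin 3 × Bool) : Disjoint (Metric.closedBall 0 C.r) (C.U e) := by
  unfold U
  rw [disjoint_union_right]
  exact ⟨disjoint_sdiff_right, C.DO_disj e⟩

theorem ofReal_sum_le {ι : Type*} (s : Finset ι) (f : ι → ℝ) :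
    ENNReal.ofReal (∑ i ∈ s, f i) ≤ ∑ i ∈ s, ENNReal.ofReal (f i) := by
  classical
  induction s using Finset.induction_on with
  | empty => simp
  | insert a s ha ih =>
    rw [Finset.sum_insert ha, Finset.sum_insert ha]
    exact ENNReal.ofReal_add_le.trans (add_le_add le_rfl ih)

/-- The area bound. -/
theorem area_lower :
    ENNReal.ofReal (Real.pi * C.r ^ 2 + ∑ e : Fin 3 × Bool,
      (C.r * (C.d * Real.sin C.β) / 2 - C.r ^ 2 * C.β / 2 +
      C.d * Real.sin C.β * (hs K (C.nu e) - C.r) / 2)) ≤ volume K := by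
  have h1 : Metric.closedBall 0 C.r ∪ ⋃ e, C.U e ⊆ K :=
    union_subset C.hball (iUnion_subset C.U_sub)
  refine le_trans ?_ (measure_mono h1)
  rw [measure_union (by
    rw [disjoint_iUnion_right]
    exact C.DU_disj) (MeasurableSet.iUnion C.U_meas)]
  rw [measure_iUnion (fun e f hef => C.U_disj hef) C.U_meas, tsum_fintype]
  refine ENNReal.ofReal_add_le.trans (add_le_add ?_ ?_)
  · rw [EuclideanSpace.volume_closedBall_fin_two, ← ENNReal.ofReal_pow C.r_pos.le,
      ← ENNReal.ofReal_mul (by have := C.r_pos; positivity), mul_comm]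
  · exact (ofReal_sum_le _ _).trans (Finset.sum_le_sum fun e _ => C.U_volume e)

end Conf

end Pool.Agent.H12.Worm
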