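import Pool.Agent.H12.WormLTri

/-!
# Lower bound: the largest inscribed disc and its contact directions
-/

namespace Pool.Agent.H12.Worm

open MeasureTheory Set

/-- The support function. -/
noncomputable def hs (K : Set Plane) (θ : ℝ) : ℝ := sSup (Lf θ '' K)

theorem continuous_Lf : Continuous (fun p : ℝ × Plane => Lf p.1 p.2) := by
  unfold Lf
  fun_prop

theorem continuous_Lf' (θ : ℝ) : Continuous (Lf θ) := by
  unfold Lf
  fun_prop

theorem continuous_Lf'' (x : Plane) : Continuous (fun θ => Lf θ x) := by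
  unfold Lf
  fun_prop

theorem Lf_two_pi (θ : ℝ) (n : ℤ) (x : Plane) : Lf (θ + n * (2 * Real.pi)) x = Lf θ x := by
  unfold Lf
  rw [Real.cos_add_int_mul_two_pi, Real.sin_add_int_mul_two_pi]

theorem hs_two_pi (K : Set Plane) (θ : ℝ) (n : ℤ) : hs K (θ + n * (2 * Real.pi)) = hs K θ := by
  unfold hs
  congr 1
  ext y
  simp only [mem_image, Lf_two_pi]

theorem continuous_hs {K : Set Plane} (hK : IsCompact K) : Continuous (hs K) :=
  hK.continuous_sSup (f := Lf) continuous_Lf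

theorem le_hs {K : Set Plane} (hK : IsCompact K) (θ : ℝ) {x : Plane} (hx : x ∈ K) :
    Lf θ x ≤ hs K θ :=
  le_csSup (hK.image (continuous_Lf' θ)).bddAbove (mem_image_of_mem _ hx)

theorem exists_hs {K : Set Plane} (hK : IsCompact K) (hne : K.Nonempty) (θ : ℝ) :
    ∃ x ∈ K, Lf θ x = hs K θ := by
  have := (hK.image (continuous_Lf' θ)).sSup_mem (hne.image _)
  exact this

theorem polar (a b : ℝ) : ∃ ρ θ : ℝ, 0 ≤ ρ ∧ a = ρ * Real.cos θ ∧ b = ρ * Real.sin θ := by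
  refine ⟨‖(⟨a, b⟩ : ℂ)‖, Complex.arg ⟨a, b⟩, norm_nonneg _, ?_, ?_⟩
  · rw [Complex.norm_mul_cos_arg]
  · rw [Complex.norm_mul_sin_arg]

theorem shift_Ico (θ₀ θ : ℝ) : ∃ n : ℤ, θ + n * (2 * Real.pi) ∈ Ico θ₀ (θ₀ + 2 * Real.pi) := by
  obtain ⟨n, hn, _⟩ := existsUnique_add_zsmul_mem_Ico Real.two_pi_pos θ θ₀
  refine ⟨n, ?_⟩
  simpa using hn

theorem mem_of_forall_Lf {K : Set Plane} (hK : IsCompact K) (hc : Convex ℝ K) (hne : K.Nonempty)
    {x : Plane} (hx : ∀ θ, Lf θ x ≤ hs K θ) : x ∈ K := by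
  by_contra hxK
  obtain ⟨f, u, h1, h2⟩ := geometric_hahn_banach_closed_point hc hK.isClosed hxK
  have hf : ∀ v : Plane, f v = f (ev 0) * v 0 + f (ev (Real.pi / 2)) * v 1 := by
    intro v
    have : v = v 0 • ev 0 + v 1 • ev (Real.pi / 2) := by
      ext i
      fin_cases i <;> simp
    conv_lhs => rw [this]
    rw [map_add, map_smul, map_smul, smul_eq_mul, smul_eq_mul]
    ring
  obtain ⟨ρ, θ, hρ, ha, hb⟩ := polar (f (ev 0)) (f (ev (Real.pi / 2)))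
  have hf' : ∀ v : Plane, f v = ρ * Lf θ v := by
    intro v
    rw [hf v, ha, hb]
    unfold Lf
    ring
  obtain ⟨p, hp, hp2⟩ := exists_hs hK hne θ
  have h3 := h1 p hp
  rw [hf', hp2] at h3
  rw [hf'] at h2
  have := mul_le_mul_of_nonneg_left (hx θ) hρ
  linarith

/-- The largest inscribed disc. -/
theorem frame_max {K : Set Plane} (hK : IsCompact K) (hc : Convex ℝ K) (hne : K.Nonempty) :
    ∃ O ∈ K, ∃ r : ℝ, 0 ≤ r ∧ (∀ θ, Lf θ O + r ≤ hs K θ) ∧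
      ∀ φ : ℝ, ∃ θ : ℝ, hs K θ = Lf θ O + r ∧ Real.cos (θ - φ) ≤ 0 := by
  set S : Set (Plane × ℝ) := {p | p.1 ∈ K ∧ 0 ≤ p.2 ∧ ∀ θ, Lf θ p.1 + p.2 ≤ hs K θ} with hS
  have hsub : S ⊆ K ×ˢ Icc 0 (hs K 0 + hs K (0 + Real.pi)) := by
    intro p hp
    obtain ⟨h1, h2, h3⟩ := hp
    refine ⟨h1, h2, ?_⟩
    have a1 := h3 0
    have a2 := le_hs hK (0 + Real.pi) h1
    rw [Lf_neg] at a2
    linarith
  have hclosed : IsClosed S := by
    have : S = (Prod.fst ⁻¹' K) ∩ ({p | 0 ≤ p.2} ∩ ⋂ θ, {p | Lf θ p.1 + p.2 ≤ hs K θ}) := by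
      ext p
      simp [hS]
    rw [this]
    refine (hK.isClosed.preimage continuous_fst).inter
      ((isClosed_le continuous_const continuous_snd).inter (isClosed_iInter fun θ => ?_))
    exact isClosed_le (((continuous_Lf' θ).comp continuous_fst).add continuous_snd) continuous_const
  have hcomp : IsCompact S := (hK.prod isCompact_Icc).of_isClosed_subset hclosed hsub
  obtain ⟨x, hx⟩ := hne
  have hneS : S.Nonempty := ⟨(x, 0), hx, le_rfl, fun θ => by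
    rw [add_zero]
    exact le_hs hK θ hx⟩
  obtain ⟨⟨O, r⟩, ⟨hO, hr, hOr⟩, hmax⟩ := hcomp.exists_isMaxOn hneS continuous_snd.continuousOn
  simp only at hO hr hOr
  refine ⟨O, hO, r, hr, hOr, ?_⟩
  intro φ
  by_contra hcon
  push Not at hcon
  have hgc : Continuous (fun θ => hs K θ - Lf θ O - r) :=
    ((continuous_hs hK).sub (continuous_Lf'' O)).sub continuous_const
  have hZ : IsCompact (Icc 0 (2 * Real.pi) ∩ {θ : ℝ | Real.cos (θ - φ) ≤ 0}) :=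
    isCompact_Icc.inter_right (isClosed_le (by fun_prop) continuous_const)
  obtain ⟨m, hm, hmZ⟩ := hZ.exists_forall_le' hgc.continuousOn (a := 0) (by
    intro θ hθ
    have h1 := hOr θ
    rcases eq_or_lt_of_le h1 with h2 | h2
    · exact absurd hθ.2 (not_le.2 (hcon θ h2.symm))
    · linarith)
  set O' : Plane := O - (m / 2) • ev φ with hO'
  have hLO' : ∀ θ, Lf θ O' = Lf θ O - m / 2 * Real.cos (θ - φ) := by
    intro θ
    rw [hO', Lf_sub, Lf_smul, Lf_ev, ← Real.cos_neg (φ - θ), neg_sub]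
  obtain ⟨r', hr', hall⟩ := (isCompact_Icc (a := (0 : ℝ)) (b := 2 * Real.pi)).exists_forall_le'
    (f := fun θ => hs K θ - Lf θ O')
    ((continuous_hs hK).sub (continuous_Lf'' O')).continuousOn (a := r) (by
      intro θ hθ
      rw [hLO']
      have h1 := hOr θ
      rcases le_or_gt (Real.cos (θ - φ)) 0 with h2 | h2
      · have h3 := hmZ θ ⟨hθ, h2⟩
        have h4 := Real.neg_one_le_cos (θ - φ)
        nlinarith
      · have : 0 < m / 2 * Real.cos (θ - φ) := by positivity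
        linarith)
  have hall' : ∀ θ, Lf θ O' + r' ≤ hs K θ := by
    intro θ
    obtain ⟨n, hn⟩ := shift_Ico 0 θ
    rw [zero_add] at hn
    have := hall _ ⟨hn.1, hn.2.le⟩
    simp only [hs_two_pi, Lf_two_pi] at this
    linarith
  have hO'K : O' ∈ K := by
    apply mem_of_forall_Lf hK hc ⟨x, hx⟩
    intro θ
    have := hall' θ
    linarith
  have := hmax (show (O', r') ∈ S from ⟨hO'K, by simp only; linarith, hall'⟩)
  simp only [mem_setOf_eq] at this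
  linarith

/-- Contact directions. -/
theorem frame_angles {K : Set Plane} (hK : IsCompact K) (hc : Convex ℝ K) (hne : K.Nonempty) :
    ∃ O ∈ K, ∃ r : ℝ, 0 ≤ r ∧ (∀ θ, Lf θ O + r ≤ hs K θ) ∧
      ∃ θ₁ θ₂ θ₃ : ℝ, θ₁ ≤ θ₂ ∧ θ₂ ≤ θ₁ + Real.pi ∧ θ₁ + Real.pi ≤ θ₃ ∧ θ₃ ≤ θ₁ + 2 * Real.pi ∧
        θ₃ - θ₂ ≤ Real.pi ∧ hs K θ₁ = Lf θ₁ O + r ∧ hs K θ₂ = Lf θ₂ O + r ∧
        hs K θ₃ = Lf θ₃ O + r := by
  obtain ⟨O, hO, r, hr, hOr, hcontact⟩ := frame_max hK hc hne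
  refine ⟨O, hO, r, hr, hOr, ?_⟩
  have hpi := Real.pi_pos
  obtain ⟨θ₁, h1, _⟩ := hcontact 0
  have hCT : IsClosed {θ : ℝ | hs K θ = Lf θ O + r} :=
    isClosed_eq (continuous_hs hK) ((continuous_Lf'' O).add continuous_const)
  have hper : ∀ θ : ℝ, ∀ n : ℤ, hs K θ = Lf θ O + r →
      hs K (θ + n * (2 * Real.pi)) = Lf (θ + n * (2 * Real.pi)) O + r := by
    intro θ n h
    rw [hs_two_pi, Lf_two_pi, h]
  have c2 : IsCompact (Icc θ₁ (θ₁ + Real.pi) ∩ {θ : ℝ | hs K θ = Lf θ O + r}) :=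
    isCompact_Icc.inter_right hCT
  have c3 : IsCompact (Icc (θ₁ + Real.pi) (θ₁ + 2 * Real.pi) ∩ {θ : ℝ | hs K θ = Lf θ O + r}) :=
    isCompact_Icc.inter_right hCT
  obtain ⟨θ₂, ⟨hθ₂, hθ₂c⟩, hmax⟩ := c2.exists_isGreatest ⟨θ₁, ⟨le_rfl, by linarith⟩, h1⟩
  obtain ⟨θ₃, ⟨hθ₃, hθ₃c⟩, hmin⟩ := c3.exists_isLeast ⟨θ₁ + 2 * Real.pi, ⟨by linarith, le_rfl⟩, by
    have := hper θ₁ 1 h1
    simpa using this⟩
  refine ⟨θ₁, θ₂, θ₃, hθ₂.1, hθ₂.2, hθ₃.1, hθ₃.2, ?_, h1, hθ₂c, hθ₃c⟩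
  by_contra hgap
  push Not at hgap
  obtain ⟨θ', hθ'c, hθ'⟩ := hcontact ((θ₂ + θ₃) / 2 + Real.pi)
  obtain ⟨n, hn⟩ := shift_Ico θ₁ θ'
  have hc' := hper θ' n hθ'c
  set θ := θ' + n * (2 * Real.pi) with hθdef
  have hcos : 0 ≤ Real.cos (θ - (θ₂ + θ₃) / 2) := by
    have e : θ - (θ₂ + θ₃) / 2 = (θ' - (θ₂ + θ₃) / 2) + n * (2 * Real.pi) := by
      rw [hθdef]; ring
    rw [e, Real.cos_add_int_mul_two_pi]
    have e2 : θ' - ((θ₂ + θ₃) / 2 + Real.pi) = (θ' - (θ₂ + θ₃) / 2) - Real.pi := by ring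
    rw [e2, Real.cos_sub_pi] at hθ'
    linarith
  have h2 := hθ₂.2
  have h3 := hθ₃.2
  rcases le_total θ (θ₁ + Real.pi) with hle | hle
  · have : θ ≤ θ₂ := hmax ⟨⟨hn.1, hle⟩, hc'⟩
    have hneg : Real.cos ((θ₂ + θ₃) / 2 - θ) < 0 :=
      Real.cos_neg_of_pi_div_two_lt_of_lt (by linarith) (by linarith [hn.1, hθ₂.1])
    rw [← Real.cos_neg, neg_sub] at hneg
    linarith
  · have : θ₃ ≤ θ := hmin ⟨⟨hle, hn.2.le⟩, hc'⟩
    have hneg : Real.cos (θ - (θ₂ + θ₃) / 2) < 0 :=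
      Real.cos_neg_of_pi_div_two_lt_of_lt (by linarith) (by linarith [hn.2, hθ₂.1, hθ₃.1])
    linarith

end Pool.Agent.H12.Worm
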