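import Pool.Agent.H12.WormLArea
import Pool.Agent.H12.WormLNum

/-!
# Lower bound: assembly
-/

namespace Pool.Agent.H12.Worm

open MeasureTheory Set

theorem A7_le_arctan {y : ℝ} (hy : 0 ≤ y) : A7 y ≤ Real.arctan y := by
  have hd : ∀ x : ℝ, HasDerivAt (fun x => Real.arctan x - A7 x)
      (1 / (1 + x ^ 2) - (1 - x ^ 2 + x ^ 4 - x ^ 6)) x := by
    intro x
    unfold A7
    refine (Real.hasDerivAt_arctan x).sub ?_
    have h1 := ((((hasDerivAt_id x).sub ((hasDerivAt_pow 3 x).div_const 3)).add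
      ((hasDerivAt_pow 5 x).div_const 5)).sub ((hasDerivAt_pow 7 x).div_const 7))
    convert! h1 using 1
    push_cast
    ring
  have hm : MonotoneOn (fun x => Real.arctan x - A7 x) (Ici 0) := by
    apply monotoneOn_of_deriv_nonneg (convex_Ici 0)
    · exact fun x _ => (hd x).continuousAt.continuousWithinAt
    · exact fun x _ => (hd x).differentiableAt.differentiableWithinAt
    · intro x _
      rw [(hd x).deriv]
      have : 1 / (1 + x ^ 2) - (1 - x ^ 2 + x ^ 4 - x ^ 6) = x ^ 8 / (1 + x ^ 2) := by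
        field_simp
        ring
      rw [this]
      positivity
  have := hm (mem_Ici.2 le_rfl) (mem_Ici.2 hy) hy
  simp only [Real.arctan_zero, A7] at this
  norm_num at this
  unfold A7
  linarith

/-- The tip. -/
theorem tip_exists {K : Set Plane} (hK : IsCompact K) (hc : Convex ℝ K) (hne : K.Nonempty)
    (hcov : IsTranslationCover K) {r d β θ α α' : ℝ} (hr0 : 0 ≤ r) (hrd : r < d)
    (hd : d = 1 / 2 - r) (hβ1 : β ≤ Real.pi / 2) (hcos : r = d * Real.cos β)
    (h0 : (0 : Plane) ∈ K) (hθ : hs K θ = r) (hα : hs K α = r) (hα' : hs K α' = r)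
    (h1 : α ≤ θ + Real.pi) (h2 : θ + Real.pi ≤ α') :
    ∃ φ : ℝ, d • ev φ ∈ K ∧ α + β ≤ φ ∧ φ ≤ α' - β := by
  have hpi := Real.pi_pos
  have hd0 : 0 < d := lt_of_le_of_lt hr0 hrd
  obtain ⟨P, hP, hP2⟩ := exists_hs hK hne (θ + Real.pi)
  have hw : d ≤ Lf (θ + Real.pi) P := by
    have := cover_width hcov (θ := θ) (a := hs K θ) (b := hs K (θ + Real.pi))
      (fun x hx => le_hs hK _ hx) (fun x hx => le_hs hK _ hx)
    rw [hP2]
    linarith
  obtain ⟨ρ, φ', hρ, ha, hb⟩ := polar (P 0) (P 1)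
  obtain ⟨n, hn⟩ := shift_Ico θ φ'
  obtain ⟨φ, hφ⟩ : ∃ φ, φ = φ' + n * (2 * Real.pi) := ⟨_, rfl⟩
  rw [← hφ] at hn
  have hPρ : P = ρ • ev φ := by
    ext i
    fin_cases i
    · simp only [Fin.zero_eta, PiLp.smul_apply, ev_zero, smul_eq_mul]
      rw [hφ, Real.cos_add_int_mul_two_pi]
      exact ha
    · simp only [Fin.mk_one, PiLp.smul_apply, ev_one, smul_eq_mul]
      rw [hφ, Real.sin_add_int_mul_two_pi]
      exact hb
  have hdρ : d ≤ ρ := by
    have := Lf_le_norm (θ + Real.pi) P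
    rw [hPρ, norm_smul, norm_ev, mul_one, Real.norm_eq_abs, abs_of_nonneg hρ] at this
    rw [hPρ] at hw
    linarith
  have hρ0 : 0 < ρ := by linarith
  have hw2 : d ≤ ρ * Real.cos (φ - (θ + Real.pi)) := by
    rw [hPρ, Lf_smul, Lf_ev] at hw
    exact hw
  have hc0 : 0 < Real.cos (φ - (θ + Real.pi)) := by
    by_contra h
    push Not at h
    have := mul_nonpos_of_nonneg_of_nonpos hρ h
    linarith
  -- φ is within π/2 of θ + π
  have b1 : φ - (θ + Real.pi) < Real.pi / 2 := by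
    by_contra h
    push Not at h
    have := Real.cos_nonpos_of_pi_div_two_le_of_le h (by linarith [hn.2])
    linarith
  have b2 : -(Real.pi / 2) < φ - (θ + Real.pi) := by
    by_contra h
    push Not at h
    have := Real.cos_nonpos_of_pi_div_two_le_of_le (x := -(φ - (θ + Real.pi))) (by linarith)
      (by linarith [hn.1])
    rw [Real.cos_neg] at this
    linarith
  have lα : ρ * Real.cos (φ - α) ≤ r := by
    have := le_hs hK α hP
    rw [hPρ, Lf_smul, Lf_ev, hα] at this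
    exact this
  have lα' : ρ * Real.cos (φ - α') ≤ r := by
    have := le_hs hK α' hP
    rw [hPρ, Lf_smul, Lf_ev, hα'] at this
    exact this
  refine ⟨φ, ?_, ?_, ?_⟩
  · have := hc.smul_mem_of_zero_mem h0 hP (t := d / ρ)
      ⟨by positivity, (div_le_one hρ0).2 hdρ⟩
    rw [hPρ, smul_smul, div_mul_cancel₀ _ hρ0.ne'] at this
    exact this
  · by_contra h
    push Not at h
    rcases lt_or_ge φ α with h3 | h3
    · have h4 : Real.cos (φ - (θ + Real.pi)) ≤ Real.cos (φ - α) := by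
        rw [← Real.cos_neg (φ - (θ + Real.pi)), ← Real.cos_neg (φ - α)]
        exact Real.cos_le_cos_of_nonneg_of_le_pi (by linarith) (by linarith) (by linarith)
      have := mul_le_mul_of_nonneg_left h4 hρ
      linarith
    · have h4 : Real.cos β < Real.cos (φ - α) :=
        Real.cos_lt_cos_of_nonneg_of_le_pi_div_two (by linarith) hβ1 (by linarith)
      have h5 : 0 ≤ Real.cos β := Real.cos_nonneg_of_mem_Icc ⟨by linarith, hβ1⟩
      have h6 : d * Real.cos β < ρ * Real.cos (φ - α) := by nlinarith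
      linarith
  · by_contra h
    push Not at h
    rcases lt_or_ge α' φ with h3 | h3
    · have h4 : Real.cos (φ - (θ + Real.pi)) ≤ Real.cos (φ - α') :=
        Real.cos_le_cos_of_nonneg_of_le_pi (by linarith) (by linarith) (by linarith)
      have := mul_le_mul_of_nonneg_left h4 hρ
      linarith
    · have h4 : Real.cos β < Real.cos (φ - α') := by
        rw [← Real.cos_neg (φ - α')]
        exact Real.cos_lt_cos_of_nonneg_of_le_pi_div_two (by linarith) hβ1 (by linarith)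
      have h5 : 0 ≤ Real.cos β := Real.cos_nonneg_of_mem_Icc ⟨by linarith, hβ1⟩
      have h6 : d * Real.cos β < ρ * Real.cos (φ - α') := by nlinarith
      linarith

/-- The gain at a tip. -/
theorem eta_sum {K : Set Plane} (hK : IsCompact K) (hcov : IsTranslationCover K)
    {r β θ φ κ : ℝ} (hθ : hs K θ = r)
    (hge : ∀ θ, r ≤ hs K θ)
    (g1 : Real.pi / 2 ≤ φ - β - θ) (g1' : φ - β - θ < Real.pi)
    (g2 : Real.pi / 2 ≤ 2 * β) (g2' : 2 * β < Real.pi)
    (g3 : Real.pi / 2 ≤ θ + 2 * Real.pi - (φ + β)) (g3' : θ + 2 * Real.pi - (φ + β) < Real.pi)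
    (hκ : (κ + Real.sin β ^ 2 * (2 * r)) ^ 2 ≤
      1 / 4 - Real.cos β * Real.sin β * (2 * r)) :
    κ ≤ (hs K (φ - β) - r) + (hs K (φ + β) - r) := by
  have hpi := Real.pi_pos
  have h := cover_triple hcov (x := θ) (y := φ - β) (z := φ + β) (a := hs K θ)
    (b := hs K (φ - β)) (c := hs K (φ + β)) g1 (by linarith) g3 g1' (by linarith) g3'
    (fun x hx => le_hs hK _ hx) (fun x hx => le_hs hK _ hx) (fun x hx => le_hs hK _ hx)
  rw [hθ] at h
  obtain ⟨ψ, hψ⟩ : ∃ ψ, ψ = φ - θ - Real.pi := ⟨_, rfl⟩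
  have e1 : Real.sin (φ + β - (φ - β)) = 2 * Real.sin β * Real.cos β := by
    rw [show φ + β - (φ - β) = 2 * β by ring, Real.sin_two_mul]
  have e2 : Real.sin (θ - (φ + β)) = Real.sin β * Real.cos ψ + Real.cos β * Real.sin ψ := by
    rw [show θ - (φ + β) = -((β + ψ) + Real.pi) by rw [hψ]; ring, Real.sin_neg, Real.sin_add_pi,
      neg_neg, Real.sin_add]
  have e3 : Real.sin (φ - β - θ) = Real.sin β * Real.cos ψ - Real.cos β * Real.sin ψ := by
    rw [show φ - β - θ = -(β - ψ) + Real.pi by rw [hψ]; ring, Real.sin_add_pi, Real.sin_neg,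
      neg_neg, Real.sin_sub]
  have pA : 0 < Real.sin (θ - (φ + β)) := by
    have : Real.sin (θ - (φ + β)) = Real.sin (θ + 2 * Real.pi - (φ + β)) := by
      rw [show θ + 2 * Real.pi - (φ + β) = (θ - (φ + β)) + 2 * Real.pi by ring,
        Real.sin_add_two_pi]
    rw [this]
    exact Real.sin_pos_of_pos_of_lt_pi (by linarith) g3'
  have pB : 0 < Real.sin (φ - β - θ) := Real.sin_pos_of_pos_of_lt_pi (by linarith) g1'
  rw [e1, e2, e3] at h
  rw [e2] at pA
  rw [e3] at pB
  have hη1 := hge (φ - β)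
  have hη2 := hge (φ + β)
  obtain ⟨b, hb⟩ : ∃ b, b = hs K (φ - β) := ⟨_, rfl⟩
  obtain ⟨c', hc'⟩ : ∃ b, b = hs K (φ + β) := ⟨_, rfl⟩
  rw [← hb] at h hη1 ⊢
  rw [← hc'] at h hη2 ⊢
  have q1 := Real.sin_sq_add_cos_sq β
  have q2 := Real.sin_sq_add_cos_sq ψ
  obtain ⟨s, hs'⟩ : ∃ b, b = Real.sin β := ⟨_, rfl⟩
  obtain ⟨c, hcc⟩ : ∃ b, b = Real.cos β := ⟨_, rfl⟩
  obtain ⟨u, hu⟩ : ∃ b, b = Real.sin ψ := ⟨_, rfl⟩
  obtain ⟨v, hv⟩ : ∃ b, b = Real.cos ψ := ⟨_, rfl⟩
  rw [← hs', ← hcc] at q1 hκ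
  rw [← hu, ← hv] at q2
  rw [← hs', ← hcc, ← hu, ← hv] at h pA pB
  -- Cauchy-Schwarz
  have hM : 0 ≤ 1 / 2 - 2 * r * s * c := by
    have : s * c ≤ 1 / 2 := by nlinarith [sq_nonneg (s - c)]
    nlinarith
  have hcs : (s * (κ + 2 * r)) ^ 2 + (κ * c) ^ 2 ≤ (1 / 2 - 2 * r * s * c) ^ 2 := by
    have hc2 : c ^ 2 = 1 - s ^ 2 := by linarith
    have : (1 / 2 - 2 * r * s * c) ^ 2 - ((s * (κ + 2 * r)) ^ 2 + (κ * c) ^ 2) =
        (1 / 4 - c * s * (2 * r)) - (κ + s ^ 2 * (2 * r)) ^ 2 := by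
      have : (1 / 2 - 2 * r * s * c) ^ 2 - ((s * (κ + 2 * r)) ^ 2 + (κ * c) ^ 2) =
        1 / 4 - 2 * r * s * c + 4 * r ^ 2 * s ^ 2 * c ^ 2 - (s * (κ + 2 * r)) ^ 2 - κ ^ 2 * c ^ 2 := by
        ring
      rw [this, hc2]
      ring
    linarith
  have k1 : (s * (κ + 2 * r)) * v + (κ * c) * u ≤ 1 / 2 - 2 * r * s * c := by
    apply le_of_sq_le_sq _ hM
    nlinarith [sq_nonneg ((s * (κ + 2 * r)) * u - (κ * c) * v)]
  have k2 : (s * (κ + 2 * r)) * v - (κ * c) * u ≤ 1 / 2 - 2 * r * s * c := by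
    apply le_of_sq_le_sq _ hM
    nlinarith [sq_nonneg ((s * (κ + 2 * r)) * u + (κ * c) * v)]
  by_contra hcon
  push Not at hcon
  rcases le_total 0 (c * u) with hcu | hcu
  · have m1 : (s * v - c * u) * (c' - r) ≤ (s * v + c * u) * (c' - r) :=
      mul_le_mul_of_nonneg_right (by linarith) (by linarith)
    have m2 : (s * v + c * u) * (b - r + (c' - r)) < (s * v + c * u) * κ :=
      mul_lt_mul_of_pos_left hcon pA
    nlinarith
  · have m1 : (s * v + c * u) * (b - r) ≤ (s * v - c * u) * (b - r) :=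
      mul_le_mul_of_nonneg_right (by linarith) (by linarith)
    have m2 : (s * v - c * u) * (b - r + (c' - r)) < (s * v - c * u) * κ :=
      mul_lt_mul_of_pos_left hcon pB
    nlinarith

/-- Numerical step. -/
theorem num_final {c s β : ℝ} (hc : c = Real.cos β) (hs' : s = Real.sin β) (hβ0 : 0 < β)
    (hβ1 : β ≤ Real.pi / 3) {r d : ℝ} (hr : r = d * c) (hd : d = 1 / 2 - r) :
    (c ≤ s → ∃ κ : ℝ, (κ + s ^ 2 * (2 * r)) ^ 2 ≤ 1 / 4 - c * s * (2 * r) ∧
      1601 / 10000 ≤ Real.pi * r ^ 2 + 3 * (r * (d * s) - r ^ 2 * β) + 3 / 2 * (d * s) * κ) ∧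
    (s ≤ c → 1601 / 10000 ≤ Real.pi * r ^ 2 + 3 * (r * (d * s) - r ^ 2 * β)) := by
  have hpi := Real.pi_pos
  have hpi' := Real.pi_lt_d20
  have hc2 : 1 / 2 ≤ c := by
    rw [hc, ← Real.cos_pi_div_three]
    exact Real.cos_le_cos_of_nonneg_of_le_pi hβ0.le (by linarith) hβ1
  have hs0 : 0 < s := by
    rw [hs']
    exact Real.sin_pos_of_pos_of_lt_pi hβ0 (by linarith)
  have hsc : s ^ 2 + c ^ 2 = 1 := by rw [hs', hc]; exact Real.sin_sq_add_cos_sq β
  have hc1 : c < 1 := by nlinarith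
  have hs1 : s < 1 := by nlinarith
  obtain ⟨α, hα⟩ : ∃ α, α = (Real.pi / 2 - β) / 2 := ⟨_, rfl⟩
  obtain ⟨y, hy⟩ : ∃ y, y = Real.tan α := ⟨_, rfl⟩
  have hα0 : 0 < α := by rw [hα]; linarith
  have hα1 : α < Real.pi / 4 := by rw [hα]; linarith
  have hcα : 0 < Real.cos α := Real.cos_pos_of_mem_Ioo ⟨by linarith, by linarith⟩
  have hsα : 0 < Real.sin α := Real.sin_pos_of_pos_of_lt_pi hα0 (by linarith)
  have hy' : y * Real.cos α = Real.sin α := by
    rw [hy]
    exact Real.tan_mul_cos hcα.ne'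
  have hq := Real.sin_sq_add_cos_sq α
  have hy0 : 0 < y := by
    rw [hy]
    exact Real.tan_pos_of_pos_of_lt_pi_div_two hα0 (by linarith)
  have h1y : (1 + y ^ 2) * Real.cos α ^ 2 = 1 := by
    rw [← hy'] at hq
    linarith
  have ec : c * (1 + y ^ 2) = 2 * y := by
    have : c = 2 * Real.sin α * Real.cos α := by
      rw [hc, ← Real.sin_two_mul, hα, show 2 * ((Real.pi / 2 - β) / 2) = Real.pi / 2 - β by ring,
        Real.sin_pi_div_two_sub]
    rw [this, ← hy']
    linear_combination (2 * y) * h1y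
  have es : s * (1 + y ^ 2) = 1 - y ^ 2 := by
    have : s = Real.cos α ^ 2 - Real.sin α ^ 2 := by
      rw [hs', ← Real.cos_two_mul', hα,
        show 2 * ((Real.pi / 2 - β) / 2) = Real.pi / 2 - β by ring, Real.cos_pi_div_two_sub]
    rw [this, ← hy']
    linear_combination (1 - y ^ 2) * h1y
  have p1 : 0 < 1 + y ^ 2 := by positivity
  have p2 : 0 < 1 + y := by positivity
  have ec' : c = 2 * y / (1 + y ^ 2) := by rw [eq_div_iff p1.ne']; exact ec
  have es' : s = (1 - y ^ 2) / (1 + y ^ 2) := by rw [eq_div_iff p1.ne']; exact es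
  have hy1 : y < 1 := by
    have : 0 < s * (1 + y ^ 2) := by positivity
    nlinarith
  have hyl : 267 / 1000 ≤ y := by
    have : 1 / 2 * (1 + y ^ 2) ≤ c * (1 + y ^ 2) := mul_le_mul_of_nonneg_right hc2 p1.le
    by_contra h
    push Not at h
    nlinarith
  have hA : A7 y ≤ Real.pi / 4 - β / 2 := by
    have h1 := A7_le_arctan hy0.le
    have h2 : Real.arctan y = α := by
      rw [hy]
      exact Real.arctan_tan (by linarith) (by linarith)
    rw [h2, hα] at h1
    linarith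
  have er : r = y / (1 + y) ^ 2 := by
    have h1 : r * (1 + c) = c / 2 := by
      rw [hd] at hr
      linarith
    have h2 : (1 + c) ≠ 0 := by linarith
    have h3 : r = c / 2 / (1 + c) := by rw [eq_div_iff h2]; exact h1
    rw [h3, ec']
    have : (1 + y ^ 2 + 2 * y) ≠ 0 := by positivity
    field_simp
    ring
  have ed : d = (1 + y ^ 2) / (2 * (1 + y) ^ 2) := by
    rw [hd, er]
    field_simp
    ring
  have eds : d * s = (1 - y) / (2 * (1 + y)) := by
    rw [ed, es']
    field_simp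
    ring
  -- the term with the angle
  have hang : r ^ 2 * (6 * A7 y - 15707964 / 10000000) ≤ Real.pi * r ^ 2 - 3 * (r ^ 2 * β) := by
    have : 6 * A7 y - 15707964 / 10000000 ≤ Real.pi - 3 * β := by
      linarith
    have := mul_le_mul_of_nonneg_left this (sq_nonneg r)
    linarith
  constructor
  · intro hcs
    have hyu : y ≤ 4143 / 10000 := by
      by_contra h
      push Not at h
      have : c * (1 + y ^ 2) ≤ s * (1 + y ^ 2) := mul_le_mul_of_nonneg_right hcs p1.le
      rw [ec, es] at this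
      nlinarith
    have key : ∃ l : ℝ, 0 ≤ PP l y ∧ l ^ 2 * ((1 + y ^ 2) ^ 2 * (1 + y)) ≤
      (1 + y ^ 2) ^ 2 * (1 + y) - 16 * y ^ 2 * (1 - y) := by
      rcases le_total y (177 / 500) with h1 | h1
      · exact ⟨_, pp_1 hyl h1, ww_1 hyl h1⟩
      · rcases le_total y (99 / 250) with h2 | h2
        · exact ⟨_, pp_2 h1 h2, ww_2 h1 h2⟩
        · exact ⟨_, pp_3 h2 hyu, ww_3 h2 hyu⟩
    obtain ⟨l, hl1, hl2⟩ := key
    refine ⟨l / 2 - s ^ 2 * (2 * r), ?_, ?_⟩
    · rw [sub_add_cancel, es', ec', er]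
      have h3 : (l / 2) ^ 2 ≤ ((1 + y ^ 2) ^ 2 * (1 + y) - 16 * y ^ 2 * (1 - y)) /
          (4 * ((1 + y ^ 2) ^ 2 * (1 + y))) := by
        rw [le_div_iff₀ (by positivity)]
        linarith
      refine h3.trans (le_of_eq ?_)
      field_simp
      ring
    · have h4 : 1601 / 10000 ≤ r ^ 2 * (6 * A7 y - 15707964 / 10000000) + 3 * (r * (d * s)) +
          3 / 2 * (d * s) * (l / 2 - s ^ 2 * (2 * r)) := by
        rw [← sub_nonneg]
        have h5 : r ^ 2 * (6 * A7 y - 15707964 / 10000000) + 3 * (r * (d * s)) +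
          3 / 2 * (d * s) * (l / 2 - s ^ 2 * (2 * r)) - 1601 / 10000 =
          PP l y / ((1 + y) ^ 4 * (1 + y ^ 2) ^ 2) := by
          rw [eds, er, es']
          unfold PP
          generalize A7 y = A
          field_simp
          ring
        rw [h5]
        positivity
      linarith
  · intro hcs
    have hyu : 414 / 1000 ≤ y := by
      by_contra h
      push Not at h
      have : s * (1 + y ^ 2) ≤ c * (1 + y ^ 2) := mul_le_mul_of_nonneg_right hcs p1.le
      rw [ec, es] at this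
      nlinarith
    have h0 := pp_0 (by norm_num at hyu ⊢; exact hyu) hy1.le
    have h4 : 1601 / 10000 ≤ r ^ 2 * (6 * A7 y - 15707964 / 10000000) + 3 * (r * (d * s)) := by
      rw [← sub_nonneg]
      have h5 : r ^ 2 * (6 * A7 y - 15707964 / 10000000) + 3 * (r * (d * s)) - 1601 / 10000 =
        (y ^ 2 * (6 * A7 y - 15707964 / 10000000) + 3 / 2 * y * (1 - y ^ 2) -
          1601 / 10000 * (1 + y) ^ 4) / (1 + y) ^ 4 := by
        rw [eds, er]
        generalize A7 y = A
        field_simp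
        ring
      rw [h5]
      exact div_nonneg (by linarith) (by positivity)
    linarith

theorem eval_form (v : Plane) (θ : ℝ) : Lf θ v = ev θ 0 * v 0 + ev θ 1 * v 1 := by
  simp [Lf]

theorem exists_P {K : Set Plane} (hK : IsCompact K) (hne : K.Nonempty) :
    ∃ P : Plane → Plane, ∀ θ, P (ev θ) ∈ K ∧ Lf θ (P (ev θ)) = hs K θ := by
  have : ∀ v : Plane, ∃ p ∈ K, ∀ x ∈ K, v 0 * x 0 + v 1 * x 1 ≤ v 0 * p 0 + v 1 * p 1 := by
    intro v
    obtain ⟨p, hp, hmax⟩ := hK.exists_isMaxOn hne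
      (f := fun x : Plane => v 0 * x 0 + v 1 * x 1) (by fun_prop)
    exact ⟨p, hp, fun x hx => hmax hx⟩
  choose P hP1 hP2 using this
  refine ⟨P, fun θ => ⟨hP1 _, ?_⟩⟩
  apply le_antisymm (le_hs hK θ (hP1 _))
  obtain ⟨x, hx, hx2⟩ := exists_hs hK hne θ
  rw [← hx2, eval_form, eval_form]
  exact hP2 (ev θ) x hx

theorem closedBall_sub {K : Set Plane} (hK : IsCompact K) (hc : Convex ℝ K) (hne : K.Nonempty)
    {r : ℝ} (h : ∀ θ, r ≤ hs K θ) : Metric.closedBall 0 r ⊆ K := by
  intro x hx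
  rw [mem_closedBall_zero_iff] at hx
  apply mem_of_forall_Lf hK hc hne
  intro θ
  exact (Lf_le_norm θ x).trans (hx.trans (h θ))

/-- The centred case. -/
theorem lower_centred {K : Set Plane} (hK : IsCompact K) (hc : Convex ℝ K) (hne : K.Nonempty)
    (hcov : IsTranslationCover K) {r : ℝ} (hr0 : 0 ≤ r) (hge : ∀ θ, r ≤ hs K θ)
    {θ₁ θ₂ θ₃ : ℝ} (a2 : θ₂ ≤ θ₁ + Real.pi) (a3 : θ₁ + Real.pi ≤ θ₃)
    (a5 : θ₃ - θ₂ ≤ Real.pi)
    (c1 : hs K θ₁ = r) (c2 : hs K θ₂ = r) (c3 : hs K θ₃ = r) :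
    ENNReal.ofReal (1601 / 10000) ≤ volume K := by
  have hpi := Real.pi_pos
  have hball := closedBall_sub hK hc hne hge
  have h0 : (0 : Plane) ∈ K := hball (by simp [hr0])
  rcases le_or_gt (1 / 4) r with hr4 | hr4
  · -- a disc of radius 1/4
    refine le_trans ?_ (measure_mono ((Metric.closedBall_subset_closedBall hr4).trans hball))
    rw [EuclideanSpace.volume_closedBall_fin_two, ← ENNReal.ofReal_pow (by norm_num),
      ← ENNReal.ofReal_mul (by norm_num)]
    apply ENNReal.ofReal_le_ofReal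
    have := Real.pi_gt_three
    linarith
  have width : ∀ θ θ', θ' = θ + Real.pi → hs K θ = r → hs K θ' = r → False := by
    intro θ θ' h h1 h2
    subst h
    have := cover_width hcov (θ := θ) (a := hs K θ) (b := hs K (θ + Real.pi))
      (fun x hx => le_hs hK _ hx) (fun x hx => le_hs hK _ hx)
    rw [h1, h2] at this
    linarith
  have a2' : θ₂ < θ₁ + Real.pi := lt_of_le_of_ne a2 fun h => width _ _ h c1 c2
  have a3' : θ₁ + Real.pi < θ₃ := lt_of_le_of_ne a3 fun h => width _ _ h.symm c1 c3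
  have a5' : θ₃ - θ₂ < Real.pi := lt_of_le_of_ne a5 fun h =>
    width θ₂ θ₃ (by linarith) c2 c3
  have cper : ∀ θ, hs K θ = r → hs K (θ + 2 * Real.pi) = r := by
    intro θ h
    have := hs_two_pi K θ 1
    rw [← h, ← this]
    congr 1
    push_cast
    ring
  obtain ⟨d, hd⟩ : ∃ d, d = 1 / 2 - r := ⟨_, rfl⟩
  have hd0 : 0 < d := by linarith
  have hrd : r < d := by linarith
  obtain ⟨β, hβ⟩ : ∃ β, β = Real.arccos (r / d) := ⟨_, rfl⟩
  have hq0 : 0 ≤ r / d := by positivity
  have hq1 : r / d < 1 := (div_lt_one hd0).2 hrd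
  have hcos : r = d * Real.cos β := by
    rw [hβ, Real.cos_arccos (by linarith) hq1.le]
    field_simp
  have hβ0 : 0 < β := by rw [hβ]; exact Real.arccos_pos.2 hq1
  have hβ1 : β ≤ Real.pi / 2 := by rw [hβ]; exact Real.arccos_le_pi_div_two.2 hq0
  obtain ⟨φ₁, t1, l1, u1⟩ := tip_exists hK hc hne hcov hr0 hrd hd hβ1 hcos h0 c1 c2 c3 a2 a3
  obtain ⟨φ₂, t2, l2, u2⟩ := tip_exists (θ := θ₂) (α := θ₃) (α' := θ₁ + 2 * Real.pi) hK hc hne hcov
    hr0 hrd hd hβ1 hcos h0 c2 c3 (cper _ c1) (by linarith) (by linarith)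
  obtain ⟨φ₃, t3, l3, u3⟩ := tip_exists (θ := θ₃) (α := θ₁ + 2 * Real.pi) (α' := θ₂ + 2 * Real.pi)
    hK hc hne hcov hr0 hrd hd hβ1 hcos h0 c3 (cper _ c1) (cper _ c2) (by linarith) (by linarith)
  have hβ3 : β ≤ Real.pi / 3 := by linarith
  obtain ⟨P, hP⟩ := exists_P hK hne
  let C : Conf K :=
    { r := r
      d := d
      β := β
      φ := ![φ₁, φ₂, φ₃]
      P := P
      hK := hK
      hc := hc
      hβ0 := hβ0
      hβ1 := by linarith
      hd := hd0
      hrd := hcos
      hball := hball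
      htip := by
        intro k
        fin_cases k
        · exact t1
        · exact t2
        · exact t3
      hsep := by
        intro j k hjk
        have e12 : |φ₁ - φ₂| = φ₂ - φ₁ := by
          rw [abs_sub_comm]; exact abs_of_nonneg (by linarith)
        have e13 : |φ₁ - φ₃| = φ₃ - φ₁ := by
          rw [abs_sub_comm]; exact abs_of_nonneg (by linarith)
        have e23 : |φ₂ - φ₃| = φ₃ - φ₂ := by
          rw [abs_sub_comm]; exact abs_of_nonneg (by linarith)
        have e21 : |φ₂ - φ₁| = φ₂ - φ₁ := abs_of_nonneg (by linarith)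
        have e31 : |φ₃ - φ₁| = φ₃ - φ₁ := abs_of_nonneg (by linarith)
        have e32 : |φ₃ - φ₂| = φ₃ - φ₂ := abs_of_nonneg (by linarith)
        fin_cases j <;> fin_cases k
        · exact absurd rfl hjk
        · show 2 * β ≤ |φ₁ - φ₂| ∧ |φ₁ - φ₂| ≤ 2 * Real.pi - 2 * β
          rw [e12]
          constructor <;> linarith
        · show 2 * β ≤ |φ₁ - φ₃| ∧ |φ₁ - φ₃| ≤ 2 * Real.pi - 2 * β
          rw [e13]
          constructor <;> linarith
        · show 2 * β ≤ |φ₂ - φ₁| ∧ |φ₂ - φ₁| ≤ 2 * Real.pi - 2 * β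
          rw [e21]
          constructor <;> linarith
        · exact absurd rfl hjk
        · show 2 * β ≤ |φ₂ - φ₃| ∧ |φ₂ - φ₃| ≤ 2 * Real.pi - 2 * β
          rw [e23]
          constructor <;> linarith
        · show 2 * β ≤ |φ₃ - φ₁| ∧ |φ₃ - φ₁| ≤ 2 * Real.pi - 2 * β
          rw [e31]
          constructor <;> linarith
        · show 2 * β ≤ |φ₃ - φ₂| ∧ |φ₃ - φ₂| ≤ 2 * Real.pi - 2 * β
          rw [e32]
          constructor <;> linarith
        · exact absurd rfl hjk
      hP := hP }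
  have harea := C.area_lower
  rw [Fintype.sum_prod_type, Fin.sum_univ_three, Fintype.sum_bool, Fintype.sum_bool,
    Fintype.sum_bool] at harea
  have n1 : C.nu (0, true) = φ₁ + β := by
    show φ₁ + sg true * β = φ₁ + β
    simp [sg]
  have n2 : C.nu (0, false) = φ₁ - β := by
    show φ₁ + sg false * β = φ₁ - β
    simp [sg]; ring
  have n3 : C.nu (1, true) = φ₂ + β := by
    show φ₂ + sg true * β = φ₂ + β
    simp [sg]
  have n4 : C.nu (1, false) = φ₂ - β := by
    show φ₂ + sg false * β = φ₂ - β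
    simp [sg]; ring
  have n5 : C.nu (2, true) = φ₃ + β := by
    show φ₃ + sg true * β = φ₃ + β
    simp [sg]
  have n6 : C.nu (2, false) = φ₃ - β := by
    show φ₃ + sg false * β = φ₃ - β
    simp [sg]; ring
  have hCr : C.r = r := rfl
  have hCd : C.d = d := rfl
  have hCβ : C.β = β := rfl
  rw [n1, n2, n3, n4, n5, n6, hCr, hCd, hCβ] at harea
  refine le_trans (ENNReal.ofReal_le_ofReal ?_) harea
  obtain ⟨num1, num2⟩ := num_final (c := Real.cos β) (s := Real.sin β) rfl rfl hβ0 hβ3 hcos hd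
  have hs0 : 0 < Real.sin β := Real.sin_pos_of_pos_of_lt_pi hβ0 (by linarith)
  have hds : 0 < d * Real.sin β := mul_pos hd0 hs0
  have v1 := hge (φ₁ + β)
  have v2 := hge (φ₁ - β)
  have v3 := hge (φ₂ + β)
  have v4 := hge (φ₂ - β)
  have v5 := hge (φ₃ + β)
  have v6 := hge (φ₃ - β)
  rcases le_or_gt (Real.sin β) (Real.cos β) with hsc | hsc
  · have := num2 hsc
    have w : 0 ≤ d * Real.sin β * ((hs K (φ₁ + β) - r) + (hs K (φ₁ - β) - r) +
        (hs K (φ₂ + β) - r) + (hs K (φ₂ - β) - r) + (hs K (φ₃ + β) - r) +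
        (hs K (φ₃ - β) - r)) := mul_nonneg hds.le (by linarith)
    linarith
  · obtain ⟨κ, hκ1, hκ2⟩ := num1 hsc.le
    have hβ4 : Real.pi / 4 < β := by
      by_contra h
      push Not at h
      have h1 : Real.cos (Real.pi / 4) ≤ Real.cos β :=
        Real.cos_le_cos_of_nonneg_of_le_pi hβ0.le (by linarith) h
      have h2 : Real.sin β ≤ Real.sin (Real.pi / 4) :=
        Real.sin_le_sin_of_le_of_le_pi_div_two (by linarith) (by linarith) h
      rw [Real.cos_pi_div_four] at h1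
      rw [Real.sin_pi_div_four] at h2
      linarith
    have k1 := eta_sum hK hcov (θ := θ₁) (φ := φ₁) (β := β) c1 hge (by linarith) (by linarith)
      (by linarith) (by linarith) (by linarith) (by linarith) hκ1
    have k2 := eta_sum hK hcov (θ := θ₂) (φ := φ₂) (β := β) c2 hge (by linarith) (by linarith)
      (by linarith) (by linarith) (by linarith) (by linarith) hκ1
    have k3 := eta_sum hK hcov (θ := θ₃) (φ := φ₃) (β := β) c3 hge (by linarith) (by linarith)
      (by linarith) (by linarith) (by linarith) (by linarith) hκ1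
    have w : d * Real.sin β * (3 * κ) ≤ d * Real.sin β * ((hs K (φ₁ + β) - r) +
        (hs K (φ₁ - β) - r) + (hs K (φ₂ + β) - r) + (hs K (φ₂ - β) - r) +
        (hs K (φ₃ + β) - r) + (hs K (φ₃ - β) - r)) :=
      mul_le_mul_of_nonneg_left (by linarith) hds.le
    linarith

/-- The lower bound for a single cover. -/
theorem lower_cover {R : Set Plane} (hR : IsCompact R) (hc : Convex ℝ R)
    (hcov : IsTranslationCover R) : ENNReal.ofReal (1601 / 10000) ≤ volume R := by
  have hne : R.Nonempty := by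
    obtain ⟨v, hv, _⟩ := cover_tri hcov (s1 := 1 / 2) (s2 := 1 / 2) (s3 := 0) (w1 := ev 0)
      (w2 := ev (0 + Real.pi)) (w3 := ev 0) (by norm_num) (by norm_num) le_rfl (by norm_num)
      (norm_ev _) (norm_ev _) (norm_ev _) (by
        ext i
        fin_cases i
        · simp
        · simp)
    exact ⟨v, hv⟩
  obtain ⟨O, hO, r, hr0, hge, θ₁, θ₂, θ₃, _, a2, a3, _, a5, c1, c2, c3⟩ :=
    frame_angles hR hc hne
  set K : Set Plane := (fun x => x + O) ⁻¹' R with hKdef
  have hKc : IsCompact K := by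
    have : K = (fun x => x - O) '' R := by
      ext x
      simp only [hKdef, mem_preimage, mem_image]
      constructor
      · intro h
        exact ⟨x + O, h, by simp⟩
      · rintro ⟨y, hy, rfl⟩
        simpa using hy
    rw [this]
    exact hR.image (by fun_prop)
  have hKconv : Convex ℝ K := by
    have := hc.translate_preimage_left O
    exact this
  have hKne : K.Nonempty := ⟨0, by simpa [hKdef] using hO⟩
  have hKcov : IsTranslationCover K := by
    intro γ hγ
    obtain ⟨v, hv⟩ := hcov γ hγ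
    refine ⟨v - O, fun t ht => ?_⟩
    have := hv t ht
    simpa [hKdef, add_assoc] using this
  have hhs : ∀ θ, hs K θ = hs R θ - Lf θ O := by
    intro θ
    apply le_antisymm
    · obtain ⟨x, hx, hx2⟩ := exists_hs hKc hKne θ
      rw [← hx2]
      have := le_hs hR θ (x := x + O) hx
      rw [Lf_add] at this
      linarith
    · obtain ⟨x, hx, hx2⟩ := exists_hs hR hne θ
      rw [← hx2, ← Lf_sub]
      apply le_hs hKc
      simpa [hKdef] using hx
  have hvol : volume K = volume R := measure_preimage_add_right volume O R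
  rw [← hvol]
  refine lower_centred hKc hKconv hKne hKcov hr0 (fun θ => ?_) a2 a3 a5 ?_ ?_ ?_
  · rw [hhs]
    linarith [hge θ]
  · rw [hhs, c1]; ring
  · rw [hhs, c2]; ring
  · rw [hhs, c3]; ring

/-- The lower bound. -/
theorem le_muTilde : ENNReal.ofReal (1601 / 10000) ≤ muTilde := by
  unfold muTilde
  exact le_iInf fun R => lower_cover R.2.1 R.2.2.1 R.2.2.2

end Pool.Agent.H12.Worm
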