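import Pool.Agent.H12.WormDefs

/-!
# Lower bound: triangles of perimeter one in a translation cover
-/

namespace Pool.Agent.H12.Worm

open MeasureTheory Set

/-- The unit vector of angle `θ`. -/
noncomputable def ev (θ : ℝ) : Plane := !₂[Real.cos θ, Real.sin θ]

@[simp] theorem ev_zero (θ : ℝ) : ev θ 0 = Real.cos θ := by simp [ev]
@[simp] theorem ev_one (θ : ℝ) : ev θ 1 = Real.sin θ := by simp [ev]

/-- The linear form of direction `θ`. -/
noncomputable def Lf (θ : ℝ) (x : Plane) : ℝ := Real.cos θ * x 0 + Real.sin θ * x 1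

theorem norm_ev (θ : ℝ) : ‖ev θ‖ = 1 := by
  rw [EuclideanSpace.norm_eq]
  simp [Fin.sum_univ_two]

theorem Lf_add (θ : ℝ) (x y : Plane) : Lf θ (x + y) = Lf θ x + Lf θ y := by
  simp only [Lf, PiLp.add_apply]; ring

theorem Lf_sub (θ : ℝ) (x y : Plane) : Lf θ (x - y) = Lf θ x - Lf θ y := by
  simp only [Lf, PiLp.sub_apply]; ring

theorem Lf_smul (θ c : ℝ) (x : Plane) : Lf θ (c • x) = c * Lf θ x := by
  simp only [Lf, PiLp.smul_apply, smul_eq_mul]; ring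

theorem Lf_ev (θ φ : ℝ) : Lf θ (ev φ) = Real.cos (φ - θ) := by
  simp only [Lf, ev_zero, ev_one, Real.cos_sub]; ring

theorem Lf_neg (θ : ℝ) (x : Plane) : Lf (θ + Real.pi) x = -Lf θ x := by
  simp only [Lf, Real.cos_add_pi, Real.sin_add_pi]; ring

theorem Lf_le_norm (θ : ℝ) (x : Plane) : Lf θ x ≤ ‖x‖ := by
  have h1 : ‖x‖ ^ 2 = x 0 ^ 2 + x 1 ^ 2 := by
    rw [EuclideanSpace.norm_eq, Real.sq_sqrt (by positivity)]
    simp [Fin.sum_univ_two]
  apply le_of_sq_le_sq _ (norm_nonneg x)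
  rw [h1]
  unfold Lf
  nlinarith [sq_nonneg (Real.cos θ * x 1 - Real.sin θ * x 0), Real.sin_sq_add_cos_sq θ,
    sq_nonneg (x 0), sq_nonneg (x 1)]

/-- The clamp. -/
noncomputable def clp (s t : ℝ) : ℝ := max 0 (min s t)

theorem clp_mono (s : ℝ) {t t' : ℝ} (h : t ≤ t') : clp s t ≤ clp s t' := by
  unfold clp
  exact max_le_max le_rfl (min_le_min le_rfl h)

/-- A triangular path. -/
noncomputable def tpath (s1 s2 s3 : ℝ) (w1 w2 w3 : Plane) (t : ℝ) : Plane :=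
  clp s1 t • w1 + clp s2 (t - s1) • w2 + clp s3 (t - s1 - s2) • w3

theorem clp_sum {s1 s2 s3 : ℝ} (h1 : 0 ≤ s1) (h2 : 0 ≤ s2)
    {t : ℝ} (ht0 : 0 ≤ t) (ht1 : t ≤ s1 + s2 + s3) :
    clp s1 t + clp s2 (t - s1) + clp s3 (t - s1 - s2) = t := by
  unfold clp
  rcases le_total t s1 with a | a
  · rw [min_eq_right a, min_eq_right (by linarith), min_eq_right (by linarith),
      max_eq_right ht0, max_eq_left (by linarith), max_eq_left (by linarith)]
    ring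
  · rcases le_total (t - s1) s2 with b | b
    · rw [min_eq_left a, min_eq_right b, min_eq_right (by linarith),
      max_eq_right h1, max_eq_right (by linarith), max_eq_left (by linarith)]
      ring
    · rw [min_eq_left a, min_eq_left b, min_eq_right (by linarith),
      max_eq_right h1, max_eq_right h2, max_eq_right (by linarith)]
      ring

theorem tpath_lip {s1 s2 s3 : ℝ} {w1 w2 w3 : Plane} (h1 : 0 ≤ s1) (h2 : 0 ≤ s2) (h3 : 0 ≤ s3)
    (hs : s1 + s2 + s3 = 1) (n1 : ‖w1‖ = 1) (n2 : ‖w2‖ = 1) (n3 : ‖w3‖ = 1) {t t' : ℝ}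
    (h0 : 0 ≤ t) (htt : t ≤ t') (h1' : t' ≤ 1) :
    dist (tpath s1 s2 s3 w1 w2 w3 t') (tpath s1 s2 s3 w1 w2 w3 t) ≤ t' - t := by
  have e1 := clp_sum (s3 := s3) h1 h2 h0 (by linarith)
  have e2 := clp_sum (s3 := s3) h1 h2 (h0.trans htt) (by linarith)
  have m1 := clp_mono s1 htt
  have m2 := clp_mono s2 (show t - s1 ≤ t' - s1 by linarith)
  have m3 := clp_mono s3 (show t - s1 - s2 ≤ t' - s1 - s2 by linarith)
  have e3 : tpath s1 s2 s3 w1 w2 w3 t' - tpath s1 s2 s3 w1 w2 w3 t =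
      (clp s1 t' - clp s1 t) • w1 + (clp s2 (t' - s1) - clp s2 (t - s1)) • w2 +
      (clp s3 (t' - s1 - s2) - clp s3 (t - s1 - s2)) • w3 := by
    unfold tpath
    module
  rw [dist_eq_norm, e3]
  refine (norm_add_le _ _).trans ?_
  refine (add_le_add (norm_add_le _ _) le_rfl).trans ?_
  rw [norm_smul, norm_smul, norm_smul, n1, n2, n3, Real.norm_eq_abs, Real.norm_eq_abs,
    Real.norm_eq_abs, abs_of_nonneg (by linarith), abs_of_nonneg (by linarith),
    abs_of_nonneg (by linarith)]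
  linarith

theorem tpath_worm {s1 s2 s3 : ℝ} {w1 w2 w3 : Plane} (h1 : 0 ≤ s1) (h2 : 0 ≤ s2) (h3 : 0 ≤ s3)
    (hs : s1 + s2 + s3 = 1) (n1 : ‖w1‖ = 1) (n2 : ‖w2‖ = 1) (n3 : ‖w3‖ = 1)
    (hw : s1 • w1 + s2 • w2 + s3 • w3 = 0) :
    IsClosedWorm (tpath s1 s2 s3 w1 w2 w3) ∧ tpath s1 s2 s3 w1 w2 w3 0 = 0 ∧
      tpath s1 s2 s3 w1 w2 w3 s1 = s1 • w1 ∧
      tpath s1 s2 s3 w1 w2 w3 (s1 + s2) = s1 • w1 + s2 • w2 := by
  set γ := tpath s1 s2 s3 w1 w2 w3 with hγ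
  have v0 : γ 0 = 0 := by
    rw [hγ]
    unfold tpath clp
    rw [min_eq_right h1, min_eq_right (by linarith), min_eq_right (by linarith), max_eq_left le_rfl,
      max_eq_left (by linarith), max_eq_left (by linarith)]
    simp
  have v1 : γ s1 = s1 • w1 := by
    rw [hγ]
    unfold tpath clp
    rw [min_eq_right le_rfl, min_eq_right (by linarith), min_eq_right (by linarith),
      max_eq_right h1, max_eq_left (by linarith), max_eq_left (by linarith)]
    simp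
  have v2 : γ (s1 + s2) = s1 • w1 + s2 • w2 := by
    rw [hγ]
    unfold tpath clp
    rw [min_eq_left (by linarith), min_eq_right (by linarith), min_eq_right (by linarith),
      max_eq_right h1, max_eq_right (by linarith), max_eq_left (by linarith)]
    simp
  have v3 : γ 1 = 0 := by
    rw [hγ]
    unfold tpath clp
    rw [min_eq_left (by linarith), min_eq_left (by linarith), min_eq_right (by linarith),
      max_eq_right h1, max_eq_right h2, max_eq_right (by linarith),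
      show (1 : ℝ) - s1 - s2 = s3 by linarith]
    exact hw
  have lip : LipschitzOnWith 1 γ (Icc 0 1) := by
    apply LipschitzOnWith.of_dist_le_mul
    intro x hx y hy
    rw [NNReal.coe_one, one_mul]
    rcases le_total x y with h | h
    · rw [dist_comm, Real.dist_eq, abs_sub_comm, abs_of_nonneg (by linarith)]
      exact tpath_lip h1 h2 h3 hs n1 n2 n3 hx.1 h hy.2
    · rw [Real.dist_eq, abs_of_nonneg (by linarith)]
      exact tpath_lip h1 h2 h3 hs n1 n2 n3 hy.1 h hx.2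
  refine ⟨⟨lip.continuousOn, by rw [v0, v3], ?_⟩, v0, v1, v2⟩
  apply le_antisymm
  · have a1 := lip.comp_eVariationOn_le (g := id) (s := Icc 0 1) (mapsTo_id _)
    have a2 : eVariationOn (id : ℝ → ℝ) (Icc 0 1) ≤ ENNReal.ofReal (1 - 0) := by
      have := (monotone_id (α := ℝ)).monotoneOn (Icc (0 : ℝ) 1) |>.eVariationOn_eq
        (left_mem_Icc.2 zero_le_one) (right_mem_Icc.2 (zero_le_one))
      simp only [inter_self, id] at this
      exact this.le
    calc eVariationOn γ (Icc 0 1) ≤ _ := a1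
      _ ≤ (1 : NNReal) * ENNReal.ofReal (1 - 0) := by gcongr
      _ = 1 := by simp
  · have v : eVariationOn γ (Icc 0 1) = eVariationOn γ (Icc 0 s1) +
        eVariationOn γ (Icc s1 (s1 + s2)) + eVariationOn γ (Icc (s1 + s2) 1) := by
      have a1 := eVariationOn.Icc_add_Icc γ (s := Set.univ) h1 (show s1 ≤ s1 + s2 by linarith)
        (Set.mem_univ s1)
      have a2 := eVariationOn.Icc_add_Icc γ (s := Set.univ) (show 0 ≤ s1 + s2 by linarith)
        (show s1 + s2 ≤ 1 by linarith) (Set.mem_univ _)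
      simp only [Set.univ_inter] at a1 a2
      rw [← a2, ← a1]
    have e1 : edist (γ 0) (γ s1) ≤ eVariationOn γ (Icc 0 s1) :=
      eVariationOn.edist_le γ (left_mem_Icc.2 h1) (right_mem_Icc.2 h1)
    have e2 : edist (γ s1) (γ (s1 + s2)) ≤ eVariationOn γ (Icc s1 (s1 + s2)) :=
      eVariationOn.edist_le γ (left_mem_Icc.2 (by linarith)) (right_mem_Icc.2 (by linarith))
    have e3 : edist (γ (s1 + s2)) (γ 1) ≤ eVariationOn γ (Icc (s1 + s2) 1) :=
      eVariationOn.edist_le γ (left_mem_Icc.2 (by linarith)) (right_mem_Icc.2 (by linarith))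
    rw [v]
    refine le_trans ?_ (add_le_add (add_le_add e1 e2) e3)
    rw [edist_dist, edist_dist, edist_dist, ← ENNReal.ofReal_add dist_nonneg dist_nonneg,
      ← ENNReal.ofReal_add (by positivity) dist_nonneg, ← ENNReal.ofReal_one]
    apply ENNReal.ofReal_le_ofReal
    have f1 : dist (γ 0) (γ s1) = s1 := by
      rw [v0, v1, dist_comm, dist_zero_right, norm_smul, n1, Real.norm_eq_abs, abs_of_nonneg h1,
        mul_one]
    have f2 : dist (γ s1) (γ (s1 + s2)) = s2 := by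
      rw [v1, v2, dist_comm, dist_eq_norm, add_sub_cancel_left, norm_smul, n2, Real.norm_eq_abs,
        abs_of_nonneg h2, mul_one]
    have f3 : dist (γ (s1 + s2)) (γ 1) = s3 := by
      rw [v2, v3, dist_zero_right]
      have : s1 • w1 + s2 • w2 = -(s3 • w3) := by
        rw [eq_neg_iff_add_eq_zero]
        exact hw
      rw [this, norm_neg, norm_smul, n3, Real.norm_eq_abs, abs_of_nonneg h3, mul_one]
    rw [f1, f2, f3, hs]

/-- A cover contains a translate of every triangle of perimeter one. -/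
theorem cover_tri {K : Set Plane} (hK : IsTranslationCover K) {s1 s2 s3 : ℝ} {w1 w2 w3 : Plane}
    (h1 : 0 ≤ s1) (h2 : 0 ≤ s2) (h3 : 0 ≤ s3)
    (hs : s1 + s2 + s3 = 1) (n1 : ‖w1‖ = 1) (n2 : ‖w2‖ = 1) (n3 : ‖w3‖ = 1)
    (hw : s1 • w1 + s2 • w2 + s3 • w3 = 0) :
    ∃ v : Plane, v ∈ K ∧ s1 • w1 + v ∈ K ∧ s1 • w1 + s2 • w2 + v ∈ K := by
  obtain ⟨hγ, v0, v1, v2⟩ := tpath_worm h1 h2 h3 hs n1 n2 n3 hw
  obtain ⟨v, hv⟩ := hK _ hγ
  refine ⟨v, ?_, ?_, ?_⟩
  · have := hv 0 (by constructor <;> norm_num)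
    rwa [v0, zero_add] at this
  · have := hv s1 ⟨h1, by linarith⟩
    rwa [v1] at this
  · have := hv (s1 + s2) ⟨by linarith, by linarith⟩
    rwa [v2] at this

/-- The width inequality. -/
theorem cover_width {K : Set Plane} (hK : IsTranslationCover K) {θ a b : ℝ}
    (ha : ∀ x ∈ K, Lf θ x ≤ a) (hb : ∀ x ∈ K, Lf (θ + Real.pi) x ≤ b) : 1 / 2 ≤ a + b := by
  obtain ⟨v, h1, h2, _⟩ := cover_tri hK (s1 := 1 / 2) (s2 := 1 / 2) (s3 := 0) (w1 := ev θ)
    (w2 := ev (θ + Real.pi)) (w3 := ev θ) (by norm_num) (by norm_num) le_rfl (by norm_num)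
    (norm_ev _) (norm_ev _) (norm_ev _) (by
      ext i
      fin_cases i
      · simp
      · simp)
  have e1 := ha _ h2
  have e2 := hb _ h1
  rw [Lf_add, Lf_smul, Lf_ev, sub_self, Real.cos_zero] at e1
  rw [Lf_neg] at e2
  linarith

theorem angle_id (x y z : ℝ) :
    Real.sin (2 * (z - y)) * Real.cos (y + z - x) + Real.sin (2 * (x - z)) * Real.cos (z + x - y) +
      Real.sin (2 * (y - x)) * Real.cos (x + y - z) = 0 := by
  have h := fun a b : ℝ => Real.two_mul_sin_mul_cos a b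
  have h1 := h (2 * (z - y)) (y + z - x)
  have h2 := h (2 * (x - z)) (z + x - y)
  have h3 := h (2 * (y - x)) (x + y - z)
  have e1 : Real.sin (2 * (z - y) - (y + z - x)) = Real.sin (z + x - 3 * y) := by ring_nf
  have e2 : Real.sin (2 * (z - y) + (y + z - x)) = Real.sin (3 * z - x - y) := by ring_nf
  have e3 : Real.sin (2 * (x - z) - (z + x - y)) = Real.sin (x + y - 3 * z) := by ring_nf
  have e4 : Real.sin (2 * (x - z) + (z + x - y)) = Real.sin (3 * x - y - z) := by ring_nf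
  have e5 : Real.sin (2 * (y - x) - (x + y - z)) = Real.sin (y + z - 3 * x) := by ring_nf
  have e6 : Real.sin (2 * (y - x) + (x + y - z)) = Real.sin (3 * y - x - z) := by ring_nf
  have f1 : Real.sin (3 * z - x - y) = -Real.sin (x + y - 3 * z) := by
    rw [← Real.sin_neg]; ring_nf
  have f2 : Real.sin (3 * x - y - z) = -Real.sin (y + z - 3 * x) := by
    rw [← Real.sin_neg]; ring_nf
  have f3 : Real.sin (3 * y - x - z) = -Real.sin (z + x - 3 * y) := by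
    rw [← Real.sin_neg]; ring_nf
  rw [e1, e2, f1] at h1
  rw [e3, e4, f2] at h2
  rw [e5, e6, f3] at h3
  linarith

theorem tri_poly {c₁ c₂ c₃ d₁ d₂ d₃ : ℝ} (r1 : c₁ * d₃ + c₃ * d₁ = -c₂)
    (r3 : c₂ * d₃ + c₃ * d₂ = -c₁) (q1 : c₁ ^ 2 + d₁ ^ 2 = 1)
    (q3 : c₃ ^ 2 + d₃ ^ 2 = 1) (qd : d₁ * d₃ - c₁ * c₃ = d₂) :
    c₁ * (-2 * c₁ * d₁ * (c₃ * d₂ - d₃ * c₂) + -2 * c₂ * d₂ * c₁) +
        c₃ * (-2 * c₁ * d₁ * c₃) = 2 * c₁ * c₂ * c₃ := by
  have hA : c₃ * d₂ - d₃ * c₂ = -c₁ - 2 * c₂ * d₃ := by linarith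
  have hB : c₃ ^ 2 - c₁ ^ 2 = -c₂ * (c₃ * d₁ - c₁ * d₃) := by
    rw [← r1]
    linear_combination c₁ ^ 2 * q3 - c₃ ^ 2 * q1
  rw [hA, ← qd]
  have hC : c₁ * (-2 * c₁ * d₁ * (-c₁ - 2 * c₂ * d₃) + -2 * c₂ * (d₁ * d₃ - c₁ * c₃) * c₁) +
      c₃ * (-2 * c₁ * d₁ * c₃) =
      -2 * c₁ * (d₁ * (c₃ ^ 2 - c₁ ^ 2) - c₁ * c₂ * (d₁ * d₃ + c₁ * c₃)) := by ring
  rw [hC, hB]
  linear_combination (2 * c₁ * c₂ * c₃) * q1

theorem tri_sum {c₁ c₂ c₃ d₁ d₂ d₃ : ℝ} (r1 : c₁ * d₃ + c₃ * d₁ = -c₂)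
    (q1 : c₁ ^ 2 + d₁ ^ 2 = 1)
    (q3 : c₃ ^ 2 + d₃ ^ 2 = 1) (qd : d₁ * d₃ - c₁ * c₃ = d₂) :
    -2 * c₁ * d₁ - 2 * c₂ * d₂ - 2 * c₃ * d₃ = 4 * c₁ * c₂ * c₃ := by
  have : c₂ = -(c₁ * d₃ + c₃ * d₁) := by linarith
  rw [← qd, this]
  linear_combination (2 * c₁ * d₁) * q3 + (2 * c₃ * d₃) * q1

theorem ev_comb {A B C p q r : ℝ} (h1 : A * Real.cos p + B * Real.cos q + C * Real.cos r = 0)
    (h2 : A * Real.sin p + B * Real.sin q + C * Real.sin r = 0) :
    A • ev p + B • ev q + C • ev r = 0 := by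
  ext i
  fin_cases i
  · simpa using h1
  · simpa using h2

/-- The triple inequality. -/
theorem cover_triple {K : Set Plane} (hK : IsTranslationCover K) {x y z a b c : ℝ}
    (hxy : Real.pi / 2 ≤ y - x) (hyz : Real.pi / 2 ≤ z - y) (hzx : Real.pi / 2 ≤ x + 2 * Real.pi - z)
    (hxy' : y - x < Real.pi) (hyz' : z - y < Real.pi) (hzx' : x + 2 * Real.pi - z < Real.pi)
    (ha : ∀ p ∈ K, Lf x p ≤ a) (hb : ∀ p ∈ K, Lf y p ≤ b) (hc : ∀ p ∈ K, Lf z p ≤ c) :
    1 / 2 ≤ Real.sin (z - y) * a + Real.sin (x - z) * b + Real.sin (y - x) * c := by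
  have hpi := Real.pi_pos
  have s1 : 0 < Real.sin (z - y) := Real.sin_pos_of_pos_of_lt_pi (by linarith) hyz'
  have s2 : 0 < Real.sin (x - z) := by
    have : Real.sin (x - z) = Real.sin (x + 2 * Real.pi - z) := by
      rw [show x + 2 * Real.pi - z = (x - z) + 2 * Real.pi by ring, Real.sin_add_two_pi]
    rw [this]
    exact Real.sin_pos_of_pos_of_lt_pi (by linarith) hzx'
  have s3 : 0 < Real.sin (y - x) := Real.sin_pos_of_pos_of_lt_pi (by linarith) hxy'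
  have c1 : Real.cos (z - y) ≤ 0 :=
    Real.cos_nonpos_of_pi_div_two_le_of_le hyz (by linarith)
  have c2 : Real.cos (x - z) ≤ 0 := by
    have : Real.cos (x - z) = Real.cos (x + 2 * Real.pi - z) := by
      rw [show x + 2 * Real.pi - z = (x - z) + 2 * Real.pi by ring, Real.cos_add_two_pi]
    rw [this]
    exact Real.cos_nonpos_of_pi_div_two_le_of_le hzx (by linarith)
  have c3 : Real.cos (y - x) ≤ 0 :=
    Real.cos_nonpos_of_pi_div_two_le_of_le hxy (by linarith)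
  obtain ⟨c₁, hc1⟩ : ∃ t, t = Real.sin (z - y) := ⟨_, rfl⟩
  obtain ⟨c₂, hc2⟩ : ∃ t, t = Real.sin (x - z) := ⟨_, rfl⟩
  obtain ⟨c₃, hc3⟩ : ∃ t, t = Real.sin (y - x) := ⟨_, rfl⟩
  obtain ⟨d₁, hd1⟩ : ∃ t, t = Real.cos (z - y) := ⟨_, rfl⟩
  obtain ⟨d₂, hd2⟩ : ∃ t, t = Real.cos (x - z) := ⟨_, rfl⟩
  obtain ⟨d₃, hd3⟩ : ∃ t, t = Real.cos (y - x) := ⟨_, rfl⟩
  -- relations
  have r1 : c₁ * d₃ + c₃ * d₁ = -c₂ := by
    rw [hc1, hd3, hc3, hd1, hc2, mul_comm (Real.sin (y - x)), ← Real.sin_add, ← Real.sin_neg]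
    ring_nf
  have r3 : c₂ * d₃ + c₃ * d₂ = -c₁ := by
    rw [hc2, hd3, hc3, hd2, hc1, mul_comm (Real.sin (y - x)), ← Real.sin_add, ← Real.sin_neg]
    ring_nf
  have q1 : c₁ ^ 2 + d₁ ^ 2 = 1 := by rw [hc1, hd1]; exact Real.sin_sq_add_cos_sq _
  have q3 : c₃ ^ 2 + d₃ ^ 2 = 1 := by rw [hc3, hd3]; exact Real.sin_sq_add_cos_sq _
  have qd : d₁ * d₃ - c₁ * c₃ = d₂ := by
    rw [hd1, hd3, hc1, hc3, hd2, ← Real.cos_add, ← Real.cos_neg]
    ring_nf
  have hSum := tri_sum r1 q1 q3 qd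
  have hval := tri_poly r1 r3 q1 q3 qd
  have u1 : -2 * c₁ * d₁ = -Real.sin (2 * (z - y)) := by rw [Real.sin_two_mul, hc1, hd1]; ring
  have u2 : -2 * c₂ * d₂ = -Real.sin (2 * (x - z)) := by rw [Real.sin_two_mul, hc2, hd2]; ring
  have u3 : -2 * c₃ * d₃ = -Real.sin (2 * (y - x)) := by rw [Real.sin_two_mul, hc3, hd3]; ring
  have l0 : ∀ v : Plane, c₁ * Lf x v + c₂ * Lf y v + c₃ * Lf z v = 0 := by
    intro v
    rw [hc1, hc2, hc3]
    simp only [Lf, Real.sin_sub]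
    ring
  have l1 : Real.cos (z + x - y - Real.pi / 2 - x) = c₁ := by
    rw [show z + x - y - Real.pi / 2 - x = (z - y) - Real.pi / 2 by ring,
      Real.cos_sub_pi_div_two, hc1]
  have l2 : Real.cos (y + z - x - Real.pi / 2 - z) = c₃ := by
    rw [show y + z - x - Real.pi / 2 - z = (y - x) - Real.pi / 2 by ring,
      Real.cos_sub_pi_div_two, hc3]
  have l3 : Real.cos (y + z - x - Real.pi / 2 - x) = c₃ * d₂ - d₃ * c₂ := by
    rw [show y + z - x - Real.pi / 2 - x = ((y - x) - (x - z)) - Real.pi / 2 by ring,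
      Real.cos_sub_pi_div_two, Real.sin_sub, hc3, hd2, hd3, hc2]
  rw [← hc1] at s1 ⊢
  rw [← hc2] at s2 ⊢
  rw [← hc3] at s3 ⊢
  rw [← hd1] at c1
  rw [← hd2] at c2
  rw [← hd3] at c3
  obtain ⟨S, hS⟩ : ∃ t, t = 4 * c₁ * c₂ * c₃ := ⟨_, rfl⟩
  have hSpos : 0 < S := by rw [hS]; positivity
  rw [← hS] at hSum
  have t1 : 0 ≤ -2 * c₁ * d₁ / S := div_nonneg (by nlinarith) hSpos.le
  have t2 : 0 ≤ -2 * c₂ * d₂ / S := div_nonneg (by nlinarith) hSpos.le
  have t3 : 0 ≤ -2 * c₃ * d₃ / S := div_nonneg (by nlinarith) hSpos.le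
  have idc := angle_id x y z
  have ids : Real.sin (2 * (z - y)) * Real.sin (y + z - x) +
      Real.sin (2 * (x - z)) * Real.sin (z + x - y) +
      Real.sin (2 * (y - x)) * Real.sin (x + y - z) = 0 := by
    have := angle_id (x - Real.pi / 2) (y - Real.pi / 2) (z - Real.pi / 2)
    rw [show z - Real.pi / 2 - (y - Real.pi / 2) = z - y by ring,
      show x - Real.pi / 2 - (z - Real.pi / 2) = x - z by ring,
      show y - Real.pi / 2 - (x - Real.pi / 2) = y - x by ring,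
      show y - Real.pi / 2 + (z - Real.pi / 2) - (x - Real.pi / 2) = (y + z - x) - Real.pi / 2 by ring,
      show z - Real.pi / 2 + (x - Real.pi / 2) - (y - Real.pi / 2) = (z + x - y) - Real.pi / 2 by ring,
      show x - Real.pi / 2 + (y - Real.pi / 2) - (z - Real.pi / 2) = (x + y - z) - Real.pi / 2 by ring,
      Real.cos_sub_pi_div_two, Real.cos_sub_pi_div_two, Real.cos_sub_pi_div_two] at this
    exact this
  have g1 : -2 * c₁ * d₁ / S + -2 * c₂ * d₂ / S + -2 * c₃ * d₃ / S = 1 := by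
    rw [← add_div, ← add_div, div_eq_one_iff_eq hSpos.ne', ← hSum]
    ring
  have g2 : (-2 * c₁ * d₁ / S) • ev (y + z - x - Real.pi / 2) +
      (-2 * c₂ * d₂ / S) • ev (z + x - y - Real.pi / 2) +
      (-2 * c₃ * d₃ / S) • ev (x + y - z - Real.pi / 2) = 0 := by
    rw [u1, u2, u3]
    apply ev_comb
    · rw [Real.cos_sub_pi_div_two, Real.cos_sub_pi_div_two, Real.cos_sub_pi_div_two]
      rw [div_mul_eq_mul_div, div_mul_eq_mul_div, div_mul_eq_mul_div, ← add_div, ← add_div,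
        div_eq_zero_iff]
      left
      linarith
    · rw [Real.sin_sub_pi_div_two, Real.sin_sub_pi_div_two, Real.sin_sub_pi_div_two]
      rw [div_mul_eq_mul_div, div_mul_eq_mul_div, div_mul_eq_mul_div, ← add_div, ← add_div,
        div_eq_zero_iff]
      left
      linarith
  obtain ⟨v, h1, h2, h3⟩ := cover_tri hK t1 t2 t3 g1 (norm_ev _) (norm_ev _) (norm_ev _) g2
  have e1 := ha _ h3
  have e2 := hb _ h1
  have e3 := hc _ h2
  simp only [Lf_add, Lf_smul, Lf_ev] at e1 e3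
  rw [l1, l3] at e1
  rw [l2] at e3
  have key : c₁ * (-2 * c₁ * d₁ / S * (c₃ * d₂ - d₃ * c₂) +
      -2 * c₂ * d₂ / S * c₁ + Lf x v) + c₂ * Lf y v +
      c₃ * (-2 * c₁ * d₁ / S * c₃ + Lf z v) = 1 / 2 := by
    have g : c₁ * (-2 * c₁ * d₁ / S * (c₃ * d₂ - d₃ * c₂) + -2 * c₂ * d₂ / S * c₁ + Lf x v) +
        c₂ * Lf y v + c₃ * (-2 * c₁ * d₁ / S * c₃ + Lf z v) =
        (c₁ * (-2 * c₁ * d₁ * (c₃ * d₂ - d₃ * c₂) + -2 * c₂ * d₂ * c₁) +
        c₃ * (-2 * c₁ * d₁ * c₃)) / S + (c₁ * Lf x v + c₂ * Lf y v + c₃ * Lf z v) := by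
      ring
    rw [g, l0, add_zero, hval, div_eq_iff hSpos.ne', hS]
    ring
  have m1 := mul_le_mul_of_nonneg_left e1 s1.le
  have m2 := mul_le_mul_of_nonneg_left e2 s2.le
  have m3 := mul_le_mul_of_nonneg_left e3 s3.le
  linarith

end Pool.Agent.H12.Worm
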