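import Pool.Agent.H12.WormDefs

namespace Pool.Agent.H12.Worm

open MeasureTheory Set

theorem cs_half {w0 w1 : ℝ} (hw : w0 ^ 2 + w1 ^ 2 = 1 / 4) (x y : Plane) :
    w0 * (x 0 - y 0) + w1 * (x 1 - y 1) ≤ dist x y / 2 := by
  have h1 : dist x y = Real.sqrt ((x 0 - y 0) ^ 2 + (x 1 - y 1) ^ 2) := by
    rw [EuclideanSpace.dist_eq]
    simp [Fin.sum_univ_two, Real.dist_eq, sq_abs]
  have h2 : 0 ≤ dist x y := dist_nonneg
  have h3 : dist x y ^ 2 = (x 0 - y 0) ^ 2 + (x 1 - y 1) ^ 2 := by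
    rw [h1, Real.sq_sqrt (by positivity)]
  apply le_of_sq_le_sq _ (by positivity)
  have h4 : (w0 * (x 0 - y 0) + w1 * (x 1 - y 1)) ^ 2 ≤
      (w0 ^ 2 + w1 ^ 2) * ((x 0 - y 0) ^ 2 + (x 1 - y 1) ^ 2) := by
    nlinarith [sq_nonneg (w0 * (x 1 - y 1) - w1 * (x 0 - y 0))]
  rw [hw, ← h3] at h4
  calc _ ≤ 1 / 4 * dist x y ^ 2 := h4
    _ = (dist x y / 2) ^ 2 := by ring

/-- The basic inequality for three unit vectors and three points. -/
theorem triple_le {a1 b1 a2 b2 a3 b3 : ℝ} (h1 : a1 ^ 2 + b1 ^ 2 = 1) (h2 : a2 ^ 2 + b2 ^ 2 = 1)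
    (h3 : a3 ^ 2 + b3 ^ 2 = 1) (x y z : Plane) :
    (a2 * b3 - b2 * a3) * (a1 * x 0 + b1 * x 1) + (a3 * b1 - b3 * a1) * (a2 * y 0 + b2 * y 1)
      + (a1 * b2 - b1 * a2) * (a3 * z 0 + b3 * z 1) ≤
      (dist x y + dist y z + dist z x) / 2 := by
  have e1 := cs_half (w0 := -((a1 * b2 + b1 * a2) * a3 - (a1 * a2 - b1 * b2) * b3) / 2)
    (w1 := ((a1 * a2 - b1 * b2) * a3 + (a1 * b2 + b1 * a2) * b3) / 2) (by
      have : (-((a1 * b2 + b1 * a2) * a3 - (a1 * a2 - b1 * b2) * b3) / 2) ^ 2 +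
        (((a1 * a2 - b1 * b2) * a3 + (a1 * b2 + b1 * a2) * b3) / 2) ^ 2 =
        (a1 ^ 2 + b1 ^ 2) * (a2 ^ 2 + b2 ^ 2) * (a3 ^ 2 + b3 ^ 2) / 4 := by ring
      rw [this, h1, h2, h3]; norm_num) x y
  have e2 := cs_half (w0 := -((a2 * b3 + b2 * a3) * a1 - (a2 * a3 - b2 * b3) * b1) / 2)
    (w1 := ((a2 * a3 - b2 * b3) * a1 + (a2 * b3 + b2 * a3) * b1) / 2) (by
      have : (-((a2 * b3 + b2 * a3) * a1 - (a2 * a3 - b2 * b3) * b1) / 2) ^ 2 +
        (((a2 * a3 - b2 * b3) * a1 + (a2 * b3 + b2 * a3) * b1) / 2) ^ 2 =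
        (a1 ^ 2 + b1 ^ 2) * (a2 ^ 2 + b2 ^ 2) * (a3 ^ 2 + b3 ^ 2) / 4 := by ring
      rw [this, h1, h2, h3]; norm_num) y z
  have e3 := cs_half (w0 := -((a3 * b1 + b3 * a1) * a2 - (a3 * a1 - b3 * b1) * b2) / 2)
    (w1 := ((a3 * a1 - b3 * b1) * a2 + (a3 * b1 + b3 * a1) * b2) / 2) (by
      have : (-((a3 * b1 + b3 * a1) * a2 - (a3 * a1 - b3 * b1) * b2) / 2) ^ 2 +
        (((a3 * a1 - b3 * b1) * a2 + (a3 * b1 + b3 * a1) * b2) / 2) ^ 2 =
        (a1 ^ 2 + b1 ^ 2) * (a2 ^ 2 + b2 ^ 2) * (a3 ^ 2 + b3 ^ 2) / 4 := by ring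
      rw [this, h1, h2, h3]; norm_num) z x
  have hsum := add_le_add (add_le_add e1 e2) e3
  refine le_trans (le_of_eq ?_) (hsum.trans (le_of_eq (by ring)))
  ring

theorem dist_sum_le {γ : ℝ → Plane} (hγ : IsClosedWorm γ) {s t u : ℝ} (h0 : 0 ≤ s) (hst : s ≤ t)
    (htu : t ≤ u) (hu : u ≤ 1) :
    dist (γ s) (γ t) + dist (γ t) (γ u) + dist (γ u) (γ s) ≤ 1 := by
  obtain ⟨_, hcl, hvar⟩ := hγ
  have v1 : eVariationOn γ (Icc 0 1) = eVariationOn γ (Icc 0 s) + eVariationOn γ (Icc s t) +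
      eVariationOn γ (Icc t u) + eVariationOn γ (Icc u 1) := by
    have a1 := eVariationOn.Icc_add_Icc γ (s := Set.univ) h0 hst (Set.mem_univ s)
    have a2 := eVariationOn.Icc_add_Icc γ (s := Set.univ) (h0.trans hst) htu (Set.mem_univ t)
    have a3 := eVariationOn.Icc_add_Icc γ (s := Set.univ) ((h0.trans hst).trans htu) hu
      (Set.mem_univ u)
    simp only [Set.univ_inter] at a1 a2 a3
    rw [← a3, ← a2, ← a1]
  have d1 : edist (γ 0) (γ s) ≤ eVariationOn γ (Icc 0 s) :=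
    eVariationOn.edist_le γ (left_mem_Icc.2 h0) (right_mem_Icc.2 h0)
  have d2 : edist (γ s) (γ t) ≤ eVariationOn γ (Icc s t) :=
    eVariationOn.edist_le γ (left_mem_Icc.2 hst) (right_mem_Icc.2 hst)
  have d3 : edist (γ t) (γ u) ≤ eVariationOn γ (Icc t u) :=
    eVariationOn.edist_le γ (left_mem_Icc.2 htu) (right_mem_Icc.2 htu)
  have d4 : edist (γ u) (γ 1) ≤ eVariationOn γ (Icc u 1) :=
    eVariationOn.edist_le γ (left_mem_Icc.2 hu) (right_mem_Icc.2 hu)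
  have hsum : edist (γ 0) (γ s) + edist (γ s) (γ t) + edist (γ t) (γ u) + edist (γ u) (γ 1) ≤ 1 := by
    rw [← hvar, v1]
    gcongr
  rw [edist_dist, edist_dist, edist_dist, edist_dist, ← ENNReal.ofReal_add dist_nonneg dist_nonneg,
    ← ENNReal.ofReal_add (by positivity) dist_nonneg,
    ← ENNReal.ofReal_add (by positivity) dist_nonneg, ← ENNReal.ofReal_one,
    ENNReal.ofReal_le_ofReal_iff (by norm_num)] at hsum
  have h5 : dist (γ u) (γ s) ≤ dist (γ u) (γ 1) + dist (γ 0) (γ s) := by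
    rw [hcl]
    exact dist_triangle _ _ _
  linarith

theorem dist_sum_le' {γ : ℝ → Plane} (hγ : IsClosedWorm γ) {s t u : ℝ} (hs : s ∈ Icc (0 : ℝ) 1)
    (ht : t ∈ Icc (0 : ℝ) 1) (hu : u ∈ Icc (0 : ℝ) 1) :
    dist (γ s) (γ t) + dist (γ t) (γ u) + dist (γ u) (γ s) ≤ 1 := by
  have c1 := dist_comm (γ s) (γ t)
  have c2 := dist_comm (γ t) (γ u)
  have c3 := dist_comm (γ u) (γ s)
  rcases le_total s t with h1 | h1 <;> rcases le_total t u with h2 | h2 <;>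
    rcases le_total s u with h3 | h3
  · exact dist_sum_le hγ hs.1 h1 h2 hu.2
  · exact dist_sum_le hγ hs.1 h1 h2 hu.2
  · have := dist_sum_le hγ hs.1 h3 h2 ht.2
    linarith
  · have := dist_sum_le hγ hu.1 h3 h1 ht.2
    linarith
  · have := dist_sum_le hγ ht.1 h1 h3 hu.2
    linarith
  · have := dist_sum_le hγ ht.1 h2 h3 hs.2
    linarith
  · have := dist_sum_le hγ hu.1 h2 h1 hs.2
    linarith
  · have := dist_sum_le hγ hu.1 h2 h1 hs.2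
    linarith

/-- An edge: `(a, b, D, C)` stands for the half plane `a x + b y ≤ D C / S`. -/
abbrev Edge := ℤ × ℤ × ℤ × ℤ

/-- The common denominator. -/
def SS : ℤ := 100000000

/-- The linear form of an edge. -/
def lin (e : Edge) (v : Plane) : ℝ := (e.1 : ℝ) * v 0 + (e.2.1 : ℝ) * v 1

/-- The bound of an edge. -/
noncomputable def bd (e : Edge) : ℝ := (e.2.2.1 : ℝ) * (e.2.2.2 : ℝ) / (SS : ℝ)

/-- The polygon given by a list of edges. -/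
def poly (L : List Edge) : Set Plane := {v | ∀ e ∈ L, lin e v ≤ bd e}

theorem lin_add (e : Edge) (v w : Plane) : lin e (v + w) = lin e v + lin e w := by
  simp [lin]
  ring

theorem lin_smul (e : Edge) (c : ℝ) (v : Plane) : lin e (c • v) = c * lin e v := by
  simp [lin]
  ring

theorem continuous_lin (e : Edge) : Continuous (lin e) := by
  unfold lin
  fun_prop

theorem poly_convex (L : List Edge) : Convex ℝ (poly L) := by
  intro x hx y hy a b ha hb hab e he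
  have h1 := hx e he
  have h2 := hy e he
  rw [lin_add, lin_smul, lin_smul]
  have h3 := mul_le_mul_of_nonneg_left h1 ha
  have h4 := mul_le_mul_of_nonneg_left h2 hb
  have h5 : a * bd e + b * bd e = bd e := by rw [← add_mul, hab, one_mul]
  linarith

theorem poly_closed (L : List Edge) : IsClosed (poly L) := by
  have : poly L = ⋂ e ∈ {e | e ∈ L}, {v | lin e v ≤ bd e} := by
    ext v
    simp [poly]
  rw [this]
  exact isClosed_biInter fun e _ => isClosed_le (continuous_lin e) continuous_const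

/-- The set of admissible translations for one edge. -/
def adm (γ : ℝ → Plane) (e : Edge) : Set Plane := {v | ∀ t ∈ Icc (0 : ℝ) 1, lin e (γ t + v) ≤ bd e}

theorem adm_convex (γ : ℝ → Plane) (e : Edge) : Convex ℝ (adm γ e) := by
  intro x hx y hy a b ha hb hab t ht
  have h1 := hx t ht
  have h2 := hy t ht
  rw [lin_add] at h1 h2
  rw [lin_add, lin_add, lin_smul, lin_smul]
  have h3 := mul_le_mul_of_nonneg_left h1 ha
  have h4 := mul_le_mul_of_nonneg_left h2 hb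
  have h5 : a * bd e + b * bd e = bd e := by rw [← add_mul, hab, one_mul]
  have h6 : a * lin e (γ t) + b * lin e (γ t) = lin e (γ t) := by rw [← add_mul, hab, one_mul]
  linarith

/-- Three edges, one from each group. -/
theorem adm_three {γ : ℝ → Plane} (hγ : IsClosedWorm γ) (e1 e2 e3 : Edge)
    (hp1 : e1.1 ^ 2 + e1.2.1 ^ 2 = e1.2.2.1 ^ 2) (hp2 : e2.1 ^ 2 + e2.2.1 ^ 2 = e2.2.2.1 ^ 2)
    (hp3 : e3.1 ^ 2 + e3.2.1 ^ 2 = e3.2.2.1 ^ 2)
    (hD1 : 0 < e1.2.2.1) (hD2 : 0 < e2.2.2.1) (hD3 : 0 < e3.2.2.1)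
    (h23 : 0 < e2.1 * e3.2.1 - e2.2.1 * e3.1) (h31 : 0 < e3.1 * e1.2.1 - e3.2.1 * e1.1)
    (h12 : 0 < e1.1 * e2.2.1 - e1.2.1 * e2.1)
    (hchk : SS * e1.2.2.1 * e2.2.2.1 * e3.2.2.1 ≤
      2 * ((e2.1 * e3.2.1 - e2.2.1 * e3.1) * (e1.2.2.1 * e1.2.2.2) +
        (e3.1 * e1.2.1 - e3.2.1 * e1.1) * (e2.2.2.1 * e2.2.2.2) +
        (e1.1 * e2.2.1 - e1.2.1 * e2.1) * (e3.2.2.1 * e3.2.2.2))) :
    ∃ v : Plane, v ∈ adm γ e1 ∧ v ∈ adm γ e2 ∧ v ∈ adm γ e3 := by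
  obtain ⟨a1, b1, D1, C1⟩ := e1
  obtain ⟨a2, b2, D2, C2⟩ := e2
  obtain ⟨a3, b3, D3, C3⟩ := e3
  simp only at hp1 hp2 hp3 hD1 hD2 hD3 h23 h31 h12 hchk
  have hcont := hγ.1
  have hmax : ∀ e : Edge, ∃ t ∈ Icc (0 : ℝ) 1, ∀ s ∈ Icc (0 : ℝ) 1, lin e (γ s) ≤ lin e (γ t) := by
    intro e
    obtain ⟨t, ht, h⟩ := isCompact_Icc.exists_isMaxOn (nonempty_Icc.2 zero_le_one)
      ((continuous_lin e).comp_continuousOn hcont)
    exact ⟨t, ht, fun s hs => h hs⟩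
  obtain ⟨t1, ht1, hm1⟩ := hmax (a1, b1, D1, C1)
  obtain ⟨t2, ht2, hm2⟩ := hmax (a2, b2, D2, C2)
  obtain ⟨t3, ht3, hm3⟩ := hmax (a3, b3, D3, C3)
  have r1 : ((a1 : ℝ) / D1) ^ 2 + ((b1 : ℝ) / D1) ^ 2 = 1 := by
    have h : (a1 : ℝ) ^ 2 + (b1 : ℝ) ^ 2 = (D1 : ℝ) ^ 2 := by exact_mod_cast hp1
    have h' : (D1 : ℝ) ≠ 0 := by exact_mod_cast hD1.ne'
    field_simp
    exact h
  have r2 : ((a2 : ℝ) / D2) ^ 2 + ((b2 : ℝ) / D2) ^ 2 = 1 := by
    have h : (a2 : ℝ) ^ 2 + (b2 : ℝ) ^ 2 = (D2 : ℝ) ^ 2 := by exact_mod_cast hp2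
    have h' : (D2 : ℝ) ≠ 0 := by exact_mod_cast hD2.ne'
    field_simp
    exact h
  have r3 : ((a3 : ℝ) / D3) ^ 2 + ((b3 : ℝ) / D3) ^ 2 = 1 := by
    have h : (a3 : ℝ) ^ 2 + (b3 : ℝ) ^ 2 = (D3 : ℝ) ^ 2 := by exact_mod_cast hp3
    have h' : (D3 : ℝ) ≠ 0 := by exact_mod_cast hD3.ne'
    field_simp
    exact h
  have key := triple_le r1 r2 r3 (γ t1) (γ t2) (γ t3)
  have hlen := dist_sum_le' hγ ht1 ht2 ht3
  have p1 : (0 : ℝ) < D1 := by exact_mod_cast hD1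
  have p2 : (0 : ℝ) < D2 := by exact_mod_cast hD2
  have p3 : (0 : ℝ) < D3 := by exact_mod_cast hD3
  set m1 := lin (a1, b1, D1, C1) (γ t1) with hm1d
  set m2 := lin (a2, b2, D2, C2) (γ t2) with hm2d
  set m3 := lin (a3, b3, D3, C3) (γ t3) with hm3d
  set d23 : ℝ := (a2 : ℝ) * b3 - b2 * a3 with hd23
  set d31 : ℝ := (a3 : ℝ) * b1 - b3 * a1 with hd31
  set d12 : ℝ := (a1 : ℝ) * b2 - b1 * a2 with hd12
  have key2 : d23 * m1 + d31 * m2 + d12 * m3 ≤ D1 * D2 * D3 / 2 := by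
    have e1 : ((a2 : ℝ) / D2 * (b3 / D3) - b2 / D2 * (a3 / D3)) *
        (a1 / D1 * (γ t1) 0 + b1 / D1 * (γ t1) 1) +
        ((a3 : ℝ) / D3 * (b1 / D1) - b3 / D3 * (a1 / D1)) *
        (a2 / D2 * (γ t2) 0 + b2 / D2 * (γ t2) 1) +
        ((a1 : ℝ) / D1 * (b2 / D2) - b1 / D1 * (a2 / D2)) *
        (a3 / D3 * (γ t3) 0 + b3 / D3 * (γ t3) 1) =
        (d23 * m1 + d31 * m2 + d12 * m3) / (D1 * D2 * D3) := by
      rw [hm1d, hm2d, hm3d, hd23, hd31, hd12]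
      unfold lin
      simp only
      field_simp
    rw [e1] at key
    have h5 : (d23 * m1 + d31 * m2 + d12 * m3) / (D1 * D2 * D3) ≤ 1 / 2 := by linarith
    rw [div_le_iff₀ (by positivity)] at h5
    linarith
  have key3 : (D1 * D2 * D3 / 2 : ℝ) ≤ d23 * bd (a1, b1, D1, C1) + d31 * bd (a2, b2, D2, C2) +
      d12 * bd (a3, b3, D3, C3) := by
    have h : (SS : ℝ) * D1 * D2 * D3 ≤ 2 * (d23 * (D1 * C1) + d31 * (D2 * C2) + d12 * (D3 * C3)) := by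
      rw [hd23, hd31, hd12]
      exact_mod_cast hchk
    have hS : (0 : ℝ) < SS := by norm_num [SS]
    unfold bd
    simp only
    rw [show d23 * ((D1 : ℝ) * C1 / SS) + d31 * ((D2 : ℝ) * C2 / SS) + d12 * ((D3 : ℝ) * C3 / SS) =
      (d23 * (D1 * C1) + d31 * (D2 * C2) + d12 * (D3 * C3)) / SS by ring]
    rw [le_div_iff₀ hS]
    linarith
  have q12 : 0 < d12 := by rw [hd12]; exact_mod_cast h12
  set β1 := bd (a1, b1, D1, C1) - m1 with hβ1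
  set β2 := bd (a2, b2, D2, C2) - m2 with hβ2
  set β3 := bd (a3, b3, D3, C3) - m3 with hβ3
  have key4 : 0 ≤ d23 * β1 + d31 * β2 + d12 * β3 := by
    rw [hβ1, hβ2, hβ3]
    linarith
  let v : Plane := !₂[(β1 * b2 - β2 * b1) / d12, (a1 * β2 - a2 * β1) / d12]
  have hv0 : v 0 = (β1 * b2 - β2 * b1) / d12 := rfl
  have hv1 : v 1 = (a1 * β2 - a2 * β1) / d12 := rfl
  have hlin1 : lin (a1, b1, D1, C1) v = β1 := by
    unfold lin
    rw [hv0, hv1]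
    simp only
    field_simp
    rw [hd12]
    ring
  have hlin2 : lin (a2, b2, D2, C2) v = β2 := by
    unfold lin
    rw [hv0, hv1]
    simp only
    field_simp
    rw [hd12]
    ring
  have hlin3 : lin (a3, b3, D3, C3) v ≤ β3 := by
    have : lin (a3, b3, D3, C3) v = -(d23 * β1 + d31 * β2) / d12 := by
      unfold lin
      rw [hv0, hv1]
      simp only
      field_simp
      rw [hd23, hd31]
      ring
    rw [this, div_le_iff₀ q12]
    linarith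
  refine ⟨v, ?_, ?_, ?_⟩
  · intro t ht
    rw [lin_add, hlin1]
    have := hm1 t ht
    rw [hβ1]
    linarith
  · intro t ht
    rw [lin_add, hlin2]
    have := hm2 t ht
    rw [hβ2]
    linarith
  · intro t ht
    rw [lin_add]
    have := hm3 t ht
    linarith

/-- Edges in an open half plane of directions. -/
theorem adm_half {γ : ℝ → Plane} (hγ : IsClosedWorm γ) (w0 w1 : ℤ) :
    ∃ v : Plane, ∀ e : Edge, |e.1| ≤ 6000 → |e.2.1| ≤ 6000 → 0 ≤ e.2.2.1 * e.2.2.2 →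
      e.1 * w0 + e.2.1 * w1 ≤ -1 → v ∈ adm γ e := by
  obtain ⟨B, hB⟩ := (isCompact_Icc.image_of_continuousOn hγ.1).isBounded.exists_norm_le
  have hB' : ∀ t ∈ Icc (0 : ℝ) 1, ‖γ t‖ ≤ B := fun t ht => hB _ (mem_image_of_mem _ ht)
  have hB0 : 0 ≤ B := (norm_nonneg _).trans (hB' 0 (by simp))
  let M : ℝ := 12000 * B
  refine ⟨M • (!₂[(w0 : ℝ), (w1 : ℝ)] : Plane), ?_⟩
  intro e ha hb hc hw t ht
  rw [lin_add, lin_smul]
  have h1 : lin e (!₂[(w0 : ℝ), (w1 : ℝ)] : Plane) ≤ -1 := by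
    have : ((e.1 * w0 + e.2.1 * w1 : ℤ) : ℝ) ≤ ((-1 : ℤ) : ℝ) := Int.cast_le.2 hw
    push_cast at this
    exact this
  have hM : 0 ≤ M := by positivity
  have h2 := mul_le_mul_of_nonneg_left h1 hM
  have hx0 : |(γ t) 0| ≤ B := by
    rw [← Real.norm_eq_abs]
    exact (PiLp.norm_apply_le (γ t) 0).trans (hB' t ht)
  have hx1 : |(γ t) 1| ≤ B := by
    rw [← Real.norm_eq_abs]
    exact (PiLp.norm_apply_le (γ t) 1).trans (hB' t ht)
  have h3 : lin e (γ t) ≤ 12000 * B := by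
    unfold lin
    have ha' : |(e.1 : ℝ)| ≤ 6000 := by exact_mod_cast ha
    have hb' : |(e.2.1 : ℝ)| ≤ 6000 := by exact_mod_cast hb
    have g1 : (e.1 : ℝ) * (γ t) 0 ≤ 6000 * B := by
      calc (e.1 : ℝ) * (γ t) 0 ≤ |(e.1 : ℝ) * (γ t) 0| := le_abs_self _
        _ = |(e.1 : ℝ)| * |(γ t) 0| := abs_mul _ _
        _ ≤ 6000 * B := by gcongr
    have g2 : (e.2.1 : ℝ) * (γ t) 1 ≤ 6000 * B := by
      calc (e.2.1 : ℝ) * (γ t) 1 ≤ |(e.2.1 : ℝ) * (γ t) 1| := le_abs_self _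
        _ = |(e.2.1 : ℝ)| * |(γ t) 1| := abs_mul _ _
        _ ≤ 6000 * B := by gcongr
    linarith
  have h4 : 0 ≤ bd e := by
    unfold bd
    have : (0 : ℝ) ≤ (e.2.2.1 : ℝ) * e.2.2.2 := by exact_mod_cast hc
    apply div_nonneg this
    norm_num [SS]
  have : M = 12000 * B := rfl
  linarith

end Pool.Agent.H12.Worm
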